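import Pool.Agent.U549.FW.Main

/-!
# Consequences
-/

set_option autoImplicit false

namespace Pool.Agent.U549.FW

open NumberField IsDedekindDomain Polynomial Pool.Agent.Y546.WQ Pool.Agent.N840.FC
  Pool.Agent.U549.LF

section

variable {K : Type} [Field K] [NumberField K]

theorem ld_pos {l : ℕ} [Fact l.Prime] (v : HeightOneSpectrum (𝓞 K))
    (hv : ((l : ℕ) : 𝓞 K) ∈ v.asIdeal) : 0 < ld l v := by
  have hll : l.Prime := Fact.out
  obtain ⟨e, hne, hqe, hqe1⟩ := exists_ram v.asIdeal v.isPrime hv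
  have hmapmem : ∀ j : ℕ, Ideal.map (algebraMap ℤ (𝓞 K)) (Ideal.span {(l : ℤ)}) ≤ v.asIdeal ^ j ↔
      ((l : ℕ) : 𝓞 K) ∈ v.asIdeal ^ j := by
    intro j
    rw [Ideal.map_span, Set.image_singleton, Ideal.span_singleton_le_iff_mem]
    simp
  have he : Ideal.ramificationIdx' (Ideal.span {(l : ℤ)}) v.asIdeal = e :=
    Ideal.ramificationIdx'_spec ((hmapmem _).2 hqe) (fun h => hqe1 ((hmapmem _).1 h))
  have he0 : e ≠ 0 := by
    rintro rfl
    rw [zero_add, pow_one] at hqe1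
    exact hqe1 hv
  have hr0 : rd l v ≠ 0 := by
    intro h0
    have h1 := absNorm_rd v hv
    rw [h0, pow_zero, Ideal.absNorm_eq_one_iff] at h1
    exact v.isPrime.ne_top h1
  unfold ld
  rw [he]
  exact Nat.mul_pos (Nat.pos_of_ne_zero he0) (Nat.pos_of_ne_zero hr0)

theorem deg_pos {l : ℕ} (hl : l.Prime) (P : HeightOneSpectrum (𝓞 K) → Prop)
    (v : HeightOneSpectrum (𝓞 K)) (hv : ((l : ℕ) : 𝓞 K) ∈ v.asIdeal) (hP : P v) :
    0 < deg l P := by
  classical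
  have hfl : Fact l.Prime := ⟨hl⟩
  obtain ⟨T, hT⟩ := finite_primes (K := K) l hl.ne_zero
  let S : Finset (HeightOneSpectrum (𝓞 K)) := T.filter fun v => ((l : ℕ) : 𝓞 K) ∈ v.asIdeal ∧ P v
  have hS : ∀ v, v ∈ S ↔ (((l : ℕ) : 𝓞 K) ∈ v.asIdeal ∧ P v) := by
    intro v
    rw [Finset.mem_filter]
    exact ⟨fun h => h.2, fun h => ⟨hT v h.1, h⟩⟩
  have e1 : deg l P = ∑ v ∈ S, ld l v := by
    unfold deg
    rw [← finsum_mem_coe_finset]
    apply finsum_congr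
    intro v
    exact finsum_congr_Prop (propext ((hS v).symm.trans Finset.mem_coe.symm)) (fun _ => rfl)
  rw [e1]
  exact Finset.sum_pos' (fun _ _ => Nat.zero_le _) ⟨v, (hS v).2 ⟨hv, hP⟩, ld_pos v hv⟩

theorem deg_zero (l : ℕ) (P : HeightOneSpectrum (𝓞 K) → Prop)
    (h : ∀ v : HeightOneSpectrum (𝓞 K), ((l : ℕ) : 𝓞 K) ∈ v.asIdeal → ¬ P v) : deg l P = 0 := by
  unfold deg
  apply finsum_eq_zero_of_forall_eq_zero
  intro v
  have : IsEmpty (((l : ℕ) : 𝓞 K) ∈ v.asIdeal ∧ P v) := ⟨fun h1 => h v h1.1 h1.2⟩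
  exact finsum_of_isEmpty _

/-- the four possibilities at a place -/
theorem four {l p : ℕ} (hl : l.Prime) (hp0 : p ≠ 0) {a b c : K} (ha : a ≠ 0) (hb : b ≠ 0)
    (hc : c ≠ 0) (h : a ^ p + b ^ p + c ^ p = 0) (v : HeightOneSpectrum (𝓞 K))
    (hv : ((l : ℕ) : 𝓞 K) ∈ v.asIdeal) :
    EqualAt v a b c ∨ (v.valuation K a < v.valuation K b ∧ v.valuation K a < v.valuation K c) ∨
      (v.valuation K b < v.valuation K c ∧ v.valuation K b < v.valuation K a) ∨
      (v.valuation K c < v.valuation K a ∧ v.valuation K c < v.valuation K b) := by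
  obtain ⟨α, hα, X, Y, Z, hXa, hYa, hZa, hX0, hY0, hZ0, hcp⟩ := prepM l hl.ne_zero ha hb hc l hl
    (dvd_refl l)
  have hXYZ : X ^ p + Y ^ p + Z ^ p = 0 := by
    apply RingOfIntegers.coe_injective
    rw [map_zero, map_add, map_add, map_pow, map_pow, map_pow, hXa, hYa, hZa, mul_pow, mul_pow,
      mul_pow]
    linear_combination α ^ p * h
  have h1 := vals hp0 hα hXa hYa hZa hXYZ hcp v hv
  have h2 := vals hp0 hα hYa hZa hXa (by linear_combination hXYZ)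
    (fun P hP hlP h => hcp P hP hlP ⟨h.2.2, h.1, h.2.1⟩) v hv
  have h3 := vals hp0 hα hZa hXa hYa (by linear_combination hXYZ)
    (fun P hP hlP h => hcp P hP hlP ⟨h.2.1, h.2.2, h.1⟩) v hv
  rw [← h1.1, ← h2.1, ← h3.1, ← h1.2]
  by_cases e1 : X ∈ v.asIdeal
  · exact Or.inr (Or.inl e1)
  · by_cases e2 : Y ∈ v.asIdeal
    · exact Or.inr (Or.inr (Or.inl e2))
    · by_cases e3 : Z ∈ v.asIdeal
      · exact Or.inr (Or.inr (Or.inr e3))
      · exact Or.inl ⟨e1, e2, e3⟩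

/-- all the places above `l` belong to the first class -/
theorem full_iff {l p : ℕ} (hl : l.Prime) (hp0 : p ≠ 0) {a b c : K} (ha : a ≠ 0) (hb : b ≠ 0)
    (hc : c ≠ 0) (h : a ^ p + b ^ p + c ^ p = 0) :
    share l a b c = Module.finrank ℚ K ↔ ∀ v : HeightOneSpectrum (𝓞 K),
      ((l : ℕ) : 𝓞 K) ∈ v.asIdeal →
        (v.valuation K a < v.valuation K b ∧ v.valuation K a < v.valuation K c) := by
  have hk := part_K (K := K) hl hp0 ha hb hc h
  constructor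
  · intro hm v hv
    rcases four hl hp0 ha hb hc h v hv with h1 | h1 | h1 | h1
    · have : 0 < evenShare l a b c := deg_pos hl _ v hv h1
      omega
    · exact h1
    · have : 0 < share l b c a := deg_pos hl _ v hv h1
      omega
    · have : 0 < share l c a b := deg_pos hl _ v hv h1
      omega
  · intro hall
    have h1 : evenShare l a b c = 0 := deg_zero l _ fun v hv h1 => by
      have h2 := hall v hv
      rw [h1.1] at h2
      exact lt_irrefl _ h2.1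
    have h2 : share l b c a = 0 := deg_zero l _ fun v hv h1 =>
      lt_asymm (hall v hv).1 h1.2
    have h3 : share l c a b = 0 := deg_zero l _ fun v hv h1 =>
      lt_asymm (hall v hv).2 h1.1
    omega

theorem main_pack {p : ℕ} (hp : p.Prime) {a b c : K} (ha : a ≠ 0) (hb : b ≠ 0) (hc : c ≠ 0)
    (h : a ^ p + b ^ p + c ^ p = 0) (hm3 : Module.finrank ℚ K + 3 ≤ p) {q : ℕ} (hq : q.Prime)
    (hqp : q ≠ p) (hW : ¬ p ^ 2 ∣ q ^ (p - 1) - 1) :
    ∃ (F : Type) (_ : Field F) (_ : CharP F p) (ι : Type) (_ : Fintype ι) (x y z : ι → F),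
      Fintype.card ι = evenShare p a b c ∧
      (∀ i, x i ≠ 0 ∧ y i ≠ 0 ∧ z i ≠ 0 ∧ x i + y i + z i = 0) ∧
      (Good p q a b c → ∑ i, (x i - y i) / z i + share p a b c - share p b c a =
        share q a b c - share q b c a) ∧
      (Good p q b c a → ∑ i, (y i - z i) / x i + share p b c a - share p c a b =
        share q b c a - share q c a b) ∧
      (Good p q c a b → ∑ i, (z i - x i) / y i + share p c a b - share p a b c =
        share q c a b - share q a b c) := by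
  classical
  have hfp : Fact p.Prime := ⟨hp⟩
  have hfq : Fact q.Prime := ⟨hq⟩
  have hm := Module.finrank_pos (R := ℚ) (M := K)
  have hp4 : p ≠ 4 := by
    rintro rfl
    norm_num at hp
  have hp5 : 5 ≤ p := by omega
  have hp2 : p ≠ 2 := by omega
  have hp0 : p ≠ 0 := hp.ne_zero
  obtain ⟨E, _, _, ⟨cE⟩⟩ := Y978.WQ.main p hp2
  obtain ⟨N, _, _, _, hG, hcard, hdvf⟩ := Y258.WQ.exists_field E K
  obtain ⟨α, hα, X, Y, Z, hXa, hYa, hZa, hX0, hY0, hZ0, hcp⟩ := prepM (p * q)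
    (mul_ne_zero hp.ne_zero hq.ne_zero) ha hb hc p hp (dvd_mul_right p q)
  have hXYZ : X ^ p + Y ^ p + Z ^ p = 0 := by
    apply RingOfIntegers.coe_injective
    rw [map_zero, map_add, map_add, map_pow, map_pow, map_pow, hXa, hYa, hZa, mul_pow, mul_pow,
      mul_pow]
    linear_combination α ^ p * h
  have hcpp : ∀ P : Ideal (𝓞 K), P.IsPrime → ((p : ℕ) : 𝓞 K) ∈ P → ¬ (X ∈ P ∧ Y ∈ P ∧ Z ∈ P) := by
    intro P hP hpP
    refine hcp P hP ?_
    rw [Nat.cast_mul]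
    exact P.mul_mem_right _ hpP
  have hcq : ∀ P : Ideal (𝓞 K), P.IsPrime → ((q : ℕ) : 𝓞 K) ∈ P → ¬ (X ∈ P ∧ Y ∈ P ∧ Z ∈ P) := by
    intro P hP hpP
    refine hcp P hP ?_
    rw [Nat.cast_mul]
    exact P.mul_mem_left _ hpP
  have hs : Mix p K X Y Z := ⟨hX0, hY0, hZ0, hXYZ, hcpp⟩
  obtain ⟨Q, hQ, hQp⟩ := exists_above (K := N) p hp
  obtain ⟨R, hR, hRq⟩ := exists_above (K := N) q hq
  have hQ0 : Q ≠ ⊥ := by
    rintro rfl
    rw [Ideal.mem_bot, Nat.cast_eq_zero] at hQp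
    exact hp.ne_zero hQp
  have hQm : Q.IsMaximal := hQ.isMaximal hQ0
  let _ : Field (𝓞 N ⧸ Q) := Ideal.Quotient.field Q
  have hch : CharP (𝓞 N ⧸ Q) p := charP_quot Q hQ p hp hQp
  let ψ : 𝓞 N →+* (𝓞 N ⧸ Q) := Ideal.Quotient.mk Q
  have hψ : ∀ w : 𝓞 N, ψ w = 0 ↔ w ∈ Q := fun w => Ideal.Quotient.eq_zero_iff_mem
  have sp := hit_share hp0 hcard Q hQ hQp hα hXa hYa hZa hXYZ hcpp
  have hm1 : miss (K := K) Q Y Z X = miss Q X Y Z := by
    ext τ
    rw [mem_miss, mem_miss]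
    tauto
  have hm2 : miss (K := K) Q Z X Y = miss Q X Y Z := by
    ext τ
    rw [mem_miss, mem_miss]
    tauto
  refine ⟨𝓞 N ⧸ Q, inferInstance, hch, (miss (K := K) Q X Y Z), inferInstance,
    fun τ => ψ (RingOfIntegers.mapRingHom τ.1 X), fun τ => ψ (RingOfIntegers.mapRingHom τ.1 Y),
    fun τ => ψ (RingOfIntegers.mapRingHom τ.1 Z), ?_, ?_, ?_, ?_, ?_⟩
  · rw [Fintype.card_coe, sp.2]
  · intro τ
    have h1 := (mem_miss Q X Y Z τ.1).1 τ.2
    refine ⟨fun h0 => h1.1 ((hψ _).1 h0), fun h0 => h1.2.1 ((hψ _).1 h0),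
      fun h0 => h1.2.2 ((hψ _).1 h0), ?_⟩
    have hPp : ((p : ℕ) : 𝓞 K) ∈ Q.comap (RingOfIntegers.mapRingHom τ.1) := by
      rw [Ideal.mem_comap, map_natCast]
      exact hQp
    have h2 := lin_p hp (Q.comap (RingOfIntegers.mapRingHom τ.1)) (hQ.comap _) hPp hXYZ
    rw [← map_add, ← map_add, ← map_add, ← map_add, hψ]
    exact h2
  · intro hg
    have h1 := core_K hcard hdvf hp2 cE hm3 Q hQ hQp ψ hψ hqp hW R hR hRq hα hXa hYa hZa hs hcq hg
    rw [← h1, Finset.sum_coe_sort (miss (K := K) Q X Y Z)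
      (fun τ => (ψ (RingOfIntegers.mapRingHom τ X) - ψ (RingOfIntegers.mapRingHom τ Y)) /
        ψ (RingOfIntegers.mapRingHom τ Z))]
  · intro hg
    have h1 := core_K hcard hdvf hp2 cE hm3 Q hQ hQp ψ hψ hqp hW R hR hRq hα hYa hZa hXa hs.rot
      (fun P hP hlP h => hcq P hP hlP ⟨h.2.2, h.1, h.2.1⟩) hg
    rw [← h1, hm1, Finset.sum_coe_sort (miss (K := K) Q X Y Z)
      (fun τ => (ψ (RingOfIntegers.mapRingHom τ Y) - ψ (RingOfIntegers.mapRingHom τ Z)) /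
        ψ (RingOfIntegers.mapRingHom τ X))]
  · intro hg
    have h1 := core_K hcard hdvf hp2 cE hm3 Q hQ hQp ψ hψ hqp hW R hR hRq hα hZa hXa hYa
      hs.rot.rot (fun P hP hlP h => hcq P hP hlP ⟨h.2.1, h.2.2, h.1⟩) hg
    rw [← h1, hm2, Finset.sum_coe_sort (miss (K := K) Q X Y Z)
      (fun τ => (ψ (RingOfIntegers.mapRingHom τ Z) - ψ (RingOfIntegers.mapRingHom τ X)) /
        ψ (RingOfIntegers.mapRingHom τ Y))]

/-- the theorem of Furtwängler -/
theorem furt {p : ℕ} (hp : p.Prime) {a b c : K} (ha : a ≠ 0) (hb : b ≠ 0) (hc : c ≠ 0)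
    (h : a ^ p + b ^ p + c ^ p = 0) (t : ℕ)
    (ht : t = Module.finrank ℚ K ∨ evenShare p a b c ≤ t)
    (hreg : BernS p (Module.finrank ℚ K) t) (h2m : 2 * Module.finrank ℚ K < p) {q : ℕ}
    (hq : q.Prime) (hqp : q ≠ p) (hW : ¬ p ^ 2 ∣ q ^ (p - 1) - 1)
    (hdiv : ∀ v : HeightOneSpectrum (𝓞 K), ((q : ℕ) : 𝓞 K) ∈ v.asIdeal →
      (v.valuation K a < v.valuation K b ∧ v.valuation K a < v.valuation K c)) :
    ∀ v : HeightOneSpectrum (𝓞 K), ((p : ℕ) : 𝓞 K) ∈ v.asIdeal →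
      (v.valuation K a < v.valuation K b ∧ v.valuation K a < v.valuation K c) := by
  have hp0 := hp.ne_zero
  have hgood : Good p q a b c := by
    intro v hv
    refine ⟨fun h1 => absurd h1 (lt_asymm (hdiv v hv).2), fun h1 => ?_⟩
    have h2 := (hdiv v hv).1
    rw [h1.1] at h2
    exact absurd h2 (lt_irrefl _)
  have h1 := (main_pair hp ha hb hc h hreg.le hq hqp hW hgood).2 t ht hreg h2m
  have h2 := (full_iff hq hp0 ha hb hc h).2 hdiv
  have h3 := part_K (K := K) hp hp0 ha hb hc h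
  have h4 := part_K (K := K) hq hp0 ha hb hc h
  apply (full_iff hp hp0 ha hb hc h).1
  omega

end

end Pool.Agent.U549.FW
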