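import Pool.Agent.U549.LF.Place

/-!
# The number of embeddings which induce a place is the local degree (all primes)
-/

set_option autoImplicit false

namespace Pool.Agent.U549.FW

open NumberField IsDedekindDomain Pool.Agent.Y546.WQ Pool.Agent.N840.FC Pool.Agent.U549.LF

section

variable {q : ℕ} [Fact q.Prime] {K N : Type} [Field K] [NumberField K] [Field N] [NumberField N]

theorem exists_avoid (Q : Ideal (𝓞 N)) (hQ : Q.IsPrime) (v : HeightOneSpectrum (𝓞 K)) (e : ℕ) :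
    ∃ β : 𝓞 K, β ∈ v.asIdeal ^ e ∧ β ∉ v.asIdeal ^ (e + 1) ∧ ∀ τ : K →+* N,
      Q.comap (RingOfIntegers.mapRingHom τ) ≠ v.asIdeal →
      β ∉ Q.comap (RingOfIntegers.mapRingHom τ) := by
  classical
  by_contra hcon
  push Not at hcon
  let g : Option (K →+* N) → Ideal (𝓞 K) := fun o => match o with
    | none => v.asIdeal ^ (e + 1)
    | some τ => Q.comap (RingOfIntegers.mapRingHom τ)
  let s : Finset (Option (K →+* N)) := Finset.univ.filter fun o => match o with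
    | none => True
    | some τ => Q.comap (RingOfIntegers.mapRingHom τ) ≠ v.asIdeal
  have hsn : none ∈ s := by simp [s]
  have hss : ∀ τ : K →+* N, some τ ∈ s ↔ Q.comap (RingOfIntegers.mapRingHom τ) ≠ v.asIdeal := by
    intro τ
    simp [s]
  have h1 : ((v.asIdeal ^ e : Ideal (𝓞 K)) : Set (𝓞 K)) ⊆
      ⋃ o ∈ (s : Set (Option (K →+* N))), ((g o : Ideal (𝓞 K)) : Set (𝓞 K)) := by
    intro β hβ
    simp only [Set.mem_iUnion]
    by_cases hb : β ∈ v.asIdeal ^ (e + 1)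
    · exact ⟨none, hsn, hb⟩
    · obtain ⟨τ, h1, h2⟩ := hcon β hβ hb
      exact ⟨some τ, (hss τ).2 h1, h2⟩
  rw [Ideal.subset_union_prime none none (by
    intro o _ ho _
    match o, ho with
    | none, ho => exact absurd rfl ho
    | some τ, _ => exact hQ.comap (RingOfIntegers.mapRingHom τ))] at h1
  obtain ⟨o, ho, h2⟩ := h1
  match o, ho, h2 with
  | none, _, h2 =>
    have h3 : v.asIdeal ^ e ≤ v.asIdeal ^ (e + 1) := h2
    have h4 : v.asIdeal ^ (e + 1) < v.asIdeal ^ e :=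
      Ideal.pow_right_strictAnti v.asIdeal v.ne_bot v.isPrime.ne_top (Nat.lt_succ_self e)
    exact absurd h3 (not_le_of_gt h4)
  | some τ, ho, h2 =>
    apply (hss τ).1 ho
    have hP : (Q.comap (RingOfIntegers.mapRingHom τ)).IsPrime := hQ.comap _
    have h3 : v.asIdeal ≤ Q.comap (RingOfIntegers.mapRingHom τ) := hP.le_of_pow_le h2
    exact (v.isMaximal.eq_of_le hP.ne_top h3).symm

/-- two elements with the same order at a place -/
theorem exists_unit_mul (v : HeightOneSpectrum (𝓞 K)) (e : ℕ) (α β : 𝓞 K) (hβ0 : β ≠ 0)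
    (hα : α ∈ v.asIdeal ^ e) (hα1 : α ∉ v.asIdeal ^ (e + 1)) (hβ : β ∈ v.asIdeal ^ e)
    (hβ1 : β ∉ v.asIdeal ^ (e + 1)) :
    ∃ c d : 𝓞 K, c ∉ v.asIdeal ∧ d ∉ v.asIdeal ∧ α * c = β * d := by
  have hprime := v.isPrime
  have hβK : (algebraMap (𝓞 K) K β) ≠ 0 := by
    intro h
    apply hβ0
    exact RingOfIntegers.coe_injective (by rw [map_zero]; exact h)
  obtain ⟨n, d, h | h⟩ := v.exists_primeCompl_mul_eq_or_mul_eq
    (algebraMap (𝓞 K) K α / algebraMap (𝓞 K) K β)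
  · have h1 : α * (d : 𝓞 K) = β * n := by
      apply RingOfIntegers.coe_injective
      rw [map_mul, map_mul, ← h]
      field_simp
    refine ⟨d, n, d.2, ?_, h1⟩
    intro hn
    have h2 : α * (d : 𝓞 K) ∈ v.asIdeal ^ (e + 1) := by
      rw [h1, pow_succ]
      exact Ideal.mul_mem_mul hβ hn
    rcases Ideal.IsPrime.mul_mem_pow v.asIdeal (by rw [mul_comm]; exact h2) with h3 | h3
    · exact d.2 h3
    · exact hα1 h3
  · have h1 : α * n = β * (d : 𝓞 K) := by
      apply RingOfIntegers.coe_injective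
      rw [map_mul, map_mul, ← h]
      field_simp
    refine ⟨n, d, ?_, d.2, h1⟩
    intro hn
    have h2 : β * (d : 𝓞 K) ∈ v.asIdeal ^ (e + 1) := by
      rw [← h1, pow_succ]
      exact Ideal.mul_mem_mul hα hn
    rcases Ideal.IsPrime.mul_mem_pow v.asIdeal (by rw [mul_comm]; exact h2) with h3 | h3
    · exact d.2 h3
    · exact hβ1 h3

/-- the local degree is at most the number of embeddings which induce the place -/
theorem count_ge (hcard : Nat.card (K →+* N) = Module.finrank ℚ K)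
    (Q : Ideal (𝓞 N)) (hQ : Q.IsPrime) (hQp : ((q : ℕ) : 𝓞 N) ∈ Q)
    (v : HeightOneSpectrum (𝓞 K)) (hv : ((q : ℕ) : 𝓞 K) ∈ v.asIdeal) :
    ld q v ≤ (emb Q v.asIdeal).card := by
  classical
  have hqq : q.Prime := Fact.out
  have hQ0 : Q ≠ ⊥ := by
    rintro rfl
    rw [Ideal.mem_bot, Nat.cast_eq_zero] at hQp
    exact hqq.ne_zero hQp
  obtain ⟨e, hne, hqe, hqe1⟩ := exists_ram v.asIdeal v.isPrime hv
  have hmapmem : ∀ j : ℕ, Ideal.map (algebraMap ℤ (𝓞 K)) (Ideal.span {(q : ℤ)}) ≤ v.asIdeal ^ j ↔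
      ((q : ℕ) : 𝓞 K) ∈ v.asIdeal ^ j := by
    intro j
    rw [Ideal.map_span, Set.image_singleton, Ideal.span_singleton_le_iff_mem]
    simp
  have he : Ideal.ramificationIdx' (Ideal.span {(q : ℤ)}) v.asIdeal = e :=
    Ideal.ramificationIdx'_spec ((hmapmem _).2 hqe) (fun h => hqe1 ((hmapmem _).1 h))
  have hq0K : ((q : ℕ) : 𝓞 K) ≠ 0 := by
    rw [Ne, Nat.cast_eq_zero]
    exact hqq.ne_zero
  obtain ⟨γ, hγe, hγe1, hγ'⟩ := exists_avoid Q hQ v e
  obtain ⟨c, d, hc, hd, hcd⟩ := exists_unit_mul v e γ ((q : ℕ) : 𝓞 K) hq0K hγe hγe1 hqe hqe1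
  let w : HeightOneSpectrum (𝓞 N) := ⟨Q, hQ, hQ0⟩
  let val := w.intValuation
  have hp0 : ((q : ℕ) : 𝓞 N) ≠ 0 := by
    rw [Ne, Nat.cast_eq_zero]
    exact hqq.ne_zero
  have hvp0 : val ((q : ℕ) : 𝓞 N) ≠ 0 := w.intValuation_ne_zero _ hp0
  have hvp1 : val ((q : ℕ) : 𝓞 N) < 1 := (w.intValuation_lt_one_iff_mem _).2 hQp
  have hone : ∀ (τ : K →+* N) (x : 𝓞 K), x ∉ Q.comap (RingOfIntegers.mapRingHom τ) →
      val (RingOfIntegers.mapRingHom τ x) = 1 := by
    intro τ x hx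
    have h2 : RingOfIntegers.mapRingHom τ x ∉ Q := hx
    by_contra hne
    exact h2 ((w.intValuation_lt_one_iff_mem _).1 (lt_of_le_of_ne (w.intValuation_le_one _) hne))
  have hgood : ∀ τ : K →+* N, τ ∈ emb Q v.asIdeal →
      val (RingOfIntegers.mapRingHom τ γ) = val ((q : ℕ) : 𝓞 N) := by
    intro τ hτ
    rw [mem_emb] at hτ
    have h1 := congrArg (fun x => val (RingOfIntegers.mapRingHom τ x)) hcd
    simp only [map_mul, map_natCast] at h1
    have e1 := hone τ c (by rw [hτ]; exact hc)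
    have e2 := hone τ d (by rw [hτ]; exact hd)
    rw [e1, e2, mul_one, mul_one] at h1
    exact h1
  have hγ1 : ∀ τ : K →+* N, τ ∉ emb Q v.asIdeal → val (RingOfIntegers.mapRingHom τ γ) = 1 := by
    intro τ hτ
    rw [mem_emb] at hτ
    exact hone τ γ (hγ' τ hτ)
  have hlow : val ((Algebra.norm ℤ γ : ℤ) : 𝓞 N) =
      val ((q : ℕ) : 𝓞 N) ^ (emb Q v.asIdeal).card := by
    rw [← prod_eq_norm hcard γ, map_prod, ← Finset.prod_subset (Finset.subset_univ (emb Q v.asIdeal))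
      (fun τ _ hτ => hγ1 τ hτ), ← Finset.prod_const]
    exact Finset.prod_congr rfl fun τ hτ => hgood τ hτ
  have hup : val ((Algebra.norm ℤ γ : ℤ) : 𝓞 N) ≤ val ((q : ℕ) : 𝓞 N) ^ (ld q v) := by
    have h1 : Ideal.absNorm (v.asIdeal ^ e) ∣ Ideal.absNorm (Ideal.span {γ}) :=
      Ideal.absNorm_dvd_absNorm_of_le ((Ideal.span_singleton_le_iff_mem _).2 hγe)
    rw [map_pow, absNorm_rd v hv, ← pow_mul, Ideal.absNorm_span_singleton, mul_comm (rd q v) e] at h1
    have e0 : ld q v = e * rd q v := by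
      unfold ld
      rw [he]
    rw [← e0] at h1
    have h2 : ((q ^ (ld q v) : ℕ) : ℤ) ∣ Algebra.norm ℤ γ := Int.natCast_dvd.2 h1
    obtain ⟨u, hu⟩ := h2
    rw [hu, Int.cast_mul, map_mul]
    have h3 : val ((u : ℤ) : 𝓞 N) ≤ 1 := w.intValuation_le_one _
    have h4 : val (((q ^ (ld q v) : ℕ) : ℤ) : 𝓞 N) = val ((q : ℕ) : 𝓞 N) ^ (ld q v) := by
      rw [Int.cast_natCast, Nat.cast_pow, map_pow]
    rw [h4]
    calc val ((q : ℕ) : 𝓞 N) ^ (ld q v) * val ((u : ℤ) : 𝓞 N)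
        ≤ val ((q : ℕ) : 𝓞 N) ^ (ld q v) * 1 := mul_le_mul_right h3 _
      _ = _ := mul_one _
  by_contra hcon
  rw [not_le] at hcon
  have h1 : val ((q : ℕ) : 𝓞 N) ^ (ld q v) < val ((q : ℕ) : 𝓞 N) ^ (emb Q v.asIdeal).card :=
    pow_lt_pow_right_of_lt_one₀ (zero_lt_iff.2 hvp0) hvp1 hcon
  rw [hlow] at hup
  exact absurd hup (not_le.2 h1)

/-- the number of embeddings which induce a place is the local degree -/
theorem emb_card (hcard : Nat.card (K →+* N) = Module.finrank ℚ K)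
    (Q : Ideal (𝓞 N)) (hQ : Q.IsPrime)
    (hQp : ((q : ℕ) : 𝓞 N) ∈ Q) (v : HeightOneSpectrum (𝓞 K))
    (hv : ((q : ℕ) : 𝓞 K) ∈ v.asIdeal) : (emb Q v.asIdeal).card = ld q v := by
  classical
  have hpp : q.Prime := Fact.out
  have hmax : (Ideal.span {(q : ℤ)}).IsMaximal := span_max
  have hbot : Ideal.span {(q : ℤ)} ≠ ⊥ := by
    rw [Ne, Ideal.span_singleton_eq_bot]
    exact_mod_cast hpp.ne_zero
  obtain ⟨T, hT⟩ : ∃ T : Finset (Ideal (𝓞 K)),
    T = IsDedekindDomain.primesOverFinset (Ideal.span {(q : ℤ)}) (𝓞 K) := ⟨_, rfl⟩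
  have memT : ∀ P : Ideal (𝓞 K), P ∈ T ↔ P.IsPrime ∧ ((q : ℕ) : 𝓞 K) ∈ P := by
    intro P
    rw [hT, IsDedekindDomain.mem_primesOverFinset_iff hbot]
    constructor
    · rintro ⟨h1, h2⟩
      refine ⟨h1, ?_⟩
      have h3 : (q : ℤ) ∈ P.under ℤ := by
        rw [← h2.over]
        exact Ideal.mem_span_singleton_self _
      rw [Ideal.under_def, Ideal.mem_comap] at h3
      simpa using h3
    · rintro ⟨h1, h2⟩
      exact ⟨h1, liesOver P h1 h2⟩
  have hne : ∀ P ∈ T, P ≠ ⊥ := by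
    intro P hP h0
    have := ((memT P).1 hP).2
    rw [h0, Ideal.mem_bot, Nat.cast_eq_zero] at this
    exact hpp.ne_zero this
  have hsum : ∑ P ∈ T, Ideal.ramificationIdx' (Ideal.span {(q : ℤ)}) P *
      Ideal.inertiaDeg' (Ideal.span {(q : ℤ)}) P = Module.finrank ℚ K := by
    rw [hT]
    exact Ideal.sum_ramification_inertia (𝓞 K) ℚ K hbot
  have hcnt : ∑ P ∈ T, (emb (K := K) Q P).card = Module.finrank ℚ K := by
    have h1 := Finset.card_eq_sum_card_fiberwise (s := (Finset.univ : Finset (K →+* N))) (t := T)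
      (f := fun τ => Q.comap (RingOfIntegers.mapRingHom τ)) (by
        intro τ _
        rw [Finset.mem_coe, memT]
        refine ⟨hQ.comap _, ?_⟩
        rw [Ideal.mem_comap, map_natCast]
        exact hQp)
    rw [Finset.card_univ, ← Nat.card_eq_fintype_card, hcard] at h1
    rw [h1]
    refine Finset.sum_congr rfl fun P _ => ?_
    congr 1
  have hle : ∀ P ∈ T, Ideal.ramificationIdx' (Ideal.span {(q : ℤ)}) P *
      Ideal.inertiaDeg' (Ideal.span {(q : ℤ)}) P ≤ (emb (K := K) Q P).card := by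
    intro P hP
    have hP' := (memT P).1 hP
    exact count_ge hcard Q hQ hQp ⟨P, hP'.1, hne P hP⟩ hP'.2
  have heq := (Finset.sum_eq_sum_iff_of_le hle).1 (hsum.trans hcnt.symm) v.asIdeal
    ((memT _).2 ⟨v.isPrime, hv⟩)
  exact heq.symm

end

end Pool.Agent.U549.FW
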