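import Pool.Agent.U549.LF.Place

/-!
# The norm polynomial modulo `q`
-/

set_option autoImplicit false

namespace Pool.Agent.U549.FW

open NumberField IsDedekindDomain Polynomial Pool.Agent.Y546.WQ Pool.Agent.N840.FC
  Pool.Agent.U549.LF

theorem reflect_prod {F ι : Type*} [Field F] (s : Finset ι) (x y : ι → F) :
    (∏ i ∈ s, (C (x i) + X * C (y i))).natDegree ≤ s.card ∧
    (∏ i ∈ s, (C (x i) + X * C (y i))).reflect s.card = ∏ i ∈ s, (C (y i) + X * C (x i)) := by
  classical
  have hd : ∀ i, (C (x i) + X * C (y i) : F[X]).natDegree ≤ 1 := by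
    intro i
    have e : (C (x i) + X * C (y i) : F[X]) = C (y i) * X + C (x i) := by ring
    rw [e]
    exact natDegree_linear_le
  have hr : ∀ i, (C (x i) + X * C (y i) : F[X]).reflect 1 = C (y i) + X * C (x i) := by
    intro i
    rw [reflect_add, reflect_C, pow_one]
    have e : (X * C (y i) : F[X]) = C (y i) * X ^ 1 := by rw [pow_one, mul_comm]
    rw [e, reflect_C_mul_X_pow, revAt_le le_rfl, Nat.sub_self, pow_zero, mul_one]
    ring
  induction s using Finset.induction_on with
  | empty =>
    simp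
  | insert i s hi ih =>
    obtain ⟨h1, h2⟩ := ih
    rw [Finset.prod_insert hi, Finset.prod_insert hi, Finset.card_insert_of_notMem hi]
    refine ⟨?_, ?_⟩
    · refine natDegree_mul_le.trans ?_
      have := hd i
      omega
    · rw [add_comm s.card 1, reflect_mul _ _ (hd i) h1, hr, h2]

theorem refl_q {q : ℕ} [Fact q.Prime] {k : Type} [Field k] [CharP k q] {ι : Type} [Fintype ι]
    (F0 : (ZMod q)[X]) (x y : ι → k)
    (hF : F0.map (ZMod.castHom (dvd_refl q) k) = ∏ i, (C (x i) + X * C (y i)))
    (A A' : Finset ι) (hA : ∀ i, i ∈ A ↔ x i = 0) (hA' : ∀ i, i ∈ A' ↔ y i = 0)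
    (hnot : ∀ i, ¬ (x i = 0 ∧ y i = 0))
    (hu : ∀ i, x i ≠ 0 → y i ≠ 0 → x i ^ (q + 1) = y i ^ (q + 1)) :
    ∃ ε : ZMod q, ε * ε = 1 ∧
      X ^ A'.card * F0 = C ε * (X ^ A.card * F0.reflect (Fintype.card ι)) := by
  classical
  have hqq : q.Prime := Fact.out
  obtain ⟨κ, hκ⟩ : ∃ κ : ZMod q →+* k, κ = ZMod.castHom (dvd_refl q) k := ⟨_, rfl⟩
  rw [← hκ] at hF
  obtain ⟨Fr, hFr⟩ : ∃ Fr : k →+* k, Fr = frobenius k q := ⟨_, rfl⟩
  have hFrv : ∀ t, Fr t = t ^ q := by
    intro t
    rw [hFr]
    rfl
  have hFκ : Fr.comp κ = κ := RingHom.ext_zmod _ _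
  -- the parts
  obtain ⟨P1, hP1⟩ : ∃ P1 : k[X], P1 = ∏ i, (C (x i) + X * C (y i)) := ⟨_, rfl⟩
  obtain ⟨P2, hP2⟩ : ∃ P2 : k[X], P2 = ∏ i, (C (y i) + X * C (x i)) := ⟨_, rfl⟩
  obtain ⟨h, hh⟩ : ∃ h : k[X], h = ∏ i, (if x i = 0 ∨ y i = 0 then 1 else X + C (x i / y i)) :=
    ⟨_, rfl⟩
  obtain ⟨c0, hc0⟩ : ∃ c0 : k, c0 = ∏ i, (if y i = 0 then x i else y i) := ⟨_, rfl⟩
  obtain ⟨π, hπ⟩ : ∃ π : k, π = ∏ i, (if x i = 0 ∨ y i = 0 then 1 else x i / y i) := ⟨_, rfl⟩
  have hc00 : c0 ≠ 0 := by
    rw [hc0]
    refine Finset.prod_ne_zero_iff.2 fun i _ => ?_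
    split_ifs with hy
    · exact fun hx => hnot i ⟨hx, hy⟩
    · exact hy
  have hXA : (X : k[X]) ^ A.card = ∏ i, (if x i = 0 then X else 1) := by
    rw [Finset.prod_ite, Finset.prod_const_one, mul_one, Finset.prod_const]
    congr 2
    ext i
    rw [Finset.mem_filter, hA]
    simp
  have hXA' : (X : k[X]) ^ A'.card = ∏ i, (if y i = 0 then X else 1) := by
    rw [Finset.prod_ite, Finset.prod_const_one, mul_one, Finset.prod_const]
    congr 2
    ext i
    rw [Finset.mem_filter, hA']
    simp
  have e1 : P1 = C c0 * (X ^ A.card * h) := by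
    rw [hP1, hc0, hXA, hh, map_prod, ← Finset.prod_mul_distrib, ← Finset.prod_mul_distrib]
    refine Finset.prod_congr rfl fun i _ => ?_
    by_cases hx : x i = 0
    · have hy : y i ≠ 0 := fun hy => hnot i ⟨hx, hy⟩
      simp only [hx, hy, if_true, if_false, true_or, C_0]
      ring
    · by_cases hy : y i = 0
      · simp only [hx, hy, if_true, if_false, or_true, C_0]
        ring
      · simp only [hx, hy, if_false, or_false]
        have e : C (x i) = C (y i) * C (x i / y i) := by
          rw [← C_mul]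
          congr 1
          field_simp
        rw [e]
        ring
  have hFh : h.map Fr = ∏ i, (if x i = 0 ∨ y i = 0 then 1 else X + C (y i / x i)) := by
    rw [hh, Polynomial.map_prod]
    refine Finset.prod_congr rfl fun i _ => ?_
    by_cases hx : x i = 0
    · simp only [hx, true_or, if_true, Polynomial.map_one]
    · by_cases hy : y i = 0
      · simp only [hy, or_true, if_true, Polynomial.map_one]
      · simp only [hx, hy, or_false, if_false, Polynomial.map_add, map_X, map_C]
        congr 2
        rw [hFrv, div_pow, div_eq_div_iff (pow_ne_zero _ hy) hx, ← pow_succ, hu i hx hy, pow_succ,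
          mul_comm]
  have e2 : P2 = C c0 * (C π * (X ^ A'.card * h.map Fr)) := by
    rw [hP2, hc0, hXA', hFh, hπ, map_prod, map_prod, ← Finset.prod_mul_distrib,
      ← Finset.prod_mul_distrib, ← Finset.prod_mul_distrib]
    refine Finset.prod_congr rfl fun i _ => ?_
    by_cases hx : x i = 0
    · have hy : y i ≠ 0 := fun hy => hnot i ⟨hx, hy⟩
      simp only [hx, hy, if_true, if_false, true_or, C_0, C_1]
      ring
    · by_cases hy : y i = 0
      · simp only [hx, hy, if_true, if_false, or_true, C_0, C_1]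
        ring
      · simp only [hx, hy, if_false, or_false]
        have e : C (x i) = C (y i) * C (x i / y i) := by
          rw [← C_mul]
          congr 1
          field_simp
        have e' : C (x i / y i) * C (y i / x i) = (1 : k[X]) := by
          rw [← C_mul, ← C_1]
          congr 1
          field_simp
        rw [e]
        linear_combination -C (y i) * e'
  -- the Frobenius
  have hmon : h.Monic := by
    rw [hh]
    refine monic_prod_of_monic _ _ fun i _ => ?_
    split_ifs
    · exact monic_one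
    · exact monic_X_add_C _
  have hP1F : P1.map Fr = P1 := by
    rw [hP1, ← hF, Polynomial.map_map, hFκ]
  have hFh2 : h.map Fr = h := by
    have e3 := hP1F
    rw [e1, Polynomial.map_mul, Polynomial.map_mul, Polynomial.map_pow, map_X, map_C] at e3
    have hm1 : (X ^ A.card * h : k[X]).Monic := (monic_X_pow _).mul hmon
    have hm2 : (X ^ A.card * h.map Fr : k[X]).Monic := (monic_X_pow _).mul (hmon.map Fr)
    have e4 := congrArg leadingCoeff e3
    rw [leadingCoeff_mul (C (Fr c0)) (X ^ A.card * h.map Fr),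
      leadingCoeff_mul (C c0) (X ^ A.card * h), hm1.leadingCoeff, hm2.leadingCoeff, leadingCoeff_C,
      leadingCoeff_C, mul_one, mul_one] at e4
    rw [e4] at e3
    have e5 := mul_left_cancel₀ (C_ne_zero.2 hc00) e3
    exact mul_left_cancel₀ (pow_ne_zero _ X_ne_zero) e5
  have hππ : π * π = 1 := by
    have e3 : h.eval 0 = π := by
      rw [hh, hπ, eval_prod]
      refine Finset.prod_congr rfl fun i _ => ?_
      split_ifs
      · rw [eval_one]
      · rw [eval_add, eval_X, eval_C, zero_add]
    have e4 : π * (h.map Fr).eval 0 = 1 := by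
      rw [hFh, hπ, eval_prod, ← Finset.prod_mul_distrib]
      refine Finset.prod_eq_one fun i _ => ?_
      by_cases hx : x i = 0
      · simp only [hx, true_or, if_true, eval_one, mul_one]
      · by_cases hy : y i = 0
        · simp only [hy, or_true, if_true, eval_one, mul_one]
        · simp only [hx, hy, or_false, if_false, eval_add, eval_X, eval_C, zero_add]
          field_simp
    rw [hFh2, e3] at e4
    exact e4
  obtain ⟨ε, hε, hεε⟩ : ∃ ε : ZMod q, κ ε = π ∧ ε * ε = 1 := by
    have e5 : (π - 1) * (π + 1) = 0 := by linear_combination hππ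
    rcases mul_eq_zero.1 e5 with e6 | e6
    · exact ⟨1, by rw [map_one]; exact (sub_eq_zero.1 e6).symm, one_mul 1⟩
    · refine ⟨-1, by rw [map_neg, map_one]; linear_combination -e6, by ring⟩
  refine ⟨ε, hεε, ?_⟩
  apply Polynomial.map_injective κ κ.injective
  have hcu : Fintype.card ι = (Finset.univ : Finset ι).card := Finset.card_univ.symm
  have hre : (F0.reflect (Fintype.card ι)).map κ = P2 := by
    rw [← reflect_map, hF, hcu, (reflect_prod Finset.univ x y).2, hP2]
  rw [Polynomial.map_mul, Polynomial.map_mul, Polynomial.map_mul, Polynomial.map_pow,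
    Polynomial.map_pow, map_X, map_C, hre, hF, ← hP1, hε, e1, e2, hFh2]
  have e7 : C π * C π = (1 : k[X]) := by rw [← C_mul, hππ, C_1]
  linear_combination -(X ^ A'.card * C c0 * X ^ A.card * h) * e7

end Pool.Agent.U549.FW
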