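import Pool.Agent.U549.LF.Rel

/-!
# The exponent of the Stickelberger relations
-/

set_option autoImplicit false

namespace Pool.Agent.U549.FW

open Polynomial Pool.Agent.Y546.WQ

section

variable {p : ℕ} [Fact p.Prime]

/-- the weighted sum of the integral parts of `b t / p` -/
noncomputable def WW (p : ℕ) [Fact p.Prime] (b : ℕ) : ZMod p :=
  ∑ t : (ZMod p)ˣ, ((b * (t : ZMod p).val / p : ℕ) : ZMod p) * ((t⁻¹ : (ZMod p)ˣ) : ZMod p)

theorem val_pos (t : (ZMod p)ˣ) : 0 < (t : ZMod p).val := by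
  rcases Nat.eq_zero_or_pos (t : ZMod p).val with h | h
  · have : (t : ZMod p) = 0 := (ZMod.val_eq_zero _).1 h
    exact absurd this t.ne_zero
  · exact h

theorem WW_succ (b : ℕ) (hb : 0 < b) (hbp : b + 2 ≤ p) : WW p (b + 1) = WW p b + hsa p b 1 := by
  classical
  have hp : 0 < p := (Fact.out : p.Prime).pos
  unfold WW hsa hf
  rw [Finset.sum_filter, ← Finset.sum_add_distrib]
  refine Finset.sum_congr rfl fun t _ => ?_
  obtain ⟨v, hv⟩ : ∃ v, v = (t : ZMod p).val := ⟨_, rfl⟩
  have hv0 : 0 < v := by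
    rw [hv]
    exact val_pos t
  have hvp : v < p := by
    rw [hv]
    exact ZMod.val_lt _
  have hbt : ((b : ZMod p) * (t : ZMod p)).val = (b * v) % p := by
    rw [ZMod.val_mul, ZMod.val_natCast, hv, Nat.mod_mul_mod]
  rw [hbt, ← hv, pow_one]
  have hne : v + (b * v) % p ≠ p := by
    intro h
    have h1 : p ∣ (b + 1) * v := by
      have e1 := Nat.div_add_mod (b * v) p
      refine ⟨(b * v) / p + 1, ?_⟩
      rw [add_mul, one_mul, mul_add, mul_one]
      omega
    rcases (Nat.Prime.dvd_mul Fact.out).1 h1 with h2 | h2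
    · have := Nat.le_of_dvd (by omega) h2
      omega
    · have := Nat.le_of_dvd hv0 h2
      omega
  have hml : (b * v) % p < p := Nat.mod_lt _ hp
  split_ifs with hc
  · have h1 : (b + 1) * v / p = b * v / p + 1 := by
      have e1 := Nat.div_add_mod (b * v) p
      have e2 : (b + 1) * v = ((b * v) % p + v - p) + p * (b * v / p + 1) := by
        rw [add_mul, one_mul, mul_add, mul_one]
        omega
      rw [e2, Nat.add_mul_div_left _ _ hp, Nat.div_eq_of_lt (by omega), zero_add]
    rw [h1]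
    push_cast
    ring
  · have h1 : (b + 1) * v / p = b * v / p := by
      have e1 := Nat.div_add_mod (b * v) p
      have e2 : (b + 1) * v = ((b * v) % p + v) + p * (b * v / p) := by
        rw [add_mul, one_mul]
        omega
      rw [e2, Nat.add_mul_div_left _ _ hp, Nat.div_eq_of_lt (by omega), zero_add]
    rw [h1, add_zero]

theorem reg_one (hp2 : p ≠ 2) : ∃ b : ℕ, 0 < b ∧ b + 2 ≤ p ∧ hsa p b 1 ≠ 0 := by
  classical
  by_contra hcon
  push Not at hcon
  have hpp : p.Prime := Fact.out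
  have hp := hpp.two_le
  have hall : ∀ b : ℕ, b + 2 ≤ p → WW p (b + 1) = 0 := by
    intro b
    induction b with
    | zero =>
      intro _
      unfold WW
      refine Finset.sum_eq_zero fun t _ => ?_
      rw [zero_add, one_mul, Nat.div_eq_of_lt (ZMod.val_lt _), Nat.cast_zero, zero_mul]
    | succ b ih =>
      intro hb
      rw [WW_succ (b + 1) (by omega) hb, ih (by omega), hcon (b + 1) (by omega) hb, add_zero]
  have h1 := hall (p - 2) (by omega)
  have e1 : p - 2 + 1 = p - 1 := by omega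
  rw [e1] at h1
  have h2 : ∀ t : (ZMod p)ˣ, (((p - 1) * (t : ZMod p).val / p : ℕ) : ZMod p) *
      ((t⁻¹ : (ZMod p)ˣ) : ZMod p) = 1 - ((t⁻¹ : (ZMod p)ˣ) : ZMod p) := by
    intro t
    obtain ⟨v, hv⟩ : ∃ v, v = (t : ZMod p).val := ⟨_, rfl⟩
    have hv0 : 0 < v := by
      rw [hv]
      exact val_pos t
    have hvp : v < p := by
      rw [hv]
      exact ZMod.val_lt _
    have h3 : (p - 1) * v / p = v - 1 := by
      obtain ⟨u, hu⟩ : ∃ u, p = u + 1 := ⟨p - 1, by omega⟩
      obtain ⟨w, hw⟩ : ∃ w, v = w + 1 := ⟨v - 1, by omega⟩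
      rw [hu, hw, Nat.add_sub_cancel, Nat.add_sub_cancel]
      have e2 : u * (w + 1) = (u - w) + (u + 1) * w := by
        have : w ≤ u := by omega
        obtain ⟨d, hd⟩ := Nat.exists_eq_add_of_le this
        rw [hd, Nat.add_sub_cancel_left]
        ring
      rw [e2, Nat.add_mul_div_left _ _ (by omega), Nat.div_eq_of_lt (by omega), zero_add]
    rw [← hv, h3, Nat.cast_sub hv0, Nat.cast_one]
    have h4 : ((v : ℕ) : ZMod p) = (t : ZMod p) := by
      rw [hv, ZMod.natCast_val, ZMod.cast_id', id]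
    rw [h4, sub_mul, one_mul, Units.mul_inv]
  unfold WW at h1
  rw [Finset.sum_congr rfl fun t _ => h2 t, Finset.sum_sub_distrib, Finset.sum_const,
    Finset.card_univ, ZMod.card_units_eq_totient, Nat.totient_prime hpp, nsmul_one] at h1
  have h3 : ∑ t : (ZMod p)ˣ, ((t⁻¹ : (ZMod p)ˣ) : ZMod p) = 0 := by
    have e2 := Equiv.sum_comp (Equiv.mulLeft (-1 : (ZMod p)ˣ))
      (fun t : (ZMod p)ˣ => ((t⁻¹ : (ZMod p)ˣ) : ZMod p))
    have e3 : ∀ t : (ZMod p)ˣ, (((Equiv.mulLeft (-1 : (ZMod p)ˣ) t)⁻¹ : (ZMod p)ˣ) : ZMod p) =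
        -((t⁻¹ : (ZMod p)ˣ) : ZMod p) := by
      intro t
      have e0 : Equiv.mulLeft (-1 : (ZMod p)ˣ) t = -t := neg_one_mul t
      rw [e0, inv_neg, Units.val_neg]
    rw [Finset.sum_congr rfl fun t _ => e3 t, Finset.sum_neg_distrib] at e2
    have h2F : (2 : ZMod p) ≠ 0 := by
      have : ((2 : ℕ) : ZMod p) ≠ 0 := by
        rw [Ne, ZMod.natCast_eq_zero_iff]
        intro hd
        exact hp2 ((Nat.prime_dvd_prime_iff_eq hpp Nat.prime_two).1 hd)
      exact_mod_cast this
    have e4 : (2 : ZMod p) * ∑ t : (ZMod p)ˣ, ((t⁻¹ : (ZMod p)ˣ) : ZMod p) = 0 := by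
      linear_combination -e2
    exact (mul_eq_zero.1 e4).resolve_left h2F
  rw [h3, sub_zero, Nat.cast_sub (by omega), ZMod.natCast_self, Nat.cast_one, zero_sub] at h1
  exact one_ne_zero (neg_eq_zero.1 h1)

/-- the derivative at `1` of a product of the `f (X ^ j)` -/
theorem prod_comp {F ι : Type*} [Field F] (s : Finset ι) (j : ι → ℕ) (f : F[X]) :
    (∏ t ∈ s, f.comp (X ^ j t)).eval 1 = f.eval 1 ^ s.card ∧
    (derivative (∏ t ∈ s, f.comp (X ^ j t))).eval 1 * f.eval 1 =
      (∑ t ∈ s, (j t : F)) * (derivative f).eval 1 * f.eval 1 ^ s.card := by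
  classical
  induction s using Finset.induction_on with
  | empty => simp
  | insert i s hi ih =>
    obtain ⟨h1, h2⟩ := ih
    have e1 : (f.comp (X ^ j i)).eval 1 = f.eval 1 := by
      rw [eval_comp, eval_pow, eval_X, one_pow]
    have e2 : (derivative (f.comp (X ^ j i))).eval 1 = j i * (derivative f).eval 1 := by
      rw [derivative_comp, eval_mul, eval_comp, eval_pow, eval_X, one_pow, derivative_X_pow,
        eval_mul, eval_C, eval_pow, eval_X, one_pow, mul_one]
    rw [Finset.prod_insert hi, Finset.card_insert_of_notMem hi, Finset.sum_insert hi]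
    constructor
    · rw [eval_mul, e1, h1, pow_succ, mul_comm]
    · rw [derivative_mul, eval_add, eval_mul, eval_mul, e1, e2, h1, pow_succ]
      linear_combination f.eval 1 * h2

theorem lama_one {b i : ℕ} {r : ZMod p} (hp3 : 3 ≤ p) (f : (ZMod p)[X])
    (h : (X - 1) ^ (p - 1) ∣ thPa p b f - C r * X ^ i) (hf : f.eval 1 ≠ 0) :
    (i : ZMod p) * f.eval 1 = hsa p b 1 * (derivative f).eval 1 := by
  obtain ⟨W, hW⟩ := (pow_dvd_pow (X - 1 : (ZMod p)[X]) (by omega : 2 ≤ p - 1)).trans h
  obtain ⟨h1, h2⟩ := prod_comp (Pool.Agent.Y546.WQ.hf p b)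
    (fun t : (ZMod p)ˣ => ((t⁻¹ : (ZMod p)ˣ) : ZMod p).val) f
  have e0 : thPa p b f = ∏ t ∈ Pool.Agent.Y546.WQ.hf p b,
      f.comp (X ^ ((t⁻¹ : (ZMod p)ˣ) : ZMod p).val) := rfl
  rw [← e0] at h1 h2
  have e1 := congrArg (eval 1) hW
  have e2 := congrArg (fun q => eval 1 (derivative q)) hW
  simp only [eval_sub, eval_mul, eval_pow, eval_X, one_pow, eval_C, eval_one, sub_self, mul_one,
    derivative_sub, derivative_mul, derivative_pow, derivative_X, derivative_one, derivative_C,
    eval_add, zero_mul, zero_add, sub_zero] at e1 e2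
  have e3 : ∑ t ∈ Pool.Agent.Y546.WQ.hf p b, ((((t⁻¹ : (ZMod p)ˣ) : ZMod p).val : ℕ) : ZMod p) =
      hsa p b 1 := by
    unfold hsa
    refine Finset.sum_congr rfl fun t _ => ?_
    rw [ZMod.natCast_val, ZMod.cast_id', id, pow_one]
  rw [e3] at h2
  rw [zero_pow two_ne_zero, zero_mul] at e1
  have e4 : eval 1 (thPa p b f) = r := sub_eq_zero.1 e1
  have e5 : eval 1 (derivative (thPa p b f)) = r * i := by
    norm_num at e2
    exact sub_eq_zero.1 e2
  rw [e5, ← e4, h1] at h2
  have h3 : f.eval 1 ^ (Pool.Agent.Y546.WQ.hf p b).card ≠ 0 := pow_ne_zero _ hf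
  apply mul_left_cancel₀ h3
  linear_combination h2

/-- the derivative at `1` of a palindromic polynomial -/
theorem pal_one {F : Type*} [Field F] {g : F[X]} {s : ℕ} (hd : g.natDegree ≤ s)
    (h : g.reflect s = g) : 2 * (derivative g).eval 1 = s * g.eval 1 := by
  have hc : ∀ j ≤ s, g.coeff j = g.coeff (s - j) := by
    intro j hj
    have := congrArg (fun q => q.coeff j) h
    simp only [coeff_reflect, revAt_le hj] at this
    exact this.symm
  have e1 : g.eval 1 = ∑ j ∈ Finset.range (s + 1), g.coeff j := by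
    rw [eval_eq_sum_range' (by omega : g.natDegree < s + 1)]
    exact Finset.sum_congr rfl fun j _ => by rw [one_pow, mul_one]
  have e2 : (derivative g).eval 1 = ∑ j ∈ Finset.range (s + 1), g.coeff j * j := by
    rw [derivative_eval, sum_over_range' g (by intro n; simp) (s + 1) (by omega)]
    exact Finset.sum_congr rfl fun j _ => by rw [one_pow, mul_one]
  have e3 : ∑ j ∈ Finset.range (s + 1), g.coeff j * (j : F) =
      ∑ j ∈ Finset.range (s + 1), g.coeff j * ((s : F) - j) := by
    rw [← Finset.sum_range_reflect]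
    refine Finset.sum_congr rfl fun j hj => ?_
    have hj' : j ≤ s := by
      rw [Finset.mem_range] at hj
      omega
    have e4 : s + 1 - 1 - j = s - j := by omega
    rw [e4, ← hc j hj', Nat.cast_sub hj']
  rw [e1, two_mul]
  nth_rewrite 2 [e2]
  rw [e2]
  nth_rewrite 2 [e3]
  rw [← Finset.sum_add_distrib, Finset.mul_sum]
  exact Finset.sum_congr rfl fun j _ => by ring

end

end Pool.Agent.U549.FW
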