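import Pool.Agent.U549.LF.SymM
import Pool.Agent.U549.FW.One

/-!
# The relation at `p`
-/

set_option autoImplicit false
set_option linter.unusedSectionVars false

namespace Pool.Agent.U549.FW

open NumberField IsDedekindDomain Polynomial Pool.Agent.Y546.WQ Pool.Agent.N840.FC
  Pool.Agent.U549.LF

section

variable {p : ℕ} [Fact p.Prime] {E : Type} [Field E] [NumberField E]

theorem eval_der_one {F : Type*} [Field F] (a j : ℕ) (hj : 2 ≤ j) (g h : F[X]) :
    (X ^ a * g + (X - 1) ^ j * h).eval 1 = g.eval 1 ∧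
    (derivative (X ^ a * g + (X - 1) ^ j * h)).eval 1 =
      a * g.eval 1 + (derivative g).eval 1 := by
  obtain ⟨i, rfl⟩ := Nat.exists_eq_add_of_le hj
  constructor
  · simp [eval_add, eval_mul]
  · simp [eval_add, eval_mul, derivative_mul, derivative_pow, pow_add]

theorem der_prod {F ι : Type*} [Field F] (s : Finset ι) (x y : ι → F)
    (hne : ∀ i ∈ s, x i + y i ≠ 0) :
    (derivative (∏ i ∈ s, (C (x i) + X * C (y i)))).eval 1 =
      (∏ i ∈ s, (x i + y i)) * ∑ i ∈ s, y i / (x i + y i) := by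
  classical
  induction s using Finset.induction_on with
  | empty => simp
  | insert i s hi ih =>
    have h1 := ih fun j hj => hne j (Finset.mem_insert_of_mem hj)
    have h2 := hne i (Finset.mem_insert_self i s)
    have h3 : (∏ i ∈ s, (C (x i) + X * C (y i))).eval 1 = ∏ i ∈ s, (x i + y i) := by
      rw [eval_prod]
      exact Finset.prod_congr rfl fun j _ => by simp
    rw [Finset.prod_insert hi, Finset.prod_insert hi, Finset.sum_insert hi, derivative_mul,
      eval_add, eval_mul, eval_mul, h1, h3]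
    have h4 : (derivative (C (x i) + X * C (y i))).eval 1 = y i := by simp
    have h5 : (C (x i) + X * C (y i)).eval 1 = x i + y i := by simp
    rw [h4, h5, mul_add]
    have h6 : y i / (x i + y i) * (x i + y i) = y i := div_mul_cancel₀ _ h2
    linear_combination -(∏ i ∈ s, (x i + y i)) * h6

/-- the relations at `p`, with a denominator prime to `q` -/
theorem rel_of (hp2 : p ≠ 2) (c : Cyc p E) (f : ℤ[X]) (hf0 : aeval c.z f ≠ 0)
    (hf1 : f.eval 1 ≠ 0)
    (hv : ∀ P : HeightOneSpectrum (𝓞 E), ((p : ℕ) : 𝓞 E) ∉ P.asIdeal →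
      ∃ m : ℤ, P.valuation E (aeval c.z f) =
        P.valuation E ((f.eval 1 : ℤ) : E) * WithZero.exp ((p : ℤ) * m))
    (q : ℕ) [Fact q.Prime]
    (hP : ∀ P : Ideal (𝓞 E), P.IsPrime → ((q : ℕ) : 𝓞 E) ∈ P →
      ∀ w : 𝓞 E, (w : E) = aeval c.z f → w ∉ P)
    (k a : ℕ) (g : (ZMod p)[X]) (hk : k + 3 ≤ p) (hg1 : g.eval 1 ≠ 0)
    (hfg : f.map (Int.castRingHom (ZMod p)) = (X - 1) ^ k * (X ^ a * g)) :
    ∃ (f2 : ℤ[X]) (n : ℤ), ¬ (q : ℤ) ∣ n ∧
      aeval c.z f = (c.z - 1) ^ k * aeval c.z f2 ∧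
      ∀ b : ℕ, 0 < b → b + 2 ≤ p → ∃ (i : ℕ) (u : E), u ≠ 0 ∧
        tha c b (aeval c.z f2 / (n : E)) = c.z ^ i * u ^ p ∧
        (i : ZMod p) * g.eval 1 = hsa p b 1 * (a * g.eval 1 + (derivative g).eval 1) := by
  have hpp : p.Prime := Fact.out
  have hqq : q.Prime := Fact.out
  obtain ⟨F1, hF1⟩ := Polynomial.map_surjective (Int.castRingHom (ZMod p))
    ZMod.intCast_surjective (X ^ a * g)
  obtain ⟨H, hH⟩ := lift_mod (p := p) (f - (X - 1) ^ k * F1) (by
    rw [Polynomial.map_sub, Polynomial.map_mul, Polynomial.map_pow, Polynomial.map_sub,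
      Polynomial.map_one, map_X, hF1, hfg, sub_self])
  have hf : f = (X - 1) ^ k * F1 + C (p : ℤ) * H := by rw [← hH]; ring
  obtain ⟨f2, hf2⟩ : ∃ f2 : ℤ[X], f2 = F1 + G0 p * (X - 1) ^ (p - 1 - k) * H := ⟨_, rfl⟩
  have hz1 : c.z - 1 ≠ 0 := by
    intro h
    exact c.prim.ne_one hpp.one_lt (sub_eq_zero.1 h)
  have hG := G0_eval hp2 c
  have hval : aeval c.z f = (c.z - 1) ^ k * aeval c.z f2 := by
    have e1 : aeval c.z f = (c.z - 1) ^ k * aeval c.z F1 + (p : E) * aeval c.z H := by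
      rw [hf]
      simp
    have e2 : aeval c.z f2 = aeval c.z F1 + aeval c.z (G0 p) * (c.z - 1) ^ (p - 1 - k) *
        aeval c.z H := by
      rw [hf2]
      simp
    have e3 : (c.z - 1) ^ (p - 1) = (c.z - 1) ^ k * (c.z - 1) ^ (p - 1 - k) := by
      rw [← pow_add]
      congr 1
      omega
    rw [e1, e2, ← hG, e3]
    ring
  have hf20 : aeval c.z f2 ≠ 0 := by
    intro h
    rw [h, mul_zero] at hval
    exact hf0 hval
  have hmap : f2.map (Int.castRingHom (ZMod p)) = X ^ a * g + (X - 1) ^ (p - 1 - k) *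
      ((G0 p).map (Int.castRingHom (ZMod p)) * H.map (Int.castRingHom (ZMod p))) := by
    rw [hf2, Polynomial.map_add, Polynomial.map_mul, Polynomial.map_mul, Polynomial.map_pow,
      Polynomial.map_sub, Polynomial.map_one, map_X, hF1]
    ring
  obtain ⟨ev1, ev2⟩ := eval_der_one a (p - 1 - k) (by omega) g
    ((G0 p).map (Int.castRingHom (ZMod p)) * H.map (Int.castRingHom (ZMod p)))
  rw [← hmap] at ev1 ev2
  have hp1 : ¬ (p : ℤ) ∣ f2.eval 1 := by
    intro hd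
    have e2 := eval_map_apply_one (p := p) f2
    rw [ev1, (ZMod.intCast_zmod_eq_zero_iff_dvd _ p).2 hd] at e2
    exact hg1 e2
  -- the part of `f (1)` prime to `p` and to `q`
  obtain ⟨r, r', n, hn, hnq, hrn⟩ : ∃ (r r' : ℕ) (n : ℤ), ¬ (p : ℤ) ∣ n ∧ ¬ (q : ℤ) ∣ n ∧
      f.eval 1 = p ^ r * (q ^ r' * n) := by
    have hfin : FiniteMultiplicity (p : ℤ) (f.eval 1) :=
      Int.finiteMultiplicity_iff.2 ⟨by simpa using hpp.one_lt.ne', hf1⟩
    obtain ⟨n, h1, h2⟩ := hfin.exists_eq_pow_mul_and_not_dvd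
    have hn0 : n ≠ 0 := by
      rintro rfl
      exact h2 (dvd_zero _)
    have hfin2 : FiniteMultiplicity (q : ℤ) n :=
      Int.finiteMultiplicity_iff.2 ⟨by simpa using hqq.one_lt.ne', hn0⟩
    obtain ⟨n', h3, h4⟩ := hfin2.exists_eq_pow_mul_and_not_dvd
    refine ⟨multiplicity (p : ℤ) (f.eval 1), multiplicity (q : ℤ) n, n', ?_, h4, ?_⟩
    · intro h5
      apply h2
      rw [h3]
      exact h5.mul_left _
    · rw [← h3]
      exact h1
  have hv2 : ∀ P : HeightOneSpectrum (𝓞 E), ∃ m : ℤ, P.valuation E (aeval c.z f2) =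
      P.valuation E ((n : ℤ) : E) * WithZero.exp ((p : ℤ) * m) := by
    intro P
    by_cases hP1 : ((p : ℕ) : 𝓞 E) ∈ P.asIdeal
    · refine ⟨0, ?_⟩
      rw [mul_zero, WithZero.exp_zero, mul_one]
      rw [val_at_p c f2 hp1 P hP1, val_int P hP1 n hn]
    · have vp : P.valuation E (p : E) = 1 := by
        have h5 := val_one P ((p : ℕ) : 𝓞 E) hP1
        simpa using h5
      have vz : P.valuation E (c.z - 1) = 1 := val_z_sub c P hP1
      by_cases hP2 : ((q : ℕ) : 𝓞 E) ∈ P.asIdeal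
      · refine ⟨0, ?_⟩
        rw [mul_zero, WithZero.exp_zero, mul_one, val_int (p := q) P hP2 n hnq]
        obtain ⟨w, hwz, hw⟩ := exists_zint c
        have hΛ : algebraMap (𝓞 E) E (aeval w f) = aeval c.z f := by
          have hwz' : algebraMap (𝓞 E) E w = c.z := hwz
          rw [← hwz']
          exact (aeval_algebraMap_apply E w f).symm
        have h6 := val_one P (aeval w f) (hP P.asIdeal P.isPrime hP2 _ hΛ)
        have h7 : P.valuation E (aeval c.z f) = 1 := by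
          rw [← hΛ]
          exact h6
        rw [hval, map_mul, map_pow, vz, one_pow, one_mul] at h7
        exact h7
      · obtain ⟨m, hm⟩ := hv P hP1
        have vq : P.valuation E (q : E) = 1 := by
          have h5 := val_one P ((q : ℕ) : 𝓞 E) hP2
          simpa using h5
        refine ⟨m, ?_⟩
        rw [hval, map_mul, map_pow, vz, one_pow, one_mul] at hm
        rw [hm, hrn]
        push_cast
        rw [map_mul, map_pow, vp, one_pow, one_mul, map_mul, map_pow, vq, one_pow, one_mul]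
  refine ⟨f2, n, hnq, hval, ?_⟩
  intro b hb hbp
  obtain ⟨u, hu, i, hi⟩ := relGA aUNITA hp2 b hb hbp c f2 n hn hp1 hf20 hv2
  obtain ⟨r', hr', hdv⟩ := Y919.WQ.mainLAMA p hp2 b hb hbp E c f2 n hn hp1 u hu i hi
  have h1 := lama_one (by omega) _ hdv (by rw [ev1]; exact hg1)
  rw [ev1, ev2] at h1
  exact ⟨i, u, hu, hi, h1⟩

end

section

variable {p : ℕ} [Fact p.Prime] {E : Type} [Field E] [NumberField E]
  {K N : Type} [Field K] [NumberField K] [Field N] [NumberField N] [Algebra E N]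

theorem p_data [IsGalois E N] (hcard : Nat.card (K →+* N) = Module.finrank ℚ K)
    (hdv : Module.finrank E N ∣ (Module.finrank ℚ K).factorial) (hp2 : p ≠ 2) (c : Cyc p E)
    {F : Type} [Field F] [CharP F p] (Q : Ideal (𝓞 N))
    (hQ : Q.IsPrime) (hQp : ((p : ℕ) : 𝓞 N) ∈ Q) (ψ : 𝓞 N →+* F)
    (hψ : ∀ w : 𝓞 N, ψ w = 0 ↔ w ∈ Q) {x y z : 𝓞 K} (hs : Mix p K x y z)
    (D : Finset (K →+* N)) (hD : ∀ τ : K →+* N, τ ∈ D ↔
      (ψ (RingOfIntegers.mapRingHom τ x) ≠ 0 ∧ ψ (RingOfIntegers.mapRingHom τ y) ≠ 0 ∧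
        ψ (RingOfIntegers.mapRingHom τ z) ≠ 0))
    (DX DZ : Finset (K →+* N))
    (hDX : ∀ τ : K →+* N, τ ∈ DX ↔ ψ (RingOfIntegers.mapRingHom τ x) = 0)
    (hDZ : ∀ τ : K →+* N, τ ∈ DZ ↔ ψ (RingOfIntegers.mapRingHom τ z) = 0)
    (hm3 : Module.finrank ℚ K + 3 ≤ p)
    (f : ℤ[X])
    (hf : f.map (Int.castRingHom (𝓞 N)) = nrmP K N x y)
    (q : ℕ) [Fact q.Prime]
    (hP : ∀ P : Ideal (𝓞 E), P.IsPrime → ((q : ℕ) : 𝓞 E) ∈ P →
      ∀ w : 𝓞 E, (w : E) = aeval c.z f → w ∉ P) :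
    ∃ (f2 : ℤ[X]) (n : ℤ), ¬ (q : ℤ) ∣ n ∧
      aeval c.z f = (c.z - 1) ^ DZ.card * aeval c.z f2 ∧
      ∀ b : ℕ, 0 < b → b + 2 ≤ p → ∃ (i : ℕ) (u : E), u ≠ 0 ∧
        tha c b (aeval c.z f2 / (n : E)) = c.z ^ i * u ^ p ∧
        2 * (i : F) = ZMod.castHom (dvd_refl p) F (hsa p b 1) * (2 * DX.card + D.card +
          ∑ τ ∈ D, (ψ (RingOfIntegers.mapRingHom τ x) - ψ (RingOfIntegers.mapRingHom τ y)) /
            ψ (RingOfIntegers.mapRingHom τ z)) := by
  classical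
  have hpp : p.Prime := Fact.out
  have hmem : ∀ τ : K →+* N, ((p : ℕ) : 𝓞 K) ∈ Q.comap (RingOfIntegers.mapRingHom τ) := by
    intro τ
    rw [Ideal.mem_comap, map_natCast]
    exact hQp
  have hsum : ∀ τ : K →+* N, ψ (RingOfIntegers.mapRingHom τ x) +
      ψ (RingOfIntegers.mapRingHom τ y) + ψ (RingOfIntegers.mapRingHom τ z) = 0 := by
    intro τ
    rw [← map_add, ← map_add, hψ, ← map_add, ← map_add]
    exact lin_p hpp (Q.comap (RingOfIntegers.mapRingHom τ)) (hQ.comap _) (hmem τ) hs.eq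
  have hnot : ∀ τ : K →+* N, ¬ (ψ (RingOfIntegers.mapRingHom τ x) = 0 ∧
      ψ (RingOfIntegers.mapRingHom τ y) = 0 ∧ ψ (RingOfIntegers.mapRingHom τ z) = 0) := by
    intro τ h
    refine hs.cp _ (hQ.comap _) (hmem τ) ⟨?_, ?_, ?_⟩
    · exact (hψ _).1 h.1
    · exact (hψ _).1 h.2.1
    · exact (hψ _).1 h.2.2
  let κ : ZMod p →+* F := ZMod.castHom (dvd_refl p) F
  have hκ : κ.comp (Int.castRingHom (ZMod p)) = ψ.comp (Int.castRingHom (𝓞 N)) :=
    RingHom.ext_int _ _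
  have hfF : (f.map (Int.castRingHom (ZMod p))).map κ =
      ∏ τ : K →+* N, (C (ψ (RingOfIntegers.mapRingHom τ x)) +
        X * C (ψ (RingOfIntegers.mapRingHom τ y))) := by
    rw [Polynomial.map_map, hκ, ← Polynomial.map_map, hf]
    unfold nrmP
    rw [Polynomial.map_prod]
    refine Finset.prod_congr rfl fun τ _ => ?_
    simp
  -- the factors outside of `D`
  obtain ⟨d, hd⟩ : ∃ d : (K →+* N) → F, d = fun τ =>
    if ψ (RingOfIntegers.mapRingHom τ y) = 0 then ψ (RingOfIntegers.mapRingHom τ x)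
      else ψ (RingOfIntegers.mapRingHom τ y) := ⟨_, rfl⟩
  obtain ⟨k', hk'⟩ : ∃ k' : (K →+* N) → ℕ, k' = fun τ => if τ ∈ DZ then 1 else 0 := ⟨_, rfl⟩
  obtain ⟨a', ha'⟩ : ∃ a' : (K →+* N) → ℕ, a' = fun τ => if τ ∈ DX then 1 else 0 := ⟨_, rfl⟩
  have hfac : ∀ τ : K →+* N, τ ∉ D → (d τ ≠ 0 ∧ k' τ ≤ 1 ∧
      C (ψ (RingOfIntegers.mapRingHom τ x)) + X * C (ψ (RingOfIntegers.mapRingHom τ y)) =
        C (d τ) * ((X - 1) ^ k' τ * X ^ a' τ)) := by
    intro τ hτ
    rw [hD] at hτ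
    have e1 := hsum τ
    have e2 := hnot τ
    have hkk : k' τ = if τ ∈ DZ then 1 else 0 := by rw [hk']
    have haa : a' τ = if τ ∈ DX then 1 else 0 := by rw [ha']
    have hdd : d τ = if ψ (RingOfIntegers.mapRingHom τ y) = 0 then
      ψ (RingOfIntegers.mapRingHom τ x) else ψ (RingOfIntegers.mapRingHom τ y) := by rw [hd]
    by_cases hz : ψ (RingOfIntegers.mapRingHom τ z) = 0
    · have hy : ψ (RingOfIntegers.mapRingHom τ y) ≠ 0 := by
        intro h
        rw [hz, h, add_zero, add_zero] at e1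
        exact e2 ⟨e1, h, hz⟩
      have e3 : ψ (RingOfIntegers.mapRingHom τ x) = -ψ (RingOfIntegers.mapRingHom τ y) := by
        rw [hz] at e1
        linear_combination e1
      have hx : ψ (RingOfIntegers.mapRingHom τ x) ≠ 0 := by
        rw [e3]
        exact neg_ne_zero.2 hy
      rw [if_pos ((hDZ τ).2 hz)] at hkk
      rw [if_neg (fun h => hx ((hDX τ).1 h))] at haa
      rw [if_neg hy] at hdd
      rw [hkk, haa, hdd]
      refine ⟨hy, le_rfl, ?_⟩
      rw [e3, C_neg]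
      ring
    · rw [if_neg (fun h => hz ((hDZ τ).1 h))] at hkk
      by_cases hx : ψ (RingOfIntegers.mapRingHom τ x) = 0
      · have hy : ψ (RingOfIntegers.mapRingHom τ y) ≠ 0 := by
          intro h
          rw [hx, h, zero_add, zero_add] at e1
          exact hz e1
        rw [if_pos ((hDX τ).2 hx)] at haa
        rw [if_neg hy] at hdd
        rw [hkk, haa, hdd]
        refine ⟨hy, by norm_num, ?_⟩
        rw [hx, C_0]
        ring
      · have hy : ψ (RingOfIntegers.mapRingHom τ y) = 0 := by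
          by_contra hy
          exact hτ ⟨hx, hy, hz⟩
        rw [if_neg (fun h => hx ((hDX τ).1 h))] at haa
        rw [if_pos hy] at hdd
        rw [hkk, haa, hdd]
        refine ⟨hx, by norm_num, ?_⟩
        rw [hy, C_0]
        ring
  have hsk : ∑ τ ∈ Dᶜ, k' τ = DZ.card := by
    rw [Finset.card_eq_sum_ones, ← Finset.sum_filter_ne_zero]
    have e1 : (Dᶜ.filter fun τ => k' τ ≠ 0) = DZ := by
      ext τ
      rw [Finset.mem_filter, Finset.mem_compl, hk']
      constructor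
      · rintro ⟨-, h1⟩
        by_contra h2
        simp [h2] at h1
      · intro h1
        refine ⟨?_, by simp [h1]⟩
        rw [hD]
        intro h2
        exact h2.2.2 ((hDZ τ).1 h1)
    rw [e1]
    refine Finset.sum_congr rfl fun τ hτ => ?_
    rw [hk']
    simp [hτ]
  have hsa' : ∑ τ ∈ Dᶜ, a' τ = DX.card := by
    rw [Finset.card_eq_sum_ones, ← Finset.sum_filter_ne_zero]
    have e1 : (Dᶜ.filter fun τ => a' τ ≠ 0) = DX := by
      ext τ
      rw [Finset.mem_filter, Finset.mem_compl, ha']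
      constructor
      · rintro ⟨-, h1⟩
        by_contra h2
        simp [h2] at h1
      · intro h1
        refine ⟨?_, by simp [h1]⟩
        rw [hD]
        intro h2
        exact h2.1 ((hDX τ).1 h1)
    rw [e1]
    refine Finset.sum_congr rfl fun τ hτ => ?_
    rw [ha']
    simp [hτ]
  obtain ⟨h, hh⟩ : ∃ h : F[X], h = ∏ τ ∈ D, (C (ψ (RingOfIntegers.mapRingHom τ x)) +
      X * C (ψ (RingOfIntegers.mapRingHom τ y))) := ⟨_, rfl⟩
  obtain ⟨d0, hd0⟩ : ∃ d0 : F, d0 = ∏ τ ∈ Dᶜ, d τ := ⟨_, rfl⟩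
  have hd0n : d0 ≠ 0 := by
    rw [hd0]
    exact Finset.prod_ne_zero_iff.2 fun τ hτ => (hfac τ (Finset.mem_compl.1 hτ)).1
  have hprod : ∏ τ : K →+* N, (C (ψ (RingOfIntegers.mapRingHom τ x)) +
        X * C (ψ (RingOfIntegers.mapRingHom τ y))) =
      (X - 1) ^ (∑ τ ∈ Dᶜ, k' τ) * (X ^ (∑ τ ∈ Dᶜ, a' τ) * (C d0 * h)) := by
    rw [← Finset.prod_mul_prod_compl D, ← hh,
      Finset.prod_congr (s₁ := Dᶜ) rfl fun τ hτ => (hfac τ (Finset.mem_compl.1 hτ)).2.2,
      Finset.prod_mul_distrib, Finset.prod_mul_distrib, Finset.prod_pow_eq_pow_sum,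
      Finset.prod_pow_eq_pow_sum, ← map_prod, ← hd0]
    ring
  have hx0 : ∀ τ ∈ D, ψ (RingOfIntegers.mapRingHom τ x) ≠ 0 := fun τ hτ => ((hD τ).1 hτ).1
  have hy0 : ∀ τ ∈ D, ψ (RingOfIntegers.mapRingHom τ y) ≠ 0 := fun τ hτ => ((hD τ).1 hτ).2.1
  have hz0 : ∀ τ ∈ D, ψ (RingOfIntegers.mapRingHom τ z) ≠ 0 := fun τ hτ => ((hD τ).1 hτ).2.2
  have heval : ∀ r : F, h.eval r = ∏ τ ∈ D, (ψ (RingOfIntegers.mapRingHom τ x) +
      r * ψ (RingOfIntegers.mapRingHom τ y)) := by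
    intro r
    rw [hh, eval_prod]
    refine Finset.prod_congr rfl fun τ _ => ?_
    rw [eval_add, eval_mul, eval_C, eval_C, eval_X]
  have hh1 : (C d0 * h).eval 1 ≠ 0 := by
    rw [eval_mul, eval_C, heval]
    refine mul_ne_zero hd0n (Finset.prod_ne_zero_iff.2 fun τ hτ => ?_)
    intro e
    apply hz0 τ hτ
    linear_combination hsum τ - e
  have hh0 : (C d0 * h).eval 0 ≠ 0 := by
    rw [eval_mul, eval_C, heval]
    refine mul_ne_zero hd0n (Finset.prod_ne_zero_iff.2 fun τ hτ => ?_)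
    rw [zero_mul, add_zero]
    exact hx0 τ hτ
  -- decomposition modulo `p`
  have hfne : f.map (Int.castRingHom (ZMod p)) ≠ 0 := by
    intro e
    rw [e, Polynomial.map_zero, hprod] at hfF
    have hX1 : (X - 1 : F[X]) ≠ 0 := by
      rw [← C_1]
      exact X_sub_C_ne_zero 1
    have hne : C d0 * h ≠ 0 := by
      intro e
      rw [e, eval_zero] at hh1
      exact hh1 rfl
    exact mul_ne_zero (pow_ne_zero _ hX1) (mul_ne_zero (pow_ne_zero _ X_ne_zero) hne) hfF.symm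
  obtain ⟨k, a, g, hg, hg1, hg0⟩ := exists_dec hfne
  have hgF : (X - 1) ^ k * (X ^ a * g.map κ) = (X - 1) ^ (∑ τ ∈ Dᶜ, k' τ) *
      (X ^ (∑ τ ∈ Dᶜ, a' τ) * (C d0 * h)) := by
    rw [← hprod, ← hfF, hg, Polynomial.map_mul, Polynomial.map_mul, Polynomial.map_pow,
      Polynomial.map_pow, Polynomial.map_sub, Polynomial.map_one, map_X]
  have eκ1 : (g.map κ).eval 1 ≠ 0 := by
    have e := Polynomial.eval_one_map κ g
    rw [e]
    exact (map_ne_zero κ).2 hg1
  have eκ0 : (g.map κ).eval 0 ≠ 0 := by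
    have e := Polynomial.eval_zero_map κ g
    rw [e]
    exact (map_ne_zero κ).2 hg0
  obtain ⟨hk, hgF2⟩ := root_cancel (1 : F) (k := k) (k' := ∑ τ ∈ Dᶜ, k' τ)
    (A := X ^ a * g.map κ) (B := X ^ (∑ τ ∈ Dᶜ, a' τ) * (C d0 * h))
    (by rw [eval_mul, eval_pow, eval_X, one_pow, one_mul]; exact eκ1)
    (by rw [eval_mul, eval_pow, eval_X, one_pow, one_mul]; exact hh1)
    (by rw [C_1]; exact hgF)
  obtain ⟨ha, hgF3⟩ := root_cancel (0 : F) (k := a) (k' := ∑ τ ∈ Dᶜ, a' τ)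
    (A := g.map κ) (B := C d0 * h) eκ0 hh0 (by rw [C_0, sub_zero]; exact hgF2)
  have hks : k + D.card ≤ Module.finrank ℚ K := by
    have e1 : ∑ τ ∈ Dᶜ, k' τ ≤ Dᶜ.card := by
      have := Finset.sum_le_card_nsmul Dᶜ k' 1 fun τ hτ => (hfac τ (Finset.mem_compl.1 hτ)).2.1
      simpa using this
    have e2 := Finset.card_compl_add_card D
    rw [← Nat.card_eq_fintype_card, hcard] at e2
    omega
  obtain ⟨v1, v2, v3⟩ := fldV (by omega) hdv hp2 c x y z hs.Y0 hs.Z0 hs.eq f hf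
  rw [hsk] at hk
  rw [hsa'] at ha
  subst hk
  subst ha
  obtain ⟨f2, n, hnq, hff, hb⟩ := rel_of hp2 c f v1 v2 v3 q hP DZ.card DX.card g (by omega)
    hg1 hg
  refine ⟨f2, n, hnq, hff, fun b hb0 hbp => ?_⟩
  obtain ⟨i, u, hu, hi, hi2⟩ := hb b hb0 hbp
  refine ⟨i, u, hu, hi, ?_⟩
  have hxy : ∀ τ ∈ D, ψ (RingOfIntegers.mapRingHom τ x) + ψ (RingOfIntegers.mapRingHom τ y) ≠ 0 := by
    intro τ hτ e
    apply hz0 τ hτ
    linear_combination hsum τ - e
  have hev1 : (g.map κ).eval 1 = d0 * h.eval 1 := by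
    rw [hgF3, eval_mul, eval_C]
  have hev2 : (derivative (g.map κ)).eval 1 = d0 * (derivative h).eval 1 := by
    rw [hgF3, derivative_C_mul, eval_mul, eval_C]
  have hh1' : h.eval 1 = ∏ τ ∈ D, (ψ (RingOfIntegers.mapRingHom τ x) +
      ψ (RingOfIntegers.mapRingHom τ y)) := by
    rw [heval]
    exact Finset.prod_congr rfl fun τ _ => by rw [one_mul]
  have hh2' : (derivative h).eval 1 = h.eval 1 * ∑ τ ∈ D, ψ (RingOfIntegers.mapRingHom τ y) /
      (ψ (RingOfIntegers.mapRingHom τ x) + ψ (RingOfIntegers.mapRingHom τ y)) := by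
    rw [hh1', hh]
    exact der_prod D _ _ hxy
  have e1 := congrArg κ hi2
  have e2 : κ (g.eval 1) = (g.map κ).eval 1 := (Polynomial.eval_one_map κ g).symm
  have e3 : κ ((derivative g).eval 1) = (derivative (g.map κ)).eval 1 := by
    rw [derivative_map]
    exact (Polynomial.eval_one_map κ _).symm
  rw [map_mul, map_mul, map_add, map_mul, map_natCast, map_natCast, e2, e3, hev2, hh2', hev1] at e1
  have hne : d0 * h.eval 1 ≠ 0 := by
    rw [← hev1]
    exact eκ1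
  have e4 : (i : F) = κ (hsa p b 1) * (DX.card + ∑ τ ∈ D, ψ (RingOfIntegers.mapRingHom τ y) /
      (ψ (RingOfIntegers.mapRingHom τ x) + ψ (RingOfIntegers.mapRingHom τ y))) := by
    apply mul_right_cancel₀ hne
    linear_combination e1
  have e5 : (D.card : F) + ∑ τ ∈ D, (ψ (RingOfIntegers.mapRingHom τ x) -
      ψ (RingOfIntegers.mapRingHom τ y)) / ψ (RingOfIntegers.mapRingHom τ z) =
      2 * ∑ τ ∈ D, ψ (RingOfIntegers.mapRingHom τ y) /
      (ψ (RingOfIntegers.mapRingHom τ x) + ψ (RingOfIntegers.mapRingHom τ y)) := by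
    rw [Finset.card_eq_sum_ones, Nat.cast_sum, ← Finset.sum_add_distrib, Finset.mul_sum]
    refine Finset.sum_congr rfl fun τ hτ => ?_
    have a1 := hz0 τ hτ
    have a2 := hxy τ hτ
    have a3 := hsum τ
    rw [Nat.cast_one]
    field_simp
    linear_combination (ψ (RingOfIntegers.mapRingHom τ x) - ψ (RingOfIntegers.mapRingHom τ y)) * a3
  have e6 : κ = ZMod.castHom (dvd_refl p) F := rfl
  rw [← e6, e4]
  linear_combination -κ (hsa p b 1) * e5

end

end Pool.Agent.U549.FW
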