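import Pool.Agent.U549.LF.Place

/-!
# The norm polynomial is prime to `q`
-/

set_option autoImplicit false
set_option linter.unusedSectionVars false

namespace Pool.Agent.U549.FW

open NumberField IsDedekindDomain Polynomial Pool.Agent.Y546.WQ Pool.Agent.N840.FC
  Pool.Agent.U549.LF

section

variable {p : ℕ} [Fact p.Prime] {E : Type} [Field E] [NumberField E]
  {K N : Type} [Field K] [NumberField K] [Field N] [NumberField N] [Algebra E N]

theorem lin_q (v : HeightOneSpectrum (𝓞 K)) (hp2 : p ≠ 2)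
    (hN : ¬ p ∣ Ideal.absNorm v.asIdeal - 1) {X Y : 𝓞 K} (h : X ^ p + Y ^ p ∈ v.asIdeal) :
    X + Y ∈ v.asIdeal := by
  have hpp : p.Prime := Fact.out
  have hodd : Odd p := hpp.odd_of_ne_two hp2
  have hvm : v.asIdeal.IsMaximal := v.isMaximal
  let _ : Field (𝓞 K ⧸ v.asIdeal) := Ideal.Quotient.field v.asIdeal
  have hfin : Finite (𝓞 K ⧸ v.asIdeal) := Ideal.finiteQuotientOfFreeOfNeBot v.asIdeal v.ne_bot
  have hft : Fintype (𝓞 K ⧸ v.asIdeal) := Fintype.ofFinite _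
  have hck : Nat.card (𝓞 K ⧸ v.asIdeal) = Ideal.absNorm v.asIdeal := rfl
  rw [← Ideal.Quotient.eq_zero_iff_mem, map_add] at h ⊢
  rw [map_pow, map_pow] at h
  obtain ⟨x, hx⟩ : ∃ x, x = Ideal.Quotient.mk v.asIdeal X := ⟨_, rfl⟩
  obtain ⟨y, hy⟩ : ∃ y, y = Ideal.Quotient.mk v.asIdeal Y := ⟨_, rfl⟩
  rw [← hx, ← hy] at h ⊢
  by_cases hy0 : y = 0
  · rw [hy0, zero_pow hpp.ne_zero, add_zero] at h
    rw [hy0, add_zero]
    exact (pow_eq_zero_iff hpp.ne_zero).1 h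
  have h1 : (x / -y) ^ p = 1 := by
    rw [div_pow, hodd.neg_pow, div_eq_one_iff_eq (neg_ne_zero.2 (pow_ne_zero _ hy0))]
    linear_combination h
  have h2 : (x / -y) ≠ 0 := by
    intro h0
    rw [h0, zero_pow hpp.ne_zero] at h1
    exact zero_ne_one h1
  have h3 : (x / -y) ^ (Ideal.absNorm v.asIdeal - 1) = 1 := by
    rw [← hck, Nat.card_eq_fintype_card]
    exact FiniteField.pow_card_sub_one_eq_one _ h2
  have h4 := orderOf_dvd_of_pow_eq_one h1
  have h5 := orderOf_dvd_of_pow_eq_one h3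
  have h6 : x / -y = 1 := by
    rcases (Nat.dvd_prime hpp).1 h4 with h6 | h6
    · exact orderOf_eq_one_iff.1 h6
    · rw [h6] at h5
      exact absurd h5 hN
  rw [div_eq_one_iff_eq (neg_ne_zero.2 hy0)] at h6
  rw [h6, neg_add_cancel]

theorem unit_q {q : ℕ} [Fact q.Prime] [IsGalois E N] (hqp : q ≠ p) (hp2 : p ≠ 2) (c : Cyc p E)
    {X Y Z : 𝓞 K} (heq : X ^ p + Y ^ p + Z ^ p = 0)
    (hcp : ∀ P : Ideal (𝓞 K), P.IsPrime → ((q : ℕ) : 𝓞 K) ∈ P → ¬ (X ∈ P ∧ Y ∈ P ∧ Z ∈ P))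
    (hgood : ∀ v : HeightOneSpectrum (𝓞 K), ((q : ℕ) : 𝓞 K) ∈ v.asIdeal → Z ∈ v.asIdeal →
      ¬ p ∣ Ideal.absNorm v.asIdeal - 1)
    (f : ℤ[X]) (hf : f.map (Int.castRingHom (𝓞 N)) = nrmP K N X Y)
    (P : Ideal (𝓞 E)) (hP : P.IsPrime) (hqP : ((q : ℕ) : 𝓞 E) ∈ P) (w : 𝓞 E)
    (hw : (w : E) = aeval c.z f) : w ∉ P := by
  classical
  intro hwP
  have hpp : p.Prime := Fact.out
  have hqq : q.Prime := Fact.out
  have hodd : Odd p := hpp.odd_of_ne_two hp2
  have hP0 : P ≠ ⊥ := by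
    rintro rfl
    rw [Ideal.mem_bot, Nat.cast_eq_zero] at hqP
    exact hqq.ne_zero hqP
  obtain ⟨i, hi⟩ : ∃ i : E →+* N, i = algebraMap E N := ⟨_, rfl⟩
  -- the root of unity in the integers of N
  have hzint : IsIntegral ℤ (i c.z) := by
    have h1 : (i c.z) ^ p = 1 := by rw [← map_pow, c.prim.pow_eq_one, map_one]
    exact ⟨Polynomial.X ^ p - 1, Polynomial.monic_X_pow_sub_C 1 hpp.ne_zero, by simp [h1]⟩
  obtain ⟨zN, hzN⟩ : ∃ w : 𝓞 N, (w : N) = i c.z := ⟨⟨i c.z, hzint⟩, rfl⟩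
  have hzprim : IsPrimitiveRoot zN p := by
    apply IsPrimitiveRoot.of_map_of_injective (f := algebraMap (𝓞 N) N) _
      RingOfIntegers.coe_injective
    have h1 : algebraMap (𝓞 N) N zN = i c.z := hzN
    rw [h1]
    exact c.prim.map_of_injective i.injective
  have eU : ((∏ τ : K →+* N, (RingOfIntegers.mapRingHom τ X +
      zN * RingOfIntegers.mapRingHom τ Y) : 𝓞 N) : N) = i (aeval c.z f) := by
    rw [← eval_f hf zN]
    have e1 : algebraMap (𝓞 N) N (aeval zN f) = aeval (algebraMap (𝓞 N) N zN) f :=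
      (aeval_algebraMap_apply N zN f).symm
    have e2 : algebraMap (𝓞 N) N zN = i c.z := hzN
    rw [e2] at e1
    refine e1.trans ?_
    rw [aeval_def, aeval_def, hom_eval₂]
    congr 1
    exact RingHom.ext_int _ _
  obtain ⟨R, e, he, hR⟩ := Y258.WQ.exists_above (L := N) ⟨P, hP, hP0⟩
  have he0 : e ≠ 0 := by
    rintro rfl
    have h1 := Nat.eq_zero_of_zero_dvd he
    exact Module.finrank_pos.ne' h1
  have lt1 : ∀ a : 𝓞 E, a ∈ P → ∀ b : 𝓞 N, (b : N) = i (a : E) → b ∈ R.asIdeal := by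
    intro a ha b hb
    have h1 : (⟨P, hP, hP0⟩ : HeightOneSpectrum (𝓞 E)).valuation E (a : E) < 1 :=
      ((⟨P, hP, hP0⟩ : HeightOneSpectrum (𝓞 E)).valuation_lt_one_iff_mem (K := E) a).2 ha
    have h2 : R.valuation N (algebraMap E N (a : E)) < 1 := by
      rw [hR]
      exact pow_lt_one₀ zero_le h1 he0
    have e1 : algebraMap (𝓞 N) N b = algebraMap E N (a : E) := by
      rw [← hi]
      exact hb
    have h3 : R.valuation N (algebraMap (𝓞 N) N b) < 1 := by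
      rw [e1]
      exact h2
    exact (R.valuation_lt_one_iff_mem (K := N) b).1 h3
  have hqR : ((q : ℕ) : 𝓞 N) ∈ R.asIdeal := by
    apply lt1 _ hqP
    have e1 : algebraMap (𝓞 N) N ((q : ℕ) : 𝓞 N) = i (algebraMap (𝓞 E) E ((q : ℕ) : 𝓞 E)) := by
      rw [map_natCast, map_natCast, map_natCast]
    exact e1
  have hUR := lt1 w hwP (∏ τ : K →+* N, (RingOfIntegers.mapRingHom τ X +
      zN * RingOfIntegers.mapRingHom τ Y)) (by rw [eU, hw])
  have hRp := R.isPrime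
  obtain ⟨τ, -, hτ⟩ := (Ideal.IsPrime.prod_mem_iff (s := (Finset.univ : Finset (K →+* N)))
    (x := fun τ => RingOfIntegers.mapRingHom τ X + zN * RingOfIntegers.mapRingHom τ Y)).1 hUR
  -- the prime of `K`
  have hq' : ((q : ℕ) : 𝓞 K) ∈ R.asIdeal.comap (RingOfIntegers.mapRingHom τ) := by
    rw [Ideal.mem_comap, map_natCast]
    exact hqR
  have h0 : R.asIdeal.comap (RingOfIntegers.mapRingHom τ) ≠ ⊥ := by
    intro h
    rw [h, Ideal.mem_bot, Nat.cast_eq_zero] at hq'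
    exact hqq.ne_zero hq'
  obtain ⟨v, hv⟩ : ∃ v : HeightOneSpectrum (𝓞 K),
      v.asIdeal = R.asIdeal.comap (RingOfIntegers.mapRingHom τ) := ⟨⟨_, hRp.comap _, h0⟩, rfl⟩
  have hmem : ∀ a : 𝓞 K, a ∈ v.asIdeal ↔ RingOfIntegers.mapRingHom τ a ∈ R.asIdeal := by
    intro a
    rw [hv]
    rfl
  have hqv : ((q : ℕ) : 𝓞 K) ∈ v.asIdeal := by
    rw [hv]
    exact hq'
  have hXY : X ^ p + Y ^ p ∈ v.asIdeal := by
    rw [hmem, map_add, map_pow, map_pow]
    have h1 : (RingOfIntegers.mapRingHom τ X) ^ p + (zN * RingOfIntegers.mapRingHom τ Y) ^ p ∈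
        R.asIdeal := R.asIdeal.mem_of_dvd (Odd.add_dvd_pow_add_pow _ _ hodd) hτ
    rw [mul_pow, hzprim.pow_eq_one, one_mul] at h1
    exact h1
  have hZ : Z ∈ v.asIdeal := by
    have h1 : Z ^ p ∈ v.asIdeal := by
      have e1 : Z ^ p = -(X ^ p + Y ^ p) := by linear_combination heq
      rw [e1]
      exact v.asIdeal.neg_mem hXY
    exact v.isPrime.mem_of_pow_mem p h1
  have hlin := lin_q v hp2 (hgood v hqv hZ) hXY
  have hY : RingOfIntegers.mapRingHom τ Y ∉ R.asIdeal := by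
    intro hY
    have hY' : Y ∈ v.asIdeal := (hmem Y).2 hY
    have hX' : X ∈ v.asIdeal := by
      have e1 : X = (X + Y) - Y := by ring
      rw [e1]
      exact v.asIdeal.sub_mem hlin hY'
    exact hcp v.asIdeal v.isPrime hqv ⟨hX', hY', hZ⟩
  have h2 : (1 - zN) * RingOfIntegers.mapRingHom τ Y ∈ R.asIdeal := by
    have h3 := (hmem _).1 hlin
    rw [map_add] at h3
    have e1 : (1 - zN) * RingOfIntegers.mapRingHom τ Y =
        (RingOfIntegers.mapRingHom τ X + RingOfIntegers.mapRingHom τ Y) -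
        (RingOfIntegers.mapRingHom τ X + zN * RingOfIntegers.mapRingHom τ Y) := by ring
    rw [e1]
    exact R.asIdeal.sub_mem h3 hτ
  rcases hRp.mem_or_mem h2 with h3 | h3
  · have h4 : ((p : ℕ) : 𝓞 N) ∈ R.asIdeal := R.asIdeal.mem_of_dvd (Y261.WQ.p_dvd hzprim) h3
    have h5 := int_notMem R.asIdeal R.isPrime q hqq hqR (p : ℤ) (by
      intro hd
      have hd' : q ∣ p := by exact_mod_cast hd
      exact hqp ((Nat.prime_dvd_prime_iff_eq hqq hpp).1 hd'))
    apply h5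
    exact_mod_cast h4
  · exact hY h3

end

end Pool.Agent.U549.FW
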