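import Pool.Agent.U549.FW.Rq
import Pool.Agent.U549.FW.Rp
import Pool.Agent.U549.FW.Fq
import Pool.Agent.U549.FW.Uq
import Pool.Agent.U549.FW.Emb

/-!
# The comparison of the primes above `p` and the primes above `q`
-/

set_option autoImplicit false
set_option linter.unusedSectionVars false

namespace Pool.Agent.U549.FW

open NumberField IsDedekindDomain Polynomial Pool.Agent.Y546.WQ Pool.Agent.N840.FC
  Pool.Agent.U549.LF

section

variable {K N : Type} [Field K] [NumberField K] [Field N] [NumberField N]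

/-- the embeddings of `K` into `N` which map `W` into `Q` -/
noncomputable def hit (Q : Ideal (𝓞 N)) (W : 𝓞 K) : Finset (K →+* N) := by
  classical
  exact Finset.univ.filter fun τ => RingOfIntegers.mapRingHom τ W ∈ Q

theorem mem_hit (Q : Ideal (𝓞 N)) (W : 𝓞 K) (τ : K →+* N) :
    τ ∈ hit Q W ↔ RingOfIntegers.mapRingHom τ W ∈ Q := by
  classical
  unfold hit
  simp

/-- the embeddings which map none of three elements into `Q` -/
noncomputable def miss (Q : Ideal (𝓞 N)) (x y z : 𝓞 K) : Finset (K →+* N) := by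
  classical
  exact Finset.univ.filter fun τ => RingOfIntegers.mapRingHom τ x ∉ Q ∧
    RingOfIntegers.mapRingHom τ y ∉ Q ∧ RingOfIntegers.mapRingHom τ z ∉ Q

theorem mem_miss (Q : Ideal (𝓞 N)) (x y z : 𝓞 K) (τ : K →+* N) :
    τ ∈ miss Q x y z ↔ (RingOfIntegers.mapRingHom τ x ∉ Q ∧
      RingOfIntegers.mapRingHom τ y ∉ Q ∧ RingOfIntegers.mapRingHom τ z ∉ Q) := by
  classical
  unfold miss
  simp

/-- the four classes of embeddings -/
theorem part {p : ℕ} (hp0 : p ≠ 0) (Q : Ideal (𝓞 N)) (hQ : Q.IsPrime) {x y z : 𝓞 K}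
    (h : x ^ p + y ^ p + z ^ p = 0)
    (hcp : ∀ τ : K →+* N, ¬ (x ∈ Q.comap (RingOfIntegers.mapRingHom τ) ∧
      y ∈ Q.comap (RingOfIntegers.mapRingHom τ) ∧ z ∈ Q.comap (RingOfIntegers.mapRingHom τ))) :
    (miss Q x y z).card + (hit (K := K) Q x).card + (hit (K := K) Q y).card +
      (hit (K := K) Q z).card = Nat.card (K →+* N) := by
  classical
  have two : ∀ (τ : K →+* N) {a b c : 𝓞 K}, a ^ p + b ^ p + c ^ p = 0 →
      a ∈ Q.comap (RingOfIntegers.mapRingHom τ) → b ∈ Q.comap (RingOfIntegers.mapRingHom τ) →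
      c ∈ Q.comap (RingOfIntegers.mapRingHom τ) := by
    intro τ a b c h1 ha hb
    have hP : (Q.comap (RingOfIntegers.mapRingHom τ)).IsPrime := hQ.comap _
    have h2 : c ^ p ∈ Q.comap (RingOfIntegers.mapRingHom τ) := by
      have e : c ^ p = -(a ^ p + b ^ p) := by linear_combination h1
      rw [e]
      exact neg_mem (add_mem (Ideal.pow_mem_of_mem _ ha p (Nat.pos_of_ne_zero hp0))
        (Ideal.pow_mem_of_mem _ hb p (Nat.pos_of_ne_zero hp0)))
    exact hP.mem_of_pow_mem p h2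
  have key : ∀ τ : K →+* N, (1 : ℕ) = (if τ ∈ miss Q x y z then 1 else 0) +
      (if τ ∈ hit Q x then 1 else 0) + (if τ ∈ hit Q y then 1 else 0) +
      (if τ ∈ hit Q z then 1 else 0) := by
    intro τ
    simp only [mem_miss, mem_hit]
    have h1 := hcp τ
    have h2 := two τ h
    have h3 := two τ (a := y) (b := z) (c := x) (by linear_combination h)
    have h4 := two τ (a := x) (b := z) (c := y) (by linear_combination h)
    simp only [Ideal.mem_comap] at h1 h2 h3 h4
    by_cases hx : RingOfIntegers.mapRingHom τ x ∈ Q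
    · have hy : RingOfIntegers.mapRingHom τ y ∉ Q := fun hy => h1 ⟨hx, hy, h2 hx hy⟩
      have hz : RingOfIntegers.mapRingHom τ z ∉ Q := fun hz => h1 ⟨hx, h4 hx hz, hz⟩
      simp [hx, hy, hz]
    · by_cases hy : RingOfIntegers.mapRingHom τ y ∈ Q
      · have hz : RingOfIntegers.mapRingHom τ z ∉ Q := fun hz => hx (h3 hy hz)
        simp [hx, hy, hz]
      · by_cases hz : RingOfIntegers.mapRingHom τ z ∈ Q
        · simp [hx, hy, hz]
        · simp [hx, hy, hz]
  have e := Finset.sum_congr (rfl : (Finset.univ : Finset (K →+* N)) = Finset.univ)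
    fun τ _ => key τ
  rw [Finset.sum_add_distrib, Finset.sum_add_distrib, Finset.sum_add_distrib] at e
  simp only [Finset.sum_ite_mem, Finset.univ_inter, Finset.sum_const, smul_eq_mul, mul_one,
    Finset.card_univ] at e
  rw [Nat.card_eq_fintype_card, e]

end

section

variable {p : ℕ} [Fact p.Prime] {E : Type} [Field E] [NumberField E]
  {K N : Type} [Field K] [NumberField K] [Field N] [NumberField N] [Algebra E N]

theorem core [IsGalois E N] (hcard : Nat.card (K →+* N) = Module.finrank ℚ K)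
    (hdv : Module.finrank E N ∣ (Module.finrank ℚ K).factorial) (hp2 : p ≠ 2) (c : Cyc p E)
    (hm3 : Module.finrank ℚ K + 3 ≤ p)
    {F : Type} [Field F] [CharP F p] (Q : Ideal (𝓞 N))
    (hQ : Q.IsPrime) (hQp : ((p : ℕ) : 𝓞 N) ∈ Q) (ψ : 𝓞 N →+* F)
    (hψ : ∀ w : 𝓞 N, ψ w = 0 ↔ w ∈ Q) {x y z : 𝓞 K} (hs : Mix p K x y z)
    {q : ℕ} [Fact q.Prime] (hqp : q ≠ p) (hW : ¬ p ^ 2 ∣ q ^ (p - 1) - 1)
    (R : Ideal (𝓞 N)) (hR : R.IsPrime) (hRq : ((q : ℕ) : 𝓞 N) ∈ R)
    (hcq : ∀ P : Ideal (𝓞 K), P.IsPrime → ((q : ℕ) : 𝓞 K) ∈ P → ¬ (x ∈ P ∧ y ∈ P ∧ z ∈ P))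
    (hg1 : ∀ v : HeightOneSpectrum (𝓞 K), ((q : ℕ) : 𝓞 K) ∈ v.asIdeal → z ∈ v.asIdeal →
      ¬ p ∣ Ideal.absNorm v.asIdeal - 1)
    (hg2 : ∀ v : HeightOneSpectrum (𝓞 K), ((q : ℕ) : 𝓞 K) ∈ v.asIdeal → x ∉ v.asIdeal →
      y ∉ v.asIdeal → z ∉ v.asIdeal → x ^ (q + 1) - y ^ (q + 1) ∈ v.asIdeal) :
    ∑ τ ∈ miss Q x y z, (ψ (RingOfIntegers.mapRingHom τ x) -
      ψ (RingOfIntegers.mapRingHom τ y)) / ψ (RingOfIntegers.mapRingHom τ z) +
      (hit (K := K) Q x).card - (hit (K := K) Q y).card =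
        (hit (K := K) R x).card - (hit (K := K) R y).card := by
  classical
  have hpp : p.Prime := Fact.out
  have hqq : q.Prime := Fact.out
  obtain ⟨f, hdeg, hc0, hcm, hev, hf⟩ := Y290.WQ.mainNORM K x y
  have hf := hf N hcard
  have hP := unit_q hqp hp2 c hs.eq hcq hg1 f hf
  have hpQ : ∀ τ : K →+* N, ((p : ℕ) : 𝓞 K) ∈ Q.comap (RingOfIntegers.mapRingHom τ) := by
    intro τ
    rw [Ideal.mem_comap, map_natCast]
    exact hQp
  have hqR : ∀ τ : K →+* N, ((q : ℕ) : 𝓞 K) ∈ R.comap (RingOfIntegers.mapRingHom τ) := by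
    intro τ
    rw [Ideal.mem_comap, map_natCast]
    exact hRq
  -- the relation at `p`
  obtain ⟨f2, n, hnq, hff, hb⟩ := p_data hcard hdv hp2 c Q hQ hQp ψ hψ hs (miss Q x y z)
    (by
      intro τ
      rw [mem_miss, Ne, Ne, Ne, hψ, hψ, hψ]) (hit Q x) (hit Q z)
    (by
      intro τ
      rw [mem_hit, hψ]) (by
      intro τ
      rw [mem_hit, hψ]) hm3 f hf q hP
  obtain ⟨b, hb0, hbp, hb1⟩ := reg_one hp2
  obtain ⟨i, u, hu, hrel, h2i⟩ := hb b hb0 hbp
  -- the polynomial modulo `q`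
  have hR0 : R ≠ ⊥ := by
    rintro rfl
    rw [Ideal.mem_bot, Nat.cast_eq_zero] at hRq
    exact hqq.ne_zero hRq
  have hRm : R.IsMaximal := hR.isMaximal hR0
  let _ : Field (𝓞 N ⧸ R) := Ideal.Quotient.field R
  have hchR : CharP (𝓞 N ⧸ R) q := charP_quot R hR q hqq hRq
  let φ : 𝓞 N →+* (𝓞 N ⧸ R) := Ideal.Quotient.mk R
  have hφ : ∀ w : 𝓞 N, φ w = 0 ↔ w ∈ R := fun w => Ideal.Quotient.eq_zero_iff_mem
  have hFF : (f.map (Int.castRingHom (ZMod q))).map (ZMod.castHom (dvd_refl q) (𝓞 N ⧸ R)) =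
      ∏ τ : K →+* N, (C (φ (RingOfIntegers.mapRingHom τ x)) +
        X * C (φ (RingOfIntegers.mapRingHom τ y))) := by
    have hκ : (ZMod.castHom (dvd_refl q) (𝓞 N ⧸ R)).comp (Int.castRingHom (ZMod q)) =
      φ.comp (Int.castRingHom (𝓞 N)) := RingHom.ext_int _ _
    rw [Polynomial.map_map, hκ, ← Polynomial.map_map, hf]
    unfold nrmP
    rw [Polynomial.map_prod]
    refine Finset.prod_congr rfl fun τ _ => ?_
    simp
  obtain ⟨ε, hε, hab⟩ := refl_q (f.map (Int.castRingHom (ZMod q)))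
    (fun τ : K →+* N => φ (RingOfIntegers.mapRingHom τ x))
    (fun τ : K →+* N => φ (RingOfIntegers.mapRingHom τ y)) hFF (hit R x) (hit R y)
    (fun τ => by rw [mem_hit, hφ]) (fun τ => by rw [mem_hit, hφ])
    (by
      rintro τ ⟨h1, h2⟩
      rw [hφ] at h1 h2
      have hPr : (R.comap (RingOfIntegers.mapRingHom τ)).IsPrime := hR.comap _
      have h1 : x ∈ R.comap (RingOfIntegers.mapRingHom τ) := h1
      have h2 : y ∈ R.comap (RingOfIntegers.mapRingHom τ) := h2
      refine hcq _ hPr (hqR τ) ⟨h1, h2, ?_⟩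
      have h3 : z ^ p ∈ R.comap (RingOfIntegers.mapRingHom τ) := by
        have e : z ^ p = -(x ^ p + y ^ p) := by linear_combination hs.eq
        rw [e]
        exact neg_mem (add_mem (Ideal.pow_mem_of_mem _ h1 p hpp.pos)
          (Ideal.pow_mem_of_mem _ h2 p hpp.pos))
      exact hPr.mem_of_pow_mem p h3)
    (by
      intro τ h1 h2
      have hPr : (R.comap (RingOfIntegers.mapRingHom τ)).IsPrime := hR.comap _
      have h0 : R.comap (RingOfIntegers.mapRingHom τ) ≠ ⊥ := by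
        intro h
        have := hqR τ
        rw [h, Ideal.mem_bot, Nat.cast_eq_zero] at this
        exact hqq.ne_zero this
      have hx : x ∉ R.comap (RingOfIntegers.mapRingHom τ) := fun h => h1 ((hφ _).2 h)
      have hy : y ∉ R.comap (RingOfIntegers.mapRingHom τ) := fun h => h2 ((hφ _).2 h)
      have h3 : x ^ (q + 1) - y ^ (q + 1) ∈ R.comap (RingOfIntegers.mapRingHom τ) := by
        by_cases hz : z ∈ R.comap (RingOfIntegers.mapRingHom τ)
        · have h4 := lin_q (p := p) ⟨_, hPr, h0⟩ hp2 (hg1 ⟨_, hPr, h0⟩ (hqR τ) hz) (X := x) (Y := y)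
            (by
              have e : x ^ p + y ^ p = -(z ^ p) := by linear_combination hs.eq
              rw [e]
              exact neg_mem (Ideal.pow_mem_of_mem _ hz p hpp.pos))
          have h4' : x + y ∈ R.comap (RingOfIntegers.mapRingHom τ) := h4
          rcases hqq.eq_two_or_odd' with h5 | h5
          · have h6 : (2 : 𝓞 K) ∈ R.comap (RingOfIntegers.mapRingHom τ) := by
              have := hqR τ
              rw [h5] at this
              exact_mod_cast this
            rw [h5]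
            have e : x ^ (2 + 1) - y ^ (2 + 1) = (x + y) * (x ^ 2 - x * y + y ^ 2) - y ^ 3 * 2 := by
              ring
            rw [e]
            exact sub_mem (Ideal.mul_mem_right _ _ h4') (Ideal.mul_mem_left _ _ h6)
          · have h6 : Even (q + 1) := h5.add_one
            have e : x - -y ∣ x ^ (q + 1) - (-y) ^ (q + 1) := sub_dvd_pow_sub_pow _ _ _
            rw [h6.neg_pow, sub_neg_eq_add] at e
            exact Ideal.mem_of_dvd _ e h4'
        · exact hg2 ⟨_, hPr, h0⟩ (hqR τ) hx hy hz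
      have h7 : φ (RingOfIntegers.mapRingHom τ (x ^ (q + 1) - y ^ (q + 1))) = 0 := (hφ _).2 h3
      rw [map_sub, map_sub, map_pow, map_pow, map_pow, map_pow] at h7
      exact sub_eq_zero.1 h7)
  rw [reflect_map, ← Nat.card_eq_fintype_card, hcard] at hab
  have hRq' := mainRq hqp hp2 c b f f2 n hnq (hit Q z).card (Module.finrank ℚ K)
    (hit (K := K) R x).card (hit (K := K) R y).card hff hdeg ε hε hab hP u hu i hrel
  have h1 := hRq'.resolve_right hW
  have h2 := congrArg (ZMod.castHom (dvd_refl p) F) h1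
  simp only [map_add, map_sub, map_mul, map_natCast, map_ofNat] at h2
  rw [h2i] at h2
  have hne : ZMod.castHom (dvd_refl p) F (hsa p b 1) ≠ 0 := by
    rw [Ne, map_eq_zero]
    exact hb1
  have h3 := part hpp.ne_zero Q hQ hs.eq (fun τ => hs.cp _ (hQ.comap _) (hpQ τ))
  rw [hcard] at h3
  have h4 : ((Module.finrank ℚ K : ℕ) : F) = (miss Q x y z).card + (hit (K := K) Q x).card +
      (hit (K := K) Q y).card + (hit (K := K) Q z).card := by
    rw [← h3]
    push_cast
    ring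
  rw [h4] at h2
  apply mul_left_cancel₀ hne
  linear_combination h2

end

end Pool.Agent.U549.FW
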