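import Mathlib

/-!
# Three residues: algebra for cubic fields
-/

set_option autoImplicit false

namespace Pool.Agent.U549.FW

section

variable {F : Type*} [Field F]

/-- the equations in terms of the elementary symmetric functions -/
theorem cub_alg (h2F : (2 : F) ≠ 0) (h3F : (3 : F) ≠ 0) {a b c : ℕ} (hab : b ≤ a) (hac : a ≤ c)
    (hs : a + b + c ≤ 3) {e1 e2 e3 : F} (he3 : e3 ≠ 0) (hE3 : 1 + e1 + e2 + e3 ≠ 0)
    (hh2 : 3 + 2 * e1 = (b : F) - c) (hh3 : 2 * e2 = ((a : F) - c - 3) * e3)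
    (hh1 : (3 - (a : F) + b) * (1 + e1 + e2 + e3) = 2 * (3 + 2 * e1 + e2))
    (hG : (a = 1 ∧ b = 0 ∧ c = 2) ∨ (a = 0 ∧ b = 0 ∧ c = 3) →
      ∀ E1 E2 E3 : F, E1 = 3 + e1 → E2 = 3 + 2 * e1 + e2 → E3 = 1 + e1 + e2 + e3 →
      -E2 * E3 ^ 2 + 3 * (E2 ^ 2 * E3 - 2 * E1 * E3 ^ 2) -
        2 * (E2 ^ 3 - 3 * E1 * E2 * E3 + 3 * E3 ^ 2) = 0) :
    1 - e1 + e2 - e3 = 0 := by
  have hcase : (a = 0 ∧ b = 0 ∧ c = 0) ∨ (a = 0 ∧ b = 0 ∧ c = 1) ∨ (a = 1 ∧ b = 0 ∧ c = 1) ∨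
      (a = 1 ∧ b = 1 ∧ c = 1) ∨ (a = 0 ∧ b = 0 ∧ c = 2) ∨ (a = 1 ∧ b = 0 ∧ c = 2) ∨
      (a = 0 ∧ b = 0 ∧ c = 3) := by omega
  have h6F : (6 : F) ≠ 0 := by
    have : (6 : F) = 2 * 3 := by norm_num
    rw [this]
    exact mul_ne_zero h2F h3F
  have h4F : (4 : F) ≠ 0 := by
    have : (4 : F) = 2 * 2 := by norm_num
    rw [this]
    exact mul_ne_zero h2F h2F
  rcases hcase with ⟨rfl, rfl, rfl⟩ | ⟨rfl, rfl, rfl⟩ | ⟨rfl, rfl, rfl⟩ | ⟨rfl, rfl, rfl⟩ |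
    ⟨rfl, rfl, rfl⟩ | ⟨rfl, rfl, rfl⟩ | ⟨rfl, rfl, rfl⟩
  · push_cast at hh1 hh2 hh3
    have h1 : (3 : F) * (e3 - 1) = 0 := by linear_combination 2 * hh1 + hh2 - hh3
    have h2 : e3 - 1 = 0 := (mul_eq_zero.1 h1).resolve_left h3F
    have h3 : (2 : F) * (1 - e1 + e2 - e3) = 0 := by
      linear_combination -hh2 + hh3 - 5 * h2
    exact (mul_eq_zero.1 h3).resolve_left h2F
  · push_cast at hh1 hh2 hh3
    have h1 : (2 : F) * (e3 - 1) = 0 := by linear_combination 2 * hh1 + hh2 - hh3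
    have h2 : e3 - 1 = 0 := (mul_eq_zero.1 h1).resolve_left h2F
    have h3 : (2 : F) * (1 - e1 + e2 - e3) = 0 := by
      linear_combination -hh2 + hh3 - 6 * h2
    exact (mul_eq_zero.1 h3).resolve_left h2F
  · push_cast at hh1 hh2 hh3
    exfalso
    have h1 : (4 : F) * e3 = 0 := by linear_combination 2 * hh1 + 2 * hh2 
    exact he3 ((mul_eq_zero.1 h1).resolve_left h4F)
  · push_cast at hh1 hh2 hh3
    have h1 : (3 : F) * (e3 - 1) = 0 := by linear_combination 2 * hh1 + hh2 - hh3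
    have h2 : e3 - 1 = 0 := (mul_eq_zero.1 h1).resolve_left h3F
    have h3 : (2 : F) * (1 - e1 + e2 - e3) = 0 := by
      linear_combination -hh2 + hh3 - 5 * h2
    exact (mul_eq_zero.1 h3).resolve_left h2F
  · push_cast at hh1 hh2 hh3
    have h2 : e3 - 1 = 0 := by linear_combination 2 * hh1 + hh2 - hh3
    have h3 : (2 : F) * (1 - e1 + e2 - e3) = 0 := by
      linear_combination -hh2 + hh3 - 7 * h2
    exact (mul_eq_zero.1 h3).resolve_left h2F
  · push_cast at hh1 hh2 hh3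
    exfalso
    have h1 : (2 : F) * (2 * e3 + 1) = 0 := by linear_combination 2 * hh1 + 2 * hh2
    have h2 : 2 * e3 + 1 = 0 := (mul_eq_zero.1 h1).resolve_left h2F
    have h3 : (2 : F) * (e2 - 1) = 0 := by linear_combination hh3 - 2 * h2
    have h4 : e2 - 1 = 0 := (mul_eq_zero.1 h3).resolve_left h2F
    have h5 : (2 : F) * (3 + e1) = 1 := by linear_combination hh2
    have hg := hG (Or.inl ⟨rfl, rfl, rfl⟩) (3 + e1) (-1) (-1) rfl (by linear_combination -hh2 - h4)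
      (by
        apply mul_left_cancel₀ h2F
        linear_combination -hh2 - 2 * h4 - h2)
    apply h6F
    linear_combination -hg
  · push_cast at hh1 hh2 hh3
    obtain ⟨g, hg⟩ : ∃ g, g = -(1 + e3) := ⟨_, rfl⟩
    have k1 : (2 : F) * (e1 + 3) = 0 := by linear_combination hh2
    have k1' : e1 + 3 = 0 := (mul_eq_zero.1 k1).resolve_left h2F
    have k2 : (2 : F) * (e2 + 3 * e3) = 0 := by linear_combination hh3
    have k2' : e2 + 3 * e3 = 0 := (mul_eq_zero.1 k2).resolve_left h2F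
    have E1 : (0 : F) = 3 + e1 := by linear_combination -k1'
    have E2 : 3 * g = 3 + 2 * e1 + e2 := by
      rw [hg]
      linear_combination -2 * k1' - k2'
    have E3 : 2 * g = 1 + e1 + e2 + e3 := by
      rw [hg]
      linear_combination -k1' - k2'
    have hG' := hG (Or.inr ⟨rfl, rfl, rfl⟩) 0 (3 * g) (2 * g) E1 E2 E3
    have hg0 : g ≠ 0 := by
      intro h
      apply hE3
      rw [← E3, h, mul_zero]
    have h7 : (2 * 6 : F) * (g ^ 2 * (g + 2)) = 0 := by linear_combination -hG'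
    have h8 : g ^ 2 * (g + 2) = 0 := (mul_eq_zero.1 h7).resolve_left (mul_ne_zero h2F h6F)
    have h9 : g + 2 = 0 := (mul_eq_zero.1 h8).resolve_left (pow_ne_zero 2 hg0)
    rw [hg] at h9
    linear_combination -k1' + k2' + 4 * h9

/-- the numbers for which the relation of index three is needed -/
def Spec (a b c : ℕ) : Prop := a + b + c = 3 ∧ ¬ (a = 1 ∧ b = 1)

/-- the data of a solution modulo `p` over a cubic field -/
structure Dat (x y z : Fin 3 → F) (a b c : ℕ) : Prop where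
  x0 : ∀ i, x i ≠ 0
  y0 : ∀ i, y i ≠ 0
  z0 : ∀ i, z i ≠ 0
  sum : ∀ i, x i + y i + z i = 0
  h1 : ∑ i, (x i - y i) / z i = (a : F) - b
  h2 : ∑ i, (y i - z i) / x i = (b : F) - c
  h3 : ∑ i, (z i - x i) / y i = (c : F) - a
  g1 : Spec a b c → ∑ i, x i * y i * (x i - y i) / z i ^ 3 = 0
  g2 : Spec a b c → ∑ i, y i * z i * (y i - z i) / x i ^ 3 = 0
  g3 : Spec a b c → ∑ i, z i * x i * (z i - x i) / y i ^ 3 = 0

theorem Spec.rot' {a b c : ℕ} (h : Spec b c a) : Spec a b c := by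
  unfold Spec at h ⊢
  omega

theorem Spec.swap' {a b c : ℕ} (h : Spec b a c) : Spec a b c := by
  unfold Spec at h ⊢
  omega

theorem Dat.rot {x y z : Fin 3 → F} {a b c : ℕ} (h : Dat x y z a b c) : Dat y z x b c a :=
  ⟨h.y0, h.z0, h.x0, fun i => by linear_combination h.sum i, h.h2, h.h3, h.h1,
    fun s => h.g2 s.rot', fun s => h.g3 s.rot', fun s => h.g1 s.rot'⟩

theorem neg_sum {f g : Fin 3 → F} {t u : F} (h : ∑ i, f i = t) (hfg : ∀ i, g i = -f i)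
    (htu : u = -t) : ∑ i, g i = u := by
  rw [Finset.sum_congr rfl fun i _ => hfg i, Finset.sum_neg_distrib, h, htu]

theorem Dat.swap {x y z : Fin 3 → F} {a b c : ℕ} (h : Dat x y z a b c) : Dat y x z b a c := by
  refine ⟨h.y0, h.x0, h.z0, fun i => by linear_combination h.sum i, ?_, ?_, ?_, ?_, ?_, ?_⟩
  · exact neg_sum h.h1 (fun i => by ring) (by ring)
  · exact neg_sum h.h3 (fun i => by ring) (by ring)
  · exact neg_sum h.h2 (fun i => by ring) (by ring)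
  · exact fun s => neg_sum (h.g1 s.swap') (fun i => by ring) (by ring)
  · exact fun s => neg_sum (h.g3 s.swap') (fun i => by ring) (by ring)
  · exact fun s => neg_sum (h.g2 s.swap') (fun i => by ring) (by ring)

theorem Dat.ord (h2F : (2 : F) ≠ 0) (h3F : (3 : F) ≠ 0) {x y z : Fin 3 → F} {a b c : ℕ}
    (h : Dat x y z a b c) (hab : b ≤ a) (hac : a ≤ c) (hs : a + b + c ≤ 3) : ∃ i, x i = y i := by
  obtain ⟨r, hr⟩ : ∃ r : Fin 3 → F, r = fun i => y i / x i := ⟨_, rfl⟩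
  have hy : ∀ i, y i = r i * x i := by
    intro i
    rw [hr]
    exact (div_mul_cancel₀ _ (h.x0 i)).symm
  have hz : ∀ i, z i = -(1 + r i) * x i := by
    intro i
    linear_combination h.sum i - hy i
  have r0 : ∀ i, r i ≠ 0 := by
    intro i h0
    apply h.y0 i
    rw [hy, h0, zero_mul]
  have s0 : ∀ i, 1 + r i ≠ 0 := by
    intro i h0
    apply h.z0 i
    rw [hz, h0, neg_zero, zero_mul]
  have q2 : ∀ i, (y i - z i) / x i = 1 + 2 * r i := by
    intro i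
    rw [div_eq_iff (h.x0 i), hz, hy]
    ring
  have q3 : ∀ i, (z i - x i) / y i = -1 - 2 * (r i)⁻¹ := by
    intro i
    have := r0 i
    have := h.x0 i
    rw [div_eq_iff (h.y0 i), hz, hy]
    field_simp
    ring
  have q1 : ∀ i, (x i - y i) / z i = 1 - 2 * (1 + r i)⁻¹ := by
    intro i
    have := s0 i
    have := h.x0 i
    rw [div_eq_iff (h.z0 i), hz, hy]
    field_simp
    ring
  have q4 : ∀ i, x i * y i * (x i - y i) / z i ^ 3 =
      (1 + r i)⁻¹ - 3 * ((1 + r i)⁻¹) ^ 2 + 2 * ((1 + r i)⁻¹) ^ 3 := by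
    intro i
    have := s0 i
    have := h.x0 i
    rw [div_eq_iff (pow_ne_zero 3 (h.z0 i)), hz, hy]
    field_simp
    ring
  have H1 := h.h1
  have H2 := h.h2
  have H3 := h.h3
  rw [Finset.sum_congr rfl fun i _ => q1 i] at H1
  rw [Finset.sum_congr rfl fun i _ => q2 i] at H2
  rw [Finset.sum_congr rfl fun i _ => q3 i] at H3
  rw [Fin.sum_univ_three] at H1 H2 H3
  obtain ⟨u0, hu0⟩ : ∃ u, u = (r 0)⁻¹ := ⟨_, rfl⟩
  obtain ⟨u1, hu1⟩ : ∃ u, u = (r 1)⁻¹ := ⟨_, rfl⟩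
  obtain ⟨u2, hu2⟩ : ∃ u, u = (r 2)⁻¹ := ⟨_, rfl⟩
  obtain ⟨v0, hv0⟩ : ∃ u, u = (1 + r 0)⁻¹ := ⟨_, rfl⟩
  obtain ⟨v1, hv1⟩ : ∃ u, u = (1 + r 1)⁻¹ := ⟨_, rfl⟩
  obtain ⟨v2, hv2⟩ : ∃ u, u = (1 + r 2)⁻¹ := ⟨_, rfl⟩
  have t0 : u0 * r 0 = 1 := by rw [hu0]; exact inv_mul_cancel₀ (r0 0)
  have t1 : u1 * r 1 = 1 := by rw [hu1]; exact inv_mul_cancel₀ (r0 1)
  have t2 : u2 * r 2 = 1 := by rw [hu2]; exact inv_mul_cancel₀ (r0 2)
  have w0 : v0 * (1 + r 0) = 1 := by rw [hv0]; exact inv_mul_cancel₀ (s0 0)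
  have w1 : v1 * (1 + r 1) = 1 := by rw [hv1]; exact inv_mul_cancel₀ (s0 1)
  have w2 : v2 * (1 + r 2) = 1 := by rw [hv2]; exact inv_mul_cancel₀ (s0 2)
  rw [← hu0, ← hu1, ← hu2] at H3
  rw [← hv0, ← hv1, ← hv2] at H1
  obtain ⟨x0, hx0⟩ : ∃ u, u = r 0 := ⟨_, rfl⟩
  obtain ⟨x1, hx1⟩ : ∃ u, u = r 1 := ⟨_, rfl⟩
  obtain ⟨x2, hx2⟩ : ∃ u, u = r 2 := ⟨_, rfl⟩
  have n0 := r0 0
  have n1 := r0 1
  have n2 := r0 2
  have m0 := s0 0
  have m1 := s0 1
  have m2 := s0 2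
  rw [← hx0] at t0 w0 H2 n0 m0
  rw [← hx1] at t1 w1 H2 n1 m1
  rw [← hx2] at t2 w2 H2 n2 m2
  have hfin : (1 - x0) * ((1 - x1) * (1 - x2)) = 0 := by
    have hprod : (1 + x0) * (1 + x1) * (1 + x2) ≠ 0 := mul_ne_zero (mul_ne_zero m0 m1) m2
    have key := cub_alg h2F h3F hab hac hs (e1 := x0 + x1 + x2) (e2 := x0 * x1 + x0 * x2 + x1 * x2)
      (e3 := x0 * x1 * x2) (mul_ne_zero (mul_ne_zero n0 n1) n2)
      (by
        have e : 1 + (x0 + x1 + x2) + (x0 * x1 + x0 * x2 + x1 * x2) + x0 * x1 * x2 =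
            (1 + x0) * (1 + x1) * (1 + x2) := by ring
        rw [e]
        exact hprod)
      (by linear_combination H2)
      (by
        have e : x0 * x1 + x0 * x2 + x1 * x2 = (u0 + u1 + u2) * (x0 * x1 * x2) := by
          linear_combination -(x1 * x2) * t0 - (x0 * x2) * t1 - (x0 * x1) * t2
        rw [e]
        linear_combination -(x0 * x1 * x2) * H3)
      (by
        have e : 3 + 2 * (x0 + x1 + x2) + (x0 * x1 + x0 * x2 + x1 * x2) =
            (v0 + v1 + v2) * ((1 + x0) * (1 + x1) * (1 + x2)) := by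
          linear_combination -((1 + x1) * (1 + x2)) * w0 - ((1 + x0) * (1 + x2)) * w1 -
            ((1 + x0) * (1 + x1)) * w2
        rw [e]
        linear_combination ((1 + x0) * (1 + x1) * (1 + x2)) * H1)
      (by
        intro hsp E1 E2 E3 hE1 hE2 hE3
        have H4 := h.g1 (by unfold Spec; omega)
        rw [Finset.sum_congr rfl fun i _ => q4 i, Fin.sum_univ_three, ← hv0, ← hv1, ← hv2] at H4
        have f3 : v0 * v1 * v2 * E3 = 1 := by
          rw [hE3]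
          have : v0 * v1 * v2 * (1 + (x0 + x1 + x2) + (x0 * x1 + x0 * x2 + x1 * x2) +
              x0 * x1 * x2) = (v0 * (1 + x0)) * (v1 * (1 + x1)) * (v2 * (1 + x2)) := by ring
          rw [this, w0, w1, w2]
          ring
        have f2 : v0 + v1 + v2 = v0 * v1 * v2 * E2 := by
          rw [hE2]
          linear_combination -(v0 * (v1 * (1 + x1))) * w2 - v0 * w1 -
            (v1 * (v0 * (1 + x0))) * w2 - v1 * w0 - (v2 * (v0 * (1 + x0))) * w1 - v2 * w0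
        have f1 : v0 * v1 + v0 * v2 + v1 * v2 = v0 * v1 * v2 * E1 := by
          rw [hE1]
          linear_combination -(v0 * v1) * w2 - (v0 * v2) * w1 - (v1 * v2) * w0
        obtain ⟨P, hP⟩ : ∃ P, P = v0 * v1 * v2 := ⟨_, rfl⟩
        rw [← hP] at f1 f2 f3
        have G1 : P * E2 - 3 * ((P * E2) ^ 2 - 2 * (P * E1)) +
            2 * ((P * E2) ^ 3 - 3 * (P * E2) * (P * E1) + 3 * P) = 0 := by
          rw [← f1, ← f2, hP]
          linear_combination H4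
        have hP0 : P ≠ 0 := by
          intro h0
          rw [h0, zero_mul] at f3
          exact zero_ne_one f3
        have G2 : P ^ 3 * (-E2 * E3 ^ 2 + 3 * (E2 ^ 2 * E3 - 2 * E1 * E3 ^ 2) -
            2 * (E2 ^ 3 - 3 * E1 * E2 * E3 + 3 * E3 ^ 2)) = 0 := by
          have e : P ^ 3 * (-E2 * E3 ^ 2 + 3 * (E2 ^ 2 * E3 - 2 * E1 * E3 ^ 2) -
            2 * (E2 ^ 3 - 3 * E1 * E2 * E3 + 3 * E3 ^ 2)) =
            -(P * E2) * (P * E3) ^ 2 + 3 * ((P * E2) ^ 2 * (P * E3) -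
              2 * (P * E1) * (P * E3) ^ 2) -
            2 * ((P * E2) ^ 3 - 3 * (P * E1) * (P * E2) * (P * E3) + 3 * P * (P * E3) ^ 2) := by
            ring
          rw [e, f3]
          linear_combination -G1
        exact (mul_eq_zero.1 G2).resolve_left (pow_ne_zero 3 hP0))
    linear_combination key
  have fin : ∀ i, 1 - r i = 0 → x i = y i := by
    intro i hi
    rw [hy]
    linear_combination x i * hi
  rcases mul_eq_zero.1 hfin with h0 | h0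
  · exact ⟨0, fin 0 (by rw [← hx0]; exact h0)⟩
  · rcases mul_eq_zero.1 h0 with h0 | h0
    · exact ⟨1, fin 1 (by rw [← hx1]; exact h0)⟩
    · exact ⟨2, fin 2 (by rw [← hx2]; exact h0)⟩

/-- some two of the three coordinates are equal -/
theorem Dat.two (h2F : (2 : F) ≠ 0) (h3F : (3 : F) ≠ 0) {x y z : Fin 3 → F} {a b c : ℕ}
    (h : Dat x y z a b c) (hs : a + b + c ≤ 3) : ∃ i, x i = y i ∨ y i = z i ∨ z i = x i := by
  rcases le_total a b with h1 | h1 <;> rcases le_total b c with h2 | h2 <;>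
    rcases le_total a c with h3 | h3
  · -- a ≤ b ≤ c
    obtain ⟨i, hi⟩ := h.swap.ord h2F h3F h1 h2 (by omega)
    exact ⟨i, Or.inl hi.symm⟩
  · obtain ⟨i, hi⟩ := h.swap.ord h2F h3F h1 h2 (by omega)
    exact ⟨i, Or.inl hi.symm⟩
  · -- a ≤ c ≤ b
    obtain ⟨i, hi⟩ := h.rot.rot.ord h2F h3F h3 h2 (by omega)
    exact ⟨i, Or.inr (Or.inr hi)⟩
  · -- c ≤ a ≤ b
    obtain ⟨i, hi⟩ := h.rot.rot.swap.ord h2F h3F h3 h1 (by omega)
    exact ⟨i, Or.inr (Or.inr hi.symm)⟩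
  · -- b ≤ a, b ≤ c, a ≤ c
    obtain ⟨i, hi⟩ := h.ord h2F h3F h1 h3 (by omega)
    exact ⟨i, Or.inl hi⟩
  · -- b ≤ c ≤ a
    obtain ⟨i, hi⟩ := h.rot.swap.ord h2F h3F h2 h3 (by omega)
    exact ⟨i, Or.inr (Or.inl hi.symm)⟩
  · -- b ≤ a ≤ c ≤ b
    obtain ⟨i, hi⟩ := h.ord h2F h3F h1 h3 (by omega)
    exact ⟨i, Or.inl hi⟩
  · -- c ≤ b ≤ a
    obtain ⟨i, hi⟩ := h.rot.ord h2F h3F h2 h1 (by omega)
    exact ⟨i, Or.inr (Or.inl hi)⟩

end

end Pool.Agent.U549.FW
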