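import Mathlib

/-!
# Two residues: algebra for cubic fields, mixed case
-/

set_option autoImplicit false
set_option linter.unusedVariables false

namespace Pool.Agent.U549.FW

section

variable {F : Type*} [Field F]

theorem two_alg (nn : ∀ n : ℕ, n ∣ 6 ^ 6 → (n : F) = 0 → False)
    (nn' : ∀ n : ℤ, n ≠ 0 → n ∣ 6 ^ 6 → (n : F) ≠ 0) {a b c : ℕ} (hs : a + b + c ≤ 3)
    {e1 e2 : F} (he2 : e2 ≠ 0) (hE : 1 + e1 + e2 ≠ 0)
    (H2 : 2 + 2 * e1 = (b : F) - c) (H3 : 2 * e1 = ((a : F) - c - 3) * e2)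
    (H1 : (3 - (a : F) + b) * (1 + e1 + e2) = 2 * (2 + e1))
    (G1 : (2 + e1) * (1 + e1 + e2) ^ 2 - 3 * ((2 + e1) ^ 2 * (1 + e1 + e2) -
      2 * (1 + e1 + e2) ^ 2) + 2 * ((2 + e1) ^ 3 - 3 * ((2 + e1) * (1 + e1 + e2))) = 0)
    (G3 : e1 * e2 ^ 2 + 3 * (e1 ^ 2 * e2 - 2 * e2 ^ 2) + 2 * (e1 ^ 3 - 3 * (e1 * e2)) = 0) :
    a = 1 ∧ b = 0 ∧ c = 0 := by
  have ha : a = 0 ∨ a = 1 ∨ a = 2 ∨ a = 3 := by omega
  rcases ha with rfl | rfl | rfl | rfl
  · have hb : b = 0 ∨ b = 1 ∨ b = 2 ∨ b = 3 := by omega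
    rcases hb with rfl | rfl | rfl | rfl
    · have hc : c = 0 ∨ c = 1 ∨ c = 2 ∨ c = 3 := by omega
      rcases hc with rfl | rfl | rfl | rfl
      · push_cast at H1 H2 H3
        exfalso
        refine nn 16 (by norm_num) ?_
        push_cast
        linear_combination (-18) * G1 - (18 + (-9) * e2 + (-9) * e2 ^ 2 + (-9) * e1 + 9 * e1 * e2) * H2 - ((-26) + 42 * e2) * (H2 - H3)
      · push_cast at H1 H2 H3
        exfalso
        refine nn 2 (by norm_num) ?_
        push_cast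
        linear_combination (-8) * H1 - (2) * H2 + (6) * H3
      · push_cast at H1 H2 H3
        exfalso
        refine nn 6 (by norm_num) ?_
        push_cast
        linear_combination (-10) * H1 - (1) * H2 + (6) * H3
      · push_cast at H1 H2 H3
        exfalso
        refine nn 12 (by norm_num) ?_
        push_cast
        linear_combination (-12) * H1 - (0) * H2 + (6) * H3
    · have hc : c = 0 ∨ c = 1 ∨ c = 2 := by omega
      rcases hc with rfl | rfl | rfl
      · push_cast at H1 H2 H3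
        exfalso
        refine nn 2 (by norm_num) ?_
        push_cast
        linear_combination (6) * H1 - (-2) * H2 + (-8) * H3
      · push_cast at H1 H2 H3
        exfalso
        refine nn 6 (by norm_num) ?_
        push_cast
        linear_combination (-8) * G1 - (8 + (-4) * e2 + (-4) * e2 ^ 2 + (-4) * e1 + 4 * e1 * e2) * H2 - ((-11) + 14 * e2) * (H2 - H3)
      · push_cast at H1 H2 H3
        exfalso
        refine nn 6 (by norm_num) ?_
        push_cast
        linear_combination (-10) * H1 - (-2) * H2 + (8) * H3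
    · have hc : c = 0 ∨ c = 1 := by omega
      rcases hc with rfl | rfl
      · push_cast at H1 H2 H3
        exfalso
        apply he2
        apply mul_left_cancel₀ (nn' (-3) (by norm_num) (by norm_num))
        push_cast
        linear_combination H2 - H3
      · push_cast at H1 H2 H3
        exfalso
        refine nn 6 (by norm_num) ?_
        push_cast
        linear_combination (8) * H1 - (2) * H2 + (-10) * H3
    · obtain rfl : c = 0 := by omega
      push_cast at H1 H2 H3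
      exfalso
      refine nn 12 (by norm_num) ?_
      push_cast
      linear_combination (6) * H1 - (0) * H2 + (-12) * H3
  · have hb : b = 0 ∨ b = 1 ∨ b = 2 := by omega
    rcases hb with rfl | rfl | rfl
    · have hc : c = 0 ∨ c = 1 ∨ c = 2 := by omega
      rcases hc with rfl | rfl | rfl
      · exact ⟨rfl, rfl, rfl⟩
      · push_cast at H1 H2 H3
        exfalso
        refine nn 6 (by norm_num) ?_
        push_cast
        linear_combination (4) * G3 - (9 + (-21) * e2 + 2 * e2 ^ 2 + (-6) * e1 + 6 * e1 * e2 + 4 * e1 ^ 2) * H2 - ((-11) + 10 * e2) * (H2 - H3)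
      · push_cast at H1 H2 H3
        exfalso
        apply hE
        apply mul_left_cancel₀ (nn' (-8) (by norm_num) (by norm_num))
        push_cast
        linear_combination (-4) * H2 + 2 * (H2 - H3)
    · have hc : c = 0 ∨ c = 1 := by omega
      rcases hc with rfl | rfl
      · push_cast at H1 H2 H3
        exfalso
        refine nn 6 (by norm_num) ?_
        push_cast
        linear_combination (-4) * G1 - (3 + (-1) * e2 + (-2) * e2 ^ 2 + (-2) * e1 + 2 * e1 * e2) * H2 - ((-9) + 15 * e2) * (H2 - H3)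
      · push_cast at H1 H2 H3
        exfalso
        refine nn 16 (by norm_num) ?_
        push_cast
        linear_combination (-18) * G1 - (18 + (-9) * e2 + (-9) * e2 ^ 2 + (-9) * e1 + 9 * e1 * e2) * H2 - ((-26) + 42 * e2) * (H2 - H3)
    · obtain rfl : c = 0 := by omega
      push_cast at H1 H2 H3
      exfalso
      apply he2
      apply mul_left_cancel₀ (nn' (-2) (by norm_num) (by norm_num))
      push_cast
      linear_combination H2 - H3
  · have hb : b = 0 ∨ b = 1 := by omega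
    rcases hb with rfl | rfl
    · have hc : c = 0 ∨ c = 1 := by omega
      rcases hc with rfl | rfl
      · push_cast at H1 H2 H3
        exfalso
        refine nn 24 (by norm_num) ?_
        push_cast
        linear_combination (2) * G1 - ((-2) + 1 * e2 + 1 * e2 ^ 2 + 1 * e1 + (-1) * e1 * e2) * H2 - ((-10) + (-14) * e2) * (H2 - H3)
      · push_cast at H1 H2 H3
        exfalso
        refine nn 12 (by norm_num) ?_
        push_cast
        linear_combination (4) * G1 - ((-5) + 3 * e2 + 2 * e2 ^ 2 + 2 * e1 + (-2) * e1 * e2) * H2 - (1 + (-13) * e2) * (H2 - H3)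
    · obtain rfl : c = 0 := by omega
      push_cast at H1 H2 H3
      exfalso
      refine nn 12 (by norm_num) ?_
      push_cast
      linear_combination (-4) * G3 - ((-1) + 15 * e2 + (-2) * e2 ^ 2 + 2 * e1 + (-6) * e1 * e2 + (-4) * e1 ^ 2) * H2 - ((-11) + (-26) * e2) * (H2 - H3)
  · obtain rfl : b = 0 := by omega
    obtain rfl : c = 0 := by omega
    push_cast at H1 H2 H3
    exfalso
    refine nn 2 (by norm_num) ?_
    push_cast
    linear_combination (1) * (H2 - H3)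

/-- the data of a solution modulo `p` over a cubic field with two places of equal valuations -/
structure Dat2 (x y z : Fin 2 → F) (a b c : ℕ) : Prop where
  x0 : ∀ i, x i ≠ 0
  y0 : ∀ i, y i ≠ 0
  z0 : ∀ i, z i ≠ 0
  sum : ∀ i, x i + y i + z i = 0
  h1 : ∑ i, (x i - y i) / z i + 1 = (a : F) - b
  h2 : ∑ i, (y i - z i) / x i = (b : F) - c
  h3 : ∑ i, (z i - x i) / y i - 1 = (c : F) - a
  g1 : ∑ i, x i * y i * (x i - y i) / z i ^ 3 = 0
  g3 : ∑ i, z i * x i * (z i - x i) / y i ^ 3 = 0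

theorem Dat2.fin (nn : ∀ n : ℕ, n ∣ 6 ^ 6 → (n : F) = 0 → False)
    (nn' : ∀ n : ℤ, n ≠ 0 → n ∣ 6 ^ 6 → (n : F) ≠ 0) {x y z : Fin 2 → F} {a b c : ℕ}
    (h : Dat2 x y z a b c) (hs : a + b + c ≤ 3) : a = 1 ∧ b = 0 ∧ c = 0 := by
  obtain ⟨r, hr⟩ : ∃ r : Fin 2 → F, r = fun i => y i / x i := ⟨_, rfl⟩
  have hy : ∀ i, y i = r i * x i := by
    intro i
    rw [hr]
    exact (div_mul_cancel₀ _ (h.x0 i)).symm
  have hz : ∀ i, z i = -(1 + r i) * x i := by
    intro i
    linear_combination h.sum i - hy i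
  have r0 : ∀ i, r i ≠ 0 := by
    intro i h0
    apply h.y0 i
    rw [hy, h0, zero_mul]
  have s0 : ∀ i, 1 + r i ≠ 0 := by
    intro i h0
    apply h.z0 i
    rw [hz, h0, neg_zero, zero_mul]
  have q2 : ∀ i, (y i - z i) / x i = 1 + 2 * r i := by
    intro i
    rw [div_eq_iff (h.x0 i), hz, hy]
    ring
  have q3 : ∀ i, (z i - x i) / y i = -1 - 2 * (r i)⁻¹ := by
    intro i
    have := r0 i
    have := h.x0 i
    rw [div_eq_iff (h.y0 i), hz, hy]
    field_simp
    ring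
  have q1 : ∀ i, (x i - y i) / z i = 1 - 2 * (1 + r i)⁻¹ := by
    intro i
    have := s0 i
    have := h.x0 i
    rw [div_eq_iff (h.z0 i), hz, hy]
    field_simp
    ring
  have q4 : ∀ i, x i * y i * (x i - y i) / z i ^ 3 =
      (1 + r i)⁻¹ - 3 * ((1 + r i)⁻¹) ^ 2 + 2 * ((1 + r i)⁻¹) ^ 3 := by
    intro i
    have := s0 i
    have := h.x0 i
    rw [div_eq_iff (pow_ne_zero 3 (h.z0 i)), hz, hy]
    field_simp
    ring
  have q5 : ∀ i, z i * x i * (z i - x i) / y i ^ 3 =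
      (r i)⁻¹ + 3 * ((r i)⁻¹) ^ 2 + 2 * ((r i)⁻¹) ^ 3 := by
    intro i
    have := r0 i
    have := h.x0 i
    rw [div_eq_iff (pow_ne_zero 3 (h.y0 i)), hz, hy]
    field_simp
    ring
  have H1 := h.h1
  have H2 := h.h2
  have H3 := h.h3
  have H4 := h.g1
  have H5 := h.g3
  rw [Finset.sum_congr rfl fun i _ => q1 i] at H1
  rw [Finset.sum_congr rfl fun i _ => q2 i] at H2
  rw [Finset.sum_congr rfl fun i _ => q3 i] at H3
  rw [Finset.sum_congr rfl fun i _ => q4 i] at H4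
  rw [Finset.sum_congr rfl fun i _ => q5 i] at H5
  rw [Fin.sum_univ_two] at H1 H2 H3 H4 H5
  obtain ⟨u0, hu0⟩ : ∃ u, u = (r 0)⁻¹ := ⟨_, rfl⟩
  obtain ⟨u1, hu1⟩ : ∃ u, u = (r 1)⁻¹ := ⟨_, rfl⟩
  obtain ⟨v0, hv0⟩ : ∃ u, u = (1 + r 0)⁻¹ := ⟨_, rfl⟩
  obtain ⟨v1, hv1⟩ : ∃ u, u = (1 + r 1)⁻¹ := ⟨_, rfl⟩
  have t0 : u0 * r 0 = 1 := by rw [hu0]; exact inv_mul_cancel₀ (r0 0)
  have t1 : u1 * r 1 = 1 := by rw [hu1]; exact inv_mul_cancel₀ (r0 1)
  have w0 : v0 * (1 + r 0) = 1 := by rw [hv0]; exact inv_mul_cancel₀ (s0 0)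
  have w1 : v1 * (1 + r 1) = 1 := by rw [hv1]; exact inv_mul_cancel₀ (s0 1)
  rw [← hu0, ← hu1] at H3 H5
  rw [← hv0, ← hv1] at H1 H4
  have n0 := r0 0
  have n1 := r0 1
  have m0 := s0 0
  have m1 := s0 1
  obtain ⟨x0, hx0⟩ : ∃ u, u = r 0 := ⟨_, rfl⟩
  obtain ⟨x1, hx1⟩ : ∃ u, u = r 1 := ⟨_, rfl⟩
  rw [← hx0] at t0 w0 H2 n0 m0
  rw [← hx1] at t1 w1 H2 n1 m1
  obtain ⟨E, hE⟩ : ∃ E, E = (1 + x0) * (1 + x1) := ⟨_, rfl⟩
  have hprod : E ≠ 0 := by
    rw [hE]
    exact mul_ne_zero m0 m1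
  have hEe : 1 + (x0 + x1) + x0 * x1 = E := by
    rw [hE]
    ring
  have f1 : (v0 + v1) * E = 2 + (x0 + x1) := by
    rw [hE]
    linear_combination (1 + x1) * w0 + (1 + x0) * w1
  have f2 : v0 * v1 * E = 1 := by
    rw [hE]
    linear_combination (v1 * (1 + x1)) * w0 + w1
  have f3 : (u0 + u1) * (x0 * x1) = x0 + x1 := by
    linear_combination x1 * t0 + x0 * t1
  have f4 : u0 * u1 * (x0 * x1) = 1 := by
    linear_combination (u1 * x1) * t0 + t1
  obtain ⟨V, hV⟩ : ∃ V, V = v0 + v1 := ⟨_, rfl⟩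
  obtain ⟨W, hW⟩ : ∃ W, W = v0 * v1 := ⟨_, rfl⟩
  obtain ⟨V', hV'⟩ : ∃ V, V = u0 + u1 := ⟨_, rfl⟩
  obtain ⟨W', hW'⟩ : ∃ W, W = u0 * u1 := ⟨_, rfl⟩
  have K4 : V - 3 * (V ^ 2 - 2 * W) + 2 * (V ^ 3 - 3 * V * W) = 0 := by
    rw [hV, hW]
    linear_combination H4
  have K5 : V' + 3 * (V' ^ 2 - 2 * W') + 2 * (V' ^ 3 - 3 * V' * W') = 0 := by
    rw [hV', hW']
    linear_combination H5
  rw [← hV] at f1
  rw [← hW] at f2
  rw [← hV'] at f3
  rw [← hW'] at f4
  refine two_alg nn nn' hs (e1 := x0 + x1) (e2 := x0 * x1) (mul_ne_zero n0 n1)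
    (by rw [hEe]; exact hprod) (by linear_combination H2) ?_ ?_ ?_ ?_
  · linear_combination -(x0 * x1) * H3 - 2 * f3 + 2 * (x0 * x1) * hV'
  · rw [hEe, ← f1]
    linear_combination E * H1 - 2 * E * hV
  · rw [hEe, ← f1]
    linear_combination E ^ 3 * K4 - (6 - 6 * V) * E ^ 2 * f2
  · obtain ⟨P, hP⟩ : ∃ P, P = x0 * x1 := ⟨_, rfl⟩
    rw [← hP] at f3 f4 ⊢
    rw [← f3]
    linear_combination P ^ 3 * K5 + (6 + 6 * V') * P ^ 2 * f4

end

end Pool.Agent.U549.FW
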