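import Pool.Agent.U549.FW.Lg

/-!
# The logarithmic derivative of order three of a product of linear polynomials
-/

set_option autoImplicit false

namespace Pool.Agent.U549.FW

open Polynomial Pool.Agent.Y546.WQ

section

variable {F : Type*} [Field F]

theorem ev_add (j : ℕ) (f g : F[X]) : ev j (f + g) = ev j f + ev j g := by
  unfold ev
  rw [map_add, eval_add]

theorem ev_lin (x y : F) : ev 0 (C x + X * C y) = x + y ∧ ∀ j, ev (j + 1) (C x + X * C y) = y := by
  have h1 : ∀ j, ev j (X * C y : F[X]) = y := by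
    intro j
    induction j with
    | zero => simp [ev_zero]
    | succ j ih =>
      rw [ev_succ, DD_mul, DD_C, mul_zero, add_zero]
      have e : DD (X : F[X]) = X := by
        rw [DD_apply, derivative_X, mul_one]
      rw [e, ih]
  have h2 : ∀ j, ev (j + 1) (C x : F[X]) = 0 := by
    intro j
    rw [ev_succ, DD_C]
    unfold ev
    rw [map_zero, eval_zero]
  refine ⟨by simp [ev_zero], fun j => ?_⟩
  rw [ev_add, h1, h2, zero_add]

/-- a linear polynomial -/
theorem lin3 {x y : F} (hs : x + y ≠ 0) {N : ℕ} (hN : 3 ≤ N) {L : F[X]}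
    (h : (X - 1) ^ N ∣ (C x + X * C y) * L - DD (C x + X * C y)) :
    ((DD ^ 2) L).eval 1 = x * y * (x - y) / (x + y) ^ 3 := by
  obtain ⟨e0, e1⟩ := ev_lin x y
  have key : ∀ j, j < N → ev j ((C x + X * C y) * L) = y := by
    intro j hj
    have h1 := DD_pow_eval hj h
    rw [map_sub, eval_sub] at h1
    have h2 : ev j (DD (C x + X * C y)) = y := by
      rw [← ev_succ]
      exact e1 j
    unfold ev at h2 ⊢
    rw [h2] at h1
    exact sub_eq_zero.1 h1
  have k0 := key 0 (by omega)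
  have k1 := key 1 (by omega)
  have k2 := key 2 (by omega)
  rw [ev_mul] at k0 k1 k2
  simp only [Finset.sum_range_succ, Finset.sum_range_zero, Nat.choose_self, Nat.choose_zero_right,
    Nat.choose_one_right, zero_add, Nat.sub_zero, Nat.sub_self, e0] at k0 k1 k2
  have f1 := e1 0
  have f2 := e1 1
  norm_num at k0 k1 k2 f1 f2
  rw [f1] at k1 k2
  rw [f2] at k2
  have hL : ((DD ^ 2) L).eval 1 = ev 2 L := rfl
  rw [hL, eq_div_iff (pow_ne_zero 3 hs)]
  obtain ⟨a0, ha0⟩ : ∃ a0, a0 = ev 0 L := ⟨_, rfl⟩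
  obtain ⟨a1, ha1⟩ : ∃ a1, a1 = ev 1 L := ⟨_, rfl⟩
  obtain ⟨a2, ha2⟩ : ∃ a2, a2 = ev 2 L := ⟨_, rfl⟩
  rw [← ha0] at k0 k1 k2
  rw [← ha1] at k1 k2
  rw [← ha2] at k2 ⊢
  linear_combination (x + y) ^ 2 * k2 - 2 * y * (x + y) * k1 + (2 * y ^ 2 - y * (x + y)) * k0

end

section

variable {p : ℕ} [Fact p.Prime] {F : Type*} [Field F] [CharP F p]

theorem DD_map {R S : Type*} [Field R] [Field S] (ι : R →+* S) (f : R[X]) (j : ℕ) :
    ((DD ^ j) f).map ι = (DD ^ j) (f.map ι) := by
  induction j with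
  | zero => simp
  | succ j ih =>
    rw [DD_succ, DD_succ, ← ih, DD_apply, DD_apply, Polynomial.map_mul, map_X, derivative_map]

/-- the relation for the index three -/
theorem log_three (h5 : 5 ≤ p) {g : (ZMod p)[X]} (hg1 : g.eval 1 ≠ 0) (hR : Rel p g)
    (hreg : Reg p 3) {ι : Type*} (s : Finset ι) (x y : ι → F)
    (hg : g.map (ZMod.castHom (dvd_refl p) F) = ∏ i ∈ s, (C (x i) + X * C (y i))) :
    ∑ i ∈ s, x i * y i * (x i - y i) / (x i + y i) ^ 3 = 0 := by
  classical
  obtain ⟨L, hL, hL2⟩ := log_rel hg1 hR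
  have h2 := hL2 2 (by omega) (by omega) hreg
  obtain ⟨κ, hκ⟩ : ∃ κ, κ = ZMod.castHom (dvd_refl p) F := ⟨_, rfl⟩
  rw [← hκ] at hg
  have hg1' : (g.map κ).eval 1 ≠ 0 := by
    rw [eval_one_map]
    intro h0
    exact hg1 ((map_eq_zero κ).1 h0)
  have hs : ∀ i ∈ s, x i + y i ≠ 0 := by
    intro i hi h0
    apply hg1'
    rw [hg, eval_prod]
    refine Finset.prod_eq_zero hi ?_
    simp [h0]
  have hchoose : ∀ i, ∃ M : F[X], i ∈ s → (X - 1) ^ (p - 1) ∣
      (C (x i) + X * C (y i)) * M - DD (C (x i) + X * C (y i)) := by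
    intro i
    by_cases hi : i ∈ s
    · have hne : (C (x i) + X * C (y i) : F[X]).eval 1 ≠ 0 := by
        simpa using hs i hi
      obtain ⟨u, v, huv⟩ := cop_one hne (p - 1)
      refine ⟨u * DD (C (x i) + X * C (y i)), fun _ => ⟨-(v * DD (C (x i) + X * C (y i))), ?_⟩⟩
      linear_combination DD (C (x i) + X * C (y i)) * huv
    · exact ⟨0, fun h => absurd h hi⟩
  choose M hM using hchoose
  have hprod := DD_prod (p - 1) s (fun i => C (x i) + X * C (y i)) M fun i hi => by
    have := (dvd_neg (α := F[X])).2 (hM i hi)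
    rwa [neg_sub] at this
  rw [← hg] at hprod
  have hL' : (X - 1) ^ (p - 1) ∣ g.map κ * L.map κ - DD (g.map κ) := by
    have h3 := map_dvd (Polynomial.mapRingHom κ) hL
    simp only [map_pow, map_sub, map_one, map_mul, coe_mapRingHom, map_X] at h3
    have h4 := DD_map κ g 1
    rw [pow_one, pow_one] at h4
    rwa [h4] at h3
  have h3 : (X - 1) ^ (p - 1) ∣ g.map κ * (L.map κ - ∑ i ∈ s, M i) := by
    have e : g.map κ * (L.map κ - ∑ i ∈ s, M i) = (g.map κ * L.map κ - DD (g.map κ)) +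
        (DD (g.map κ) - g.map κ * ∑ i ∈ s, M i) := by ring
    rw [e]
    exact dvd_add hL' hprod
  have h4 := (cop_one hg1' (p - 1)).symm.dvd_of_dvd_mul_left h3
  have h5' := DD_pow_eval (j := 2) (by omega) h4
  rw [map_sub, eval_sub, ← DD_map, eval_one_map, h2, map_zero, zero_sub, neg_eq_zero, map_sum,
    eval_finsetSum] at h5'
  rw [← h5']
  refine Finset.sum_congr rfl fun i hi => ?_
  exact (lin3 (hs i hi) (by omega) (hM i hi)).symm

end

end Pool.Agent.U549.FW
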