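import Pool.Agent.U549.FW.Fst2
import Pool.Agent.U549.FW.Log3
import Pool.Agent.U549.FW.CubA

/-!
# The first case over cubic fields
-/

set_option autoImplicit false

namespace Pool.Agent.U549.FW

open NumberField IsDedekindDomain Polynomial Pool.Agent.Y546.WQ Pool.Agent.N840.FC
  Pool.Agent.U549.LF

section

variable {K : Type} [Field K] [NumberField K]

/-- the relation for the index three for a pair of conjugate families -/
theorem pair_three {N E F : Type} [Field N] [NumberField N] [Field E] [NumberField E] [Field F]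
    {p : ℕ} [Fact p.Prime] [CharP F p] (h5 : 5 ≤ p) (hm : Module.finrank ℚ K < p) (cE : Cyc p E)
    (hcard : Nat.card (K →+* N) = Module.finrank ℚ K) (ψ : 𝓞 N →+* F) (hreg : Reg p 3)
    {X Y Z : 𝓞 K} (hs : Sol p K X Y Z)
    (hz : ∀ τ : K →+* N, ψ (RingOfIntegers.mapRingHom τ X) + ψ (RingOfIntegers.mapRingHom τ Y) +
      ψ (RingOfIntegers.mapRingHom τ Z) = 0) :
    ∑ τ : K →+* N, ψ (RingOfIntegers.mapRingHom τ X) * ψ (RingOfIntegers.mapRingHom τ Y) *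
      (ψ (RingOfIntegers.mapRingHom τ X) - ψ (RingOfIntegers.mapRingHom τ Y)) /
        ψ (RingOfIntegers.mapRingHom τ Z) ^ 3 = 0 := by
  classical
  have hp2 : p ≠ 2 := by omega
  obtain ⟨f, hdeg, hc0, hcm, hev, hf⟩ := Y290.WQ.mainNORM K X Y
  obtain ⟨N', _, _, i', hcard', hD'⟩ := Y258.WQ.mainDOWNG p E cE K hm
  obtain ⟨b1, b2, b3, b4, b5⟩ := base Y290.WQ.mainNORM hcard hs f hdeg hc0 hcm hev
  have hR := rel_of_sol aUNITA Y261.WQ.main Y919.WQ.mainLAMA Y290.WQ.mainNORM cE i' hD' hcard' hp2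
    hs f hdeg hc0 hcm hev (hf N' hcard')
  have hmap : (f.map (Int.castRingHom (ZMod p))).map (ZMod.castHom (dvd_refl p) F) =
      ∏ τ : K →+* N, (C (ψ (RingOfIntegers.mapRingHom τ X)) +
        Polynomial.X * C (ψ (RingOfIntegers.mapRingHom τ Y))) := by
    have hκ : (ZMod.castHom (dvd_refl p) F).comp (Int.castRingHom (ZMod p)) =
      ψ.comp (Int.castRingHom (𝓞 N)) := RingHom.ext_int _ _
    rw [Polynomial.map_map, hκ, ← Polynomial.map_map, hf N hcard]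
    unfold nrmP
    rw [Polynomial.map_prod]
    refine Finset.prod_congr rfl fun τ _ => ?_
    simp
  have h1 := log_three h5 b4 hR hreg Finset.univ
    (fun τ : K →+* N => ψ (RingOfIntegers.mapRingHom τ X))
    (fun τ : K →+* N => ψ (RingOfIntegers.mapRingHom τ Y)) hmap
  have h2 : ∀ τ : K →+* N, ψ (RingOfIntegers.mapRingHom τ X) * ψ (RingOfIntegers.mapRingHom τ Y) *
      (ψ (RingOfIntegers.mapRingHom τ X) - ψ (RingOfIntegers.mapRingHom τ Y)) /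
        ψ (RingOfIntegers.mapRingHom τ Z) ^ 3 =
      -(ψ (RingOfIntegers.mapRingHom τ X) * ψ (RingOfIntegers.mapRingHom τ Y) *
      (ψ (RingOfIntegers.mapRingHom τ X) - ψ (RingOfIntegers.mapRingHom τ Y)) /
        (ψ (RingOfIntegers.mapRingHom τ X) + ψ (RingOfIntegers.mapRingHom τ Y)) ^ 3) := by
    intro τ
    have e : ψ (RingOfIntegers.mapRingHom τ X) + ψ (RingOfIntegers.mapRingHom τ Y) =
        -ψ (RingOfIntegers.mapRingHom τ Z) := by linear_combination hz τ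
    rw [e]
    have e2 : (-ψ (RingOfIntegers.mapRingHom τ Z)) ^ 3 =
        -(ψ (RingOfIntegers.mapRingHom τ Z) ^ 3) := by ring
    rw [e2, div_neg, neg_neg]
  rw [Finset.sum_congr rfl fun τ _ => h2 τ, Finset.sum_neg_distrib, h1, neg_zero]

/-- the first case over cubic fields -/
theorem cub_first (hK : Module.finrank ℚ K = 3) {p : ℕ} (hp : p.Prime) (h7 : 7 ≤ p)
    (hW2 : ¬ p ^ 2 ∣ 2 ^ (p - 1) - 1)
    {a b c : K} (ha : a ≠ 0) (hb : b ≠ 0) (hc : c ≠ 0) (h : a ^ p + b ^ p + c ^ p = 0)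
    (hE : ∀ v : HeightOneSpectrum (𝓞 K), ((p : ℕ) : 𝓞 K) ∈ v.asIdeal → EqualAt v a b c)
    {q : ℕ} (hq : q.Prime) (hqp : q ≠ p) (hW : ¬ p ^ 2 ∣ q ^ (p - 1) - 1)
    (k1 : Good p q a b c) (k2 : Good p q b c a) (k3 : Good p q c a b)
    (hB : Spec (share q a b c) (share q b c a) (share q c a b) →
      ¬ (p : ℤ) ∣ (_root_.bernoulli (p - 3)).num) : False := by
  classical
  have hfp : Fact p.Prime := ⟨hp⟩
  have hfq : Fact q.Prime := ⟨hq⟩
  have hp2 : p ≠ 2 := by omega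
  have hp0 : p ≠ 0 := hp.ne_zero
  have hm3 : Module.finrank ℚ K + 3 ≤ p := by
    rcases Nat.lt_or_ge p 8 with h8 | h8
    · have : p = 7 := by omega
      omega
    · omega
  have hmp : Module.finrank ℚ K < p := by omega
  have hreg : Spec (share q a b c) (share q b c a) (share q c a b) → Reg p 3 := by
    intro hsp
    refine reg_of Y61.WQ.mainBER 3 (by decide) (le_refl 3) (by omega) ?_
    intro hk
    unfold irr at hk
    rw [Finset.mem_filter] at hk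
    exact hB hsp hk.2.2.2.2
  obtain ⟨E, _, _, ⟨cE⟩⟩ := Y978.WQ.main p hp2
  obtain ⟨N, _, _, _, hG, hcard, hdvf⟩ := Y258.WQ.exists_field E K
  obtain ⟨α, hα, X, Y, Z, hXa, hYa, hZa, hX0, hY0, hZ0, hcp⟩ := prepM (p * q)
    (mul_ne_zero hp.ne_zero hq.ne_zero) ha hb hc p hp (dvd_mul_right p q)
  have hXYZ : X ^ p + Y ^ p + Z ^ p = 0 := by
    apply RingOfIntegers.coe_injective
    rw [map_zero, map_add, map_add, map_pow, map_pow, map_pow, hXa, hYa, hZa, mul_pow, mul_pow,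
      mul_pow]
    linear_combination α ^ p * h
  have hcpp : ∀ P : Ideal (𝓞 K), P.IsPrime → ((p : ℕ) : 𝓞 K) ∈ P → ¬ (X ∈ P ∧ Y ∈ P ∧ Z ∈ P) := by
    intro P hP hpP
    refine hcp P hP ?_
    rw [Nat.cast_mul]
    exact P.mul_mem_right _ hpP
  have hcq : ∀ P : Ideal (𝓞 K), P.IsPrime → ((q : ℕ) : 𝓞 K) ∈ P → ¬ (X ∈ P ∧ Y ∈ P ∧ Z ∈ P) := by
    intro P hP hpP
    refine hcp P hP ?_
    rw [Nat.cast_mul]
    exact P.mul_mem_left _ hpP
  have hM : Mix p K X Y Z := ⟨hX0, hY0, hZ0, hXYZ, hcpp⟩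
  have hs : Sol p K X Y Z := ⟨hX0, hY0, hZ0, hXYZ, fun P hP hpP => by
    have h0 : P ≠ ⊥ := by
      rintro rfl
      rw [Ideal.mem_bot, Nat.cast_eq_zero] at hpP
      exact hp0 hpP
    exact (vals hp0 hα hXa hYa hZa hXYZ hcpp ⟨P, hP, h0⟩ hpP).2.2 (hE ⟨P, hP, h0⟩ hpP)⟩
  obtain ⟨Q, hQ, hQp⟩ := exists_above (K := N) p hp
  obtain ⟨R, hR, hRq⟩ := exists_above (K := N) q hq
  have hQ0 : Q ≠ ⊥ := by
    rintro rfl
    rw [Ideal.mem_bot, Nat.cast_eq_zero] at hQp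
    exact hp.ne_zero hQp
  have hQm : Q.IsMaximal := hQ.isMaximal hQ0
  let _ : Field (𝓞 N ⧸ Q) := Ideal.Quotient.field Q
  have hch : CharP (𝓞 N ⧸ Q) p := charP_quot Q hQ p hp hQp
  let ψ : 𝓞 N →+* (𝓞 N ⧸ Q) := Ideal.Quotient.mk Q
  have hψ : ∀ w : 𝓞 N, ψ w = 0 ↔ w ∈ Q := fun w => Ideal.Quotient.eq_zero_iff_mem
  have hpQ : ∀ τ : K →+* N, ((p : ℕ) : 𝓞 K) ∈ Q.comap (RingOfIntegers.mapRingHom τ) := by
    intro τ
    rw [Ideal.mem_comap, map_natCast]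
    exact hQp
  have hne : ∀ τ : K →+* N, ψ (RingOfIntegers.mapRingHom τ X) ≠ 0 ∧
      ψ (RingOfIntegers.mapRingHom τ Y) ≠ 0 ∧ ψ (RingOfIntegers.mapRingHom τ Z) ≠ 0 := by
    intro τ
    have h1 := hs.cp _ (hQ.comap (RingOfIntegers.mapRingHom τ)) (hpQ τ)
    rw [Ne, Ne, Ne, hψ, hψ, hψ]
    exact h1
  have hlin : ∀ τ : K →+* N, ψ (RingOfIntegers.mapRingHom τ X) +
      ψ (RingOfIntegers.mapRingHom τ Y) + ψ (RingOfIntegers.mapRingHom τ Z) = 0 := by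
    intro τ
    rw [← map_add, ← map_add, ← map_add, ← map_add, hψ]
    exact lin_p hp _ (hQ.comap (RingOfIntegers.mapRingHom τ)) (hpQ τ) hXYZ
  have hmiss : ∀ {x y z : 𝓞 K}, (∀ τ : K →+* N, ψ (RingOfIntegers.mapRingHom τ x) ≠ 0 ∧
      ψ (RingOfIntegers.mapRingHom τ y) ≠ 0 ∧ ψ (RingOfIntegers.mapRingHom τ z) ≠ 0) →
      miss (K := K) Q x y z = Finset.univ := by
    intro x y z hxyz
    rw [Finset.eq_univ_iff_forall]
    intro τ
    rw [mem_miss]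
    have h1 := hxyz τ
    rw [Ne, Ne, Ne, hψ, hψ, hψ] at h1
    exact h1
  have hE2 : ∀ v : HeightOneSpectrum (𝓞 K), ((p : ℕ) : 𝓞 K) ∈ v.asIdeal → EqualAt v b c a :=
    fun v hv => ⟨(hE v hv).2, ((hE v hv).1.trans (hE v hv).2).symm⟩
  have hE3 : ∀ v : HeightOneSpectrum (𝓞 K), ((p : ℕ) : 𝓞 K) ∈ v.asIdeal → EqualAt v c a b :=
    fun v hv => ⟨((hE v hv).1.trans (hE v hv).2).symm, (hE v hv).1⟩
  have hz : ∀ {a b c : K}, (∀ v : HeightOneSpectrum (𝓞 K), ((p : ℕ) : 𝓞 K) ∈ v.asIdeal →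
      EqualAt v a b c) → share p a b c = 0 := by
    intro a b c hE
    refine deg_zero p _ fun v hv h1 => ?_
    have h2 := (hE v hv).1
    rw [h2] at h1
    exact lt_irrefl _ h1.1
  have s1 := hz hE
  have s2 := hz hE2
  have s3 := hz hE3
  have rc : ∀ {l : ℕ} {X Y Z : 𝓞 K}, (∀ P : Ideal (𝓞 K), P.IsPrime → ((l : ℕ) : 𝓞 K) ∈ P →
      ¬ (X ∈ P ∧ Y ∈ P ∧ Z ∈ P)) → ∀ P : Ideal (𝓞 K), P.IsPrime → ((l : ℕ) : 𝓞 K) ∈ P →
      ¬ (Y ∈ P ∧ Z ∈ P ∧ X ∈ P) := fun h P hP hlP h' => h P hP hlP ⟨h'.2.2, h'.1, h'.2.1⟩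
  have c1 := core_K hcard hdvf hp2 cE hm3 Q hQ hQp ψ hψ hqp hW R hR hRq hα hXa hYa hZa hM hcq k1
  have c2 := core_K hcard hdvf hp2 cE hm3 Q hQ hQp ψ hψ hqp hW R hR hRq hα hYa hZa hXa hM.rot
    (rc hcq) k2
  have c3 := core_K hcard hdvf hp2 cE hm3 Q hQ hQp ψ hψ hqp hW R hR hRq hα hZa hXa hYa hM.rot.rot
    (rc (rc hcq)) k3
  rw [hmiss hne, s1, s2, Nat.cast_zero, add_zero, sub_zero] at c1
  rw [hmiss fun τ => ⟨(hne τ).2.1, (hne τ).2.2, (hne τ).1⟩, s2, s3, Nat.cast_zero, add_zero,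
    sub_zero] at c2
  rw [hmiss fun τ => ⟨(hne τ).2.2, (hne τ).1, (hne τ).2.1⟩, s3, s1, Nat.cast_zero, add_zero,
    sub_zero] at c3
  have d1 := fun hreg => pair_three (by omega) hmp cE hcard ψ hreg hs hlin
  have d2 := fun hreg => pair_three (by omega) hmp cE hcard ψ hreg hs.rot
    (fun τ => by linear_combination hlin τ)
  have d3 := fun hreg => pair_three (by omega) hmp cE hcard ψ hreg hs.rot.rot
    (fun τ => by linear_combination hlin τ)
  have hc3 : Fintype.card (K →+* N) = 3 := by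
    rw [← Nat.card_eq_fintype_card, hcard, hK]
  obtain ⟨e⟩ : Nonempty (Fin 3 ≃ (K →+* N)) := by
    rw [← Fintype.card_eq, Fintype.card_fin, hc3]
  have tr : ∀ g : (K →+* N) → (𝓞 N ⧸ Q), ∑ i, g (e i) = ∑ τ, g τ := fun g => Equiv.sum_comp e g
  have hdat : Dat (fun i => ψ (RingOfIntegers.mapRingHom (e i) X))
      (fun i => ψ (RingOfIntegers.mapRingHom (e i) Y))
      (fun i => ψ (RingOfIntegers.mapRingHom (e i) Z)) (share q a b c) (share q b c a)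
      (share q c a b) := by
    refine ⟨fun i => (hne (e i)).1, fun i => (hne (e i)).2.1, fun i => (hne (e i)).2.2,
      fun i => hlin (e i), ?_, ?_, ?_, ?_, ?_, ?_⟩
    · exact (tr _).trans c1
    · exact (tr _).trans c2
    · exact (tr _).trans c3
    · exact fun s => (tr _).trans (d1 (hreg s))
    · exact fun s => (tr _).trans (d2 (hreg s))
    · exact fun s => (tr _).trans (d3 (hreg s))
  have kq := part_K (K := K) hq hp0 ha hb hc h
  rw [hK] at kq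
  have natF : ∀ n : ℕ, 0 < n → n < p → (n : 𝓞 N ⧸ Q) ≠ 0 := by
    intro n hn hnp
    rw [Ne, CharP.cast_eq_zero_iff (𝓞 N ⧸ Q) p]
    intro hd
    have := Nat.le_of_dvd hn hd
    omega
  have h2F : (2 : 𝓞 N ⧸ Q) ≠ 0 := by exact_mod_cast natF 2 (by norm_num) (by omega)
  have h3F : (3 : 𝓞 N ⧸ Q) ≠ 0 := by exact_mod_cast natF 3 (by norm_num) (by omega)
  obtain ⟨i, hi⟩ := hdat.two h2F h3F (by omega)
  have fin : ∀ {X Y Z : 𝓞 K}, Sol p K X Y Z → ψ (RingOfIntegers.mapRingHom (e i) X) =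
      ψ (RingOfIntegers.mapRingHom (e i) Y) → False := by
    intro X Y Z hs hXY
    refine wief hmp hp2 hW2 (Q.comap (RingOfIntegers.mapRingHom (e i))) (hQ.comap _) (hpQ (e i))
      hs ?_
    rw [Ideal.mem_comap, ← hψ, map_sub, map_sub, hXY, sub_self]
  rcases hi with hi | hi | hi
  · exact fin hs hi
  · exact fin hs.rot hi
  · exact fin hs.rot.rot hi

end

end Pool.Agent.U549.FW
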