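import Pool.Agent.U549.FW.Luc2

/-!
# The first case over quadratic fields: the three norms
-/

set_option autoImplicit false

namespace Pool.Agent.U549.FW

open NumberField IsDedekindDomain Polynomial Pool.Agent.Y546.WQ Pool.Agent.N840.FC
  Pool.Agent.U549.LF

/-- the norm polynomial of a pair -/
noncomputable def Qd {p : ℕ} (A B G : ZMod p) : Polynomial (ZMod p) :=
  Polynomial.C A + Polynomial.C (G - A - B) * Polynomial.X + Polynomial.C B * Polynomial.X ^ 2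

/-- the condition modulo the square of `p` for a pair -/
def Lz (p : ℕ) (d A B G : ZMod p) : Prop :=
  d ≠ 0 → A = B → ∀ k Q : ℤ, (k : ZMod p) ^ 2 * (2 * A + 2 * B - G) =
    (4 * (Q : ZMod p) - (k : ZMod p) ^ 2) * G → (p : ℤ) ^ 2 ∣ lucV k Q p - k ^ p

section

variable {K : Type} [Field K] [NumberField K]

/-- the three norms of a solution in the first case over a quadratic field -/
theorem fst_core {p : ℕ} [Fact p.Prime] (h5 : 5 ≤ p) (hK : Module.finrank ℚ K = 2) {a b c : K}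
    (ha : a ≠ 0) (hb : b ≠ 0) (hc : c ≠ 0) (h : a ^ p + b ^ p + c ^ p = 0)
    (hE : ∀ v : HeightOneSpectrum (𝓞 K), ((p : ℕ) : 𝓞 K) ∈ v.asIdeal → EqualAt v a b c) :
    ∃ A B G : ZMod p, A ≠ 0 ∧ B ≠ 0 ∧ G ≠ 0 ∧
      (∃ m : ZMod p, A ^ 2 + B ^ 2 + G ^ 2 - 2 * A * B - 2 * A * G - 2 * B * G =
        m ^ 2 * (NumberField.discr K : ZMod p)) ∧
      Rel p (Qd A B G) ∧ Rel p (Qd B G A) ∧ Rel p (Qd G A B) ∧
      Lz p (NumberField.discr K : ZMod p) A B G ∧ Lz p (NumberField.discr K : ZMod p) B G A ∧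
      Lz p (NumberField.discr K : ZMod p) G A B ∧
      ∀ q : ℕ, q.Prime → q ≠ p → ¬ p ^ 2 ∣ q ^ (p - 1) - 1 →
        (Good p q a b c → ((share q a b c : ZMod p) - share q b c a) * G = 2 * (B - A)) ∧
        (Good p q b c a → ((share q b c a : ZMod p) - share q c a b) * A = 2 * (G - B)) ∧
        (Good p q c a b → ((share q c a b : ZMod p) - share q a b c) * B = 2 * (A - G)) := by
  classical
  have hp : p.Prime := Fact.out
  have hp0 := hp.ne_zero
  have hp2 : p ≠ 2 := by omega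
  obtain ⟨E, _, _, ⟨cE⟩⟩ := Y978.WQ.main p hp2
  obtain ⟨σ, hN, hT⟩ := Pool.Agent.Y546.SG.exists_conj hK
  obtain ⟨α, hα, X, Y, Z, hXa, hYa, hZa, hX0, hY0, hZ0, hcp⟩ := prepM p hp.ne_zero ha hb hc p hp
    (dvd_refl p)
  have hXYZ : X ^ p + Y ^ p + Z ^ p = 0 := by
    apply RingOfIntegers.coe_injective
    rw [map_zero, map_add, map_add, map_pow, map_pow, map_pow, hXa, hYa, hZa, mul_pow, mul_pow,
      mul_pow]
    linear_combination α ^ p * h
  have hs : Sol p K X Y Z := ⟨hX0, hY0, hZ0, hXYZ, fun P hP hpP => by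
    have h0 : P ≠ ⊥ := by
      rintro rfl
      rw [Ideal.mem_bot, Nat.cast_eq_zero] at hpP
      exact hp0 hpP
    exact (vals hp0 hα hXa hYa hZa hXYZ hcp ⟨P, hP, h0⟩ hpP).2.2 (hE ⟨P, hP, h0⟩ hpP)⟩
  have hlin : ∀ P : Ideal (𝓞 K), P.IsPrime → ((p : ℕ) : 𝓞 K) ∈ P → X + Y + Z ∈ P :=
    fun P hP hpP => Pool.Agent.Y546.WQ.lin_p hp P hP hpP hXYZ
  have hE2 : ∀ v : HeightOneSpectrum (𝓞 K), ((p : ℕ) : 𝓞 K) ∈ v.asIdeal → EqualAt v b c a :=
    fun v hv => ⟨(hE v hv).2, ((hE v hv).1.trans (hE v hv).2).symm⟩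
  have hE3 : ∀ v : HeightOneSpectrum (𝓞 K), ((p : ℕ) : 𝓞 K) ∈ v.asIdeal → EqualAt v c a b :=
    fun v hv => ⟨((hE v hv).1.trans (hE v hv).2).symm, (hE v hv).1⟩
  have hz : ∀ {a b c : K}, (∀ v : HeightOneSpectrum (𝓞 K), ((p : ℕ) : 𝓞 K) ∈ v.asIdeal →
      EqualAt v a b c) → share p a b c = 0 := by
    intro a b c hE
    refine deg_zero p _ fun v hv h1 => ?_
    have h2 := (hE v hv).1
    rw [h2] at h1
    exact lt_irrefl _ h1.1
  have s1 := hz hE
  have s2 := hz hE2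
  have s3 := hz hE3
  obtain ⟨t1, c1, A0, B0, G0, ⟨m, hm⟩, R1⟩ := rel_quad h5 hK σ hN hT cE hs
  obtain ⟨t2, c2, -, -, -, -, R2⟩ := rel_quad h5 hK σ hN hT cE hs.rot
  obtain ⟨t3, c3, -, -, -, -, R3⟩ := rel_quad h5 hK σ hN hT cE hs.rot.rot
  obtain ⟨A, hA⟩ : ∃ A : ZMod p, A = ((Algebra.norm ℤ X : ℤ) : ZMod p) := ⟨_, rfl⟩
  obtain ⟨B, hB⟩ : ∃ B : ZMod p, B = ((Algebra.norm ℤ Y : ℤ) : ZMod p) := ⟨_, rfl⟩
  obtain ⟨G, hG⟩ : ∃ G : ZMod p, G = ((Algebra.norm ℤ Z : ℤ) : ZMod p) := ⟨_, rfl⟩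
  have hm' := congrArg (Int.cast : ℤ → ZMod p) hm
  push_cast at hm'
  rw [← hA, ← hB] at hm'
  rw [← hA, ← hB, ← hG] at c1
  rw [← hA, ← hB, ← hG] at c2
  rw [← hA, ← hB, ← hG] at c3
  have e1 : (t1 : ZMod p) = G - A - B := by linear_combination c1
  have e2 : (t2 : ZMod p) = A - B - G := by linear_combination c2
  have e3 : (t3 : ZMod p) = B - G - A := by linear_combination c3
  rw [← hA, ← hB, e1] at R1
  rw [← hB, ← hG, e2] at R2
  rw [← hG, ← hA, e3] at R3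
  rw [← hA] at A0
  rw [← hB] at B0
  rw [← hG] at G0
  have hLz : ∀ {X Y Z : 𝓞 K}, Sol p K X Y Z → Lz p (NumberField.discr K : ZMod p)
      ((Algebra.norm ℤ X : ℤ) : ZMod p) ((Algebra.norm ℤ Y : ℤ) : ZMod p)
      ((Algebra.norm ℤ Z : ℤ) : ZMod p) := by
    intro X Y Z s hd0 hXY k Q hk
    refine pair_luc hK hp2 (fun hd => hd0 ?_) σ hN hT s hXY k Q hk
    exact (ZMod.intCast_zmod_eq_zero_iff_dvd _ p).2 hd
  have L1 := hLz hs
  have L2 := hLz hs.rot
  have L3 := hLz hs.rot.rot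
  rw [← hA, ← hB, ← hG] at L1
  rw [← hB, ← hG, ← hA] at L2
  rw [← hG, ← hA, ← hB] at L3
  refine ⟨A, B, G, A0, B0, G0, ⟨m, ?_⟩, R1, R2, R3, L1, L2, L3, fun q hq hqp hW => ⟨fun hg => ?_,
    fun hg => ?_, fun hg => ?_⟩⟩
  · rw [← hm', e1]
    ring
  · have h1 := (main_pair hp ha hb hc h (by omega) hq hqp hW hg).1
    have h2 := pair_rel hp σ hN hT hα hXa hYa hZa (fun P hP hpP => (hs.cp P hP hpP).2.2) hlin
      ((share q a b c : ZMod p) - share q b c a) fun w hw => by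
        have h3 := h1 w fun v hv => ⟨fun _ => hw v hv, fun hn => absurd (hE v hv) hn⟩
        rw [s1, s2, Nat.cast_zero, add_zero, sub_zero] at h3
        exact h3
    rw [← hA, ← hB, ← hG] at h2
    exact h2
  · have h1 := (main_pair hp hb hc ha (by linear_combination h) (by omega) hq hqp hW hg).1
    have h2 := pair_rel hp σ hN hT hα hYa hZa hXa (fun P hP hpP => (hs.cp P hP hpP).1)
      (fun P hP hpP => by
        have e : Y + Z + X = X + Y + Z := by ring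
        rw [e]
        exact hlin P hP hpP)
      ((share q b c a : ZMod p) - share q c a b) fun w hw => by
        have h3 := h1 w fun v hv => ⟨fun _ => hw v hv, fun hn => absurd (hE2 v hv) hn⟩
        rw [s2, s3, Nat.cast_zero, add_zero, sub_zero] at h3
        exact h3
    rw [← hA, ← hB, ← hG] at h2
    exact h2
  · have h1 := (main_pair hp hc ha hb (by linear_combination h) (by omega) hq hqp hW hg).1
    have h2 := pair_rel hp σ hN hT hα hZa hXa hYa (fun P hP hpP => (hs.cp P hP hpP).2.1)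
      (fun P hP hpP => by
        have e : Z + X + Y = X + Y + Z := by ring
        rw [e]
        exact hlin P hP hpP)
      ((share q c a b : ZMod p) - share q a b c) fun w hw => by
        have h3 := h1 w fun v hv => ⟨fun _ => hw v hv, fun hn => absurd (hE3 v hv) hn⟩
        rw [s3, s1, Nat.cast_zero, add_zero, sub_zero] at h3
        exact h3
    rw [← hA, ← hB, ← hG] at h2
    exact h2

end

end Pool.Agent.U549.FW
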