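import Pool.Agent.U549.FW.Log3
import Pool.Agent.U549.FW.Fst2

/-!
# The relation for the index three, mixed case
-/

set_option autoImplicit false

namespace Pool.Agent.U549.FW

open NumberField IsDedekindDomain Polynomial Pool.Agent.Y546.WQ Pool.Agent.N840.FC
  Pool.Agent.U549.LF

section

variable {p : ℕ} [Fact p.Prime] {F : Type*} [Field F] [CharP F p]

theorem log_aux {N : ℕ} (hN : 3 ≤ N) {g L : (ZMod p)[X]} (hg1 : g.eval 1 ≠ 0)
    (hL : (X - 1) ^ N ∣ g * L - DD g) (h2 : ((DD ^ 2) L).eval 1 = 0)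
    {ι : Type*} (s : Finset ι) (x y : ι → F)
    (hg : g.map (ZMod.castHom (dvd_refl p) F) = ∏ i ∈ s, (C (x i) + X * C (y i))) :
    ∑ i ∈ s, x i * y i * (x i - y i) / (x i + y i) ^ 3 = 0 := by
  classical
  obtain ⟨κ, hκ⟩ : ∃ κ, κ = ZMod.castHom (dvd_refl p) F := ⟨_, rfl⟩
  rw [← hκ] at hg
  have hg1' : (g.map κ).eval 1 ≠ 0 := by
    rw [eval_one_map]
    intro h0
    exact hg1 ((map_eq_zero κ).1 h0)
  have hs : ∀ i ∈ s, x i + y i ≠ 0 := by
    intro i hi h0
    apply hg1'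
    rw [hg, eval_prod]
    refine Finset.prod_eq_zero hi ?_
    simp [h0]
  have hchoose : ∀ i, ∃ M : F[X], i ∈ s → (X - 1) ^ N ∣
      (C (x i) + X * C (y i)) * M - DD (C (x i) + X * C (y i)) := by
    intro i
    by_cases hi : i ∈ s
    · have hne : (C (x i) + X * C (y i) : F[X]).eval 1 ≠ 0 := by
        simpa using hs i hi
      obtain ⟨u, v, huv⟩ := cop_one hne N
      refine ⟨u * DD (C (x i) + X * C (y i)), fun _ => ⟨-(v * DD (C (x i) + X * C (y i))), ?_⟩⟩
      linear_combination DD (C (x i) + X * C (y i)) * huv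
    · exact ⟨0, fun h => absurd h hi⟩
  choose M hM using hchoose
  have hprod := DD_prod N s (fun i => C (x i) + X * C (y i)) M fun i hi => by
    have := (dvd_neg (α := F[X])).2 (hM i hi)
    rwa [neg_sub] at this
  rw [← hg] at hprod
  have hL' : (X - 1) ^ N ∣ g.map κ * L.map κ - DD (g.map κ) := by
    have h3 := map_dvd (Polynomial.mapRingHom κ) hL
    simp only [map_pow, map_sub, map_one, map_mul, coe_mapRingHom, map_X] at h3
    have h4 := DD_map κ g 1
    rw [pow_one, pow_one] at h4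
    rwa [h4] at h3
  have h3 : (X - 1) ^ N ∣ g.map κ * (L.map κ - ∑ i ∈ s, M i) := by
    have e : g.map κ * (L.map κ - ∑ i ∈ s, M i) = (g.map κ * L.map κ - DD (g.map κ)) +
        (DD (g.map κ) - g.map κ * ∑ i ∈ s, M i) := by ring
    rw [e]
    exact dvd_add hL' hprod
  have h4 := (cop_one hg1' N).symm.dvd_of_dvd_mul_left h3
  have h5' := DD_pow_eval (j := 2) (by omega) h4
  rw [map_sub, eval_sub, ← DD_map, eval_one_map, h2, map_zero, zero_sub, neg_eq_zero, map_sum,
    eval_finsetSum] at h5'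
  rw [← h5']
  refine Finset.sum_congr rfl fun i hi => ?_
  exact (lin3 (hs i hi) (by omega) (hM i hi)).symm

theorem log_threeQ (h5 : 5 ≤ p) {q : ℕ} (hq4 : 4 ≤ q) (hqp : q ≤ p - 1) {g : (ZMod p)[X]}
    (hg1 : g.eval 1 ≠ 0) (hR : RelQ p q g) (hreg : Reg p 3) {ι : Type*} (s : Finset ι)
    (x y : ι → F)
    (hg : g.map (ZMod.castHom (dvd_refl p) F) = ∏ i ∈ s, (C (x i) + X * C (y i))) :
    ∑ i ∈ s, x i * y i * (x i - y i) / (x i + y i) ^ 3 = 0 := by
  obtain ⟨g2, hg2, hR2⟩ := hR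
  have hg21 : g2.eval 1 ≠ 0 := by
    obtain ⟨W, hW⟩ := hg2
    have e := congrArg (eval 1) hW
    simp only [eval_sub, eval_mul, eval_pow, eval_X, eval_one, sub_self] at e
    rw [zero_pow (by omega), zero_mul, sub_eq_zero] at e
    rw [e]
    exact hg1
  obtain ⟨L, hL, hL2⟩ := log_rel hg21 hR2
  have h2 := hL2 2 (by omega) (by omega) hreg
  refine log_aux (N := q - 1) (by omega) hg1 ?_ h2 s x y hg
  have e : g * L - DD g = (g2 * L - DD g2) - (g2 - g) * L + DD (g2 - g) := by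
    rw [map_sub]
    ring
  rw [e]
  have h3 : (X - 1 : (ZMod p)[X]) ^ (q - 1) ∣ (X - 1) ^ (p - 1) := pow_dvd_pow _ (by omega)
  have h4 : (X - 1 : (ZMod p)[X]) ^ (q - 1) ∣ (X - 1) ^ q := pow_dvd_pow _ (by omega)
  refine dvd_add (dvd_sub (h3.trans hL) ((h4.trans hg2).mul_right _)) (DD_dvd ?_)
  have e2 : q - 1 + 1 = q := by omega
  rw [e2]
  exact hg2

end

section

variable {K : Type} [Field K] [NumberField K]

/-- the relation for the index three for a pair if no prime above `p` divides `Z` -/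
theorem pair_mix {N E F : Type} [Field N] [NumberField N] [Field E] [NumberField E] [Field F]
    [Algebra E N] [IsGalois E N]
    {p : ℕ} [Fact p.Prime] [CharP F p] (h5 : 5 ≤ p) (hm : Module.finrank ℚ K < p) (cE : Cyc p E)
    (hcard : Nat.card (K →+* N) = Module.finrank ℚ K)
    (hdvf : Module.finrank E N ∣ (Module.finrank ℚ K).factorial) (ψ : 𝓞 N →+* F)
    (hreg : Reg p 3) {x y z : 𝓞 K} (hs : Mix p K x y z)
    (hz : ∀ τ : K →+* N, ψ (RingOfIntegers.mapRingHom τ x) + ψ (RingOfIntegers.mapRingHom τ y) +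
      ψ (RingOfIntegers.mapRingHom τ z) = 0)
    (hz0 : ∀ τ : K →+* N, ψ (RingOfIntegers.mapRingHom τ z) ≠ 0) :
    ∑ τ : K →+* N, ψ (RingOfIntegers.mapRingHom τ x) * ψ (RingOfIntegers.mapRingHom τ y) *
      (ψ (RingOfIntegers.mapRingHom τ x) - ψ (RingOfIntegers.mapRingHom τ y)) /
        ψ (RingOfIntegers.mapRingHom τ z) ^ 3 = 0 := by
  classical
  have hp2 : p ≠ 2 := by omega
  obtain ⟨f, hdeg, hc0, hcm, hev, hf⟩ := Y290.WQ.mainNORM K x y
  obtain ⟨v1, v2, v3⟩ := fldV hm hdvf hp2 cE x y z hs.Y0 hs.Z0 hs.eq f (hf N hcard)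
  have hmap : (f.map (Int.castRingHom (ZMod p))).map (ZMod.castHom (dvd_refl p) F) =
      ∏ τ : K →+* N, (C (ψ (RingOfIntegers.mapRingHom τ x)) +
        Polynomial.X * C (ψ (RingOfIntegers.mapRingHom τ y))) := by
    have hκ : (ZMod.castHom (dvd_refl p) F).comp (Int.castRingHom (ZMod p)) =
      ψ.comp (Int.castRingHom (𝓞 N)) := RingHom.ext_int _ _
    rw [Polynomial.map_map, hκ, ← Polynomial.map_map, hf N hcard]
    unfold nrmP
    rw [Polynomial.map_prod]
    refine Finset.prod_congr rfl fun τ _ => ?_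
    simp
  have hg1 : (f.map (Int.castRingHom (ZMod p))).eval 1 ≠ 0 := by
    intro h0
    have h1 : ((f.map (Int.castRingHom (ZMod p))).map (ZMod.castHom (dvd_refl p) F)).eval 1 = 0 := by
      rw [eval_one_map, h0, map_zero]
    rw [hmap, eval_prod, Finset.prod_eq_zero_iff] at h1
    obtain ⟨τ, -, hτ⟩ := h1
    apply hz0 τ
    simp only [eval_add, eval_mul, eval_C, eval_X, one_mul] at hτ
    linear_combination hz τ - hτ
  have hR := relQ_of hp2 cE f v1 v2 v3 0 0 (f.map (Int.castRingHom (ZMod p))) (by omega)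
    (by omega) hg1 (by rw [pow_zero, pow_zero, one_mul, one_mul])
  have h1 := log_threeQ h5 (q := p - 1 - 0) (by omega) (by omega) hg1 hR hreg Finset.univ
    (fun τ : K →+* N => ψ (RingOfIntegers.mapRingHom τ x))
    (fun τ : K →+* N => ψ (RingOfIntegers.mapRingHom τ y)) hmap
  have h2 : ∀ τ : K →+* N, ψ (RingOfIntegers.mapRingHom τ x) * ψ (RingOfIntegers.mapRingHom τ y) *
      (ψ (RingOfIntegers.mapRingHom τ x) - ψ (RingOfIntegers.mapRingHom τ y)) /
        ψ (RingOfIntegers.mapRingHom τ z) ^ 3 =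
      -(ψ (RingOfIntegers.mapRingHom τ x) * ψ (RingOfIntegers.mapRingHom τ y) *
      (ψ (RingOfIntegers.mapRingHom τ x) - ψ (RingOfIntegers.mapRingHom τ y)) /
        (ψ (RingOfIntegers.mapRingHom τ x) + ψ (RingOfIntegers.mapRingHom τ y)) ^ 3) := by
    intro τ
    have e : ψ (RingOfIntegers.mapRingHom τ x) + ψ (RingOfIntegers.mapRingHom τ y) =
        -ψ (RingOfIntegers.mapRingHom τ z) := by linear_combination hz τ
    rw [e]
    have e2 : (-ψ (RingOfIntegers.mapRingHom τ z)) ^ 3 =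
        -(ψ (RingOfIntegers.mapRingHom τ z) ^ 3) := by ring
    rw [e2, div_neg, neg_neg]
  rw [Finset.sum_congr rfl fun τ _ => h2 τ, Finset.sum_neg_distrib, h1, neg_zero]

end

end Pool.Agent.U549.FW
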