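import Pool.Agent.U549.FW.Cubic
import Pool.Agent.U549.FW.Log3Q
import Pool.Agent.U549.FW.CubB

/-!
# Cubic fields: the first and the mixed case
-/

set_option autoImplicit false

namespace Pool.Agent.U549.FW

open NumberField IsDedekindDomain Polynomial Pool.Agent.Y546.WQ Pool.Agent.N840.FC
  Pool.Agent.U549.LF

section

variable {K : Type} [Field K] [NumberField K]

/-- two embeddings with equal valuations, and `X` in the prime ideal for the third one -/
theorem mix_two {N E F : Type} [Field N] [NumberField N] [Field E] [NumberField E] [Field F]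
    [Algebra E N] [IsGalois E N]
    {p : ℕ} [Fact p.Prime] [CharP F p] (h7 : 7 ≤ p) (hK : Module.finrank ℚ K = 3)
    (cE : Cyc p E) (hcard : Nat.card (K →+* N) = Module.finrank ℚ K)
    (hdvf : Module.finrank E N ∣ (Module.finrank ℚ K).factorial) (Q : Ideal (𝓞 N)) (ψ : 𝓞 N →+* F)
    (hψ : ∀ w : 𝓞 N, ψ w = 0 ↔ w ∈ Q)
    (hreg : Reg p 3) {X Y Z : 𝓞 K} (hs : Mix p K X Y Z)
    (hlin : ∀ τ : K →+* N, ψ (RingOfIntegers.mapRingHom τ X) + ψ (RingOfIntegers.mapRingHom τ Y) +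
      ψ (RingOfIntegers.mapRingHom τ Z) = 0) (τ0 : K →+* N)
    (hx0 : ψ (RingOfIntegers.mapRingHom τ0 X) = 0) (hy0 : ψ (RingOfIntegers.mapRingHom τ0 Y) ≠ 0)
    (hz0 : ψ (RingOfIntegers.mapRingHom τ0 Z) ≠ 0)
    (hne : ∀ τ : K →+* N, τ ≠ τ0 → ψ (RingOfIntegers.mapRingHom τ X) ≠ 0 ∧
      ψ (RingOfIntegers.mapRingHom τ Y) ≠ 0 ∧ ψ (RingOfIntegers.mapRingHom τ Z) ≠ 0)
    {a b c : ℕ} (hsum : a + b + c ≤ 3)
    (c1 : ∑ τ ∈ miss Q X Y Z, (ψ (RingOfIntegers.mapRingHom τ X) -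
      ψ (RingOfIntegers.mapRingHom τ Y)) / ψ (RingOfIntegers.mapRingHom τ Z) +
      (hit (K := K) Q X).card - (hit (K := K) Q Y).card = (a : F) - b)
    (c2 : ∑ τ ∈ miss Q Y Z X, (ψ (RingOfIntegers.mapRingHom τ Y) -
      ψ (RingOfIntegers.mapRingHom τ Z)) / ψ (RingOfIntegers.mapRingHom τ X) +
      (hit (K := K) Q Y).card - (hit (K := K) Q Z).card = (b : F) - c)
    (c3 : ∑ τ ∈ miss Q Z X Y, (ψ (RingOfIntegers.mapRingHom τ Z) -
      ψ (RingOfIntegers.mapRingHom τ X)) / ψ (RingOfIntegers.mapRingHom τ Y) +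
      (hit (K := K) Q Z).card - (hit (K := K) Q X).card = (c : F) - a) :
    a = 1 ∧ b = 0 ∧ c = 0 := by
  classical
  have hpp : p.Prime := Fact.out
  have hmp : Module.finrank ℚ K < p := by omega
  have hyall : ∀ τ : K →+* N, ψ (RingOfIntegers.mapRingHom τ Y) ≠ 0 := by
    intro τ
    by_cases h : τ = τ0
    · rw [h]
      exact hy0
    · exact (hne τ h).2.1
  have hzall : ∀ τ : K →+* N, ψ (RingOfIntegers.mapRingHom τ Z) ≠ 0 := by
    intro τ
    by_cases h : τ = τ0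
    · rw [h]
      exact hz0
    · exact (hne τ h).2.2
  have m1 : miss (K := K) Q X Y Z = Finset.univ.erase τ0 := by
    ext τ
    rw [mem_miss, Finset.mem_erase, ← hψ, ← hψ, ← hψ]
    constructor
    · intro h
      refine ⟨fun h0 => ?_, Finset.mem_univ _⟩
      rw [h0] at h
      exact h.1 hx0
    · intro h
      exact hne τ h.1
  have m2 : miss (K := K) Q Y Z X = Finset.univ.erase τ0 := by
    rw [← m1]
    ext τ
    rw [mem_miss, mem_miss]
    tauto
  have m3 : miss (K := K) Q Z X Y = Finset.univ.erase τ0 := by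
    rw [← m1]
    ext τ
    rw [mem_miss, mem_miss]
    tauto
  have e1 : (hit (K := K) Q X).card = 1 := by
    rw [Finset.card_eq_one]
    refine ⟨τ0, ?_⟩
    ext τ
    rw [mem_hit, Finset.mem_singleton, ← hψ]
    constructor
    · intro h
      by_contra h0
      exact (hne τ h0).1 h
    · intro h
      rw [h]
      exact hx0
  have e2 : (hit (K := K) Q Y).card = 0 := by
    rw [Finset.card_eq_zero, Finset.eq_empty_iff_forall_notMem]
    intro τ
    rw [mem_hit, ← hψ]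
    exact hyall τ
  have e3 : (hit (K := K) Q Z).card = 0 := by
    rw [Finset.card_eq_zero, Finset.eq_empty_iff_forall_notMem]
    intro τ
    rw [mem_hit, ← hψ]
    exact hzall τ
  rw [m1, e1, e2] at c1
  rw [m2, e2, e3] at c2
  rw [m3, e3, e1] at c3
  have d1 := pair_mix (by omega) hmp cE hcard hdvf ψ hreg hs hlin hzall
  have d3 := pair_mix (by omega) hmp cE hcard hdvf ψ hreg hs.rot.rot
    (fun τ => by linear_combination hlin τ) hyall
  rw [← Finset.add_sum_erase _ _ (Finset.mem_univ τ0), hx0, zero_mul, zero_mul, zero_div,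
    zero_add] at d1
  rw [← Finset.add_sum_erase _ _ (Finset.mem_univ τ0), hx0, mul_zero, zero_mul, zero_div,
    zero_add] at d3
  have hc3 : Fintype.card (K →+* N) = 3 := by
    rw [← Nat.card_eq_fintype_card, hcard, hK]
  obtain ⟨e⟩ : Nonempty (Fin 2 ≃ {τ : K →+* N // τ ∈ Finset.univ.erase τ0}) := by
    rw [← Fintype.card_eq, Fintype.card_fin, Fintype.card_coe,
      Finset.card_erase_of_mem (Finset.mem_univ _), Finset.card_univ, hc3]
  have tr : ∀ g : (K →+* N) → F, ∑ i, g (e i).1 = ∑ τ ∈ Finset.univ.erase τ0, g τ := by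
    intro g
    rw [← Finset.sum_coe_sort (Finset.univ.erase τ0) g]
    exact Equiv.sum_comp e fun τ => g τ.1
  have hi : ∀ i, (e i).1 ≠ τ0 := fun i => (Finset.mem_erase.1 (e i).2).1
  have nn0 : ∀ n : ℕ, n ∣ 6 ^ 6 → (n : F) = 0 → False := by
    intro n hn h0
    rw [CharP.cast_eq_zero_iff F p] at h0
    have h1 := hpp.dvd_of_dvd_pow (h0.trans hn)
    have := Nat.le_of_dvd (by norm_num) h1
    omega
  refine Dat2.fin (x := fun i => ψ (RingOfIntegers.mapRingHom (e i).1 X))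
    (y := fun i => ψ (RingOfIntegers.mapRingHom (e i).1 Y))
    (z := fun i => ψ (RingOfIntegers.mapRingHom (e i).1 Z)) nn0 ?_ ?_ hsum
  · intro n hn0 hn h0
    refine nn0 n.natAbs (by
      have := Int.natAbs_dvd_natAbs.2 hn
      simpa using this) ?_
    obtain ⟨k, hk⟩ : ∃ k : ℕ, k = n.natAbs := ⟨_, rfl⟩
    rw [← hk]
    rcases Int.natAbs_eq n with h1 | h1
    · rw [← hk] at h1
      rw [h1, Int.cast_natCast] at h0
      exact h0
    · rw [← hk] at h1
      rw [h1, Int.cast_neg, Int.cast_natCast] at h0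
      exact neg_eq_zero.1 h0
  · refine ⟨fun i => (hne _ (hi i)).1, fun i => (hne _ (hi i)).2.1, fun i => (hne _ (hi i)).2.2,
      fun i => hlin _, ?_, ?_, ?_, ?_, ?_⟩
    · rw [tr (fun τ => (ψ (RingOfIntegers.mapRingHom τ X) - ψ (RingOfIntegers.mapRingHom τ Y)) /
        ψ (RingOfIntegers.mapRingHom τ Z))]
      push_cast at c1
      linear_combination c1
    · rw [tr (fun τ => (ψ (RingOfIntegers.mapRingHom τ Y) - ψ (RingOfIntegers.mapRingHom τ Z)) /
        ψ (RingOfIntegers.mapRingHom τ X))]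
      push_cast at c2
      linear_combination c2
    · rw [tr (fun τ => (ψ (RingOfIntegers.mapRingHom τ Z) - ψ (RingOfIntegers.mapRingHom τ X)) /
        ψ (RingOfIntegers.mapRingHom τ Y))]
      push_cast at c3
      linear_combination c3
    · rw [tr (fun τ => ψ (RingOfIntegers.mapRingHom τ X) * ψ (RingOfIntegers.mapRingHom τ Y) *
        (ψ (RingOfIntegers.mapRingHom τ X) - ψ (RingOfIntegers.mapRingHom τ Y)) /
          ψ (RingOfIntegers.mapRingHom τ Z) ^ 3)]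
      exact d1
    · rw [tr (fun τ => ψ (RingOfIntegers.mapRingHom τ Z) * ψ (RingOfIntegers.mapRingHom τ X) *
        (ψ (RingOfIntegers.mapRingHom τ Z) - ψ (RingOfIntegers.mapRingHom τ X)) /
          ψ (RingOfIntegers.mapRingHom τ Y) ^ 3)]
      exact d3


theorem share_rot (q : ℕ) (a b c : K) : share q a b c = share q a c b := by
  unfold share
  congr 1
  funext v
  exact propext and_comm

/-- cubic fields, all cases -/
theorem cub_all (hK : Module.finrank ℚ K = 3) {p : ℕ} (hp : p.Prime) (h7 : 7 ≤ p)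
    (hB : ¬ (p : ℤ) ∣ (_root_.bernoulli (p - 3)).num)
    {a b c : K} (ha : a ≠ 0) (hb : b ≠ 0) (hc : c ≠ 0) (h : a ^ p + b ^ p + c ^ p = 0)
    {q : ℕ} (hq : q.Prime) (hqp : q ≠ p) (hW : ¬ p ^ 2 ∣ q ^ (p - 1) - 1)
    (k1 : Good p q a b c) (k2 : Good p q b c a) (k3 : Good p q c a b)
    (hW2 : (∀ v : HeightOneSpectrum (𝓞 K), ((p : ℕ) : 𝓞 K) ∈ v.asIdeal → EqualAt v a b c) →
      ¬ p ^ 2 ∣ 2 ^ (p - 1) - 1) :
    evenShare p a b c = 0 ∨ (evenShare p a b c = 2 ∧ evenShare q a b c = 2 ∧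
      share q a b c = share p a b c ∧ share q b c a = share p b c a ∧
      share q c a b = share p c a b) := by
  classical
  have hfp : Fact p.Prime := ⟨hp⟩
  have hfq : Fact q.Prime := ⟨hq⟩
  have hp2 : p ≠ 2 := by omega
  have hp0 : p ≠ 0 := hp.ne_zero
  have hm3 : Module.finrank ℚ K + 3 ≤ p := by omega
  have hmp : Module.finrank ℚ K < p := by omega
  have hkirr : p - 3 ∉ irr p := by
    intro hk
    unfold irr at hk
    rw [Finset.mem_filter] at hk
    exact hB hk.2.2.2.2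
  have hreg : Reg p 3 := reg_of Y61.WQ.mainBER 3 (by decide) (le_refl 3) (by omega) hkirr
  obtain ⟨E, _, _, ⟨cE⟩⟩ := Y978.WQ.main p hp2
  obtain ⟨N, _, _, _, hG, hcard, hdvf⟩ := Y258.WQ.exists_field E K
  obtain ⟨α, hα, X, Y, Z, hXa, hYa, hZa, hX0, hY0, hZ0, hcp⟩ := prepM (p * q)
    (mul_ne_zero hp.ne_zero hq.ne_zero) ha hb hc p hp (dvd_mul_right p q)
  have hXYZ : X ^ p + Y ^ p + Z ^ p = 0 := by
    apply RingOfIntegers.coe_injective
    rw [map_zero, map_add, map_add, map_pow, map_pow, map_pow, hXa, hYa, hZa, mul_pow, mul_pow,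
      mul_pow]
    linear_combination α ^ p * h
  have hcpp : ∀ P : Ideal (𝓞 K), P.IsPrime → ((p : ℕ) : 𝓞 K) ∈ P → ¬ (X ∈ P ∧ Y ∈ P ∧ Z ∈ P) := by
    intro P hP hpP
    refine hcp P hP ?_
    rw [Nat.cast_mul]
    exact P.mul_mem_right _ hpP
  have hcq : ∀ P : Ideal (𝓞 K), P.IsPrime → ((q : ℕ) : 𝓞 K) ∈ P → ¬ (X ∈ P ∧ Y ∈ P ∧ Z ∈ P) := by
    intro P hP hpP
    refine hcp P hP ?_
    rw [Nat.cast_mul]
    exact P.mul_mem_left _ hpP
  have hM : Mix p K X Y Z := ⟨hX0, hY0, hZ0, hXYZ, hcpp⟩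
  obtain ⟨Q, hQ, hQp⟩ := exists_above (K := N) p hp
  obtain ⟨R, hR, hRq⟩ := exists_above (K := N) q hq
  have hQ0 : Q ≠ ⊥ := by
    rintro rfl
    rw [Ideal.mem_bot, Nat.cast_eq_zero] at hQp
    exact hp.ne_zero hQp
  have hQm : Q.IsMaximal := hQ.isMaximal hQ0
  let _ : Field (𝓞 N ⧸ Q) := Ideal.Quotient.field Q
  have hch : CharP (𝓞 N ⧸ Q) p := charP_quot Q hQ p hp hQp
  let ψ : 𝓞 N →+* (𝓞 N ⧸ Q) := Ideal.Quotient.mk Q
  have hψ : ∀ w : 𝓞 N, ψ w = 0 ↔ w ∈ Q := fun w => Ideal.Quotient.eq_zero_iff_mem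
  have hpQ : ∀ τ : K →+* N, ((p : ℕ) : 𝓞 K) ∈ Q.comap (RingOfIntegers.mapRingHom τ) := by
    intro τ
    rw [Ideal.mem_comap, map_natCast]
    exact hQp
  have hlin : ∀ τ : K →+* N, ψ (RingOfIntegers.mapRingHom τ X) +
      ψ (RingOfIntegers.mapRingHom τ Y) + ψ (RingOfIntegers.mapRingHom τ Z) = 0 := by
    intro τ
    rw [← map_add, ← map_add, ← map_add, ← map_add, hψ]
    exact lin_p hp _ (hQ.comap (RingOfIntegers.mapRingHom τ)) (hpQ τ) hXYZ
  have hnot : ∀ τ : K →+* N, ¬ (ψ (RingOfIntegers.mapRingHom τ X) = 0 ∧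
      ψ (RingOfIntegers.mapRingHom τ Y) = 0 ∧ ψ (RingOfIntegers.mapRingHom τ Z) = 0) := by
    intro τ h
    exact hcpp _ (hQ.comap _) (hpQ τ) ⟨(hψ _).1 h.1, (hψ _).1 h.2.1, (hψ _).1 h.2.2⟩
  have rc : ∀ {l : ℕ} {X Y Z : 𝓞 K}, (∀ P : Ideal (𝓞 K), P.IsPrime → ((l : ℕ) : 𝓞 K) ∈ P →
      ¬ (X ∈ P ∧ Y ∈ P ∧ Z ∈ P)) → ∀ P : Ideal (𝓞 K), P.IsPrime → ((l : ℕ) : 𝓞 K) ∈ P →
      ¬ (Y ∈ P ∧ Z ∈ P ∧ X ∈ P) := fun h P hP hlP h' => h P hP hlP ⟨h'.2.2, h'.1, h'.2.1⟩
  have g1 := hit_share hp0 hcard Q hQ hQp hα hXa hYa hZa hXYZ hcpp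
  have g2 := hit_share hp0 hcard Q hQ hQp hα hYa hZa hXa (by linear_combination hXYZ) (rc hcpp)
  have g3 := hit_share hp0 hcard Q hQ hQp hα hZa hXa hYa (by linear_combination hXYZ)
    (rc (rc hcpp))
  have c1 := core_K hcard hdvf hp2 cE hm3 Q hQ hQp ψ hψ hqp hW R hR hRq hα hXa hYa hZa hM hcq k1
  have c2 := core_K hcard hdvf hp2 cE hm3 Q hQ hQp ψ hψ hqp hW R hR hRq hα hYa hZa hXa hM.rot
    (rc hcq) k2
  have c3 := core_K hcard hdvf hp2 cE hm3 Q hQ hQp ψ hψ hqp hW R hR hRq hα hZa hXa hYa hM.rot.rot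
    (rc (rc hcq)) k3
  rw [← g1.1, ← g2.1] at c1
  rw [← g2.1, ← g3.1] at c2
  rw [← g3.1, ← g1.1] at c3
  have kp := part_K (K := K) hp hp0 ha hb hc h
  have kq := part_K (K := K) hq hp0 ha hb hc h
  rw [hK] at kp kq
  rw [← g1.1, ← g1.2, ← g2.1, ← g3.1] at kp
  rw [← g1.2, ← g1.1, ← g2.1, ← g3.1]
  have natF : ∀ n : ℕ, 0 < n → n < p → (n : 𝓞 N ⧸ Q) ≠ 0 := by
    intro n hn hnp
    rw [Ne, CharP.cast_eq_zero_iff (𝓞 N ⧸ Q) p]
    intro hd
    have := Nat.le_of_dvd hn hd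
    omega
  have h3F : (3 : 𝓞 N ⧸ Q) ≠ 0 := by exact_mod_cast natF 3 (by norm_num) (by omega)
  have h2F : (2 : 𝓞 N ⧸ Q) ≠ 0 := by exact_mod_cast natF 2 (by norm_num) (by omega)
  obtain ⟨M, hMd⟩ : ∃ M : Finset (K →+* N), M = miss Q X Y Z := ⟨_, rfl⟩
  rw [← hMd] at kp ⊢
  have hMmem : ∀ τ : K →+* N, τ ∈ M ↔ (ψ (RingOfIntegers.mapRingHom τ X) ≠ 0 ∧
      ψ (RingOfIntegers.mapRingHom τ Y) ≠ 0 ∧ ψ (RingOfIntegers.mapRingHom τ Z) ≠ 0) := by
    intro τ
    rw [hMd, mem_miss, Ne, Ne, Ne, hψ, hψ, hψ]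
  have hM4 : M.card = 0 ∨ M.card = 1 ∨ M.card = 2 ∨ M.card = 3 := by omega
  rcases hM4 with h0 | h1 | h2 | h3
  · exact Or.inl h0
  · -- one embedding
    exfalso
    obtain ⟨τ, hτ⟩ := Finset.card_eq_one.1 h1
    have hBS : BernS p (Module.finrank ℚ K) M.card := by
      left
      refine ⟨by omega, fun k hk => ?_⟩
      have hk2 := hk
      unfold irr at hk2
      rw [Finset.mem_filter] at hk2
      rcases Nat.lt_or_ge k (p - 3) with h4 | h4
      · omega
      · exfalso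
        have : k = p - 3 := by omega
        rw [this] at hk
        exact hkirr hk
    have t1 := pal_prod hcard hdvf hp2 cE Q hQ hQp ψ hψ hM M hMmem hBS 2 h2F
    have t2 := pal_prod hcard hdvf hp2 cE Q hQ hQp ψ hψ hM.rot M
      (fun τ => by rw [hMmem]; tauto) hBS 2 h2F
    rw [hτ, Finset.prod_singleton, Finset.prod_singleton] at t1 t2
    have hτM : τ ∈ M := by
      rw [hτ]
      exact Finset.mem_singleton_self _
    have s1 := hlin τ
    apply ((hMmem τ).1 hτM).1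
    have h5 : (3 : 𝓞 N ⧸ Q) * ψ (RingOfIntegers.mapRingHom τ X) = 0 := by
      linear_combination s1 - 2 * t1 - t2
    exact (mul_eq_zero.1 h5).resolve_left h3F
  · -- two embeddings
    right
    have hsum : share q a b c + share q b c a + share q c a b ≤ 3 := by omega
    have hex : ∃ τ0 : K →+* N, τ0 ∉ M ∧ ∀ τ, τ ≠ τ0 → τ ∈ M := by
      have hcc : Mᶜ.card = 1 := by
        rw [Finset.card_compl, h2, ← Nat.card_eq_fintype_card, hcard, hK]
      obtain ⟨τ0, hτ0⟩ := Finset.card_eq_one.1 hcc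
      refine ⟨τ0, ?_, fun τ hτ => ?_⟩
      · rw [← Finset.mem_compl, hτ0]
        exact Finset.mem_singleton_self _
      · by_contra h5
        rw [← Finset.mem_compl, hτ0, Finset.mem_singleton] at h5
        exact hτ h5
    obtain ⟨τ0, hτ0, hall⟩ := hex
    rw [hMmem] at hτ0
    have hlin0 := hlin τ0
    have hnot0 := hnot τ0
    by_cases hx : ψ (RingOfIntegers.mapRingHom τ0 X) = 0
    · have hy : ψ (RingOfIntegers.mapRingHom τ0 Y) ≠ 0 := by
        intro hy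
        rw [hx, hy, zero_add, zero_add] at hlin0
        exact hnot0 ⟨hx, hy, hlin0⟩
      have hz : ψ (RingOfIntegers.mapRingHom τ0 Z) ≠ 0 := by
        intro hz
        rw [hx, hz, zero_add, add_zero] at hlin0
        exact hy hlin0
      have hx1 : 0 < (hit (K := K) Q X).card := by
        rw [Finset.card_pos]
        exact ⟨τ0, by rw [mem_hit, ← hψ]; exact hx⟩
      obtain ⟨r1, r2, r3⟩ := mix_two h7 hK cE hcard hdvf Q ψ hψ hreg hM hlin τ0 hx hy hz
        (fun τ hτ => (hMmem τ).1 (hall τ hτ)) hsum c1 c2 c3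
      omega
    · by_cases hy : ψ (RingOfIntegers.mapRingHom τ0 Y) = 0
      · have hz : ψ (RingOfIntegers.mapRingHom τ0 Z) ≠ 0 := by
          intro hz
          rw [hy, hz, add_zero, add_zero] at hlin0
          exact hx hlin0
        have hy1 : 0 < (hit (K := K) Q Y).card := by
          rw [Finset.card_pos]
          exact ⟨τ0, by rw [mem_hit, ← hψ]; exact hy⟩
        obtain ⟨r1, r2, r3⟩ := mix_two h7 hK cE hcard hdvf Q ψ hψ hreg hM.rot
          (fun τ => by linear_combination hlin τ) τ0 hy hz hx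
          (fun τ hτ => by
            have := (hMmem τ).1 (hall τ hτ)
            exact ⟨this.2.1, this.2.2, this.1⟩) (by omega) c2 c3 c1
        omega
      · have hz : ψ (RingOfIntegers.mapRingHom τ0 Z) = 0 := by
          by_contra hz
          exact hτ0 ⟨hx, hy, hz⟩
        have hz1 : 0 < (hit (K := K) Q Z).card := by
          rw [Finset.card_pos]
          exact ⟨τ0, by rw [mem_hit, ← hψ]; exact hz⟩
        obtain ⟨r1, r2, r3⟩ := mix_two h7 hK cE hcard hdvf Q ψ hψ hreg hM.rot.rot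
          (fun τ => by linear_combination hlin τ) τ0 hz hx hy
          (fun τ hτ => by
            have := (hMmem τ).1 (hall τ hτ)
            exact ⟨this.2.2, this.1, this.2.1⟩) (by omega) c3 c1 c2
        omega
  · -- the first case
    exfalso
    have hMall : ∀ τ : K →+* N, τ ∈ M := by
      intro τ
      have hMu : M = Finset.univ := by
        rw [← Finset.card_eq_iff_eq_univ, h3, ← Nat.card_eq_fintype_card, hcard, hK]
      rw [hMu]
      exact Finset.mem_univ _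
    suffices hE : ∀ v : HeightOneSpectrum (𝓞 K), ((p : ℕ) : 𝓞 K) ∈ v.asIdeal →
        EqualAt v a b c from
      cub_first hK hp h7 (hW2 hE) ha hb hc h hE hq hqp hW k1 k2 k3 fun _ => hB
    intro v hv
    have hec := Pool.Agent.U549.LF.emb_card hcard hmp Q hQ hQp v hv
    have hpos := ld_pos v hv
    obtain ⟨τ, hτ⟩ : (emb Q v.asIdeal).Nonempty := by
      rw [← Finset.card_pos, hec]
      omega
    rw [mem_emb] at hτ
    have h6 := (hMmem τ).1 (hMall τ)
    rw [Ne, Ne, Ne, hψ, hψ, hψ] at h6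
    refine (vals hp0 hα hXa hYa hZa hXYZ hcpp v hv).2.1 ⟨?_, ?_, ?_⟩
    · rw [← hτ]
      exact h6.1
    · rw [← hτ]
      exact h6.2.1
    · rw [← hτ]
      exact h6.2.2

end

end Pool.Agent.U549.FW
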