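import Pool.Agent.U549.FW.Quad
import Pool.Agent.Y546.WQ.FinQ
import Pool.Agent.Y445.WQ.CUB

/-!
# The first case over quadratic fields
-/

set_option autoImplicit false

namespace Pool.Agent.U549.FW

open NumberField IsDedekindDomain Polynomial Pool.Agent.Y546.WQ Pool.Agent.N840.FC
  Pool.Agent.U549.LF

section

variable {K : Type} [Field K] [NumberField K]

theorem inv_mod {p : ℕ} {Z : 𝓞 K}
    (h : ∀ P : Ideal (𝓞 K), P.IsPrime → ((p : ℕ) : 𝓞 K) ∈ P → Z ∉ P) :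
    ∃ W r : 𝓞 K, Z * W = 1 + ((p : ℕ) : 𝓞 K) * r := by
  have h1 : Ideal.span {Z} ⊔ Ideal.span {((p : ℕ) : 𝓞 K)} = ⊤ := by
    by_contra hne
    obtain ⟨M, hM, hle⟩ := Ideal.exists_le_maximal _ hne
    exact h M hM.isPrime (hle (Ideal.mem_sup_right (Ideal.mem_span_singleton_self _)))
      (hle (Ideal.mem_sup_left (Ideal.mem_span_singleton_self _)))
  rw [Ideal.eq_top_iff_one, Submodule.mem_sup] at h1
  obtain ⟨u, hu, w, hw, huw⟩ := h1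
  rw [Ideal.mem_span_singleton'] at hu hw
  obtain ⟨W, rfl⟩ := hu
  obtain ⟨r, rfl⟩ := hw
  exact ⟨W, -r, by linear_combination huw⟩

theorem pair_rel {p : ℕ} (hp : p.Prime) (σ : 𝓞 K →+* 𝓞 K)
    (hN : ∀ a : 𝓞 K, ((Algebra.norm ℤ a : ℤ) : 𝓞 K) = a * σ a)
    (hT : ∀ a : 𝓞 K, ((Algebra.trace ℤ (𝓞 K) a : ℤ) : 𝓞 K) = a + σ a)
    {α a b c : K} (hα : α ≠ 0) {X Y Z : 𝓞 K} (hXa : algebraMap (𝓞 K) K X = α * a)
    (hYa : algebraMap (𝓞 K) K Y = α * b) (hZa : algebraMap (𝓞 K) K Z = α * c)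
    (hZ : ∀ P : Ideal (𝓞 K), P.IsPrime → ((p : ℕ) : 𝓞 K) ∈ P → Z ∉ P)
    (hlin : ∀ P : Ideal (𝓞 K), P.IsPrime → ((p : ℕ) : 𝓞 K) ∈ P → X + Y + Z ∈ P) (n : ZMod p)
    (hn : ∀ w : 𝓞 K, (∀ v : HeightOneSpectrum (𝓞 K), ((p : ℕ) : 𝓞 K) ∈ v.asIdeal →
      v.valuation K ((w : K) * c - (a - b)) < v.valuation K c) →
      ((Algebra.trace ℤ (𝓞 K) w : ℤ) : ZMod p) = n) :
    n * ((Algebra.norm ℤ Z : ℤ) : ZMod p) =
      2 * (((Algebra.norm ℤ Y : ℤ) : ZMod p) - ((Algebra.norm ℤ X : ℤ) : ZMod p)) := by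
  obtain ⟨W, r, hW⟩ := inv_mod hZ
  have h1 := hn ((X - Y) * W) (by
    intro v hv
    have j3 : v.valuation K (algebraMap (𝓞 K) K Z) = 1 := val_one v Z (hZ _ v.isPrime hv)
    have vα : v.valuation K α ≠ 0 := (Valuation.ne_zero_iff _).2 hα
    have h2 : (X - Y) * W * Z - (X - Y) ∈ v.asIdeal := by
      have e : (X - Y) * W * Z - (X - Y) = (X - Y) * r * ((p : ℕ) : 𝓞 K) := by
        linear_combination (X - Y) * hW
      rw [e]
      exact v.asIdeal.mul_mem_left _ hv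
    rw [← v.valuation_lt_one_iff_mem (K := K)] at h2
    have e2 : algebraMap (𝓞 K) K ((X - Y) * W * Z - (X - Y)) =
        α * (((((X - Y) * W : 𝓞 K) : K)) * c - (a - b)) := by
      rw [map_sub, map_mul, map_sub, hXa, hYa, hZa]
      ring
    have h2' : v.valuation K (algebraMap (𝓞 K) K ((X - Y) * W * Z - (X - Y))) < 1 := h2
    rw [e2, map_mul, ← j3, hZa, map_mul] at h2'
    exact (mul_lt_mul_iff_right₀ (zero_lt_iff.2 vα)).1 h2')
  obtain ⟨w, hw⟩ : ∃ w : 𝓞 K, w = (X - Y) * W := ⟨_, rfl⟩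
  rw [← hw] at h1
  have hd : (p : ℤ) ∣ Algebra.trace ℤ (𝓞 K) w * Algebra.norm ℤ Z -
      2 * (Algebra.norm ℤ Y - Algebra.norm ℤ X) := by
    by_contra hcon
    obtain ⟨P, hP, hpP⟩ := exists_above (K := K) p hp
    refine int_notMem P hP p hp hpP _ hcon ?_
    have hpσ : ((p : ℕ) : 𝓞 K) ∈ P.comap σ := by
      rw [Ideal.mem_comap, map_natCast]
      exact hpP
    have s1 := hlin P hP hpP
    have s2 := hlin (P.comap σ) (hP.comap σ) hpσ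
    rw [Ideal.mem_comap] at s2
    have e1 : w * Z = (X - Y) * (1 + ((p : ℕ) : 𝓞 K) * r) := by
      rw [hw]
      linear_combination (X - Y) * hW
    have e2 := congrArg σ e1
    simp only [map_mul, map_sub, map_add, map_one, map_natCast] at e2 s2
    push_cast
    rw [hT, hN, hN, hN]
    have e3 : (w + σ w) * (Z * σ Z) - 2 * (Y * σ Y - X * σ X) =
        (X - Y) * (σ X + σ Y + σ Z) + (σ X - σ Y) * (X + Y + Z) +
          ((X - Y) * r * σ Z + (σ X - σ Y) * σ r * Z) * ((p : ℕ) : 𝓞 K) := by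
      linear_combination σ Z * e1 + Z * e2
    rw [e3]
    exact P.add_mem (P.add_mem (P.mul_mem_left _ s2) (P.mul_mem_left _ s1))
      (P.mul_mem_left _ hpP)
  have h3 := (ZMod.intCast_zmod_eq_zero_iff_dvd _ p).2 hd
  push_cast at h3
  rw [h1] at h3
  linear_combination h3

/-- the relations of the norm polynomial of a pair -/
theorem rel_quad {p : ℕ} [Fact p.Prime] (h5 : 5 ≤ p) (hK : Module.finrank ℚ K = 2)
    (σ : 𝓞 K →+* 𝓞 K)
    (hN : ∀ a : 𝓞 K, ((Algebra.norm ℤ a : ℤ) : 𝓞 K) = a * σ a)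
    (hT : ∀ a : 𝓞 K, ((Algebra.trace ℤ (𝓞 K) a : ℤ) : 𝓞 K) = a + σ a)
    {E : Type} [Field E] [NumberField E] (c : Cyc p E) {X Y Z : 𝓞 K} (s : Sol p K X Y Z) :
    ∃ t : ℤ, ((Algebra.norm ℤ X : ℤ) + (Algebra.norm ℤ Y : ℤ) + (t : ℤ) : ZMod p) =
        (Algebra.norm ℤ Z : ℤ) ∧
      (Algebra.norm ℤ X : ZMod p) ≠ 0 ∧ (Algebra.norm ℤ Y : ZMod p) ≠ 0 ∧
      (Algebra.norm ℤ Z : ZMod p) ≠ 0 ∧
      (∃ m : ℤ, t ^ 2 - 4 * (Algebra.norm ℤ X * Algebra.norm ℤ Y) =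
        m ^ 2 * NumberField.discr K) ∧
      Rel p (Polynomial.C ((Algebra.norm ℤ X : ℤ) : ZMod p) +
        Polynomial.C ((t : ℤ) : ZMod p) * Polynomial.X +
        Polynomial.C ((Algebra.norm ℤ Y : ℤ) : ZMod p) * Polynomial.X ^ 2) := by
  have hpp : p.Prime := Fact.out
  have hp2 : p ≠ 2 := by omega
  have hσσ := conj_conj σ hT
  have hz : ∀ k : ℤ, ¬ (p : ℤ) ∣ k → (k : ZMod p) ≠ 0 := by
    intro k hk h0
    exact hk ((ZMod.intCast_zmod_eq_zero_iff_dvd k p).1 h0)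
  have hσ : Function.Injective σ := by
    intro x y hxy
    rw [← hσσ x, ← hσσ y, hxy]
  have hAn := norm_ncp hpp σ hN fun P hP hpP => (s.cp P hP hpP).1
  have hBn := norm_ncp hpp σ hN fun P hP hpP => (s.cp P hP hpP).2.1
  have hGn := norm_ncp hpp σ hN fun P hP hpP => (s.cp P hP hpP).2.2
  have hp := norm_rel σ hN hT p hpp (X := X) (Y := Y) (Z := Z)
    (fun P hP hpP => Pool.Agent.Y546.WQ.lin_p hpp P hP hpP s.eq)
  have hb : ((Algebra.trace ℤ (𝓞 K) (X * σ Y) : ℤ) : 𝓞 K) = X * σ Y + σ X * Y := by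
    rw [hT, map_mul, hσσ]
  obtain ⟨f1, f2, f3⟩ := fld Y261.WQ.main Y686.WQ.main p (by omega) E c K hK σ hσ X Y Z s.X0
    s.Y0 s.Z0 s.eq (fun P hP hpP => (s.cp P hP hpP).2.2)
    (Algebra.norm ℤ X) (Algebra.trace ℤ (𝓞 K) (X * σ Y)) (Algebra.norm ℤ Y) (hN X) hb (hN Y)
  have hcp : ((Algebra.norm ℤ X : ℤ) + (Algebra.norm ℤ Y : ℤ) +
      (Algebra.trace ℤ (𝓞 K) (X * σ Y) : ℤ) : ZMod p) = (Algebra.norm ℤ Z : ℤ) := by
    have := (ZMod.intCast_zmod_eq_zero_iff_dvd _ p).2 hp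
    push_cast at this
    linear_combination this
  have hpu : ¬ (p : ℤ) ∣ Algebra.norm ℤ X + Algebra.trace ℤ (𝓞 K) (X * σ Y) +
      Algebra.norm ℤ Y := by
    intro h
    have h' := (ZMod.intCast_zmod_eq_zero_iff_dvd _ p).2 h
    push_cast at h'
    apply hz _ hGn
    linear_combination h' - hcp
  refine ⟨Algebra.trace ℤ (𝓞 K) (X * σ Y), hcp, hz _ hAn, hz _ hBn, hz _ hGn, ?_, ?_⟩
  · obtain ⟨m, hm⟩ := disc_eq hK σ hN hT (X * σ Y)
    refine ⟨m, ?_⟩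
    rw [← hm]
    have e : Algebra.norm ℤ (X * σ Y) = Algebra.norm ℤ X * Algebra.norm ℤ Y := by
      have e1 : ((Algebra.norm ℤ (X * σ Y) : ℤ) : 𝓞 K) =
          ((Algebra.norm ℤ X * Algebra.norm ℤ Y : ℤ) : 𝓞 K) := by
        push_cast
        rw [hN, hN, hN, map_mul, hσσ]
        ring
      exact_mod_cast e1
    rw [e]
  · obtain ⟨a, ha⟩ : ∃ a : ℤ, a = Algebra.norm ℤ X := ⟨_, rfl⟩
    obtain ⟨b, hb'⟩ : ∃ b : ℤ, b = Algebra.trace ℤ (𝓞 K) (X * σ Y) := ⟨_, rfl⟩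
    obtain ⟨e, he⟩ : ∃ e : ℤ, e = Algebra.norm ℤ Y := ⟨_, rfl⟩
    rw [← ha, ← hb', ← he] at f1 f3 hpu
    rw [← ha, ← hb', ← he]
    obtain ⟨f, hfd⟩ : ∃ f : Polynomial ℤ, f = Polynomial.C a + Polynomial.C b * Polynomial.X +
        Polynomial.C e * Polynomial.X ^ 2 := ⟨_, rfl⟩
    have haev : aeval c.z f = (a : E) + b * c.z + e * c.z ^ 2 := by
      rw [hfd]
      simp
    have hev1 : f.eval 1 = a + b + e := by
      rw [hfd]
      simp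
    have hp1 : ¬ (p : ℤ) ∣ f.eval 1 := by rw [hev1]; exact hpu
    rw [← haev] at f1 f3
    have hmap : f.map (Int.castRingHom (ZMod p)) = Polynomial.C (a : ZMod p) +
        Polynomial.C (b : ZMod p) * Polynomial.X +
        Polynomial.C (e : ZMod p) * Polynomial.X ^ 2 := by
      rw [hfd]
      simp
    rw [← hmap]
    intro a' ha' hap'
    obtain ⟨g', hg', k', hk'⟩ := relGA aUNITA hp2 a' ha' hap' c f (a + b + e) hpu hp1 f1 f3
    obtain ⟨r', hr', hdv'⟩ := Y919.WQ.mainLAMA p hp2 a' ha' hap' E c f (a + b + e) hpu hp1 g' hg'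
      k' hk'
    exact ⟨k', r', hr', hdv'⟩

end

end Pool.Agent.U549.FW
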