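import Pool.Agent.U549.FW.Lg2

/-!
# The first case over quadratic fields: the classification
-/

set_option autoImplicit false

namespace Pool.Agent.U549.FW

open NumberField IsDedekindDomain Polynomial Pool.Agent.Y546.WQ Pool.Agent.N840.FC
  Pool.Agent.U549.LF

/-- the three norms modulo `p` and the sums of the local degrees above `q` -/
structure Dt (p : ℕ) [Fact p.Prime] (d A B G : ZMod p) (x y z : ℕ) : Prop where
  A0 : A ≠ 0
  B0 : B ≠ 0
  G0 : G ≠ 0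
  dd : ∃ m : ZMod p, A ^ 2 + B ^ 2 + G ^ 2 - 2 * A * B - 2 * A * G - 2 * B * G = m ^ 2 * d
  R1 : Rel p (Qd A B G)
  R2 : Rel p (Qd B G A)
  R3 : Rel p (Qd G A B)
  L1 : Lz p d A B G
  L2 : Lz p d B G A
  L3 : Lz p d G A B
  n1 : ((x : ZMod p) - y) * G = 2 * (B - A)
  n2 : ((y : ZMod p) - z) * A = 2 * (G - B)
  n3 : ((z : ZMod p) - x) * B = 2 * (A - G)

section

variable {p : ℕ} [Fact p.Prime] {d A B G : ZMod p} {x y z : ℕ}

theorem Dt.rot (h : Dt p d A B G x y z) : Dt p d B G A y z x where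
  A0 := h.B0
  B0 := h.G0
  G0 := h.A0
  dd := by
    obtain ⟨m, hm⟩ := h.dd
    exact ⟨m, by rw [← hm]; ring⟩
  R1 := h.R2
  R2 := h.R3
  R3 := h.R1
  L1 := h.L2
  L2 := h.L3
  L3 := h.L1
  n1 := h.n2
  n2 := h.n3
  n3 := h.n1

theorem sq_of {k u m d : ZMod p} (hk : k ≠ 0) (hu : u ≠ 0) (h : -k * u ^ 2 = m ^ 2 * d) :
    ∃ s : ZMod p, s ≠ 0 ∧ s ^ 2 = -k * d := by
  have hm : m ≠ 0 := by
    rintro rfl
    have h1 : k * u ^ 2 = 0 := by linear_combination -h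
    exact mul_ne_zero hk (pow_ne_zero 2 hu) h1
  refine ⟨k * u / m, div_ne_zero (mul_ne_zero hk hu) hm, ?_⟩
  rw [div_pow, div_eq_iff (pow_ne_zero 2 hm)]
  linear_combination -k * h

theorem small_ne (h7 : 7 ≤ p) {n : ℕ} (hn0 : n ≠ 0) (hn : n < 7) : (n : ZMod p) ≠ 0 := by
  intro h
  rw [ZMod.natCast_eq_zero_iff] at h
  have := Nat.le_of_dvd (Nat.pos_of_ne_zero hn0) h
  omega

theorem two_ne' (h7 : 7 ≤ p) : (2 : ZMod p) ≠ 0 := by
  exact_mod_cast small_ne h7 (n := 2) (by norm_num) (by norm_num)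

theorem three_ne' (h7 : 7 ≤ p) : (3 : ZMod p) ≠ 0 := by
  exact_mod_cast small_ne h7 (n := 3) (by norm_num) (by norm_num)

theorem five_ne' (h7 : 7 ≤ p) : (5 : ZMod p) ≠ 0 := by
  exact_mod_cast small_ne h7 (n := 5) (by norm_num) (by norm_num)

theorem Dt.zero (h7 : 7 ≤ p) (h : Dt p d A B G 0 0 0) :
    ∃ s : ZMod p, s ≠ 0 ∧ s ^ 2 = -3 * d := by
  have n2 := two_ne' h7
  have e1 : B = A := by
    apply mul_left_cancel₀ n2
    have := h.n1
    push_cast at this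
    linear_combination -this
  have e2 : G = A := by
    apply mul_left_cancel₀ n2
    have := h.n3
    push_cast at this
    linear_combination this
  obtain ⟨m, hm⟩ := h.dd
  refine sq_of (three_ne' h7) h.A0 (m := m) ?_
  rw [← hm, e1, e2]
  ring

theorem seven_ne' (h11 : 11 ≤ p) : (7 : ZMod p) ≠ 0 := by
  intro h
  have h1 : ((7 : ℕ) : ZMod p) = 0 := by exact_mod_cast h
  rw [ZMod.natCast_eq_zero_iff] at h1
  have := Nat.le_of_dvd (by norm_num) h1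
  omega

/-- three Bernoulli numbers are divisible by `p` -/
def NR (p : ℕ) [Fact p.Prime] : Prop := ¬ Reg p 3 ∧ ¬ Reg p 5 ∧ (19 ≤ p → ¬ Reg p 7)

theorem Dt.oneb (h11 : 11 ≤ p) (h : Dt p d A B G 1 0 0) :
    NR p ∧ (p : ℤ) ^ 2 ∣ lucV 1 2 p - 1 ∧ ∃ s : ZMod p, s ≠ 0 ∧ s ^ 2 = -7 * d := by
  have h7 : 7 ≤ p := by omega
  have n2 := two_ne' h7
  have n7 := seven_ne' h11
  have e1 : G = B := by
    apply mul_left_cancel₀ n2
    have := h.n2
    push_cast at this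
    linear_combination -this
  have e2 : B = 2 * A := by
    have := h.n1
    push_cast at this
    linear_combination -this + e1
  rw [e1, e2] at h
  obtain ⟨m, hm⟩ := h.dd
  have hm' : -7 * A ^ 2 = m ^ 2 * d := by
    rw [← hm]
    ring
  have hd0 : d ≠ 0 := by
    rintro rfl
    have h1 : 7 * A ^ 2 = 0 := by linear_combination -hm'
    exact mul_ne_zero n7 (pow_ne_zero 2 h.A0) h1
  refine ⟨type_b h7 h.A0 h.R1, ?_, sq_of n7 h.A0 (m := m) hm'⟩
  have h1 := h.L2 hd0 rfl 1 2 (by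
    push_cast
    ring)
  rwa [one_pow] at h1

theorem Dt.onec (h7 : 7 ≤ p) (h : Dt p d A B G 1 1 0) :
    NR p ∧ (p : ℤ) ^ 2 ∣ lucV 3 6 p - 3 ^ p ∧ ∃ s : ZMod p, s ≠ 0 ∧ s ^ 2 = -15 * d := by
  have n2 := two_ne' h7
  have n15 : (15 : ZMod p) ≠ 0 := by
    have e : (15 : ZMod p) = 3 * 5 := by norm_num
    rw [e]
    exact mul_ne_zero (three_ne' h7) (five_ne' h7)
  obtain ⟨u, hu⟩ : ∃ u : ZMod p, A = 2 * u := ⟨A / 2, by rw [mul_div_cancel₀ _ n2]⟩
  have e1 : B = 2 * u := by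
    apply mul_left_cancel₀ n2
    have := h.n1
    push_cast at this
    linear_combination -this + 2 * hu
  have e2 : G = 3 * u := by
    apply mul_left_cancel₀ n2
    have := h.n2
    push_cast at this
    linear_combination -this + 2 * e1 + hu
  rw [hu, e1, e2] at h
  have hu0 : u ≠ 0 := by
    rintro rfl
    exact h.A0 (mul_zero 2)
  obtain ⟨m, hm⟩ := h.dd
  have hm' : -15 * u ^ 2 = m ^ 2 * d := by
    rw [← hm]
    ring
  have hd0 : d ≠ 0 := by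
    rintro rfl
    have h1 : 15 * u ^ 2 = 0 := by linear_combination -hm'
    exact mul_ne_zero n15 (pow_ne_zero 2 hu0) h1
  refine ⟨type_c h7 hu0 h.R2, ?_, sq_of n15 hu0 (m := m) hm'⟩
  exact h.L1 hd0 rfl 3 6 (by
    push_cast
    ring)

theorem Dt.two (h7 : 7 ≤ p) (h : Dt p d A B G 2 0 0) : False := by
  have n2 := two_ne' h7
  have e1 : G = B := by
    apply mul_left_cancel₀ n2
    have := h.n2
    push_cast at this
    linear_combination -this
  apply h.A0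
  apply mul_left_cancel₀ n2
  have := h.n1
  push_cast at this
  linear_combination this - 2 * e1

theorem Dt.cls (h11 : 11 ≤ p) (D : Dt p d A B G x y z) {e : ℕ} (k : e + x + y + z = 2) :
    (e = 2 ∧ ∃ s : ZMod p, s ≠ 0 ∧ s ^ 2 = -3 * d) ∨
    (e = 1 ∧ NR p ∧ (p : ℤ) ^ 2 ∣ lucV 1 2 p - 1 ∧ ∃ s : ZMod p, s ≠ 0 ∧ s ^ 2 = -7 * d) ∨
    ((e = 0 ∧ x ≤ 1 ∧ y ≤ 1 ∧ z ≤ 1) ∧ NR p ∧ (p : ℤ) ^ 2 ∣ lucV 3 6 p - 3 ^ p ∧
      ∃ s : ZMod p, s ≠ 0 ∧ s ^ 2 = -15 * d) := by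
  have h7 : 7 ≤ p := by omega
  have hx : x = 0 ∨ x = 1 ∨ x = 2 := by omega
  have hy : y = 0 ∨ y = 1 ∨ y = 2 := by omega
  have hz : z = 0 ∨ z = 1 ∨ z = 2 := by omega
  rcases hx with rfl | rfl | rfl
  · rcases hy with rfl | rfl | rfl
    · rcases hz with rfl | rfl | rfl
      · exact Or.inl ⟨k, D.zero h7⟩
      · exact Or.inr (Or.inl ⟨by omega, D.rot.rot.oneb h11⟩)
      · exact (D.rot.rot.two h7).elim
    · rcases hz with rfl | rfl | rfl
      · exact Or.inr (Or.inl ⟨by omega, D.rot.oneb h11⟩)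
      · exact Or.inr (Or.inr ⟨⟨by omega, zero_le_one, le_rfl, le_rfl⟩, D.rot.onec h7⟩)
      · omega
    · rcases hz with rfl | rfl | rfl
      · exact (D.rot.two h7).elim
      · omega
      · omega
  · rcases hy with rfl | rfl | rfl
    · rcases hz with rfl | rfl | rfl
      · exact Or.inr (Or.inl ⟨by omega, D.oneb h11⟩)
      · exact Or.inr (Or.inr ⟨⟨by omega, le_rfl, zero_le_one, le_rfl⟩, D.rot.rot.onec h7⟩)
      · omega
    · rcases hz with rfl | rfl | rfl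
      · exact Or.inr (Or.inr ⟨⟨by omega, le_rfl, le_rfl, zero_le_one⟩, D.onec h7⟩)
      · omega
      · omega
    · omega
  · rcases hy with rfl | rfl | rfl
    · rcases hz with rfl | rfl | rfl
      · exact (D.two h7).elim
      · omega
      · omega
    · omega
    · omega

end

section

variable {K : Type} [Field K] [NumberField K]

/-- the first case over quadratic fields -/
theorem quad_first (hK : Module.finrank ℚ K = 2) {p : ℕ} [Fact p.Prime] (h11 : 11 ≤ p) {a b c : K}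
    (ha : a ≠ 0) (hb : b ≠ 0) (hc : c ≠ 0) (h : a ^ p + b ^ p + c ^ p = 0)
    (hE : ∀ v : HeightOneSpectrum (𝓞 K), ((p : ℕ) : 𝓞 K) ∈ v.asIdeal → EqualAt v a b c)
    {q : ℕ} (hq : q.Prime) (hqp : q ≠ p) (hW : ¬ p ^ 2 ∣ q ^ (p - 1) - 1) (g1 : Good p q a b c)
    (g2 : Good p q b c a) (g3 : Good p q c a b) :
    (evenShare q a b c = 2 ∧
      ∃ s : ZMod p, s ≠ 0 ∧ s ^ 2 = -3 * (NumberField.discr K : ZMod p)) ∨
    (evenShare q a b c = 1 ∧ NR p ∧ (p : ℤ) ^ 2 ∣ lucV 1 2 p - 1 ∧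
      ∃ s : ZMod p, s ≠ 0 ∧ s ^ 2 = -7 * (NumberField.discr K : ZMod p)) ∨
    ((evenShare q a b c = 0 ∧ share q a b c ≤ 1 ∧ share q b c a ≤ 1 ∧ share q c a b ≤ 1) ∧
      NR p ∧ (p : ℤ) ^ 2 ∣ lucV 3 6 p - 3 ^ p ∧
      ∃ s : ZMod p, s ≠ 0 ∧ s ^ 2 = -15 * (NumberField.discr K : ZMod p)) := by
  have hp : p.Prime := Fact.out
  have kq := part_K (K := K) hq hp.ne_zero ha hb hc h
  rw [hK] at kq
  obtain ⟨A, B, G, A0, B0, G0, hd, R1, R2, R3, L1, L2, L3, hn⟩ :=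
    fst_core (by omega) hK ha hb hc h hE
  obtain ⟨m1, m2, m3⟩ := hn q hq hqp hW
  have D : Dt p (NumberField.discr K : ZMod p) A B G (share q a b c) (share q b c a)
    (share q c a b) := ⟨A0, B0, G0, hd, R1, R2, R3, L1, L2, L3, m1 g1, m2 g2, m3 g3⟩
  exact D.cls h11 kq

end

end Pool.Agent.U549.FW
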