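import Pool.Agent.U549.FW.Fst3

/-!
# The first case over quadratic fields: the primes two and three
-/

set_option autoImplicit false

namespace Pool.Agent.U549.FW

open NumberField IsDedekindDomain Polynomial Pool.Agent.Y546.WQ Pool.Agent.N840.FC
  Pool.Agent.U549.LF

section

variable {K : Type} [Field K] [NumberField K]

theorem two_res (hK : Module.finrank ℚ K = 2) (hd : NumberField.discr K % 8 = 1)
    (v : HeightOneSpectrum (𝓞 K)) (hv : ((2 : ℕ) : 𝓞 K) ∈ v.asIdeal) (a : 𝓞 K) :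
    a ∈ v.asIdeal ∨ a - 1 ∈ v.asIdeal := by
  obtain ⟨σ, hN, hT⟩ := Pool.Agent.Y546.SG.exists_conj hK
  obtain ⟨m, hm⟩ := disc_eq hK σ hN hT a
  have h1 : a ^ 2 - ((Algebra.trace ℤ (𝓞 K) a : ℤ) : 𝓞 K) * a +
      ((Algebra.norm ℤ a : ℤ) : 𝓞 K) = 0 := by
    rw [hN, hT]
    ring
  generalize Algebra.trace ℤ (𝓞 K) a = T at h1 hm
  generalize Algebra.norm ℤ a = N at h1 hm
  generalize NumberField.discr K = d at hm hd
  have hv2 : (2 : 𝓞 K) ∈ v.asIdeal := by exact_mod_cast hv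
  have hP := v.isPrime
  rcases Int.even_or_odd T with ⟨t, ht⟩ | ⟨t, ht⟩
  · rcases Int.even_or_odd N with ⟨n, hn⟩ | ⟨n, hn⟩
    · left
      apply hP.mem_of_pow_mem 2
      have e : a ^ 2 = ((t : 𝓞 K) * a - n) * 2 := by
        rw [ht, hn] at h1
        push_cast at h1
        linear_combination h1
      rw [e]
      exact v.asIdeal.mul_mem_left _ hv2
    · right
      apply hP.mem_of_pow_mem 2
      have e : (a - 1) ^ 2 = ((t : 𝓞 K) * a - n - a) * 2 := by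
        rw [ht, hn] at h1
        push_cast at h1
        linear_combination h1
      rw [e]
      exact v.asIdeal.mul_mem_left _ hv2
  · have hN2 : Even N := by
      have hmo : Odd m := by
        by_contra hcon
        rw [Int.not_odd_iff_even] at hcon
        obtain ⟨u, hu⟩ := hcon
        have : (2 * t + 1) ^ 2 - 4 * N = (u + u) ^ 2 * d := by rw [← ht, ← hu]; exact hm
        have h3 : 2 * (2 * (t ^ 2 + t - N - u ^ 2 * d)) = -1 := by linear_combination this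
        omega
      obtain ⟨u, hu⟩ := hmo
      obtain ⟨w, hw⟩ : ∃ w, d = 8 * w + 1 := ⟨d / 8, by omega⟩
      obtain ⟨r, hr⟩ : ∃ r, t * (t + 1) = r + r := Int.even_mul_succ_self t
      obtain ⟨s, hs⟩ : ∃ s, u * (u + 1) = s + s := Int.even_mul_succ_self u
      rw [ht, hu, hw] at hm
      refine ⟨r - s - w * (2 * u + 1) ^ 2, ?_⟩
      have h4 : 4 * N = 4 * (r - s - w * (2 * u + 1) ^ 2 + (r - s - w * (2 * u + 1) ^ 2)) := by
        linear_combination -hm + 4 * hr - 4 * hs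
      omega
    obtain ⟨n, hn⟩ := hN2
    have e : a * (a - 1) = ((t : 𝓞 K) * a - n) * 2 := by
      rw [ht, hn] at h1
      push_cast at h1
      linear_combination h1
    apply hP.mem_or_mem
    rw [e]
    exact v.asIdeal.mul_mem_left _ hv2

/-- the valuations are not equal at a prime of norm two -/
theorem two_ne_eq (hK : Module.finrank ℚ K = 2) (hd : NumberField.discr K % 8 = 1) {p : ℕ}
    (hp0 : p ≠ 0) {a b c : K} (ha : a ≠ 0) (hb : b ≠ 0) (hc : c ≠ 0)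
    (h : a ^ p + b ^ p + c ^ p = 0) (v : HeightOneSpectrum (𝓞 K))
    (hv : ((2 : ℕ) : 𝓞 K) ∈ v.asIdeal) : ¬ EqualAt v a b c := by
  intro hE
  obtain ⟨α, hα, X, Y, Z, hXa, hYa, hZa, hX0, hY0, hZ0, hcp⟩ := prepM 2 two_ne_zero ha hb hc 2
    Nat.prime_two (dvd_refl 2)
  have hXYZ : X ^ p + Y ^ p + Z ^ p = 0 := by
    apply RingOfIntegers.coe_injective
    rw [map_zero, map_add, map_add, map_pow, map_pow, map_pow, hXa, hYa, hZa, mul_pow, mul_pow,
      mul_pow]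
    linear_combination α ^ p * h
  obtain ⟨h1, h2, h3⟩ := (vals hp0 hα hXa hYa hZa hXYZ hcp v hv).2.2 hE
  have key : ∀ W : 𝓞 K, W ∉ v.asIdeal → W ^ p - 1 ∈ v.asIdeal := by
    intro W hW
    have h4 := (two_res hK hd v hv W).resolve_left hW
    have h5 := sub_dvd_pow_sub_pow W 1 p
    rw [one_pow] at h5
    exact v.asIdeal.mem_of_dvd h5 h4
  have hv2 : (2 : 𝓞 K) ∈ v.asIdeal := by exact_mod_cast hv
  apply one_notMem v.asIdeal v.isPrime
  have e : (1 : 𝓞 K) = -((X ^ p - 1) + (Y ^ p - 1) + (Z ^ p - 1)) - 2 := by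
    linear_combination hXYZ
  rw [e]
  exact v.asIdeal.sub_mem (v.asIdeal.neg_mem (v.asIdeal.add_mem
    (v.asIdeal.add_mem (key X h1) (key Y h2)) (key Z h3))) hv2

theorem three_sq (hK : Module.finrank ℚ K = 2) (a : 𝓞 K) :
    ∃ m : ℤ, (2 * a - ((Algebra.trace ℤ (𝓞 K) a : ℤ) : 𝓞 K)) ^ 2 =
      (m : 𝓞 K) ^ 2 * (NumberField.discr K : 𝓞 K) := by
  obtain ⟨σ, hN, hT⟩ := Pool.Agent.Y546.SG.exists_conj hK
  obtain ⟨m, hm⟩ := disc_eq hK σ hN hT a
  have h1 : a ^ 2 - ((Algebra.trace ℤ (𝓞 K) a : ℤ) : 𝓞 K) * a +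
      ((Algebra.norm ℤ a : ℤ) : 𝓞 K) = 0 := by
    rw [hN, hT]
    ring
  refine ⟨m, ?_⟩
  have h2 := congrArg (Int.cast : ℤ → 𝓞 K) hm
  push_cast at h2
  linear_combination 4 * h1 + h2

theorem three_ram (hK : Module.finrank ℚ K = 2) (hd : NumberField.discr K % 3 = 0)
    (v : HeightOneSpectrum (𝓞 K)) (hv : ((3 : ℕ) : 𝓞 K) ∈ v.asIdeal) (a : 𝓞 K) :
    a - 2 * ((Algebra.trace ℤ (𝓞 K) a : ℤ) : 𝓞 K) ∈ v.asIdeal := by
  obtain ⟨m, hm⟩ := three_sq hK a
  have hv3 : (3 : 𝓞 K) ∈ v.asIdeal := by exact_mod_cast hv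
  obtain ⟨w, hw⟩ : ∃ w, NumberField.discr K = 3 * w := ⟨NumberField.discr K / 3, by omega⟩
  have h1 : 2 * a - ((Algebra.trace ℤ (𝓞 K) a : ℤ) : 𝓞 K) ∈ v.asIdeal := by
    apply v.isPrime.mem_of_pow_mem 2
    rw [hm, hw]
    push_cast
    have e : (m : 𝓞 K) ^ 2 * (3 * (w : 𝓞 K)) = (m : 𝓞 K) ^ 2 * w * 3 := by ring
    rw [e]
    exact v.asIdeal.mul_mem_left _ hv3
  have e : a - 2 * ((Algebra.trace ℤ (𝓞 K) a : ℤ) : 𝓞 K) =
      2 * (2 * a - ((Algebra.trace ℤ (𝓞 K) a : ℤ) : 𝓞 K)) - a * 3 := by ring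
  rw [e]
  exact v.asIdeal.sub_mem (v.asIdeal.mul_mem_left _ h1) (v.asIdeal.mul_mem_left _ hv3)

theorem three_res (hK : Module.finrank ℚ K = 2) (hd : NumberField.discr K % 3 ≠ 2)
    (v : HeightOneSpectrum (𝓞 K)) (hv : ((3 : ℕ) : 𝓞 K) ∈ v.asIdeal) (a : 𝓞 K) :
    ∃ n : ℤ, a - n ∈ v.asIdeal := by
  have hv3 : (3 : 𝓞 K) ∈ v.asIdeal := by exact_mod_cast hv
  have hd' : NumberField.discr K % 3 = 0 ∨ NumberField.discr K % 3 = 1 := by omega
  rcases hd' with hd' | hd'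
  · refine ⟨2 * Algebra.trace ℤ (𝓞 K) a, ?_⟩
    push_cast
    exact three_ram hK hd' v hv a
  · obtain ⟨m, hm⟩ := three_sq hK a
    obtain ⟨w, hw⟩ : ∃ w, NumberField.discr K = 3 * w + 1 := ⟨NumberField.discr K / 3, by omega⟩
    obtain ⟨T, hT⟩ : ∃ T : ℤ, T = Algebra.trace ℤ (𝓞 K) a := ⟨_, rfl⟩
    rw [← hT] at hm
    have h1 : (2 * a - (T : 𝓞 K) - m) * (2 * a - (T : 𝓞 K) + m) ∈ v.asIdeal := by
      have e : (2 * a - (T : 𝓞 K) - m) * (2 * a - (T : 𝓞 K) + m) =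
          (m : 𝓞 K) ^ 2 * w * 3 := by
        rw [hw] at hm
        push_cast at hm
        linear_combination hm
      rw [e]
      exact v.asIdeal.mul_mem_left _ hv3
    rcases v.isPrime.mem_or_mem h1 with h2 | h2
    · refine ⟨2 * (T + m), ?_⟩
      have e : a - ((2 * (T + m) : ℤ) : 𝓞 K) = 2 * (2 * a - (T : 𝓞 K) - m) - a * 3 := by
        push_cast
        ring
      rw [e]
      exact v.asIdeal.sub_mem (v.asIdeal.mul_mem_left _ h2) (v.asIdeal.mul_mem_left _ hv3)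
    · refine ⟨2 * (T - m), ?_⟩
      have e : a - ((2 * (T - m) : ℤ) : 𝓞 K) = 2 * (2 * a - (T : 𝓞 K) + m) - a * 3 := by
        push_cast
        ring
      rw [e]
      exact v.asIdeal.sub_mem (v.asIdeal.mul_mem_left _ h2) (v.asIdeal.mul_mem_left _ hv3)

theorem three_norm (hK : Module.finrank ℚ K = 2) (hd : NumberField.discr K % 3 ≠ 2)
    (v : HeightOneSpectrum (𝓞 K)) (hv : ((3 : ℕ) : 𝓞 K) ∈ v.asIdeal) :
    Ideal.absNorm v.asIdeal ≤ 4 := by
  have hfin : Finite (𝓞 K ⧸ v.asIdeal) :=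
    Ideal.finiteQuotientOfFreeOfNeBot v.asIdeal v.ne_bot
  have hck : Nat.card (𝓞 K ⧸ v.asIdeal) = Ideal.absNorm v.asIdeal := rfl
  have h3 : ((3 : ℕ) : 𝓞 K ⧸ v.asIdeal) = 0 := by
    rw [← map_natCast (Ideal.Quotient.mk v.asIdeal)]
    exact Ideal.Quotient.eq_zero_iff_mem.2 hv
  have hsurj : Function.Surjective (fun n : Fin 3 => ((n : ℕ) : 𝓞 K ⧸ v.asIdeal)) := by
    intro w
    obtain ⟨a, rfl⟩ := Ideal.Quotient.mk_surjective w
    obtain ⟨n, hn⟩ := three_res hK hd v hv a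
    obtain ⟨r, hr⟩ : ∃ r : ℕ, (r : ℤ) = n % 3 := ⟨(n % 3).toNat, by omega⟩
    refine ⟨⟨r, by omega⟩, ?_⟩
    obtain ⟨w, hw⟩ : ∃ w, n = r + 3 * w := ⟨n / 3, by omega⟩
    have h4 := Ideal.Quotient.eq_zero_iff_mem.2 hn
    rw [map_sub, map_intCast, hw] at h4
    push_cast at h4 h3
    show ((r : ℕ) : 𝓞 K ⧸ v.asIdeal) = _
    linear_combination -h4 - (w : 𝓞 K ⧸ v.asIdeal) * h3
  have h4 := Nat.card_le_card_of_surjective _ hsurj
  rw [Nat.card_fin] at h4
  omega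

/-- the prime above three is unique if three ramifies -/
theorem three_unique (hK : Module.finrank ℚ K = 2) (hd : NumberField.discr K % 3 = 0)
    (v w : HeightOneSpectrum (𝓞 K)) (hv : ((3 : ℕ) : 𝓞 K) ∈ v.asIdeal)
    (hw : ((3 : ℕ) : 𝓞 K) ∈ w.asIdeal) : v = w := by
  have key : ∀ (v w : HeightOneSpectrum (𝓞 K)), ((3 : ℕ) : 𝓞 K) ∈ v.asIdeal →
      ((3 : ℕ) : 𝓞 K) ∈ w.asIdeal → v.asIdeal ≤ w.asIdeal := by
    intro v w hv hw a ha
    have h1 := three_ram hK hd v hv a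
    have h2 := three_ram hK hd w hw a
    have h3 : ((3 : ℕ) : ℤ) ∣ 2 * Algebra.trace ℤ (𝓞 K) a := by
      by_contra hcon
      apply int_notMem v.asIdeal v.isPrime 3 Nat.prime_three hv _ hcon
      push_cast
      have h4 := v.asIdeal.sub_mem ha h1
      rwa [sub_sub_cancel] at h4
    obtain ⟨r, hr⟩ := h3
    have h5 : 2 * ((Algebra.trace ℤ (𝓞 K) a : ℤ) : 𝓞 K) ∈ w.asIdeal := by
      have h6 := congrArg (Int.cast : ℤ → 𝓞 K) hr
      push_cast at h6
      rw [h6]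
      refine w.asIdeal.mul_mem_right _ ?_
      exact_mod_cast hw
    have h7 := w.asIdeal.add_mem h2 h5
    rwa [sub_add_cancel] at h7
  exact HeightOneSpectrum.ext (le_antisymm (key v w hv hw) (key w v hw hv))

/-- if there is a single prime above `l`, one class contains everything -/
theorem one_class {l p : ℕ} (hl : l.Prime) (hp0 : p ≠ 0) {a b c : K} (ha : a ≠ 0) (hb : b ≠ 0)
    (hc : c ≠ 0) (h : a ^ p + b ^ p + c ^ p = 0)
    (hu : ∀ v w : HeightOneSpectrum (𝓞 K), ((l : ℕ) : 𝓞 K) ∈ v.asIdeal →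
      ((l : ℕ) : 𝓞 K) ∈ w.asIdeal → v = w) :
    evenShare l a b c = Module.finrank ℚ K ∨ share l a b c = Module.finrank ℚ K ∨
      share l b c a = Module.finrank ℚ K ∨ share l c a b = Module.finrank ℚ K := by
  obtain ⟨P, hP, hlP⟩ := exists_above (K := K) l hl
  have h0 : P ≠ ⊥ := by
    rintro rfl
    rw [Ideal.mem_bot, Nat.cast_eq_zero] at hlP
    exact hl.ne_zero hlP
  obtain ⟨v, hv⟩ : ∃ v : HeightOneSpectrum (𝓞 K), v = ⟨P, hP, h0⟩ := ⟨_, rfl⟩
  have hvl : ((l : ℕ) : 𝓞 K) ∈ v.asIdeal := by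
    rw [hv]
    exact hlP
  have h' : b ^ p + c ^ p + a ^ p = 0 := by linear_combination h
  have h'' : c ^ p + a ^ p + b ^ p = 0 := by linear_combination h
  rcases four hl hp0 ha hb hc h v hvl with h1 | h1 | h1 | h1
  · left
    have k := part_K (K := K) hl hp0 ha hb hc h
    have z1 : share l a b c = 0 := deg_zero l _ fun w hw h2 => by
      rw [← hu v w hvl hw] at h2
      exact absurd h1.1 h2.1.ne
    have z2 : share l b c a = 0 := deg_zero l _ fun w hw h2 => by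
      rw [← hu v w hvl hw] at h2
      exact absurd h1.2 h2.1.ne
    have z3 : share l c a b = 0 := deg_zero l _ fun w hw h2 => by
      rw [← hu v w hvl hw] at h2
      exact absurd h1.2 h2.2.ne'
    omega
  · right; left
    refine (full_iff hl hp0 ha hb hc h).2 fun w hw => ?_
    rw [← hu v w hvl hw]
    exact h1
  · right; right; left
    refine (full_iff hl hp0 hb hc ha h').2 fun w hw => ?_
    rw [← hu v w hvl hw]
    exact h1
  · right; right; right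
    refine (full_iff hl hp0 hc ha hb h'').2 fun w hw => ?_
    rw [← hu v w hvl hw]
    exact h1

end

end Pool.Agent.U549.FW
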