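import Pool.Agent.U549.FW.Core
import Pool.Agent.U549.LF.Main

/-!
# Sums of local degrees, traces
-/

set_option autoImplicit false

namespace Pool.Agent.U549.FW

open NumberField IsDedekindDomain Polynomial Pool.Agent.Y546.WQ Pool.Agent.N840.FC
  Pool.Agent.U549.LF

theorem sum_zero {F : Type*} [Field F] [Infinite F] {ι : Type*} [Fintype ι] (h2 : (2 : F) ≠ 0)
    (x y z : ι → F) (hx : ∀ i, x i ≠ 0) (hy : ∀ i, y i ≠ 0) (hz : ∀ i, z i ≠ 0)
    (hs : ∀ i, x i + y i + z i = 0)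
    (h : ∀ t : F, t ≠ 0 → ∏ i, (x i + t * y i) = ∏ i, (y i + t * x i)) :
    ∑ i, (x i - y i) / z i = 0 := by
  obtain ⟨β, hβ⟩ := perm_of_prod x y y x hy hx h
  have h1 : ∀ i, (x (β i) - y (β i)) / z (β i) = -((x i - y i) / z i) := by
    intro i
    have e1 := hβ i
    rw [div_eq_div_iff (hy _) (hx _)] at e1
    have e2 : z (β i) = -(x (β i) + y (β i)) := by linear_combination hs (β i)
    have e3 : z i = -(x i + y i) := by linear_combination hs i
    rw [← neg_div, div_eq_div_iff (hz _) (hz _), e2, e3]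
    linear_combination -2 * e1
  have h2' := Equiv.sum_comp β (fun i => (x i - y i) / z i)
  rw [Finset.sum_congr rfl fun i _ => h1 i, Finset.sum_neg_distrib] at h2'
  have h3 : (2 : F) * ∑ i, (x i - y i) / z i = 0 := by linear_combination -h2'
  exact (mul_eq_zero.1 h3).resolve_left h2

section

variable {K N : Type} [Field K] [NumberField K] [Field N] [NumberField N]

theorem sum_eq_trace (hcard : Nat.card (K →+* N) = Module.finrank ℚ K) (w : 𝓞 K) :
    ∑ τ : K →+* N, RingOfIntegers.mapRingHom τ w = ((Algebra.trace ℤ (𝓞 K) w : ℤ) : 𝓞 N) := by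
  classical
  obtain ⟨σ⟩ : Nonempty (N →+* ℂ) := inferInstance
  apply RingOfIntegers.coe_injective
  apply σ.injective
  have e1 : σ (algebraMap (𝓞 N) N (∑ τ : K →+* N, RingOfIntegers.mapRingHom τ w)) =
      ∑ τ : K →+* N, (σ.comp τ) (w : K) := by
    rw [map_sum, map_sum]
    rfl
  have hinj : Function.Injective (fun τ : K →+* N => σ.comp τ) := by
    intro τ τ' h
    apply RingHom.ext
    intro a
    apply σ.injective
    exact congrArg (fun g : K →+* ℂ => g a) h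
  have hbij : Function.Bijective (fun τ : K →+* N => σ.comp τ) := by
    rw [Fintype.bijective_iff_injective_and_card]
    refine ⟨hinj, ?_⟩
    rw [← Nat.card_eq_fintype_card, hcard, NumberField.Embeddings.card]
  have e2 : ∑ τ : K →+* N, (σ.comp τ) (w : K) = ∑ g : K →+* ℂ, g (w : K) :=
    Fintype.sum_bijective _ hbij _ _ fun _ => rfl
  have e3 : ∑ g : K →+* ℂ, g (w : K) = ∑ g : K →ₐ[ℚ] ℂ, g (w : K) :=
    Fintype.sum_equiv (RingHom.equivRatAlgHom K ℂ) _ _ fun _ => rfl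
  have e4 := trace_eq_sum_embeddings ℂ (K := ℚ) (L := K) (x := (w : K))
  have e5 : (Algebra.trace ℚ K (w : K)) = ((Algebra.trace ℤ (𝓞 K) w : ℤ) : ℚ) :=
    (Algebra.coe_trace_int w).symm
  rw [e5] at e4
  have e6 : σ (algebraMap (𝓞 N) N (((Algebra.trace ℤ (𝓞 K) w : ℤ)) : 𝓞 N)) =
      ((Algebra.trace ℤ (𝓞 K) w : ℤ) : ℂ) := by
    rw [map_intCast, map_intCast]
  refine (e1.trans (e2.trans (e3.trans (e4.symm.trans ?_)))).trans e6.symm
  simp

/-- the sum of the local degrees of the places above `l` with a given property -/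
noncomputable def deg (l : ℕ) (P : HeightOneSpectrum (𝓞 K) → Prop) : ℕ :=
  ∑ᶠ (v : HeightOneSpectrum (𝓞 K)) (_ : ((l : ℕ) : 𝓞 K) ∈ v.asIdeal ∧ P v), ld l v

theorem deg_card {l : ℕ} [Fact l.Prime] (hcard : Nat.card (K →+* N) = Module.finrank ℚ K)
    (Q : Ideal (𝓞 N)) (hQ : Q.IsPrime) (hQl : ((l : ℕ) : 𝓞 N) ∈ Q)
    (P : HeightOneSpectrum (𝓞 K) → Prop) (A : Finset (K →+* N))
    (hA : ∀ (τ : K →+* N) (v : HeightOneSpectrum (𝓞 K)),
      v.asIdeal = Q.comap (RingOfIntegers.mapRingHom τ) → (τ ∈ A ↔ P v)) :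
    A.card = deg l P := by
  classical
  have hll : l.Prime := Fact.out
  obtain ⟨T, hT⟩ := finite_primes (K := K) l hll.ne_zero
  have hlm : ∀ τ : K →+* N, ((l : ℕ) : 𝓞 K) ∈ Q.comap (RingOfIntegers.mapRingHom τ) := by
    intro τ
    rw [Ideal.mem_comap, map_natCast]
    exact hQl
  have hP0 : ∀ τ : K →+* N, Q.comap (RingOfIntegers.mapRingHom τ) ≠ ⊥ := by
    intro τ h0
    have := hlm τ
    rw [h0, Ideal.mem_bot, Nat.cast_eq_zero] at this
    exact hll.ne_zero this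
  let pl : (K →+* N) → HeightOneSpectrum (𝓞 K) := fun τ =>
    ⟨Q.comap (RingOfIntegers.mapRingHom τ), hQ.comap _, hP0 τ⟩
  let S : Finset (HeightOneSpectrum (𝓞 K)) := T.filter fun v => ((l : ℕ) : 𝓞 K) ∈ v.asIdeal ∧ P v
  have hS : ∀ v, v ∈ S ↔ (((l : ℕ) : 𝓞 K) ∈ v.asIdeal ∧ P v) := by
    intro v
    rw [Finset.mem_filter]
    exact ⟨fun h => h.2, fun h => ⟨hT v h.1, h⟩⟩
  have e1 : deg l P = ∑ v ∈ S, ld l v := by
    unfold deg
    rw [← finsum_mem_coe_finset]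
    apply finsum_congr
    intro v
    exact finsum_congr_Prop (propext ((hS v).symm.trans Finset.mem_coe.symm)) (fun _ => rfl)
  rw [e1, Finset.card_eq_sum_card_fiberwise (s := A) (t := S) (f := pl) (by
    intro τ hτ
    rw [Finset.mem_coe, hS]
    exact ⟨hlm τ, (hA τ (pl τ) rfl).1 hτ⟩)]
  refine Finset.sum_congr rfl fun v hv => ?_
  rw [← emb_card hcard Q hQ hQl v ((hS v).1 hv).1]
  congr 1
  ext τ
  rw [Finset.mem_filter, mem_emb]
  constructor
  · rintro ⟨-, h2⟩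
    rw [← h2]
  · intro h2
    have h3 : pl τ = v := HeightOneSpectrum.ext h2
    refine ⟨?_, h3⟩
    rw [hA τ v h2.symm]
    exact ((hS v).1 hv).2

/-- scaling a triple of elements at the primes above `m` -/
theorem prepM (m : ℕ) (hm : m ≠ 0) {x y z : K}
    (hx : x ≠ 0) (hy : y ≠ 0) (hz : z ≠ 0) (p : ℕ) (hp : p.Prime) (hpm : p ∣ m) :
    ∃ a : K, a ≠ 0 ∧ ∃ X Y Z : 𝓞 K, algebraMap (𝓞 K) K X = a * x ∧
      algebraMap (𝓞 K) K Y = a * y ∧ algebraMap (𝓞 K) K Z = a * z ∧ X ≠ 0 ∧ Y ≠ 0 ∧ Z ≠ 0 ∧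
      (∀ P : Ideal (𝓞 K), P.IsPrime → ((m : ℕ) : 𝓞 K) ∈ P → ¬ (X ∈ P ∧ Y ∈ P ∧ Z ∈ P)) := by
  obtain ⟨T, hT⟩ := finite_primes (K := K) m hm
  obtain ⟨a, X, Y, Z, hXa, hYa, hZa, hn⟩ := scaleT (y := y) (z := z) hx T
  have hne : ∀ (P : Ideal (𝓞 K)), P.IsPrime → ((m : ℕ) : 𝓞 K) ∈ P →
      ∃ h0 : P ≠ ⊥, ∀ hP : P.IsPrime, (⟨P, hP, h0⟩ : HeightOneSpectrum (𝓞 K)) ∈ T := by
    intro P hP hm'
    have h0 : P ≠ ⊥ := by
      rintro rfl
      rw [Ideal.mem_bot, Nat.cast_eq_zero] at hm'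
      exact hm hm'
    exact ⟨h0, fun hP' => hT _ hm'⟩
  -- there is a prime above p
  obtain ⟨M, hM, hMp⟩ := exists_above (K := K) p hp
  have hMm : ((m : ℕ) : 𝓞 K) ∈ M := by
    obtain ⟨r, rfl⟩ := hpm
    rw [Nat.cast_mul]
    exact M.mul_mem_right _ hMp
  have ha : a ≠ 0 := by
    rintro rfl
    rw [zero_mul] at hXa hYa hZa
    have h1 : X = 0 := RingOfIntegers.coe_injective (by rw [map_zero]; exact hXa)
    have h2 : Y = 0 := RingOfIntegers.coe_injective (by rw [map_zero]; exact hYa)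
    have h3 : Z = 0 := RingOfIntegers.coe_injective (by rw [map_zero]; exact hZa)
    obtain ⟨h0, h4⟩ := hne M hM hMm
    apply hn _ (h4 hM)
    rw [h1, h2, h3]
    exact ⟨zero_mem _, zero_mem _, zero_mem _⟩
  have hX0 : X ≠ 0 := by
    rintro rfl
    rw [map_zero] at hXa
    exact mul_ne_zero ha hx hXa.symm
  have hY0 : Y ≠ 0 := by
    rintro rfl
    rw [map_zero] at hYa
    exact mul_ne_zero ha hy hYa.symm
  have hZ0 : Z ≠ 0 := by
    rintro rfl
    rw [map_zero] at hZa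
    exact mul_ne_zero ha hz hZa.symm
  refine ⟨a, ha, X, Y, Z, hXa, hYa, hZa, hX0, hY0, hZ0, ?_⟩
  intro P hP hpP
  obtain ⟨h0, h4⟩ := hne P hP hpP
  exact hn _ (h4 hP)

/-- the sum of the local degrees of the places above `l` at which `x` has a larger order than `y`
and `z` -/
noncomputable def share (l : ℕ) (x y z : K) : ℕ :=
  deg l fun v : HeightOneSpectrum (𝓞 K) =>
    v.valuation K x < v.valuation K y ∧ v.valuation K x < v.valuation K z

/-- the sum of the local degrees of the places above `l` at which `x`, `y`, `z` have the same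
order -/
noncomputable def evenShare (l : ℕ) (x y z : K) : ℕ :=
  deg l fun v : HeightOneSpectrum (𝓞 K) => EqualAt v x y z

theorem vals {l p : ℕ} (hp0 : p ≠ 0) {x y z a : K} (ha : a ≠ 0)
    {X Y Z : 𝓞 K} (hX : algebraMap (𝓞 K) K X = a * x) (hY : algebraMap (𝓞 K) K Y = a * y)
    (hZ : algebraMap (𝓞 K) K Z = a * z) (heq : X ^ p + Y ^ p + Z ^ p = 0)
    (hcp : ∀ P : Ideal (𝓞 K), P.IsPrime → ((l : ℕ) : 𝓞 K) ∈ P → ¬ (X ∈ P ∧ Y ∈ P ∧ Z ∈ P))
    (v : HeightOneSpectrum (𝓞 K)) (hv : ((l : ℕ) : 𝓞 K) ∈ v.asIdeal) :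
    (X ∈ v.asIdeal ↔ (v.valuation K x < v.valuation K y ∧ v.valuation K x < v.valuation K z)) ∧
    ((X ∉ v.asIdeal ∧ Y ∉ v.asIdeal ∧ Z ∉ v.asIdeal) ↔ EqualAt v x y z) := by
  have hvp := v.isPrime
  have va : v.valuation K a ≠ 0 := (Valuation.ne_zero_iff _).2 ha
  have eX : v.valuation K (algebraMap (𝓞 K) K X) = v.valuation K a * v.valuation K x := by
    rw [hX, map_mul]
  have eY : v.valuation K (algebraMap (𝓞 K) K Y) = v.valuation K a * v.valuation K y := by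
    rw [hY, map_mul]
  have eZ : v.valuation K (algebraMap (𝓞 K) K Z) = v.valuation K a * v.valuation K z := by
    rw [hZ, map_mul]
  have lt : ∀ W : 𝓞 K, W ∈ v.asIdeal ↔ v.valuation K (algebraMap (𝓞 K) K W) < 1 :=
    fun W => (v.valuation_lt_one_iff_mem (K := K) W).symm
  have le : ∀ W : 𝓞 K, v.valuation K (algebraMap (𝓞 K) K W) ≤ 1 :=
    fun W => v.valuation_le_one (K := K) W
  have one : ∀ W : 𝓞 K, W ∉ v.asIdeal → v.valuation K (algebraMap (𝓞 K) K W) = 1 :=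
    fun W hW => val_one v W hW
  have pm : ∀ W : 𝓞 K, W ∈ v.asIdeal → W ^ p ∈ v.asIdeal := fun W hW =>
    Ideal.pow_mem_of_mem _ hW p (Nat.pos_of_ne_zero hp0)
  have mulc : ∀ s t : K, v.valuation K a * v.valuation K s < v.valuation K a * v.valuation K t ↔
      v.valuation K s < v.valuation K t := fun s t => mul_lt_mul_iff_right₀ (zero_lt_iff.2 va)
  refine ⟨⟨fun h => ?_, fun h => ?_⟩, ⟨fun h => ?_, fun h => ?_⟩⟩
  · have h1 : Y ∉ v.asIdeal := by
      intro hY'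
      have h2 : Z ^ p ∈ v.asIdeal := by
        have e : Z ^ p = -(X ^ p + Y ^ p) := by linear_combination heq
        rw [e]
        exact neg_mem (add_mem (pm X h) (pm Y hY'))
      exact hcp v.asIdeal v.isPrime hv ⟨h, hY', hvp.mem_of_pow_mem p h2⟩
    have h2 : Z ∉ v.asIdeal := by
      intro hZ'
      have h2 : Y ^ p ∈ v.asIdeal := by
        have e : Y ^ p = -(X ^ p + Z ^ p) := by linear_combination heq
        rw [e]
        exact neg_mem (add_mem (pm X h) (pm Z hZ'))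
      exact hcp v.asIdeal v.isPrime hv ⟨h, hvp.mem_of_pow_mem p h2, hZ'⟩
    have h3 := (lt X).1 h
    constructor
    · rw [← mulc, ← eX, ← eY, one Y h1]
      exact h3
    · rw [← mulc, ← eX, ← eZ, one Z h2]
      exact h3
  · rw [lt, eX]
    refine lt_of_lt_of_le ((mulc x y).2 h.1) ?_
    rw [← eY]
    exact le Y
  · have j1 := one X h.1
    have j2 := one Y h.2.1
    have j3 := one Z h.2.2
    rw [eX] at j1
    rw [eY] at j2
    rw [eZ] at j3
    exact ⟨mul_left_cancel₀ va (j1.trans j2.symm), mul_left_cancel₀ va (j2.trans j3.symm)⟩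
  · have i1 : X ∈ v.asIdeal ↔ Y ∈ v.asIdeal := by
      rw [lt, lt, eX, eY, h.1]
    have i2 : Y ∈ v.asIdeal ↔ Z ∈ v.asIdeal := by
      rw [lt, lt, eY, eZ, h.2]
    have i3 := hcp v.asIdeal v.isPrime hv
    tauto

end

end Pool.Agent.U549.FW
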