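import Pool.Agent.U549.LF.Rel

/-!
# The logarithmic derivatives of a polynomial which satisfies the relations
-/

set_option autoImplicit false

namespace Pool.Agent.U549.FW

open Polynomial Pool.Agent.Y546.WQ

section field

variable {F : Type*} [Field F]

/-- the operator `X d / dX` -/
noncomputable def DD : Module.End F F[X] := (LinearMap.mulLeft F (X : F[X])) ∘ₗ derivative

theorem DD_apply (f : F[X]) : DD f = X * derivative f := rfl

theorem DD_mul (f g : F[X]) : DD (f * g) = DD f * g + f * DD g := by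
  rw [DD_apply, DD_apply, DD_apply, derivative_mul]
  ring

theorem DD_C (a : F) : DD (C a : F[X]) = 0 := by
  rw [DD_apply, derivative_C, mul_zero]

theorem DD_one : DD (1 : F[X]) = 0 := by
  rw [← C_1, DD_C]

theorem DD_X_pow (n : ℕ) : DD (X ^ n : F[X]) = C (n : F) * X ^ n := by
  rw [DD_apply]
  rcases n with _ | n
  · simp
  · rw [derivative_X_pow, Nat.add_sub_cancel]
    ring

theorem DD_comp (f : F[X]) (s : ℕ) : DD (f.comp (X ^ s)) = C (s : F) * (DD f).comp (X ^ s) := by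
  rw [DD_apply, DD_apply, derivative_comp, mul_comp, X_comp]
  have h := DD_X_pow (F := F) s
  rw [DD_apply] at h
  rw [← mul_assoc, h]
  ring

theorem DD_succ (j : ℕ) (f : F[X]) : (DD ^ (j + 1)) f = DD ((DD ^ j) f) := by
  rw [pow_succ', Module.End.mul_apply]

theorem DD_succ' (j : ℕ) (f : F[X]) : (DD ^ (j + 1)) f = (DD ^ j) (DD f) := by
  rw [pow_succ, Module.End.mul_apply]

theorem DD_pow_comp (f : F[X]) (s j : ℕ) :
    (DD ^ j) (f.comp (X ^ s)) = C ((s : F) ^ j) * ((DD ^ j) f).comp (X ^ s) := by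
  induction j with
  | zero => simp
  | succ j ih =>
    rw [DD_succ, DD_succ, ih, DD_mul, DD_C, zero_mul, zero_add, DD_comp, pow_succ, C_mul]
    ring

theorem DD_dvd {n : ℕ} {f : F[X]} (h : (X - 1) ^ (n + 1) ∣ f) : (X - 1) ^ n ∣ DD f := by
  obtain ⟨W, rfl⟩ := h
  have e : DD ((X - 1 : F[X]) ^ (n + 1)) = (X - 1) ^ n * (C ((n + 1 : ℕ) : F) * X) := by
    rw [DD_apply, ← C_1, derivative_X_sub_C_pow, Nat.add_sub_cancel]
    ring
  rw [DD_mul, e]
  refine dvd_add ?_ ?_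
  · exact (dvd_mul_right _ _).mul_right _
  · exact (pow_dvd_pow _ (Nat.le_succ n)).mul_right _

theorem DD_pow_dvd (j : ℕ) {n : ℕ} {f : F[X]} (h : (X - 1) ^ (n + j) ∣ f) :
    (X - 1) ^ n ∣ (DD ^ j) f := by
  induction j generalizing n with
  | zero => simpa using h
  | succ j ih =>
    rw [DD_succ]
    apply DD_dvd
    apply ih
    have e : n + 1 + j = n + (j + 1) := by ring
    rw [e]
    exact h

theorem DD_pow_eval {j n : ℕ} (hj : j < n) {f : F[X]} (h : (X - 1) ^ n ∣ f) :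
    ((DD ^ j) f).eval 1 = 0 := by
  obtain ⟨u, rfl⟩ : ∃ u, n = (u + 1) + j := ⟨n - j - 1, by omega⟩
  obtain ⟨W, hW⟩ := DD_pow_dvd j h
  rw [hW]
  simp

theorem cop_one {g : F[X]} (hg : g.eval 1 ≠ 0) (n : ℕ) : IsCoprime g ((X - 1) ^ n) := by
  apply IsCoprime.pow_right
  obtain ⟨W, hW⟩ := X_sub_C_dvd_sub_C_eval (a := (1 : F)) (p := g)
  rw [C_1] at hW
  refine ⟨C (g.eval 1)⁻¹, -(C (g.eval 1)⁻¹ * W), ?_⟩
  have e : (C (g.eval 1)⁻¹ * C (g.eval 1) : F[X]) = 1 := by
    rw [← C_mul, inv_mul_cancel₀ hg, C_1]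
  linear_combination C (g.eval 1)⁻¹ * hW + e

theorem DD_prod {ι : Type*} (N : ℕ) (S : Finset ι) (f M : ι → F[X])
    (h : ∀ t ∈ S, (X - 1) ^ N ∣ DD (f t) - f t * M t) :
    (X - 1) ^ N ∣ DD (∏ t ∈ S, f t) - (∏ t ∈ S, f t) * ∑ t ∈ S, M t := by
  classical
  induction S using Finset.induction_on with
  | empty => simp [DD_one]
  | insert a S ha ih =>
    rw [Finset.prod_insert ha, Finset.sum_insert ha, DD_mul]
    have h1 := ih fun t ht => h t (Finset.mem_insert_of_mem ht)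
    have h2 := h a (Finset.mem_insert_self a S)
    have e : DD (f a) * ∏ t ∈ S, f t + f a * DD (∏ t ∈ S, f t) -
        (f a * ∏ t ∈ S, f t) * (M a + ∑ t ∈ S, M t) =
        (∏ t ∈ S, f t) * (DD (f a) - f a * M a) +
          f a * (DD (∏ t ∈ S, f t) - (∏ t ∈ S, f t) * ∑ t ∈ S, M t) := by ring
    rw [e]
    exact dvd_add (h2.mul_left _) (h1.mul_left _)

end field

section

variable {p : ℕ} [Fact p.Prime]

/-- the logarithmic derivative of odd order vanishes if the index is regular -/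
theorem log_rel {g : (ZMod p)[X]} (hg1 : g.eval 1 ≠ 0) (hR : Rel p g) :
    ∃ L : (ZMod p)[X], (X - 1) ^ (p - 1) ∣ g * L - DD g ∧
      ∀ j : ℕ, 1 ≤ j → j + 3 ≤ p → Reg p (j + 1) → ((DD ^ j) L).eval 1 = 0 := by
  have hp : p.Prime := Fact.out
  obtain ⟨u, v, huv⟩ := cop_one hg1 (p - 1)
  refine ⟨u * DD g, ⟨-(v * DD g), by linear_combination DD g * huv⟩, fun j hj hjp hreg => ?_⟩
  obtain ⟨L, hL⟩ : ∃ L : (ZMod p)[X], L = u * DD g := ⟨_, rfl⟩
  have hLd : (X - 1) ^ (p - 1) ∣ DD g - g * L := by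
    refine ⟨v * DD g, ?_⟩
    rw [hL]
    linear_combination -DD g * huv
  rw [← hL]
  obtain ⟨a, ha, hap, hne⟩ := hreg
  obtain ⟨i, r, hr, W, hW⟩ := hR a ha hap
  obtain ⟨n, hn⟩ : ∃ n, p - 1 = n + 1 := ⟨p - 2, by have := hp.two_le; omega⟩
  rw [hn] at hLd hW
  obtain ⟨G, hG⟩ : ∃ G, G = thPa p a g := ⟨_, rfl⟩
  rw [← hG] at hW
  have h1 : (X - 1) ^ (n + 1) ∣ DD G - G * ∑ t ∈ hf p a,
      C ((((t⁻¹ : (ZMod p)ˣ) : ZMod p).val : ℕ) : ZMod p) *
        L.comp (X ^ ((t⁻¹ : (ZMod p)ˣ) : ZMod p).val) := by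
    rw [hG]
    unfold thPa
    refine DD_prod (n + 1) (hf p a) _ _ fun t _ => ?_
    obtain ⟨s, hs⟩ : ∃ s : ℕ, s = ((t⁻¹ : (ZMod p)ˣ) : ZMod p).val := ⟨_, rfl⟩
    rw [← hs, DD_comp]
    obtain ⟨V, hV⟩ := hLd
    have e : C (s : ZMod p) * (DD g).comp (X ^ s) - g.comp (X ^ s) *
        (C (s : ZMod p) * L.comp (X ^ s)) = (X ^ s - 1) ^ (n + 1) *
          (C (s : ZMod p) * V.comp (X ^ s)) := by
      have e1 := congrArg (fun q => q.comp (X ^ s)) hV
      simp only [sub_comp, mul_comp, pow_comp, X_comp, one_comp] at e1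
      linear_combination C (s : ZMod p) * e1
    rw [e]
    refine Dvd.dvd.mul_right (pow_dvd_pow_of_dvd ?_ _) _
    have := sub_dvd_pow_sub_pow (X : (ZMod p)[X]) 1 s
    rwa [one_pow] at this
  have h2 : (X - 1) ^ n ∣ DD G - C (i : ZMod p) * G := by
    have h3 : (X - 1) ^ n ∣ DD (G - C r * X ^ i) := DD_dvd ⟨W, hW⟩
    have e : DD G - C (i : ZMod p) * G = DD (G - C r * X ^ i) -
        C (i : ZMod p) * (G - C r * X ^ i) := by
      rw [map_sub, DD_mul, DD_C, DD_X_pow]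
      ring
    rw [e, hW]
    rw [hW] at h3
    refine dvd_sub h3 (Dvd.dvd.mul_left ?_ _)
    exact (pow_dvd_pow _ (Nat.le_succ n)).mul_right _
  have hG1 : G.eval 1 ≠ 0 := by
    have h4 := congrArg (eval 1) hW
    simp only [eval_sub, eval_mul, eval_C, eval_pow, eval_X, one_pow, mul_one, eval_one,
      sub_self] at h4
    rw [zero_pow (Nat.succ_ne_zero n), zero_mul, sub_eq_zero] at h4
    rw [h4]
    exact hr
  have h5 : (X - 1) ^ n ∣ (∑ t ∈ hf p a,
      C ((((t⁻¹ : (ZMod p)ˣ) : ZMod p).val : ℕ) : ZMod p) *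
        L.comp (X ^ ((t⁻¹ : (ZMod p)ˣ) : ZMod p).val)) - C (i : ZMod p) := by
    apply (cop_one hG1 n).symm.dvd_of_dvd_mul_left
    have h6 := dvd_sub h2 ((pow_dvd_pow _ (Nat.le_succ n)).trans h1)
    have e6 : ∀ S : (ZMod p)[X], DD G - C (i : ZMod p) * G - (DD G - G * S) =
        G * (S - C (i : ZMod p)) := fun S => by ring
    rw [e6] at h6
    exact h6
  obtain ⟨j', rfl⟩ : ∃ j', j = j' + 1 := ⟨j - 1, by omega⟩
  have h7 := DD_pow_eval (j := j' + 1) (n := n) (by omega) h5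
  have hc : (DD ^ (j' + 1)) (C (i : ZMod p)) = 0 := by
    rw [DD_succ', DD_C, map_zero]
  rw [map_sub, map_sum, hc, sub_zero, eval_finset_sum] at h7
  have h8 : ∀ t ∈ hf p a, ((DD ^ (j' + 1)) (C ((((t⁻¹ : (ZMod p)ˣ) : ZMod p).val : ℕ) : ZMod p) *
      L.comp (X ^ ((t⁻¹ : (ZMod p)ˣ) : ZMod p).val))).eval 1 =
      ((t⁻¹ : (ZMod p)ˣ) : ZMod p) ^ (j' + 1 + 1) * ((DD ^ (j' + 1)) L).eval 1 := by
    intro t _
    rw [← smul_eq_C_mul, map_smul, DD_pow_comp, smul_eq_C_mul]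
    simp only [eval_mul, eval_C, eval_comp, eval_pow, eval_X, one_pow, ZMod.natCast_zmod_val]
    ring
  rw [Finset.sum_congr rfl h8, ← Finset.sum_mul] at h7
  exact (mul_eq_zero.1 h7).resolve_left hne

/-- the values at `1` -/
noncomputable def ev {F : Type*} [Field F] (j : ℕ) (f : F[X]) : F := ((DD ^ j) f).eval 1

theorem ev_succ {F : Type*} [Field F] (j : ℕ) (f : F[X]) : ev (j + 1) f = ev j (DD f) := by
  unfold ev
  rw [DD_succ']

theorem ev_zero {F : Type*} [Field F] (f : F[X]) : ev 0 f = f.eval 1 := by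
  unfold ev
  simp

theorem ev_mul {F : Type*} [Field F] (j : ℕ) : ∀ f g : F[X], ev j (f * g) =
    ∑ i ∈ Finset.range (j + 1), (j.choose i : F) * (ev i f * ev (j - i) g) := by
  induction j with
  | zero =>
    intro f g
    simp [ev_zero]
  | succ j ih =>
    intro f g
    have hadd : ∀ f g : F[X], ev j (f + g) = ev j f + ev j g := by
      intro f g
      unfold ev
      rw [map_add, eval_add]
    rw [ev_succ, DD_mul, hadd, ih, ih]
    have h1 : ∀ i ∈ Finset.range (j + 1), (j.choose i : F) * (ev i (DD f) * ev (j - i) g) =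
        (j.choose i : F) * (ev (i + 1) f * ev (j + 1 - (i + 1)) g) := by
      intro i _
      rw [← ev_succ, Nat.add_sub_add_right]
    have h2 : ∀ i ∈ Finset.range (j + 1), (j.choose i : F) * (ev i f * ev (j - i) (DD g)) =
        (j.choose i : F) * (ev i f * ev (j + 1 - i) g) := by
      intro i hi
      rw [← ev_succ]
      have : j - i + 1 = j + 1 - i := by
        have := Finset.mem_range.1 hi
        omega
      rw [this]
    rw [Finset.sum_congr rfl h1, Finset.sum_congr rfl h2]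
    rw [Finset.sum_range_succ' (fun i => ((j + 1).choose i : F) * (ev i f * ev (j + 1 - i) g))]
    simp only [Nat.choose_succ_succ, Nat.cast_add, add_mul, Finset.sum_add_distrib]
    have h3 : ∑ i ∈ Finset.range (j + 1), (j.choose i : F) * (ev i f * ev (j + 1 - i) g) =
        ∑ i ∈ Finset.range (j + 1), (j.choose (i + 1) : F) *
          (ev (i + 1) f * ev (j + 1 - (i + 1)) g) + (j.choose 0 : F) * (ev 0 f * ev (j + 1 - 0) g) := by
      rw [← Finset.sum_range_succ' (fun i => (j.choose i : F) * (ev i f * ev (j + 1 - i) g)) (j + 1),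
        Finset.sum_range_succ _ (j + 1), Nat.choose_succ_self, Nat.cast_zero, zero_mul, add_zero]
    rw [h3]
    simp only [Nat.choose_zero_right]
    ring

end

end Pool.Agent.U549.FW
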