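import Pool.Agent.U549.FW.Fst2
import Pool.Agent.U549.FW.Lg

/-!
# The relations of order three, five and seven
-/

set_option autoImplicit false

namespace Pool.Agent.U549.FW

open Polynomial Pool.Agent.Y546.WQ

section

variable {p : ℕ} [Fact p.Prime]

theorem chain {g : (ZMod p)[X]} (hg1 : g.eval 1 ≠ 0) (hR : Rel p g) :
    ∃ l : ℕ → ZMod p, (∀ j, j + 1 < p →
      ∑ i ∈ Finset.range (j + 1), (j.choose i : ZMod p) * (ev i g * l (j - i)) = ev (j + 1) g) ∧
      ∀ j : ℕ, 1 ≤ j → j + 3 ≤ p → Reg p (j + 1) → l j = 0 := by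
  obtain ⟨L, h1, h2⟩ := log_rel hg1 hR
  refine ⟨fun j => ev j L, fun j hj => ?_, fun j hj hjp hreg => h2 j hj hjp hreg⟩
  have h3 : ev j (g * L - DD g) = 0 := DD_pow_eval (by omega) h1
  have h4 : ev j (g * L - DD g) = ev j (g * L) - ev (j + 1) g := by
    rw [ev_succ]
    unfold ev
    rw [map_sub, eval_sub]
  rw [h4, ev_mul] at h3
  exact sub_eq_zero.1 h3

theorem ev_mon {F : Type*} [Field F] (a : F) (n j : ℕ) : ev j (C a * X ^ n) = a * (n : F) ^ j := by
  unfold ev
  induction j with
  | zero => simp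
  | succ j ih =>
    rw [DD_succ', DD_mul, DD_C, zero_mul, zero_add, DD_X_pow]
    have e : (C a * (C (n : F) * X ^ n) : F[X]) = C (n : F) * (C a * X ^ n) := by ring
    rw [e, ← smul_eq_C_mul, map_smul, eval_smul, ih, smul_eq_mul, pow_succ]
    ring

theorem ev_Qd (A B G : ZMod p) (j : ℕ) :
    ev j (Qd A B G) = A * 0 ^ j + (G - A - B) + B * 2 ^ j := by
  have e : Qd A B G = Polynomial.C A * X ^ 0 + Polynomial.C (G - A - B) * X ^ 1 +
      Polynomial.C B * X ^ 2 := by
    unfold Qd
    rw [pow_zero, pow_one, mul_one]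
  have hadd : ∀ f g : (ZMod p)[X], ev j (f + g) = ev j f + ev j g := by
    intro f g
    unfold ev
    rw [map_add, eval_add]
  rw [e, hadd, hadd, ev_mon, ev_mon, ev_mon]
  simp

theorem nz {n : ℕ} (hn : ∀ q : ℕ, q.Prime → q ∣ n → q < p) (_hn0 : n ≠ 0) : (n : ZMod p) ≠ 0 := by
  intro h
  rw [ZMod.natCast_eq_zero_iff] at h
  have := hn p Fact.out h
  omega

theorem eval_Qd (A B G : ZMod p) : (Qd A B G).eval 1 = G := by
  have h := ev_Qd A B G 0
  rw [ev_zero] at h
  rw [h]
  ring

theorem type_b (h7 : 7 ≤ p) {u : ZMod p} (hu : u ≠ 0) (hR : Rel p (Qd u (2 * u) (2 * u))) :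
    ¬ Reg p 3 ∧ ¬ Reg p 5 ∧ (19 ≤ p → ¬ Reg p 7) := by
  have n2 : (2 : ZMod p) ≠ 0 := by
    have := nz (p := p) (n := 2) (fun q hq hd => by
      have := Nat.le_of_dvd (by norm_num) hd
      omega) (by norm_num)
    exact_mod_cast this
  have n3 : (3 : ZMod p) ≠ 0 := by
    have := nz (p := p) (n := 3) (fun q hq hd => by
      have := Nat.le_of_dvd (by norm_num) hd
      omega) (by norm_num)
    exact_mod_cast this
  have n5 : (5 : ZMod p) ≠ 0 := by
    have := nz (p := p) (n := 5) (fun q hq hd => by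
      have := Nat.le_of_dvd (by norm_num) hd
      omega) (by norm_num)
    exact_mod_cast this
  obtain ⟨l, h1, h2⟩ := chain (by rw [eval_Qd]; exact mul_ne_zero n2 hu) hR
  have e0 := h1 0 (by omega)
  have e1 := h1 1 (by omega)
  have e2 := h1 2 (by omega)
  have e3 := h1 3 (by omega)
  have e4 := h1 4 (by omega)
  simp only [Finset.sum_range_succ, Finset.sum_range_zero, ev_Qd] at e0 e1 e2 e3 e4
  norm_num [Nat.choose] at e0 e1 e2 e3 e4
  refine ⟨fun hreg => ?_, fun hreg => ?_, fun h19 hreg => ?_⟩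
  · have h3 := h2 2 (by norm_num) (by omega) hreg
    have h4 : (3 : ZMod p) * u = 0 := by
      linear_combination e0 - 3 * e1 + e2 - 2 * u * h3
    exact mul_ne_zero n3 hu h4
  · have h3 := h2 4 (by norm_num) (by omega) hreg
    have h4 : (2 * (3 * 5) : ZMod p) * u = 0 := by
      linear_combination 14 * e0 - 15 * e1 - 6 * e2 + 6 * e3 - e4 + 2 * u * h3
    exact mul_ne_zero (mul_ne_zero n2 (mul_ne_zero n3 n5)) hu h4
  · have e5 := h1 5 (by omega)
    have e6 := h1 6 (by omega)
    simp only [Finset.sum_range_succ, Finset.sum_range_zero, ev_Qd] at e5 e6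
    norm_num [Nat.choose] at e5 e6
    have h3 := h2 6 (by norm_num) (by omega) hreg
    have h4 : ((1071 : ℕ) : ZMod p) * u = 0 := by
      push_cast
      linear_combination 617 * e0 - 198 * e1 - 420 * e2 + 150 * e3 + 30 * e4 - 18 * e5 + 2 * e6
        - 4 * u * h3
    refine mul_ne_zero (nz (fun q hq hd => ?_) (by norm_num)) hu h4
    have : 1071 = 3 * (3 * (7 * 17)) := by norm_num
    rw [this] at hd
    rcases (Nat.Prime.dvd_mul hq).1 hd with hd | hd
    · have := Nat.le_of_dvd (by norm_num) hd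
      omega
    · rcases (Nat.Prime.dvd_mul hq).1 hd with hd | hd
      · have := Nat.le_of_dvd (by norm_num) hd
        omega
      · rcases (Nat.Prime.dvd_mul hq).1 hd with hd | hd
        · have := Nat.le_of_dvd (by norm_num) hd
          omega
        · have := Nat.le_of_dvd (by norm_num) hd
          omega

theorem type_c (h7 : 7 ≤ p) {u : ZMod p} (hu : u ≠ 0) (hR : Rel p (Qd (2 * u) (3 * u) (2 * u))) :
    ¬ Reg p 3 ∧ ¬ Reg p 5 ∧ (19 ≤ p → ¬ Reg p 7) := by
  have n2 : (2 : ZMod p) ≠ 0 := by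
    have := nz (p := p) (n := 2) (fun q hq hd => by
      have := Nat.le_of_dvd (by norm_num) hd
      omega) (by norm_num)
    exact_mod_cast this
  have n3 : (3 : ZMod p) ≠ 0 := by
    have := nz (p := p) (n := 3) (fun q hq hd => by
      have := Nat.le_of_dvd (by norm_num) hd
      omega) (by norm_num)
    exact_mod_cast this
  have n5 : (5 : ZMod p) ≠ 0 := by
    have := nz (p := p) (n := 5) (fun q hq hd => by
      have := Nat.le_of_dvd (by norm_num) hd
      omega) (by norm_num)
    exact_mod_cast this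
  obtain ⟨l, h1, h2⟩ := chain (by rw [eval_Qd]; exact mul_ne_zero n2 hu) hR
  have e0 := h1 0 (by omega)
  have e1 := h1 1 (by omega)
  have e2 := h1 2 (by omega)
  have e3 := h1 3 (by omega)
  have e4 := h1 4 (by omega)
  simp only [Finset.sum_range_succ, Finset.sum_range_zero, ev_Qd] at e0 e1 e2 e3 e4
  norm_num [Nat.choose] at e0 e1 e2 e3 e4
  refine ⟨fun hreg => ?_, fun hreg => ?_, fun h19 hreg => ?_⟩
  · have h3 := h2 2 (by norm_num) (by omega) hreg
    have h4 : (2 * 3 : ZMod p) * u = 0 := by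
      linear_combination -3 * e1 + e2 - 2 * u * h3
    exact mul_ne_zero (mul_ne_zero n2 n3) hu h4
  · have h3 := h2 4 (by norm_num) (by omega) hreg
    have h4 : (2 * (2 * (2 * (3 * 5))) : ZMod p) * u = 0 := by
      linear_combination 18 * e0 - 39 * e1 + 6 * e3 - e4 + 2 * u * h3
    exact mul_ne_zero (mul_ne_zero n2 (mul_ne_zero n2 (mul_ne_zero n2 (mul_ne_zero n3 n5)))) hu h4
  · have e5 := h1 5 (by omega)
    have e6 := h1 6 (by omega)
    simp only [Finset.sum_range_succ, Finset.sum_range_zero, ev_Qd] at e5 e6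
    norm_num [Nat.choose] at e5 e6
    have h3 := h2 6 (by norm_num) (by omega) hreg
    have h4 : ((4641 : ℕ) : ZMod p) * u = 0 := by
      push_cast
      linear_combination 1125 * e0 - 1089 * e1 - 270 * e2 + 195 * e3 - 9 * e5 + e6
        - 2 * u * h3
    refine mul_ne_zero (nz (fun q hq hd => ?_) (by norm_num)) hu h4
    have : 4641 = 3 * (7 * (13 * 17)) := by norm_num
    rw [this] at hd
    rcases (Nat.Prime.dvd_mul hq).1 hd with hd | hd
    · have := Nat.le_of_dvd (by norm_num) hd
      omega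
    · rcases (Nat.Prime.dvd_mul hq).1 hd with hd | hd
      · have := Nat.le_of_dvd (by norm_num) hd
        omega
      · rcases (Nat.Prime.dvd_mul hq).1 hd with hd | hd
        · have := Nat.le_of_dvd (by norm_num) hd
          omega
        · have := Nat.le_of_dvd (by norm_num) hd
          omega

end

end Pool.Agent.U549.FW
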