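import Pool.Agent.U549.FW.Fst

/-!
# The condition modulo the square of `p`
-/

set_option autoImplicit false

namespace Pool.Agent.U549.FW

open NumberField IsDedekindDomain Polynomial Pool.Agent.Y546.WQ Pool.Agent.N840.FC
  Pool.Agent.U549.LF

/-- the Lucas sequence `V` -/
def lucV (P Q : ℤ) : ℕ → ℤ
  | 0 => 2
  | 1 => P
  | n + 2 => P * lucV P Q (n + 1) - Q * lucV P Q n

/-- the polynomial whose value at `w ^ 2` is `(a + w) ^ n + (a - w) ^ n` -/
noncomputable def cpoly (a : ℤ) : ℕ → ℤ[X]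
  | 0 => C 2
  | 1 => C (2 * a)
  | n + 2 => C (2 * a) * cpoly a (n + 1) - (C (a ^ 2) - X) * cpoly a n

theorem cpoly_eval {R : Type*} [CommRing R] (a : ℤ) (w : R) (n : ℕ) :
    eval₂ (Int.castRingHom R) (w ^ 2) (cpoly a n) = ((a : R) + w) ^ n + ((a : R) - w) ^ n ∧
      eval₂ (Int.castRingHom R) (w ^ 2) (cpoly a (n + 1)) =
        ((a : R) + w) ^ (n + 1) + ((a : R) - w) ^ (n + 1) := by
  induction n with
  | zero =>
    constructor
    · simp only [cpoly, eval₂_C, pow_zero]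
      simp
      norm_num
    · simp only [cpoly, eval₂_C]
      simp
      ring
  | succ n ih =>
    refine ⟨ih.2, ?_⟩
    have e : cpoly a (n + 1 + 1) = C (2 * a) * cpoly a (n + 1) - (C (a ^ 2) - X) * cpoly a n := rfl
    rw [e, eval₂_sub, eval₂_mul, eval₂_mul, eval₂_sub, ih.1, ih.2, eval₂_C, eval₂_C, eval₂_X]
    simp only [eq_intCast, Int.cast_mul, Int.cast_pow, Int.cast_ofNat]
    ring

theorem cpoly_luc (a Q : ℤ) (n : ℕ) :
    (cpoly a n).eval (a ^ 2 - 4 * Q) = 2 ^ n * lucV a Q n ∧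
      (cpoly a (n + 1)).eval (a ^ 2 - 4 * Q) = 2 ^ (n + 1) * lucV a Q (n + 1) := by
  induction n with
  | zero =>
    constructor
    · simp only [cpoly, lucV, eval_C, pow_zero, one_mul]
    · simp only [cpoly, lucV, eval_C]
      ring
  | succ n ih =>
    refine ⟨ih.2, ?_⟩
    have e : cpoly a (n + 1 + 1) = C (2 * a) * cpoly a (n + 1) - (C (a ^ 2) - X) * cpoly a n := rfl
    have e' : lucV a Q (n + 1 + 1) = a * lucV a Q (n + 1) - Q * lucV a Q n := rfl
    rw [e, e', eval_sub, eval_mul, eval_mul, eval_sub, ih.1, ih.2, eval_C, eval_C, eval_X]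
    ring

theorem cpoly_mod {p : ℕ} [Fact p.Prime] (a : ℤ) :
    ∃ H : ℤ[X], cpoly a p = C (2 * a ^ p) + C (p : ℤ) * H := by
  have hp : p.Prime := Fact.out
  obtain ⟨H, hH⟩ := lift_mod (p := p) (cpoly a p - C (2 * a ^ p)) (by
    apply expand_injective (R := ZMod p) (n := 2) (by norm_num)
    rw [map_zero]
    have h1 := (cpoly_eval (R := (ZMod p)[X]) a X p).1
    have h2 : ∀ f : ℤ[X], expand (ZMod p) 2 (f.map (Int.castRingHom (ZMod p))) =
        eval₂ (Int.castRingHom (ZMod p)[X]) ((X : (ZMod p)[X]) ^ 2) f := by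
      intro f
      rw [expand_eq_comp_X_pow, comp, eval₂_map]
      congr 1
    rw [h2, eval₂_sub, h1, eval₂_C, add_pow_char, sub_pow_char]
    simp only [eq_intCast, Int.cast_mul, Int.cast_pow, Int.cast_ofNat]
    ring)
  exact ⟨H, by rw [← hH]; ring⟩

theorem cpoly_cong {R : Type*} [CommRing R] {p : ℕ} [Fact p.Prime] (a D : ℤ) (u r : R)
    (h : u = (D : R) + (p : R) * r) :
    ∃ s : R, eval₂ (Int.castRingHom R) u (cpoly a p) =
      (((cpoly a p).eval D : ℤ) : R) + (p : R) ^ 2 * s := by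
  obtain ⟨H, hH⟩ := cpoly_mod (p := p) a
  obtain ⟨t, ht⟩ : u - (D : R) ∣ eval₂ (Int.castRingHom R) u H -
      eval₂ (Int.castRingHom R) (D : R) H := by
    have := sub_dvd_eval_sub u (D : R) (H.map (Int.castRingHom R))
    rw [eval_map, eval_map] at this
    exact this
  have hint : ∀ f : ℤ[X], eval₂ (Int.castRingHom R) ((D : ℤ) : R) f = ((f.eval D : ℤ) : R) := by
    intro f
    exact eval₂_at_intCast (p := f) (Int.castRingHom R) D
  refine ⟨r * t, ?_⟩
  rw [← hint, hH, eval₂_add, eval₂_add, eval₂_mul, eval₂_mul, eval₂_C, eval₂_C, eval₂_C, eval₂_C]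
  simp only [eq_intCast, Int.cast_natCast]
  have e : u - (D : R) = (p : R) * r := by rw [h]; ring
  rw [e] at ht
  linear_combination (p : R) * ht

/-- the sum of the `p`-th powers modulo `p ^ 2` -/
theorem luc_core {R : Type*} [CommRing R] {p : ℕ} [Fact p.Prime] (k Q : ℤ) (w r s : R)
    (h : ((k : R) * w) ^ 2 = ((k ^ 2 - 4 * Q : ℤ) : R) + (p : R) * r)
    (h2 : (1 + w) ^ p + (1 - w) ^ p = 2 ^ p + (p : R) ^ 2 * s) :
    (p : R) ^ 2 ∣ ((2 ^ p * (lucV k Q p - k ^ p) : ℤ) : R) := by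
  obtain ⟨s', hs'⟩ := cpoly_cong k (k ^ 2 - 4 * Q) _ r h
  rw [(cpoly_eval k ((k : R) * w) p).1, (cpoly_luc k Q p).1] at hs'
  have e1 : ((k : R) + k * w) ^ p = (k : R) ^ p * (1 + w) ^ p := by
    rw [← mul_pow]
    congr 1
    ring
  have e2 : ((k : R) - k * w) ^ p = (k : R) ^ p * (1 - w) ^ p := by
    rw [← mul_pow]
    congr 1
    ring
  rw [e1, e2] at hs'
  refine ⟨(k : R) ^ p * s - s', ?_⟩
  push_cast at hs' ⊢
  linear_combination -hs' + (k : R) ^ p * h2

end Pool.Agent.U549.FW
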