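import Pool.Agent.U549.FW.Luc

/-!
# The condition modulo the square of `p` for a pair with equal norms
-/

set_option autoImplicit false

namespace Pool.Agent.U549.FW

open NumberField IsDedekindDomain Polynomial Pool.Agent.Y546.WQ Pool.Agent.N840.FC
  Pool.Agent.U549.LF

section

variable {K : Type} [Field K] [NumberField K]

theorem int_dvd_of (hK : Module.finrank ℚ K = 2) {a b : ℤ} (h : (a : 𝓞 K) ∣ (b : 𝓞 K)) :
    a ∣ b := by
  obtain ⟨σ, hN, hT⟩ := Pool.Agent.Y546.SG.exists_conj hK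
  obtain ⟨y, hy⟩ := h
  have h1 := congrArg σ hy
  rw [map_mul, map_intCast, map_intCast] at h1
  have h2 : b ^ 2 = a ^ 2 * Algebra.norm ℤ y := by
    have h3 : ((b ^ 2 : ℤ) : 𝓞 K) = ((a ^ 2 * Algebra.norm ℤ y : ℤ) : 𝓞 K) := by
      push_cast
      rw [hN]
      linear_combination (b : 𝓞 K) * hy + (a : 𝓞 K) * y * h1
    exact_mod_cast h3
  exact (Int.pow_dvd_pow_iff two_ne_zero).1 ⟨_, h2⟩

/-- an element of all primes above an unramified prime number is divisible by it -/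
theorem rad (hK : Module.finrank ℚ K = 2) {p : ℕ} (hp : p.Prime) (hp2 : p ≠ 2)
    (hd : ¬ (p : ℤ) ∣ NumberField.discr K) {s : 𝓞 K}
    (hs : ∀ P : Ideal (𝓞 K), P.IsPrime → ((p : ℕ) : 𝓞 K) ∈ P → s ∈ P) :
    ∃ r : 𝓞 K, s = ((p : ℕ) : 𝓞 K) * r := by
  obtain ⟨σ, hN, hT⟩ := Pool.Agent.Y546.SG.exists_conj hK
  obtain ⟨P, hP, hpP⟩ := exists_above (K := K) p hp
  have hpσ : ((p : ℕ) : 𝓞 K) ∈ P.comap σ := by
    rw [Ideal.mem_comap, map_natCast]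
    exact hpP
  have s1 := hs P hP hpP
  have s2 : σ s ∈ P := hs (P.comap σ) (hP.comap σ) hpσ
  have hTd : (p : ℤ) ∣ Algebra.trace ℤ (𝓞 K) s := by
    by_contra hcon
    refine int_notMem P hP p hp hpP _ hcon ?_
    rw [hT]
    exact P.add_mem s1 s2
  have hNd : (p : ℤ) ∣ Algebra.norm ℤ s := by
    by_contra hcon
    refine int_notMem P hP p hp hpP _ hcon ?_
    rw [hN]
    exact P.mul_mem_left _ s2
  obtain ⟨m, hm⟩ := disc_eq hK σ hN hT s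
  have h1 : s ^ 2 - ((Algebra.trace ℤ (𝓞 K) s : ℤ) : 𝓞 K) * s +
      ((Algebra.norm ℤ s : ℤ) : 𝓞 K) = 0 := by
    rw [hN, hT]
    ring
  obtain ⟨T, hT1⟩ := hTd
  obtain ⟨N, hN1⟩ := hNd
  rw [hT1, hN1] at hm h1
  have hpi : Prime (p : ℤ) := Nat.prime_iff_prime_int.1 hp
  have hpm : (p : ℤ) ∣ m := by
    have h2 : (p : ℤ) ∣ m ^ 2 * NumberField.discr K := by
      rw [← hm]
      exact ⟨p * T ^ 2 - 4 * N, by ring⟩
    exact hpi.dvd_of_dvd_pow ((hpi.dvd_or_dvd h2).resolve_right hd)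
  obtain ⟨m', rfl⟩ := hpm
  have hpK : (p : K) ≠ 0 := by exact_mod_cast hp.ne_zero
  have h3 := congrArg (Int.cast : ℤ → K) hm
  have h4 := congrArg (algebraMap (𝓞 K) K) h1
  simp only [map_add, map_sub, map_mul, map_pow, map_intCast, map_zero] at h4
  push_cast at h3 h4
  have hint : IsIntegral ℤ ((2 * (s : K) - p * T) / p) := by
    apply IsIntegral.of_pow (n := 2) (by norm_num)
    have e : ((2 * (s : K) - p * T) / p) ^ 2 = ((m' ^ 2 * NumberField.discr K : ℤ) : K) := by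
      rw [div_pow, div_eq_iff (pow_ne_zero 2 hpK)]
      push_cast
      linear_combination 4 * h4 + h3
    rw [e]
    exact isIntegral_algebraMap (R := ℤ) (A := K)
  obtain ⟨u, hu⟩ := (IsIntegralClosure.isIntegral_iff (A := 𝓞 K)).1 hint
  rw [eq_div_iff hpK] at hu
  have h5 : 2 * s = ((p : ℕ) : 𝓞 K) * (u + (T : 𝓞 K)) := by
    apply RingOfIntegers.coe_injective
    simp only [map_mul, map_add, map_natCast, map_intCast, map_ofNat]
    linear_combination -hu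
  obtain ⟨j, hj⟩ := hp.odd_of_ne_two hp2
  have h6 : ((p : ℕ) : 𝓞 K) = 2 * (j : 𝓞 K) + 1 := by
    rw [hj]
    push_cast
    ring
  refine ⟨s - j * (u + (T : 𝓞 K)), ?_⟩
  linear_combination -s * h6 - (j : 𝓞 K) * h5

theorem pow_cong {R : Type*} [CommRing R] (p : ℕ) (a b : R) :
    ∃ t : R, (a + (p : R) * b) ^ p = a ^ p + (p : R) ^ 2 * t := by
  have h := dvd_sub_pow_of_dvd_sub (R := R) (p := p) (a := a + (p : R) * b) (b := a)
    ⟨b, by ring⟩ 1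
  rw [pow_one] at h
  obtain ⟨t, ht⟩ := h
  exact ⟨t, by linear_combination ht⟩

/-- the condition modulo the square of `p` for a pair with equal norms -/
theorem pair_luc (hK : Module.finrank ℚ K = 2) {p : ℕ} [Fact p.Prime] (hp2 : p ≠ 2)
    (hd : ¬ (p : ℤ) ∣ NumberField.discr K) (σ : 𝓞 K →+* 𝓞 K)
    (hN : ∀ a : 𝓞 K, ((Algebra.norm ℤ a : ℤ) : 𝓞 K) = a * σ a)
    (hT : ∀ a : 𝓞 K, ((Algebra.trace ℤ (𝓞 K) a : ℤ) : 𝓞 K) = a + σ a) {X Y Z : 𝓞 K}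
    (s : Sol p K X Y Z) (hXY : ((Algebra.norm ℤ X : ℤ) : ZMod p) = ((Algebra.norm ℤ Y : ℤ) : ZMod p))
    (k Q : ℤ) (hk : (k : ZMod p) ^ 2 * (2 * ((Algebra.norm ℤ X : ℤ) : ZMod p) +
      2 * ((Algebra.norm ℤ Y : ℤ) : ZMod p) - ((Algebra.norm ℤ Z : ℤ) : ZMod p)) =
      (4 * (Q : ZMod p) - (k : ZMod p) ^ 2) * ((Algebra.norm ℤ Z : ℤ) : ZMod p)) :
    (p : ℤ) ^ 2 ∣ lucV k Q p - k ^ p := by
  have hp : p.Prime := Fact.out
  have hpi : Prime (p : ℤ) := Nat.prime_iff_prime_int.1 hp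
  obtain ⟨W, r, hW⟩ := inv_mod (fun P hP hpP => (s.cp P hP hpP).2.2)
  obtain ⟨w, hw⟩ : ∃ w : 𝓞 K, w = (X - Y) * W := ⟨_, rfl⟩
  have hlin : ∀ P : Ideal (𝓞 K), P.IsPrime → ((p : ℕ) : 𝓞 K) ∈ P → X + Y + Z ∈ P :=
    fun P hP hpP => Pool.Agent.Y546.WQ.lin_p hp P hP hpP s.eq
  have hGn := norm_ncp hp σ hN fun P hP hpP => (s.cp P hP hpP).2.2
  have hG0 : ((Algebra.norm ℤ Z : ℤ) : ZMod p) ≠ 0 := by
    intro h0
    exact hGn ((ZMod.intCast_zmod_eq_zero_iff_dvd _ p).1 h0)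
  have e1 : w * Z = (X - Y) * (1 + ((p : ℕ) : 𝓞 K) * r) := by
    rw [hw]
    linear_combination (X - Y) * hW
  have e2 := congrArg σ e1
  simp only [map_mul, map_sub, map_add, map_one, map_natCast] at e2
  obtain ⟨P, hP, hpP⟩ := exists_above (K := K) p hp
  have hpσ : ((p : ℕ) : 𝓞 K) ∈ P.comap σ := by
    rw [Ideal.mem_comap, map_natCast]
    exact hpP
  have s1 := hlin P hP hpP
  have s2 := hlin (P.comap σ) (hP.comap σ) hpσ
  rw [Ideal.mem_comap] at s2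
  simp only [map_add] at s2
  -- the trace
  have hd1 : (p : ℤ) ∣ Algebra.trace ℤ (𝓞 K) w * Algebra.norm ℤ Z -
      2 * (Algebra.norm ℤ Y - Algebra.norm ℤ X) := by
    by_contra hcon
    refine int_notMem P hP p hp hpP _ hcon ?_
    push_cast
    rw [hT, hN, hN, hN]
    have e3 : (w + σ w) * (Z * σ Z) - 2 * (Y * σ Y - X * σ X) =
        (X - Y) * (σ X + σ Y + σ Z) + (σ X - σ Y) * (X + Y + Z) +
          ((X - Y) * r * σ Z + (σ X - σ Y) * σ r * Z) * ((p : ℕ) : 𝓞 K) := by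
      linear_combination σ Z * e1 + Z * e2
    rw [e3]
    exact P.add_mem (P.add_mem (P.mul_mem_left _ s2) (P.mul_mem_left _ s1))
      (P.mul_mem_left _ hpP)
  -- the norm
  have hd2 : (p : ℤ) ∣ Algebra.norm ℤ w * Algebra.norm ℤ Z -
      (2 * Algebra.norm ℤ X + 2 * Algebra.norm ℤ Y - Algebra.norm ℤ Z) := by
    by_contra hcon
    refine int_notMem P hP p hp hpP _ hcon ?_
    push_cast
    rw [hN, hN, hN, hN]
    have e3 : (w * σ w) * (Z * σ Z) - (2 * (X * σ X) + 2 * (Y * σ Y) - Z * σ Z) =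
        (σ Z - (σ X + σ Y + σ Z)) * (X + Y + Z) + Z * (σ X + σ Y + σ Z) +
          ((X - Y) * (σ X - σ Y) * (r + σ r + ((p : ℕ) : 𝓞 K) * (r * σ r))) *
            ((p : ℕ) : 𝓞 K) := by
      linear_combination (σ w * σ Z) * e1 + (X - Y) * (1 + ((p : ℕ) : 𝓞 K) * r) * e2
    rw [e3]
    exact P.add_mem (P.add_mem (P.mul_mem_left _ s1) (P.mul_mem_left _ s2))
      (P.mul_mem_left _ hpP)
  -- consequences
  have h1 := (ZMod.intCast_zmod_eq_zero_iff_dvd _ p).2 hd1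
  have h2 := (ZMod.intCast_zmod_eq_zero_iff_dvd _ p).2 hd2
  push_cast at h1 h2
  have hT0 : (p : ℤ) ∣ Algebra.trace ℤ (𝓞 K) w := by
    apply (ZMod.intCast_zmod_eq_zero_iff_dvd _ p).1
    apply mul_right_cancel₀ hG0
    linear_combination h1 - 2 * hXY
  have hN0 : (p : ℤ) ∣ k ^ 2 * Algebra.norm ℤ w - (4 * Q - k ^ 2) := by
    apply (ZMod.intCast_zmod_eq_zero_iff_dvd _ p).1
    apply mul_right_cancel₀ hG0
    push_cast
    linear_combination (k : ZMod p) ^ 2 * h2 + hk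
  obtain ⟨T, hT1⟩ := hT0
  obtain ⟨N, hN1⟩ := hN0
  have hq : w ^ 2 - ((Algebra.trace ℤ (𝓞 K) w : ℤ) : 𝓞 K) * w +
      ((Algebra.norm ℤ w : ℤ) : 𝓞 K) = 0 := by
    rw [hN, hT]
    ring
  have hT2 := congrArg (Int.cast : ℤ → 𝓞 K) hT1
  have hN2 := congrArg (Int.cast : ℤ → 𝓞 K) hN1
  push_cast at hT2 hN2
  obtain ⟨ρ, hρ⟩ := rad hK hp hp2 hd hlin
  have hX2 : 2 * X * W = (w - 1) + ((p : ℕ) : 𝓞 K) * (ρ * W - r) := by
    rw [hw]
    linear_combination W * hρ - hW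
  have hY2 : 2 * Y * W = (-w - 1) + ((p : ℕ) : 𝓞 K) * (ρ * W - r) := by
    rw [hw]
    linear_combination W * hρ - hW
  have hZ2 : 2 * Z * W = 2 + ((p : ℕ) : 𝓞 K) * (2 * r) := by
    linear_combination 2 * hW
  obtain ⟨t1, ht1⟩ := pow_cong p (w - 1) (ρ * W - r)
  obtain ⟨t2, ht2⟩ := pow_cong p (-w - 1) (ρ * W - r)
  obtain ⟨t3, ht3⟩ := pow_cong p (2 : 𝓞 K) (2 * r)
  rw [← hX2] at ht1
  rw [← hY2] at ht2
  rw [← hZ2] at ht3
  have hodd : Odd p := hp.odd_of_ne_two hp2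
  have o1 : (w - 1) ^ p = -(1 - w) ^ p := by
    rw [← hodd.neg_pow]
    congr 1
    ring
  have o2 : (-w - 1) ^ p = -(1 + w) ^ p := by
    rw [← hodd.neg_pow]
    congr 1
    ring
  rw [o1] at ht1
  rw [o2] at ht2
  have hfin : (1 + w) ^ p + (1 - w) ^ p = 2 ^ p + ((p : ℕ) : 𝓞 K) ^ 2 * (t1 + t2 + t3) := by
    rw [mul_pow, mul_pow] at ht1 ht2 ht3
    linear_combination ht1 + ht2 + ht3 - 2 ^ p * W ^ p * s.eq
  have hsq : ((k : 𝓞 K) * w) ^ 2 = ((k ^ 2 - 4 * Q : ℤ) : 𝓞 K) +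
      ((p : ℕ) : 𝓞 K) * ((k : 𝓞 K) ^ 2 * T * w - N) := by
    push_cast
    linear_combination (k : 𝓞 K) ^ 2 * hq + (k : 𝓞 K) ^ 2 * w * hT2 - hN2
  have hdv := luc_core k Q w _ _ hsq hfin
  have hdv2 : ((p ^ 2 : ℤ)) ∣ 2 ^ p * (lucV k Q p - k ^ p) := by
    apply int_dvd_of hK
    push_cast at hdv ⊢
    exact hdv
  have hcop : IsCoprime ((p : ℤ) ^ 2) (2 ^ p) := by
    apply IsCoprime.pow
    rw [Int.isCoprime_iff_gcd_eq_one]
    have h3 := (Nat.coprime_primes hp Nat.prime_two).2 hp2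
    exact_mod_cast h3
  exact hcop.dvd_of_dvd_mul_left hdv2

end

end Pool.Agent.U549.FW
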