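import Pool.Agent.U549.FW.Glo

/-!
# The theorem of Furtwängler over number fields
-/

set_option autoImplicit false

namespace Pool.Agent.U549.FW

open NumberField IsDedekindDomain Polynomial Pool.Agent.Y546.WQ Pool.Agent.N840.FC
  Pool.Agent.U549.LF

section

variable {K : Type} [Field K] [NumberField K]

/-- the condition at the primes above `q` for the pair `a`, `b` -/
def Good (p q : ℕ) (a b c : K) : Prop :=
  ∀ v : HeightOneSpectrum (𝓞 K), ((q : ℕ) : 𝓞 K) ∈ v.asIdeal →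
    (v.valuation K c < v.valuation K a → ¬ p ∣ Ideal.absNorm v.asIdeal - 1) ∧
    (EqualAt v a b c → Ideal.absNorm v.asIdeal ≤ 4 ∨
      v.valuation K (a ^ (q + 1) - b ^ (q + 1)) < v.valuation K (b ^ (q + 1)))

theorem hit_share {N : Type} [Field N] [NumberField N] {l p : ℕ} [Fact l.Prime] (hp0 : p ≠ 0)
    (hcard : Nat.card (K →+* N) = Module.finrank ℚ K)
    (Q : Ideal (𝓞 N)) (hQ : Q.IsPrime) (hQl : ((l : ℕ) : 𝓞 N) ∈ Q) {x y z a : K} (ha : a ≠ 0)
    {X Y Z : 𝓞 K} (hX : algebraMap (𝓞 K) K X = a * x) (hY : algebraMap (𝓞 K) K Y = a * y)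
    (hZ : algebraMap (𝓞 K) K Z = a * z) (heq : X ^ p + Y ^ p + Z ^ p = 0)
    (hcp : ∀ P : Ideal (𝓞 K), P.IsPrime → ((l : ℕ) : 𝓞 K) ∈ P → ¬ (X ∈ P ∧ Y ∈ P ∧ Z ∈ P)) :
    (hit (K := K) Q X).card = share l x y z ∧ (miss Q X Y Z).card = evenShare l x y z := by
  have hlm : ∀ (τ : K →+* N) (v : HeightOneSpectrum (𝓞 K)),
      v.asIdeal = Q.comap (RingOfIntegers.mapRingHom τ) → ((l : ℕ) : 𝓞 K) ∈ v.asIdeal := by
    intro τ v hv
    rw [hv, Ideal.mem_comap, map_natCast]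
    exact hQl
  have hm : ∀ (τ : K →+* N) (v : HeightOneSpectrum (𝓞 K)),
      v.asIdeal = Q.comap (RingOfIntegers.mapRingHom τ) → ∀ W : 𝓞 K,
        (RingOfIntegers.mapRingHom τ W ∈ Q ↔ W ∈ v.asIdeal) := by
    intro τ v hv W
    rw [hv]
    rfl
  constructor
  · refine deg_card hcard Q hQ hQl _ _ fun τ v hv => ?_
    rw [mem_hit, hm τ v hv]
    exact (vals hp0 ha hX hY hZ heq hcp v (hlm τ v hv)).1
  · refine deg_card hcard Q hQ hQl _ _ fun τ v hv => ?_
    rw [mem_miss, hm τ v hv, hm τ v hv, hm τ v hv]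
    exact (vals hp0 ha hX hY hZ heq hcp v (hlm τ v hv)).2

/-- the four classes of places -/
theorem part_K {l p : ℕ} (hl : l.Prime) (hp0 : p ≠ 0) {a b c : K} (ha : a ≠ 0) (hb : b ≠ 0)
    (hc : c ≠ 0) (h : a ^ p + b ^ p + c ^ p = 0) :
    evenShare l a b c + share l a b c + share l b c a + share l c a b =
      Module.finrank ℚ K := by
  have hfl : Fact l.Prime := ⟨hl⟩
  have hf3 : Fact (Nat.Prime 3) := ⟨Nat.prime_three⟩
  obtain ⟨E, _, _, ⟨cE⟩⟩ := Y978.WQ.main 3 (by norm_num)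
  obtain ⟨N, _, _, _, hG, hcard, hdvf⟩ := Y258.WQ.exists_field E K
  obtain ⟨α, hα, X, Y, Z, hXa, hYa, hZa, hX0, hY0, hZ0, hcp⟩ := prepM l hl.ne_zero ha hb hc l hl
    (dvd_refl l)
  have hXYZ : X ^ p + Y ^ p + Z ^ p = 0 := by
    apply RingOfIntegers.coe_injective
    rw [map_zero, map_add, map_add, map_pow, map_pow, map_pow, hXa, hYa, hZa, mul_pow, mul_pow,
      mul_pow]
    linear_combination α ^ p * h
  obtain ⟨Q, hQ, hQl⟩ := exists_above (K := N) l hl
  have hlQ : ∀ τ : K →+* N, ((l : ℕ) : 𝓞 K) ∈ Q.comap (RingOfIntegers.mapRingHom τ) := by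
    intro τ
    rw [Ideal.mem_comap, map_natCast]
    exact hQl
  have h1 := part hp0 Q hQ hXYZ fun τ => hcp _ (hQ.comap _) (hlQ τ)
  have h2 := hit_share hp0 hcard Q hQ hQl hα hXa hYa hZa hXYZ hcp
  have h3 := hit_share hp0 hcard Q hQ hQl hα hYa hZa hXa (by linear_combination hXYZ)
    (fun P hP hlP h => hcp P hP hlP ⟨h.2.2, h.1, h.2.1⟩)
  have h4 := hit_share hp0 hcard Q hQ hQl hα hZa hXa hYa (by linear_combination hXYZ)
    (fun P hP hlP h => hcp P hP hlP ⟨h.2.1, h.2.2, h.1⟩)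
  rw [h2.1, h2.2, h3.1, h4.1, hcard] at h1
  exact h1

theorem core_K {N E : Type} [Field N] [NumberField N] [Field E] [NumberField E] [Algebra E N]
    [IsGalois E N] {p : ℕ} [Fact p.Prime] (hcard : Nat.card (K →+* N) = Module.finrank ℚ K)
    (hdvf : Module.finrank E N ∣ (Module.finrank ℚ K).factorial) (hp2 : p ≠ 2) (cE : Cyc p E)
    (hm3 : Module.finrank ℚ K + 3 ≤ p)
    {F : Type} [Field F] [CharP F p] (Q : Ideal (𝓞 N))
    (hQ : Q.IsPrime) (hQp : ((p : ℕ) : 𝓞 N) ∈ Q) (ψ : 𝓞 N →+* F)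
    (hψ : ∀ w : 𝓞 N, ψ w = 0 ↔ w ∈ Q)
    {q : ℕ} [Fact q.Prime] (hqp : q ≠ p) (hW : ¬ p ^ 2 ∣ q ^ (p - 1) - 1)
    (R : Ideal (𝓞 N)) (hR : R.IsPrime) (hRq : ((q : ℕ) : 𝓞 N) ∈ R)
    {α a b c : K} (hα : α ≠ 0) {X Y Z : 𝓞 K} (hXa : algebraMap (𝓞 K) K X = α * a)
    (hYa : algebraMap (𝓞 K) K Y = α * b) (hZa : algebraMap (𝓞 K) K Z = α * c)
    (hs : Mix p K X Y Z)
    (hcq : ∀ P : Ideal (𝓞 K), P.IsPrime → ((q : ℕ) : 𝓞 K) ∈ P → ¬ (X ∈ P ∧ Y ∈ P ∧ Z ∈ P))
    (hgood : Good p q a b c) :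
    ∑ τ ∈ miss Q X Y Z, (ψ (RingOfIntegers.mapRingHom τ X) -
      ψ (RingOfIntegers.mapRingHom τ Y)) / ψ (RingOfIntegers.mapRingHom τ Z) +
      share p a b c - share p b c a = share q a b c - share q b c a := by
  classical
  have hq : q.Prime := Fact.out
  have hp0 : p ≠ 0 := (Fact.out : p.Prime).ne_zero
  have hXYZ := hs.eq
  have hcpp := hs.cp
  have rot : Y ^ p + Z ^ p + X ^ p = 0 := by linear_combination hXYZ
  have rot2 : Z ^ p + X ^ p + Y ^ p = 0 := by linear_combination hXYZ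
  have rc : ∀ {l : ℕ}, (∀ P : Ideal (𝓞 K), P.IsPrime → ((l : ℕ) : 𝓞 K) ∈ P →
      ¬ (X ∈ P ∧ Y ∈ P ∧ Z ∈ P)) → ∀ P : Ideal (𝓞 K), P.IsPrime → ((l : ℕ) : 𝓞 K) ∈ P →
      ¬ (Y ∈ P ∧ Z ∈ P ∧ X ∈ P) := fun h P hP hlP h' => h P hP hlP ⟨h'.2.2, h'.1, h'.2.1⟩
  have rc2 : ∀ {l : ℕ}, (∀ P : Ideal (𝓞 K), P.IsPrime → ((l : ℕ) : 𝓞 K) ∈ P →
      ¬ (X ∈ P ∧ Y ∈ P ∧ Z ∈ P)) → ∀ P : Ideal (𝓞 K), P.IsPrime → ((l : ℕ) : 𝓞 K) ∈ P →
      ¬ (Z ∈ P ∧ X ∈ P ∧ Y ∈ P) := fun h P hP hlP h' => h P hP hlP ⟨h'.2.1, h'.2.2, h'.1⟩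
  have sp := hit_share hp0 hcard Q hQ hQp hα hXa hYa hZa hXYZ hcpp
  have sp2 := hit_share hp0 hcard Q hQ hQp hα hYa hZa hXa rot (rc hcpp)
  have sq := hit_share hp0 hcard R hR hRq hα hXa hYa hZa hXYZ hcq
  have sq2 := hit_share hp0 hcard R hR hRq hα hYa hZa hXa rot (rc hcq)
  have hcore := core hcard hdvf hp2 cE hm3 Q hQ hQp ψ hψ hs hqp hW R hR hRq hcq
    (by
      intro v hv hZv
      exact (hgood v hv).1 ((vals hp0 hα hZa hXa hYa rot2 (rc2 hcq) v hv).1.1 hZv).1)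
    (by
      intro v hv hXv hYv hZv
      have hE := (vals hp0 hα hXa hYa hZa hXYZ hcq v hv).2.1 ⟨hXv, hYv, hZv⟩
      rcases (hgood v hv).2 hE with h4 | h4
      · have hvm : v.asIdeal.IsMaximal := v.isMaximal
        let _ : Field (𝓞 K ⧸ v.asIdeal) := Ideal.Quotient.field v.asIdeal
        have hfin : Finite (𝓞 K ⧸ v.asIdeal) :=
          Ideal.finiteQuotientOfFreeOfNeBot v.asIdeal v.ne_bot
        have hft : Fintype (𝓞 K ⧸ v.asIdeal) := Fintype.ofFinite _
        have hck : Nat.card (𝓞 K ⧸ v.asIdeal) = Ideal.absNorm v.asIdeal := rfl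
        have hnq := absNorm_rd v hv
        have hdvd : Ideal.absNorm v.asIdeal - 1 ∣ q + 1 := by
          have h1 : 1 < Ideal.absNorm v.asIdeal := by
            rw [← hck]
            exact Finite.one_lt_card
          rw [hnq] at h1 h4 ⊢
          have hr0 : rd q v ≠ 0 := by
            intro h0
            rw [h0, pow_zero] at h1
            exact lt_irrefl _ h1
          have hq4 : q ≤ 4 := (Nat.le_self_pow hr0 q).trans h4
          have hq2 := hq.two_le
          have hr2 : rd q v ≤ 2 := by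
            by_contra hcon
            have h5 : 2 ^ 3 ≤ q ^ rd q v :=
              (Nat.pow_le_pow_left hq2 3).trans (Nat.pow_le_pow_right (by omega) (by omega))
            omega
          have hr : rd q v = 1 ∨ rd q v = 2 := by omega
          have hqc : q = 2 ∨ q = 3 ∨ q = 4 := by omega
          have hq4' : q ≠ 4 := by
            rintro rfl
            norm_num at hq
          rcases hr with hr | hr <;> rcases hqc with hqc | hqc | hqc
          · rw [hr, hqc]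
            norm_num
          · rw [hr, hqc]
            norm_num
          · exact absurd hqc hq4'
          · rw [hr, hqc]
            norm_num
          · rw [hr, hqc] at h4
            norm_num at h4
          · exact absurd hqc hq4'
        have key : ∀ W : 𝓞 K, W ∉ v.asIdeal → (Ideal.Quotient.mk v.asIdeal W) ^ (q + 1) = 1 := by
          intro W hW
          obtain ⟨r, hr⟩ := hdvd
          rw [hr, pow_mul, ← hck, Nat.card_eq_fintype_card,
            FiniteField.pow_card_sub_one_eq_one _ (fun h0 => hW (Ideal.Quotient.eq_zero_iff_mem.1 h0)),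
            one_pow]
        rw [← Ideal.Quotient.eq_zero_iff_mem, map_sub, map_pow, map_pow, key X hXv, key Y hYv,
          sub_self]
      · apply (v.valuation_lt_one_iff_mem (K := K) _).1
        have e1 : algebraMap (𝓞 K) K (X ^ (q + 1) - Y ^ (q + 1)) =
            α ^ (q + 1) * (a ^ (q + 1) - b ^ (q + 1)) := by
          rw [map_sub, map_pow, map_pow, hXa, hYa, mul_pow, mul_pow]
          ring
        have e2 : v.valuation K (α ^ (q + 1)) * v.valuation K (b ^ (q + 1)) = 1 := by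
          have j2 : v.valuation K (algebraMap (𝓞 K) K Y) = 1 := val_one v Y hYv
          rw [← map_mul, ← mul_pow, ← hYa, map_pow, j2, one_pow]
        have va2 : v.valuation K (α ^ (q + 1)) ≠ 0 := (Valuation.ne_zero_iff _).2 (pow_ne_zero _ hα)
        change v.valuation K (algebraMap (𝓞 K) K (X ^ (q + 1) - Y ^ (q + 1))) < 1
        rw [e1, map_mul, ← e2]
        exact (mul_lt_mul_iff_right₀ (zero_lt_iff.2 va2)).2 h4)
  rw [sp.1, sp2.1, sq.1, sq2.1] at hcore
  exact hcore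

theorem main_pair {p : ℕ} (hp : p.Prime) {a b c : K} (ha : a ≠ 0) (hb : b ≠ 0) (hc : c ≠ 0)
    (h : a ^ p + b ^ p + c ^ p = 0) (hm3 : Module.finrank ℚ K + 3 ≤ p) {q : ℕ} (hq : q.Prime)
    (hqp : q ≠ p) (hW : ¬ p ^ 2 ∣ q ^ (p - 1) - 1) (hgood : Good p q a b c) :
    (∀ w : 𝓞 K, (∀ v : HeightOneSpectrum (𝓞 K), ((p : ℕ) : 𝓞 K) ∈ v.asIdeal →
      (EqualAt v a b c → v.valuation K ((w : K) * c - (a - b)) < v.valuation K c) ∧
      (¬ EqualAt v a b c → w ∈ v.asIdeal)) →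
      ((Algebra.trace ℤ (𝓞 K) w : ℤ) : ZMod p) + share p a b c - share p b c a =
        share q a b c - share q b c a) ∧
    (∀ t : ℕ, (t = Module.finrank ℚ K ∨ evenShare p a b c ≤ t) → BernS p (Module.finrank ℚ K) t →
      2 * Module.finrank ℚ K < p →
      share q a b c + share p b c a = share q b c a + share p a b c) := by
  classical
  have hfp : Fact p.Prime := ⟨hp⟩
  have hfq : Fact q.Prime := ⟨hq⟩
  have hm := Module.finrank_pos (R := ℚ) (M := K)
  have hp4 : p ≠ 4 := by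
    rintro rfl
    norm_num at hp
  have hp5 : 5 ≤ p := by omega
  have hp2 : p ≠ 2 := by omega
  have hp0 : p ≠ 0 := hp.ne_zero
  obtain ⟨E, _, _, ⟨cE⟩⟩ := Y978.WQ.main p hp2
  obtain ⟨N, _, _, _, hG, hcard, hdvf⟩ := Y258.WQ.exists_field E K
  obtain ⟨α, hα, X, Y, Z, hXa, hYa, hZa, hX0, hY0, hZ0, hcp⟩ := prepM (p * q)
    (mul_ne_zero hp.ne_zero hq.ne_zero) ha hb hc p hp (dvd_mul_right p q)
  have hXYZ : X ^ p + Y ^ p + Z ^ p = 0 := by
    apply RingOfIntegers.coe_injective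
    rw [map_zero, map_add, map_add, map_pow, map_pow, map_pow, hXa, hYa, hZa, mul_pow, mul_pow,
      mul_pow]
    linear_combination α ^ p * h
  have hcpp : ∀ P : Ideal (𝓞 K), P.IsPrime → ((p : ℕ) : 𝓞 K) ∈ P → ¬ (X ∈ P ∧ Y ∈ P ∧ Z ∈ P) := by
    intro P hP hpP
    refine hcp P hP ?_
    rw [Nat.cast_mul]
    exact P.mul_mem_right _ hpP
  have hcq : ∀ P : Ideal (𝓞 K), P.IsPrime → ((q : ℕ) : 𝓞 K) ∈ P → ¬ (X ∈ P ∧ Y ∈ P ∧ Z ∈ P) := by
    intro P hP hpP
    refine hcp P hP ?_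
    rw [Nat.cast_mul]
    exact P.mul_mem_left _ hpP
  have hs : Mix p K X Y Z := ⟨hX0, hY0, hZ0, hXYZ, hcpp⟩
  obtain ⟨Q, hQ, hQp⟩ := exists_above (K := N) p hp
  obtain ⟨R, hR, hRq⟩ := exists_above (K := N) q hq
  have hQ0 : Q ≠ ⊥ := by
    rintro rfl
    rw [Ideal.mem_bot, Nat.cast_eq_zero] at hQp
    exact hp.ne_zero hQp
  have hQm : Q.IsMaximal := hQ.isMaximal hQ0
  let _ : Field (𝓞 N ⧸ Q) := Ideal.Quotient.field Q
  have hch : CharP (𝓞 N ⧸ Q) p := charP_quot Q hQ p hp hQp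
  let F := AlgebraicClosure (𝓞 N ⧸ Q)
  have hchF : CharP F p := charP_of_injective_algebraMap (algebraMap (𝓞 N ⧸ Q) F).injective p
  let ψ : 𝓞 N →+* F := (algebraMap (𝓞 N ⧸ Q) F).comp (Ideal.Quotient.mk Q)
  have hψ : ∀ w : 𝓞 N, ψ w = 0 ↔ w ∈ Q := by
    intro w
    constructor
    · intro h
      have h1 : algebraMap (𝓞 N ⧸ Q) F (Ideal.Quotient.mk Q w) = 0 := h
      rw [map_eq_zero_iff _ (algebraMap (𝓞 N ⧸ Q) F).injective] at h1
      exact Ideal.Quotient.eq_zero_iff_mem.1 h1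
    · intro h
      show algebraMap (𝓞 N ⧸ Q) F (Ideal.Quotient.mk Q w) = 0
      rw [Ideal.Quotient.eq_zero_iff_mem.2 h, map_zero]
  have sp := hit_share hp0 hcard Q hQ hQp hα hXa hYa hZa hXYZ hcpp
  have hcore := core_K hcard hdvf hp2 cE hm3 Q hQ hQp ψ hψ hqp hW R hR hRq hα hXa hYa hZa hs hcq
    hgood
  -- the places
  have hplace : ∀ τ : K →+* N, ∃ v : HeightOneSpectrum (𝓞 K),
      v.asIdeal = Q.comap (RingOfIntegers.mapRingHom τ) ∧ ((p : ℕ) : 𝓞 K) ∈ v.asIdeal ∧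
      ∀ W : 𝓞 K, (ψ (RingOfIntegers.mapRingHom τ W) = 0 ↔ W ∈ v.asIdeal) := by
    intro τ
    have h1 : ((p : ℕ) : 𝓞 K) ∈ Q.comap (RingOfIntegers.mapRingHom τ) := by
      rw [Ideal.mem_comap, map_natCast]
      exact hQp
    have h0 : Q.comap (RingOfIntegers.mapRingHom τ) ≠ ⊥ := by
      intro h0
      rw [h0, Ideal.mem_bot, Nat.cast_eq_zero] at h1
      exact hp.ne_zero h1
    refine ⟨⟨_, hQ.comap _, h0⟩, rfl, h1, fun W => ?_⟩
    rw [hψ]
    rfl
  constructor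
  · intro w hw
    have hsum : ∑ τ ∈ miss Q X Y Z, (ψ (RingOfIntegers.mapRingHom τ X) -
        ψ (RingOfIntegers.mapRingHom τ Y)) / ψ (RingOfIntegers.mapRingHom τ Z) =
        ((Algebra.trace ℤ (𝓞 K) w : ℤ) : F) := by
      have e1 : ((Algebra.trace ℤ (𝓞 K) w : ℤ) : F) =
          ∑ τ : K →+* N, ψ (RingOfIntegers.mapRingHom τ w) := by
        rw [← map_sum, sum_eq_trace hcard w, map_intCast]
      rw [e1]
      symm
      rw [← Finset.sum_subset (Finset.subset_univ (miss Q X Y Z))]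
      · refine Finset.sum_congr rfl fun τ hτ => ?_
        obtain ⟨v, hv, hpv, hv0⟩ := hplace τ
        rw [mem_miss] at hτ
        have hin : ∀ W : 𝓞 K, RingOfIntegers.mapRingHom τ W ∉ Q → W ∉ v.asIdeal := by
          intro W hW hW'
          rw [hv] at hW'
          exact hW hW'
        have hE := (vals hp0 hα hXa hYa hZa hXYZ hcpp v hpv).2.1
          ⟨hin _ hτ.1, hin _ hτ.2.1, hin _ hτ.2.2⟩
        have h1 := (hw v hpv).1 hE
        have j3 : v.valuation K (algebraMap (𝓞 K) K Z) = 1 := val_one v Z (hin _ hτ.2.2)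
        have vα : v.valuation K α ≠ 0 := (Valuation.ne_zero_iff _).2 hα
        have h2 : w * Z - (X - Y) ∈ v.asIdeal := by
          apply (v.valuation_lt_one_iff_mem (K := K) _).1
          have e2 : algebraMap (𝓞 K) K (w * Z - (X - Y)) = α * ((w : K) * c - (a - b)) := by
            rw [map_sub, map_mul, map_sub, hXa, hYa, hZa]
            ring
          change v.valuation K (algebraMap (𝓞 K) K (w * Z - (X - Y))) < 1
          rw [e2, map_mul, ← j3, hZa, map_mul]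
          exact (mul_lt_mul_iff_right₀ (zero_lt_iff.2 vα)).2 h1
        rw [← hv0, map_sub, map_sub, map_mul, map_mul, map_sub, map_sub] at h2
        have hz : ψ (RingOfIntegers.mapRingHom τ Z) ≠ 0 := fun h0 => hτ.2.2 ((hψ _).1 h0)
        rw [eq_div_iff hz]
        exact sub_eq_zero.1 h2
      · intro τ _ hτ
        obtain ⟨v, hv, hpv, hv0⟩ := hplace τ
        rw [hv0]
        refine (hw v hpv).2 fun hE => hτ ?_
        have h1 := (vals hp0 hα hXa hYa hZa hXYZ hcpp v hpv).2.2 hE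
        rw [mem_miss]
        rw [hv] at h1
        exact h1
    rw [hsum] at hcore
    apply (ZMod.castHom (dvd_refl p) F).injective
    simp only [map_add, map_sub, map_natCast, map_intCast]
    exact hcore
  · intro t ht hreg h2m
    have natF : ∀ n : ℕ, 0 < n → n < p → (n : F) ≠ 0 := by
      intro n hn hnp
      rw [Ne, CharP.cast_eq_zero_iff F p]
      intro hd
      have := Nat.le_of_dvd hn hd
      omega
    have h2F : (2 : F) ≠ 0 := by exact_mod_cast natF 2 (by norm_num) (by omega)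
    have hregD : BernS p (Module.finrank ℚ K) (miss (K := K) Q X Y Z).card := by
      apply hreg.mono
      rcases ht with ht | ht
      · rw [ht, ← hcard, Nat.card_eq_fintype_card, ← Finset.card_univ]
        exact Finset.card_le_univ _
      · rw [sp.2]
        exact ht
    have hD : ∀ τ : K →+* N, τ ∈ miss Q X Y Z ↔
        (ψ (RingOfIntegers.mapRingHom τ X) ≠ 0 ∧ ψ (RingOfIntegers.mapRingHom τ Y) ≠ 0 ∧
          ψ (RingOfIntegers.mapRingHom τ Z) ≠ 0) := by
      intro τ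
      rw [mem_miss, Ne, Ne, Ne, hψ, hψ, hψ]
    obtain ⟨D, hDD⟩ : ∃ D : Finset (K →+* N), D = miss Q X Y Z := ⟨_, rfl⟩
    rw [← hDD] at hregD hD hcore
    have hz := sum_zero h2F (fun τ : D => ψ (RingOfIntegers.mapRingHom τ.1 X))
      (fun τ : D => ψ (RingOfIntegers.mapRingHom τ.1 Y))
      (fun τ : D => ψ (RingOfIntegers.mapRingHom τ.1 Z))
      (fun τ => ((hD _).1 τ.2).1) (fun τ => ((hD _).1 τ.2).2.1) (fun τ => ((hD _).1 τ.2).2.2)
      (fun τ => by
        obtain ⟨v, hv, hpv, hv0⟩ := hplace τ.1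
        rw [← map_add, ← map_add, ← map_add, ← map_add, hv0]
        exact lin_p hp v.asIdeal v.isPrime hpv hXYZ)
      (fun t ht => by
        rw [Finset.prod_coe_sort D (fun τ => ψ (RingOfIntegers.mapRingHom τ X) +
          t * ψ (RingOfIntegers.mapRingHom τ Y)),
          Finset.prod_coe_sort D (fun τ => ψ (RingOfIntegers.mapRingHom τ Y) +
          t * ψ (RingOfIntegers.mapRingHom τ X))]
        exact pal_prod hcard hdvf hp2 cE Q hQ hQp ψ hψ hs D hD hregD t ht)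
    rw [Finset.sum_coe_sort D (fun τ => (ψ (RingOfIntegers.mapRingHom τ X) -
      ψ (RingOfIntegers.mapRingHom τ Y)) / ψ (RingOfIntegers.mapRingHom τ Z))] at hz
    rw [hz, zero_add] at hcore
    have kp := part_K (K := K) hp hp0 ha hb hc h
    have kq := part_K (K := K) hq hp0 ha hb hc h
    have h3 : ((share q a b c + share p b c a : ℕ) : F) = ((share q b c a + share p a b c : ℕ) : F) := by
      push_cast
      linear_combination -hcore
    rw [CharP.natCast_eq_natCast F p] at h3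
    have h4 : (share q a b c + share p b c a) % p = (share q b c a + share p a b c) % p := h3
    rw [Nat.mod_eq_of_lt (by omega), Nat.mod_eq_of_lt (by omega)] at h4
    exact h4

end

end Pool.Agent.U549.FW
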