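import Pool.Agent.U549.FW.Two

/-!
# Quadratic fields
-/

set_option autoImplicit false

namespace Pool.Agent.U549.FW

open NumberField IsDedekindDomain Polynomial Pool.Agent.Y546.WQ Pool.Agent.N840.FC
  Pool.Agent.U549.LF

section

variable {K : Type} [Field K] [NumberField K]

theorem good_small {p q : ℕ} (hp5 : 5 ≤ p) (a b c : K)
    (hN : ∀ v : HeightOneSpectrum (𝓞 K), ((q : ℕ) : 𝓞 K) ∈ v.asIdeal →
      Ideal.absNorm v.asIdeal ≤ 4) : Good p q a b c := by
  intro v hv
  have h4 := hN v hv
  refine ⟨fun _ hd => ?_, fun _ => Or.inl h4⟩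
  have hvm : v.asIdeal.IsMaximal := v.isMaximal
  have hfin : Finite (𝓞 K ⧸ v.asIdeal) :=
    Ideal.finiteQuotientOfFreeOfNeBot v.asIdeal v.ne_bot
  have hnt : Nontrivial (𝓞 K ⧸ v.asIdeal) := Ideal.Quotient.nontrivial_iff.2 v.isPrime.ne_top
  have hck : Nat.card (𝓞 K ⧸ v.asIdeal) = Ideal.absNorm v.asIdeal := rfl
  have h1 : 1 < Ideal.absNorm v.asIdeal := by
    rw [← hck]
    exact Finite.one_lt_card
  have := Nat.le_of_dvd (by omega) hd
  omega

theorem ld_le {l : ℕ} (hl : l.Prime) (v : HeightOneSpectrum (𝓞 K))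
    (hv : ((l : ℕ) : 𝓞 K) ∈ v.asIdeal) : ld l v ≤ Module.finrank ℚ K := by
  classical
  have hfl : Fact l.Prime := ⟨hl⟩
  have hf3 : Fact (Nat.Prime 3) := ⟨Nat.prime_three⟩
  obtain ⟨E, _, _, ⟨cE⟩⟩ := Y978.WQ.main 3 (by norm_num)
  obtain ⟨N, _, _, _, hG, hcard, hdvf⟩ := Y258.WQ.exists_field E K
  obtain ⟨Q, hQ, hQl⟩ := exists_above (K := N) l hl
  rw [← emb_card hcard Q hQ hQl v hv, ← hcard, Nat.card_eq_fintype_card, ← Finset.card_univ]
  exact Finset.card_le_univ _

theorem rd_le {l : ℕ} (hl : l.Prime) (v : HeightOneSpectrum (𝓞 K))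
    (hv : ((l : ℕ) : 𝓞 K) ∈ v.asIdeal) : rd l v ≤ ld l v := by
  have hfl : Fact l.Prime := ⟨hl⟩
  have h1 := ld_pos v hv
  unfold ld at h1 ⊢
  exact Nat.le_mul_of_pos_left _ (Nat.pos_of_mul_pos_right h1)

theorem quad_two (hK : Module.finrank ℚ K = 2) (v : HeightOneSpectrum (𝓞 K))
    (hv : ((2 : ℕ) : 𝓞 K) ∈ v.asIdeal) : Ideal.absNorm v.asIdeal ≤ 4 := by
  have hf2 : Fact (Nat.Prime 2) := ⟨Nat.prime_two⟩
  have h1 := ld_le Nat.prime_two v hv
  have h2 := rd_le Nat.prime_two v hv
  rw [absNorm_rd v hv]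
  calc 2 ^ rd 2 v ≤ 2 ^ 2 := Nat.pow_le_pow_right (by norm_num) (by omega)
    _ = 4 := by norm_num

/-- the theorem of Furtwängler over quadratic fields -/
theorem quad_furt (hK : Module.finrank ℚ K = 2) {p : ℕ} (hp : p.Prime) (h5 : 5 ≤ p) {a b c : K}
    (ha : a ≠ 0) (hb : b ≠ 0) (hc : c ≠ 0) (h : a ^ p + b ^ p + c ^ p = 0) {q : ℕ}
    (hq : q.Prime) (hqp : q ≠ p) (hW : ¬ p ^ 2 ∣ q ^ (p - 1) - 1) (hdiv : Full q a b c) :
    Full p a b c := by
  classical
  have hp0 := hp.ne_zero
  have k1 := part_K (K := K) hp hp0 ha hb hc h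
  have k2 := part_K (K := K) hq hp0 ha hb hc h
  have k3 := (full_iff hq hp0 ha hb hc h).2 hdiv
  rw [hK] at k1 k2 k3
  have hs : evenShare p a b c = 0 ∨ evenShare p a b c = 1 ∨ evenShare p a b c = 2 := by omega
  rcases hs with hs | hs
  · refine furt hp ha hb hc h 0 (Or.inr hs.le) (Or.inr ?_) (by omega) hq hqp hW hdiv
    rw [zero_mul, zero_add, add_zero, hK]
    omega
  obtain ⟨F, _, hch, ι, _, x, y, z, hcard, hne, r1, r2, r3⟩ := main_pack hp ha hb hc h
    (by omega) hq hqp hW
  have r1 := r1 (full_good hdiv)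
  have r3 := r3 (full_good2 hp0 h hdiv)
  have natF : ∀ n : ℕ, ¬ p ∣ n → (n : F) ≠ 0 := by
    intro n hn h0
    rw [CharP.cast_eq_zero_iff F p] at h0
    exact hn h0
  have hlt : ∀ n : ℕ, 0 < n → n < p → ¬ p ∣ n := by
    intro n hn hnp hd
    have := Nat.le_of_dvd hn hd
    omega
  have n2 : (2 : F) ≠ 0 := by exact_mod_cast natF 2 (hlt 2 (by norm_num) (by omega))
  have n4 : (4 : F) ≠ 0 := by exact_mod_cast natF 4 (hlt 4 (by norm_num) (by omega))
  have n8 : (8 : F) ≠ 0 := by
    have e : (8 : F) = 2 * 4 := by norm_num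
    rw [e]
    exact mul_ne_zero n2 n4
  have qb : share q b c a = 0 := by omega
  have qc : share q c a b = 0 := by omega
  rw [k3, qb] at r1
  rw [k3, qc] at r3
  push_cast at r1 r3
  exfalso
  rcases hs with hs | hs
  · -- a single place
    rw [hs] at hcard
    obtain ⟨i, hi⟩ := Fintype.card_eq_one_iff.1 hcard
    have hu : (Finset.univ : Finset ι) = {i} := by
      ext j
      simp [hi j]
    rw [hu, Finset.sum_singleton] at r1 r3
    obtain ⟨hx, hy, hz, hsum⟩ := hne i
    have e1 : (x i - y i) = (2 - share p a b c + share p b c a) * z i := by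
      rw [← div_eq_iff hz]
      linear_combination r1
    have e3 : (z i - x i) = (-2 - share p c a b + share p a b c) * y i := by
      rw [← div_eq_iff hy]
      linear_combination r3
    have hc3 : (share p a b c = 1 ∧ share p b c a = 0 ∧ share p c a b = 0) ∨
        (share p a b c = 0 ∧ share p b c a = 1 ∧ share p c a b = 0) ∨
        (share p a b c = 0 ∧ share p b c a = 0 ∧ share p c a b = 1) := by omega
    have hyz : y i * z i ≠ 0 := mul_ne_zero hy hz
    rcases hc3 with ⟨u1, u2, u3⟩ | ⟨u1, u2, u3⟩ | ⟨u1, u2, u3⟩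
    · rw [u1, u2] at e1
      push_cast at e1
      apply hx
      have h6 : (2 : F) * x i = 0 := by linear_combination e1 + hsum
      exact (mul_eq_zero.1 h6).resolve_left n2
    · rw [u1, u2] at e1
      rw [u1, u3] at e3
      push_cast at e1 e3
      -- x - y = 3 z, z - x = -2 y
      have h6 : (8 : F) * (y i * z i) = 0 := by
        have f1 : -2 * y i = 4 * z i := by linear_combination e1 - hsum
        have f2 : 2 * z i = -3 * y i := by linear_combination e3 + hsum
        linear_combination (2 * z i) * f1 + 4 * z i * f2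
      exact mul_ne_zero n8 hyz h6
    · rw [u1, u2] at e1
      rw [u1, u3] at e3
      push_cast at e1 e3
      have h6 : (8 : F) * (y i * z i) = 0 := by
        have f1 : -2 * y i = 3 * z i := by linear_combination e1 - hsum
        have f2 : 2 * z i = -4 * y i := by linear_combination e3 + hsum
        linear_combination (2 * z i) * f1 + 3 * z i * f2
      exact mul_ne_zero n8 hyz h6
  · -- two embeddings
    have u1 : share p a b c = 0 := by omega
    have u2 : share p b c a = 0 := by omega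
    have u3 : share p c a b = 0 := by omega
    rw [u1, u2] at r1
    rw [u1, u3] at r3
    push_cast at r1 r3
    rw [hs] at hcard
    have hcu : (Finset.univ : Finset ι).card = 2 := by rw [Finset.card_univ, hcard]
    obtain ⟨i, j, hij, hu⟩ := Finset.card_eq_two.1 hcu
    rw [hu, Finset.sum_pair hij] at r1 r3
    obtain ⟨hx, hy, hz, hsum⟩ := hne i
    obtain ⟨hx', hy', hz', hsum'⟩ := hne j
    have red : ∀ l : ι, ∃ u w : F, y l = u * z l ∧ u * w = 1 ∧
        (x l - y l) / z l = -1 - 2 * u ∧ (z l - x l) / y l = 1 + 2 * w := by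
      intro l
      obtain ⟨hx, hy, hz, hsum⟩ := hne l
      refine ⟨y l / z l, z l / y l, ?_, ?_, ?_, ?_⟩
      · rw [div_mul_cancel₀ _ hz]
      · rw [div_mul_div_comm, mul_comm (z l) (y l), div_self (mul_ne_zero hy hz)]
      · rw [div_eq_iff hz]
        have e : y l / z l * z l = y l := div_mul_cancel₀ _ hz
        linear_combination hsum + 2 * e
      · rw [div_eq_iff hy]
        have e : z l / y l * y l = z l := div_mul_cancel₀ _ hy
        linear_combination -hsum - 2 * e
    obtain ⟨u, w, b1, b2, b3, b4⟩ := red i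
    obtain ⟨u', w', c1, c2, c3, c4⟩ := red j
    rw [b3, c3] at r1
    rw [b4, c4] at r3
    have f1 : u + u' = -2 := by
      apply mul_left_cancel₀ n2
      linear_combination -r1
    have f2 : w + w' = -2 := by
      apply mul_left_cancel₀ n2
      linear_combination r3
    have f3 : (u + 1) * (u + 1) = 0 := by
      have e1 : u + u' = (w + w') * (u * u') := by linear_combination (-u') * b2 - u * c2
      rw [f1, f2] at e1
      have e2 : u * u' = 1 := by
        apply mul_left_cancel₀ n2
        linear_combination e1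
      linear_combination u * f1 - e2
    have f4 : u + 1 = 0 := mul_self_eq_zero.1 f3
    apply hx
    linear_combination hsum - b1 - z i * f4

/-- the comparison of the divisors above `p` and above `q` of a solution over a quadratic field -/
theorem quad_dich (hK : Module.finrank ℚ K = 2) {p : ℕ} (hp : p.Prime) (h5 : 5 ≤ p) {a b c : K}
    (ha : a ≠ 0) (hb : b ≠ 0) (hc : c ≠ 0) (h : a ^ p + b ^ p + c ^ p = 0) {q : ℕ}
    (hq : q.Prime) (hqp : q ≠ p) (hW : ¬ p ^ 2 ∣ q ^ (p - 1) - 1) (g1 : Good p q a b c)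
    (g2 : Good p q b c a) (g3 : Good p q c a b) :
    evenShare p a b c = 2 ∨ (evenShare p a b c = 0 ∧ evenShare q a b c = 0 ∧
      share q a b c = share p a b c ∧ share q b c a = share p b c a ∧
      share q c a b = share p c a b) := by
  have hp0 := hp.ne_zero
  have k1 := part_K (K := K) hp hp0 ha hb hc h
  have k2 := part_K (K := K) hq hp0 ha hb hc h
  rw [hK] at k1 k2
  have hs : evenShare p a b c = 0 ∨ evenShare p a b c = 1 ∨ evenShare p a b c = 2 := by omega
  rcases hs with hs | hs | hs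
  · right
    obtain ⟨h1, h2, h3⟩ := three hp ha hb hc h 0 (Or.inr hs.le) (Or.inr (by
      rw [zero_mul, zero_add, add_zero, hK]
      omega)) (by omega) hq hqp hW g1 g2
    omega
  · exfalso
    have hs1 := single hp ha hb hc h (by omega) hq hqp hW g1 g2 g3 hs
    have hp6 : p ≠ 6 := by
      rintro rfl
      norm_num at hp
    have hp57 : p = 5 ∨ 7 ≤ p := by omega
    rcases hp57 with hp5 | hp7
    · have aux : ∀ pa pb pc qa qb qc sq : ℕ, 1 + pa + pb + pc = 2 → sq + qa + qb + qc = 2 →
          (qa + pb) % 5 = (qb + pa) % 5 → (qb + pc) % 5 = (qc + pb + 3) % 5 → False := by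
        intro pa pb pc qa qb qc sq e1 e2 e3 e4
        have d1 : pa ≤ 1 := by omega
        have d2 : pb ≤ 1 := by omega
        have d3 : qa ≤ 2 := by omega
        have d4 : qb ≤ 2 := by omega
        have d5 : qc ≤ 2 := by omega
        interval_cases pa <;> interval_cases pb <;> interval_cases qa <;> interval_cases qb <;>
          interval_cases qc <;> omega
      rw [hp5] at hs1 hs k1
      rw [hs] at k1
      rcases hs1 with ⟨h1, h2⟩ | ⟨h1, h2⟩ | ⟨h1, h2⟩
      · exact aux _ _ _ _ _ _ _ k1 k2 h1 h2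
      · exact aux (share 5 b c a) (share 5 c a b) (share 5 a b c) (share q b c a) (share q c a b)
          (share q a b c) (evenShare q a b c) (by omega) (by omega) h1 h2
      · exact aux (share 5 c a b) (share 5 a b c) (share 5 b c a) (share q c a b) (share q a b c)
          (share q b c a) (evenShare q a b c) (by omega) (by omega) h1 h2
    · rcases hs1 with ⟨h1, h2⟩ | ⟨h1, h2⟩ | ⟨h1, h2⟩
      all_goals
        rw [Nat.mod_eq_of_lt (by omega), Nat.mod_eq_of_lt (by omega)] at h1 h2
        omega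
  · exact Or.inl hs

end

end Pool.Agent.U549.FW
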