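import Pool.Agent.U549.LF.Rel

/-!
# The Stickelberger relations modulo a prime above `q`
-/

set_option autoImplicit false

namespace Pool.Agent.U549.FW

open NumberField IsDedekindDomain Polynomial Pool.Agent.Y546.WQ

/-- the value of a polynomial and of its reflection in characteristic `q` -/
theorem refl_val {q : ℕ} [Fact q.Prime] {F : Type} [Field F] [CharP F q] (f : ℤ[X]) (m a a' : ℕ)
    (hf : f.natDegree ≤ m) (ε : ZMod q)
    (h : X ^ a' * f.map (Int.castRingHom (ZMod q)) =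
      C ε * (X ^ a * (f.reflect m).map (Int.castRingHom (ZMod q)))) (y : F) (hy : y ≠ 0) :
    y ^ a' * f.eval₂ (Int.castRingHom F) y =
      ZMod.castHom (dvd_refl q) F ε * (y ^ (a + m) * f.eval₂ (Int.castRingHom F) y⁻¹) := by
  let ι : ZMod q →+* F := ZMod.castHom (dvd_refl q) F
  have h1 : ∀ r : ℤ[X], (r.map (Int.castRingHom (ZMod q))).eval₂ ι y =
      r.eval₂ (Int.castRingHom F) y := by
    intro r
    rw [Polynomial.eval₂_map]
    congr 1
    exact RingHom.ext_int _ _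
  have h3 := congrArg (Polynomial.eval₂ ι y) h
  rw [Polynomial.eval₂_mul, Polynomial.eval₂_mul, Polynomial.eval₂_mul,
    Polynomial.eval₂_X_pow, Polynomial.eval₂_X_pow, Polynomial.eval₂_C, h1, h1] at h3
  rw [h3]
  let _ : Invertible y⁻¹ := invertibleOfNonzero (inv_ne_zero hy)
  have h4 := Polynomial.eval₂_reflect_mul_pow (Int.castRingHom F) y⁻¹ m f hf
  rw [invOf_eq_inv, inv_inv] at h4
  rw [← h4, pow_add, inv_pow]
  have h5 : y ^ m ≠ 0 := pow_ne_zero _ hy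
  field_simp
  exact mul_comm _ _

/-- a power of a root of unity which is a `p`-th power -/
theorem pth {p : ℕ} [Fact p.Prime] {F : Type} [Field F] {w : F} (hw : w ^ p = 1) (hw1 : w ≠ 1)
    {N : ℕ} (hN : 0 < N) (hF : ∀ x : F, x ^ N = x) (e : ℕ) {v : F} (hv : v ≠ 0)
    (h : w ^ e = v ^ p) : p ∣ e ∨ p ^ 2 ∣ N - 1 := by
  have hpp : p.Prime := Fact.out
  by_cases hpe : p ∣ e
  · exact Or.inl hpe
  right
  have hc : Nat.Coprime e p := (Nat.coprime_comm.1 ((Nat.Prime.coprime_iff_not_dvd hpp).2 hpe))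
  obtain ⟨e', he'⟩ := Nat.exists_mul_mod_eq_one_of_coprime hc hpp.one_lt
  have h1 : w = (v ^ e') ^ p := by
    have e1 : w ^ (e * e') = w := by
      rw [pow_eq_pow_mod _ hw, he'.2, pow_one]
    rw [← e1, pow_mul, h, ← pow_mul, ← pow_mul, mul_comm]
  obtain ⟨u, hu⟩ : ∃ u, u = v ^ e' := ⟨_, rfl⟩
  rw [← hu] at h1
  have hu0 : u ≠ 0 := by
    rw [hu]
    exact pow_ne_zero _ hv
  have h2 : orderOf u = p ^ (1 + 1) := by
    apply orderOf_eq_prime_pow
    · rw [pow_one, ← h1]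
      exact hw1
    · rw [pow_succ, pow_one, pow_mul, ← h1, hw]
  have h3 : u ^ (N - 1) = 1 := by
    have e1 := hF u
    have e2 : u ^ (N - 1) * u = 1 * u := by
      rw [← pow_succ, Nat.sub_add_cancel hN, e1, one_mul]
    exact mul_right_cancel₀ hu0 e2
  have h4 := orderOf_dvd_of_pow_eq_one h3
  rwa [h2] at h4

section

variable {p q : ℕ} [Fact p.Prime] [Fact q.Prime] {E : Type} [Field E] [NumberField E]

theorem zO_ne {F : Type} [Field F] (c : Cyc p E) (zO : 𝓞 E) (hz : (zO : E) = c.z)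
    (ψ : 𝓞 E →+* F) : ψ zO ≠ 0 ∧ zO ^ p = 1 := by
  have hpp : p.Prime := Fact.out
  have hzp : zO ^ p = 1 := by
    apply RingOfIntegers.coe_injective
    show (algebraMap (𝓞 E) E) _ = (algebraMap (𝓞 E) E) _
    have e2 : (algebraMap (𝓞 E) E) zO = c.z := hz
    rw [map_pow, map_one, e2, c.prim.pow_eq_one]
  refine ⟨fun h => ?_, hzp⟩
  have h1 := congrArg ψ hzp
  rw [map_pow, h, zero_pow hpp.ne_zero, map_one] at h1
  exact zero_ne_one h1

theorem hae (c : Cyc p E) (zO : 𝓞 E) (hz : (zO : E) = c.z) (f : ℤ[X]) (k : ℕ) :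
    algebraMap (𝓞 E) E (aeval (zO ^ k) f) = aeval (c.z ^ k) f := by
  rw [← Polynomial.aeval_algebraMap_apply, map_pow]
  rw [show algebraMap (𝓞 E) E zO = c.z from hz]

theorem hsig (c : Cyc p E) (f : ℤ[X]) (t : (ZMod p)ˣ) :
    c.σ t (aeval c.z f) = aeval (c.z ^ (t : ZMod p).val) f := by
  have e1 := Polynomial.map_aeval_eq_aeval_map (φ := Int.castRingHom ℤ)
    (ψ := ((c.σ t : E ≃ₐ[ℚ] E) : E →+* E)) (RingHom.ext_int _ _) f c.z
  rw [show (Int.castRingHom ℤ) = RingHom.id ℤ from rfl, Polynomial.map_id] at e1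
  rw [← c.σ_z t]
  exact e1

theorem rs_aeval (c : Cyc p E) (zO : 𝓞 E) (hz : (zO : E) = c.z) (f : ℤ[X]) (t : (ZMod p)ˣ) :
    rs c t (aeval zO f) = aeval (zO ^ (t : ZMod p).val) f := by
  apply RingOfIntegers.coe_injective
  have e2 : ((rs c t (aeval zO f) : 𝓞 E) : E) = c.σ t ((aeval zO f : 𝓞 E) : E) := rfl
  refine e2.trans ?_
  have e3 := hae c zO hz f 1
  rw [pow_one, pow_one] at e3
  have e4 : ((aeval zO f : 𝓞 E) : E) = aeval c.z f := e3
  rw [e4, hsig]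
  exact (hae c zO hz f _).symm

/-- the relation in a quotient field of characteristic `q` -/
theorem rel_F (c : Cyc p E) (b : ℕ) (f : ℤ[X]) (n : ℤ) (hn : ¬ (q : ℤ) ∣ n)
    (hP : ∀ P : Ideal (𝓞 E), P.IsPrime → ((q : ℕ) : 𝓞 E) ∈ P →
      ∀ w : 𝓞 E, (w : E) = aeval c.z f → w ∉ P)
    (g : E) (i : ℕ) (hrel : tha c b (aeval c.z f / (n : E)) = c.z ^ i * g ^ p)
    (zO : 𝓞 E) (hz : (zO : E) = c.z) {F : Type} [Field F] [CharP F q] (ψ : 𝓞 E →+* F) :
    ∃ d : F, d ≠ 0 ∧ ∏ t ∈ hf p b, f.eval₂ (Int.castRingHom F)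
      (ψ zO ^ ((t⁻¹ : (ZMod p)ˣ) : ZMod p).val) =
        (n : F) ^ (hf p b).card * (ψ zO ^ i * d ^ p) := by
  have hpp : p.Prime := Fact.out
  have hqq : q.Prime := Fact.out
  have hp0 : p ≠ 0 := hpp.ne_zero
  obtain ⟨hw0, hzp⟩ := zO_ne c zO hz ψ
  have hqF : ψ ((q : ℕ) : 𝓞 E) = 0 := by
    rw [map_natCast]
    exact CharP.cast_eq_zero F q
  have h2k : ((q : ℕ) : 𝓞 E) ∈ RingHom.ker ψ := hqF
  have hkb : RingHom.ker ψ ≠ ⊥ := by
    intro h
    rw [h, Ideal.mem_bot, Nat.cast_eq_zero] at h2k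
    exact hqq.ne_zero h2k
  let v : HeightOneSpectrum (𝓞 E) := ⟨RingHom.ker ψ, RingHom.ker_isPrime ψ, hkb⟩
  have hab : ∃ al be : 𝓞 E, ¬ (ψ al = 0 ∧ ψ be = 0) ∧ g * (be : E) = (al : E) := by
    obtain ⟨x, d, h | h⟩ := v.exists_primeCompl_mul_eq_or_mul_eq g
    · refine ⟨x, d, fun hh => ?_, h⟩
      exact d.2 hh.2
    · refine ⟨d, x, fun hh => ?_, h⟩
      exact d.2 hh.1
  obtain ⟨al, be, h0, hgab⟩ := hab
  have hn0 : (n : E) ≠ 0 := by
    intro h
    have h1 : n = 0 := by exact_mod_cast h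
    rw [h1] at hn
    exact hn (dvd_zero _)
  have hR : (∏ t ∈ hf p b, aeval (zO ^ ((t⁻¹ : (ZMod p)ˣ) : ZMod p).val) f) * be ^ p =
      (n : 𝓞 E) ^ (hf p b).card * (zO ^ i * al ^ p) := by
    apply RingOfIntegers.coe_injective
    have e1 : tha c b (aeval c.z f / (n : E)) =
        (∏ t ∈ hf p b, aeval (c.z ^ ((t⁻¹ : (ZMod p)ˣ) : ZMod p).val) f) /
          (n : E) ^ (hf p b).card := by
      unfold tha
      rw [← Finset.prod_const, ← Finset.prod_div_distrib]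
      refine Finset.prod_congr rfl fun t _ => ?_
      rw [map_div₀, map_intCast, hsig]
    rw [e1, div_eq_iff (pow_ne_zero _ hn0)] at hrel
    show (algebraMap (𝓞 E) E) _ = (algebraMap (𝓞 E) E) _
    have e2 : (algebraMap (𝓞 E) E) zO = c.z := hz
    simp only [map_mul, map_pow, map_prod, map_intCast, e2, hae c zO hz f]
    rw [hrel]
    have e3 : (algebraMap (𝓞 E) E) al = g * (algebraMap (𝓞 E) E) be := hgab.symm
    rw [e3, mul_pow]
    ring
  have hRF := congrArg ψ hR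
  have hnF : ((n : ℤ) : F) ≠ 0 := by
    rw [Ne, CharP.intCast_eq_zero_iff F q]
    exact hn
  have hψ : ∀ x : 𝓞 E, ψ (aeval x f) = f.eval₂ (Int.castRingHom F) (ψ x) := by
    intro x
    rw [Polynomial.aeval_def, Polynomial.hom_eval₂]
    congr 1
    exact RingHom.ext_int _ _
  simp only [map_mul, map_pow, map_prod, map_intCast, hψ] at hRF
  -- the product is not zero
  have hne : ∏ t ∈ hf p b, f.eval₂ (Int.castRingHom F)
      (ψ zO ^ ((t⁻¹ : (ZMod p)ˣ) : ZMod p).val) ≠ 0 := by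
    refine Finset.prod_ne_zero_iff.2 fun t _ hh => ?_
    have e5 : ψ (rs c t⁻¹ (aeval zO f)) = 0 := by
      rw [rs_aeval c zO hz, hψ, map_pow]
      exact hh
    refine hP (RingHom.ker (ψ.comp (rs c t⁻¹ : 𝓞 E →+* 𝓞 E))) (RingHom.ker_isPrime _) ?_
      (aeval zO f) ?_ ?_
    · rw [RingHom.mem_ker, map_natCast]
      exact CharP.cast_eq_zero F q
    · have e3 := hae c zO hz f 1
      rw [pow_one, pow_one] at e3
      exact e3
    · rw [RingHom.mem_ker]
      exact e5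
  have hNn : (n : F) ^ (hf p b).card ≠ 0 := pow_ne_zero _ hnF
  have hbe : ψ be ≠ 0 := by
    intro h
    rw [h, zero_pow hp0, mul_zero] at hRF
    have h1 : ψ al ^ p = 0 := (mul_eq_zero.1 ((mul_eq_zero.1 hRF.symm).resolve_left hNn)).resolve_left
      (pow_ne_zero _ hw0)
    exact h0 ⟨(pow_eq_zero_iff hp0).1 h1, h⟩
  have hal : ψ al ≠ 0 := by
    intro h
    rw [h, zero_pow hp0, mul_zero, mul_zero] at hRF
    have h1 : ψ be ^ p = 0 := (mul_eq_zero.1 hRF).resolve_left hne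
    exact h0 ⟨h, (pow_eq_zero_iff hp0).1 h1⟩
  refine ⟨ψ al / ψ be, div_ne_zero hal hbe, ?_⟩
  rw [div_pow, ← mul_div_assoc, ← mul_div_assoc, eq_div_iff (pow_ne_zero _ hbe)]
  exact hRF

/-- the comparison of the relations at `q` and at `p` -/
theorem mainRq (hqp : q ≠ p) (hp2 : p ≠ 2) (c : Cyc p E) (b : ℕ) (f f2 : ℤ[X]) (n : ℤ)
    (hn : ¬ (q : ℤ) ∣ n) (k m a a' : ℕ)
    (hff : aeval c.z f = (c.z - 1) ^ k * aeval c.z f2) (hdeg : f.natDegree ≤ m) (ε : ZMod q)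
    (hε : ε * ε = 1)
    (hab : X ^ a' * f.map (Int.castRingHom (ZMod q)) =
      C ε * (X ^ a * (f.reflect m).map (Int.castRingHom (ZMod q))))
    (hP : ∀ P : Ideal (𝓞 E), P.IsPrime → ((q : ℕ) : 𝓞 E) ∈ P →
      ∀ w : 𝓞 E, (w : E) = aeval c.z f → w ∉ P)
    (g : E) (hg : g ≠ 0) (i : ℕ) (hrel : tha c b (aeval c.z f2 / (n : E)) = c.z ^ i * g ^ p) :
    2 * (i : ZMod p) + k * hsa p b 1 = ((m : ZMod p) + a - a') * hsa p b 1 ∨
      p ^ 2 ∣ q ^ (p - 1) - 1 := by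
  have hpp : p.Prime := Fact.out
  have hqq : q.Prime := Fact.out
  have hodd : Odd p := hpp.odd_of_ne_two hp2
  obtain ⟨M, hMp, hqM⟩ := exists_above (K := E) q hqq
  have hM0 : M ≠ ⊥ := by
    rintro rfl
    rw [Ideal.mem_bot, Nat.cast_eq_zero] at hqM
    exact hqq.ne_zero hqM
  have hM : M.IsMaximal := hMp.isMaximal hM0
  let _ : Field (𝓞 E ⧸ M) := Ideal.Quotient.field M
  have hch : CharP (𝓞 E ⧸ M) q := charP_quot M hMp q hqq hqM
  let φ : 𝓞 E →+* (𝓞 E ⧸ M) := Ideal.Quotient.mk M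
  -- the root of unity as an integer
  let zO : 𝓞 E := ⟨c.z, c.prim.isIntegral hpp.pos⟩
  have hzO : (zO : E) = c.z := rfl
  have hzprim : IsPrimitiveRoot zO p :=
    IsPrimitiveRoot.of_map_of_injective (f := algebraMap (𝓞 E) E) c.prim
      (RingOfIntegers.coe_injective)
  obtain ⟨w, hwdef⟩ : ∃ w, w = φ zO := ⟨_, rfl⟩
  have hw : w ^ p = 1 := by rw [hwdef, ← map_pow, hzprim.pow_eq_one, map_one]
  have hw0 : w ≠ 0 := by
    intro h
    rw [h, zero_pow hpp.ne_zero] at hw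
    exact zero_ne_one hw
  have hpF : ((p : ℕ) : 𝓞 E ⧸ M) ≠ 0 := by
    rw [Ne, CharP.cast_eq_zero_iff (𝓞 E ⧸ M) q]
    intro hd
    exact hqp ((Nat.prime_dvd_prime_iff_eq hqq hpp).1 hd)
  have hw1 : w ≠ 1 := by
    intro h
    have h1 := hzprim.geom_sum_eq_zero hpp.one_lt
    have h3 := congrArg φ h1
    rw [map_sum, map_zero] at h3
    have h4 : ∀ j ∈ Finset.range p, φ (zO ^ j) = 1 := by
      intro j _
      rw [map_pow, ← hwdef, h, one_pow]
    rw [Finset.sum_congr rfl h4, Finset.sum_const, Finset.card_range, nsmul_one] at h3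
    exact hpF h3
  -- the Frobenius
  have hF : ∀ x : 𝓞 E ⧸ M, x ^ q ^ (p - 1) = x := by
    intro x
    obtain ⟨y, rfl⟩ := Ideal.Quotient.mk_surjective x
    obtain ⟨f, hf⟩ := c.gen (y : E) y.2
    have h1 : y = Polynomial.aeval zO f := by
      apply RingOfIntegers.coe_injective
      have := Polynomial.aeval_algebraMap_apply E zO f
      exact hf.trans this
    have h3 : ∀ ψ : 𝓞 E →+* (𝓞 E ⧸ M), ψ (Polynomial.aeval zO f) =
        Polynomial.eval₂ (Int.castRingHom _) (ψ zO) f := by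
      intro ψ
      rw [Polynomial.aeval_def, Polynomial.hom_eval₂]
      congr 1
      exact RingHom.ext_int _ _
    have h4 := h3 φ
    have h5 := h3 ((iterateFrobenius (𝓞 E ⧸ M) q (p - 1)).comp φ)
    rw [RingHom.comp_apply, RingHom.comp_apply, iterateFrobenius_def, iterateFrobenius_def] at h5
    have h6 : (φ zO) ^ q ^ (p - 1) = φ zO := by
      have e1 : q ^ (p - 1) % p = 1 := by
        have e2 : ((q ^ (p - 1) : ℕ) : ZMod p) = ((1 : ℕ) : ZMod p) := by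
          push_cast
          refine ZMod.pow_card_sub_one_eq_one ?_
          rw [Ne, ZMod.natCast_eq_zero_iff]
          intro hd
          exact hqp ((Nat.prime_dvd_prime_iff_eq hpp hqq).1 hd).symm
        rw [ZMod.natCast_eq_natCast_iff] at e2
        have e3 : q ^ (p - 1) % p = 1 % p := e2
        rw [e3, Nat.mod_eq_of_lt hpp.one_lt]
      rw [← hwdef, pow_eq_pow_mod _ hw, e1, pow_one]
    rw [h6, ← h4] at h5
    have h7 : Ideal.Quotient.mk M y = φ (Polynomial.aeval zO f) := by rw [← h1]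
    rw [h7]
    exact h5
  -- the values of the two polynomials
  have hffO : ∀ j : ℕ, Nat.Coprime j p → aeval (zO ^ j) f = (zO ^ j - 1) ^ k * aeval (zO ^ j) f2 := by
    intro j hj
    have hu : IsUnit ((j : ℕ) : ZMod p) := by
      rw [ZMod.isUnit_iff_coprime]
      exact hj
    obtain ⟨t, ht⟩ := hu
    have hjt : zO ^ j = zO ^ (t : ZMod p).val := by
      rw [ht, ZMod.val_natCast, ← pow_eq_pow_mod _ hzprim.pow_eq_one]
    have e1 : aeval zO f = (zO - 1) ^ k * aeval zO f2 := by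
      apply RingOfIntegers.coe_injective
      have e3 := hae c zO hzO f 1
      have e4 := hae c zO hzO f2 1
      rw [pow_one, pow_one] at e3 e4
      rw [map_mul, map_pow, map_sub, map_one, e4]
      exact e3.trans hff
    have e2 := congrArg (rs c t) e1
    rw [map_mul, map_pow, map_sub, map_one, rs_aeval c zO hzO, rs_aeval c zO hzO] at e2
    have e5 : rs c t zO = zO ^ (t : ZMod p).val := by
      have := rs_aeval c zO hzO X t
      rwa [aeval_X, aeval_X] at this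
    rw [e5] at e2
    rw [hjt]
    exact e2
  -- `f2` is prime to `q`
  have hP2 : ∀ P : Ideal (𝓞 E), P.IsPrime → ((q : ℕ) : 𝓞 E) ∈ P →
      ∀ w : 𝓞 E, (w : E) = aeval c.z f2 → w ∉ P := by
    intro P hPp hqP u hu huP
    refine hP P hPp hqP ((zO - 1) ^ k * u) ?_ (P.mul_mem_left _ huP)
    have : algebraMap (𝓞 E) E ((zO - 1) ^ k * u) = (c.z - 1) ^ k * aeval c.z f2 := by
      rw [map_mul, map_pow, map_sub, map_one]
      have e1 : algebraMap (𝓞 E) E u = aeval c.z f2 := hu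
      have e2 : algebraMap (𝓞 E) E zO = c.z := hzO
      rw [e1, e2]
    exact this.trans hff.symm
  -- the two relations
  obtain ⟨d1, hd1, hr1⟩ := rel_F (q := q) c b f2 n hn hP2 g i hrel zO hzO φ
  obtain ⟨d2, hd2, hr2⟩ := rel_F (q := q) c b f2 n hn hP2 g i hrel zO hzO
    (φ.comp (rs c (-1) : 𝓞 E →+* 𝓞 E))
  have hw' : (φ.comp (rs c (-1) : 𝓞 E →+* 𝓞 E)) zO = w⁻¹ := by
    have e1 : rs c (-1) zO = zO ^ ((-1 : (ZMod p)ˣ) : ZMod p).val := by
      have := rs_aeval c zO hzO X (-1)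
      rwa [aeval_X, aeval_X] at this
    have e3 : (φ.comp (rs c (-1) : 𝓞 E →+* 𝓞 E)) zO = φ (rs c (-1) zO) := rfl
    rw [e3, e1, map_pow, Units.val_neg, Units.val_one]
    apply eq_inv_of_mul_eq_one_left
    rw [← hwdef, ← pow_succ]
    have e4 : (-1 : ZMod p).val + 1 = p := by
      rw [ZMod.neg_val, if_neg one_ne_zero]
      have : Fact (1 < p) := ⟨hpp.one_lt⟩
      rw [ZMod.val_one]
      have := hpp.one_lt
      omega
    rw [e4, hw]
  rw [hw'] at hr2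
  rw [← hwdef] at hr1
  obtain ⟨SS, hSS⟩ : ∃ SS : ℕ, SS = ∑ t ∈ hf p b, ((t⁻¹ : (ZMod p)ˣ) : ZMod p).val := ⟨_, rfl⟩
  have hSSc : ((SS : ℕ) : ZMod p) = hsa p b 1 := by
    rw [hSS]
    unfold hsa
    push_cast
    refine Finset.sum_congr rfl fun t _ => ?_
    rw [ZMod.natCast_val, ZMod.cast_id', id, pow_one]
  obtain ⟨η, hη⟩ : ∃ η : 𝓞 E ⧸ M, η = ZMod.castHom (dvd_refl q) (𝓞 E ⧸ M) ε * (-1) ^ k := ⟨_, rfl⟩
  have hηη : η * η = 1 := by
    have e1 : ZMod.castHom (dvd_refl q) (𝓞 E ⧸ M) ε * ZMod.castHom (dvd_refl q) (𝓞 E ⧸ M) ε = 1 := by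
      rw [← map_mul, hε, map_one]
    have e2 : ((-1 : 𝓞 E ⧸ M) ^ k) * (-1) ^ k = 1 := by
      rw [← mul_pow, neg_one_mul, neg_neg, one_pow]
    rw [hη]
    linear_combination ((-1 : 𝓞 E ⧸ M) ^ k) * (-1) ^ k * e1 + e2
  have hprod : (w ^ SS) ^ (a' + k) * ((n : 𝓞 E ⧸ M) ^ (hf p b).card * (w ^ i * d1 ^ p)) =
      η ^ (hf p b).card * ((w ^ SS) ^ (a + m) *
        ((n : 𝓞 E ⧸ M) ^ (hf p b).card * ((w⁻¹) ^ i * d2 ^ p))) := by
    rw [← hr1, ← hr2]
    have e0 : w ^ SS = ∏ t ∈ hf p b, w ^ ((t⁻¹ : (ZMod p)ˣ) : ZMod p).val := by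
      rw [hSS, Finset.prod_pow_eq_pow_sum]
    rw [e0, ← Finset.prod_pow, ← Finset.prod_pow, ← Finset.prod_const, ← Finset.prod_mul_distrib,
      ← Finset.prod_mul_distrib, ← Finset.prod_mul_distrib]
    refine Finset.prod_congr rfl fun t _ => ?_
    obtain ⟨j, hj⟩ : ∃ j : ℕ, j = ((t⁻¹ : (ZMod p)ˣ) : ZMod p).val := ⟨_, rfl⟩
    rw [← hj]
    have hjc : Nat.Coprime j p := by
      rw [hj]
      exact ZMod.val_coe_unit_coprime t⁻¹
    obtain ⟨y, hy⟩ : ∃ y, y = w ^ j := ⟨_, rfl⟩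
    have hy0 : y ≠ 0 := by
      rw [hy]
      exact pow_ne_zero _ hw0
    have hy1 : y ≠ 1 := by
      rw [hy]
      intro h
      apply hw1
      have h1 := orderOf_dvd_of_pow_eq_one h
      have h2 := orderOf_dvd_of_pow_eq_one hw
      have h3 : orderOf w ∣ 1 := by
        have := Nat.dvd_gcd h1 h2
        rwa [Nat.Coprime.gcd_eq_one hjc] at this
      exact orderOf_eq_one_iff.1 (Nat.dvd_one.1 h3)
    have hyi1 : y⁻¹ - 1 ≠ 0 := by
      intro h
      apply hy1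
      have : y⁻¹ = 1 := sub_eq_zero.1 h
      rw [← inv_inv y, this, inv_one]
    have e1 := refl_val f m a a' hdeg ε hab y hy0
    have hψ : ∀ (r : ℤ[X]) (x : 𝓞 E), φ (aeval x r) = r.eval₂ (Int.castRingHom _) (φ x) := by
      intro r x
      rw [Polynomial.aeval_def, Polynomial.hom_eval₂]
      congr 1
    have e2 : f.eval₂ (Int.castRingHom _) y = (y - 1) ^ k * f2.eval₂ (Int.castRingHom _) y := by
      have := congrArg φ (hffO j hjc)
      rw [map_mul, map_pow, map_sub, map_one, hψ, hψ, map_pow, ← hwdef, ← hy] at this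
      exact this
    have e3 : f.eval₂ (Int.castRingHom _) y⁻¹ =
        (y⁻¹ - 1) ^ k * f2.eval₂ (Int.castRingHom _) y⁻¹ := by
      have hjc2 : Nat.Coprime (j * (p - 1)) p := by
        refine Nat.Coprime.mul_left hjc ?_
        rw [Nat.coprime_comm, Nat.Prime.coprime_iff_not_dvd hpp]
        intro hd
        have := Nat.le_of_dvd (by have := hpp.one_lt; omega) hd
        have := hpp.pos
        omega
      have := congrArg φ (hffO (j * (p - 1)) hjc2)
      rw [map_mul, map_pow, map_sub, map_one, hψ, hψ, map_pow, ← hwdef] at this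
      have e4 : w ^ (j * (p - 1)) = y⁻¹ := by
        apply eq_inv_of_mul_eq_one_left
        rw [hy, ← pow_add]
        have e5 : j * (p - 1) + j = p * j := by
          obtain ⟨u, hu⟩ : ∃ u, p = u + 1 := ⟨p - 1, by have := hpp.pos; omega⟩
          rw [hu]
          rw [Nat.add_sub_cancel]
          ring
        rw [e5, pow_mul, hw, one_pow]
      rw [e4] at this
      exact this
    rw [e2, e3] at e1
    have e6 : (y - 1) ^ k = (-1) ^ k * y ^ k * (y⁻¹ - 1) ^ k := by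
      rw [← mul_pow, ← mul_pow]
      congr 1
      field_simp
      ring
    rw [e6] at e1
    have e7 : (y⁻¹ - 1) ^ k ≠ 0 := pow_ne_zero _ hyi1
    have e8 : ((-1 : 𝓞 E ⧸ M) ^ k) * (-1) ^ k = 1 := by
      rw [← mul_pow, neg_one_mul, neg_neg, one_pow]
    have e9 : y ^ (a' + k) * f2.eval₂ (Int.castRingHom _) y =
        η * (y ^ (a + m) * f2.eval₂ (Int.castRingHom _) y⁻¹) := by
      apply mul_left_cancel₀ e7
      rw [hη, pow_add]
      linear_combination ((-1) ^ k) * e1 -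
        (y⁻¹ - 1) ^ k * y ^ a' * y ^ k * f2.eval₂ (Int.castRingHom _) y * e8
    rw [inv_pow, ← hy]
    exact e9
  -- the exponent
  obtain ⟨e, he⟩ : ∃ e : ℕ, e =
    (((m : ZMod p) + a - a' - k) * hsa p b 1 - 2 * i).val := ⟨_, rfl⟩
  have hec : ((e : ℕ) : ZMod p) = ((m : ZMod p) + a - a' - k) * hsa p b 1 - 2 * i := by
    rw [he, ZMod.natCast_val, ZMod.cast_id', id]
  have hmod : w ^ e * ((w ^ SS) ^ (a' + k) * w ^ (2 * i)) = (w ^ SS) ^ (a + m) := by
    rw [← pow_mul, ← pow_mul, ← pow_add, ← pow_add]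
    rw [pow_eq_pow_mod _ hw, pow_eq_pow_mod (SS * (a + m)) hw]
    congr 1
    have e1 : ((e + (SS * (a' + k) + 2 * i) : ℕ) : ZMod p) = ((SS * (a + m) : ℕ) : ZMod p) := by
      push_cast
      rw [hec, hSSc]
      ring
    rw [ZMod.natCast_eq_natCast_iff] at e1
    exact e1
  have hnF : ((n : ℤ) : 𝓞 E ⧸ M) ≠ 0 := by
    rw [Ne, CharP.intCast_eq_zero_iff (𝓞 E ⧸ M) q]
    exact hn
  have hNn : (n : 𝓞 E ⧸ M) ^ (hf p b).card ≠ 0 := pow_ne_zero _ hnF
  obtain ⟨h, hh⟩ : ∃ h : ℕ, h = (hf p b).card := ⟨_, rfl⟩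
  rw [← hh] at hprod hNn
  have hηh : η ^ h * η ^ h = 1 := by rw [← mul_pow, hηη, one_pow]
  have hηp : (η ^ h) ^ p = η ^ h := by
    obtain ⟨u, hu⟩ := hodd
    rw [hu, pow_succ, pow_mul, pow_two, hηh, one_pow, one_mul]
  have hkey : w ^ e = (η ^ h * (d1 / d2)) ^ p := by
    rw [mul_pow, hηp, div_pow]
    have hA : (w ^ SS) ^ (a' + k) * w ^ (2 * i) ≠ 0 :=
      mul_ne_zero (pow_ne_zero _ (pow_ne_zero _ hw0)) (pow_ne_zero _ hw0)
    have hd2p : d2 ^ p ≠ 0 := pow_ne_zero _ hd2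
    have hwi : w ^ i * (w⁻¹) ^ i = 1 := by
      rw [← mul_pow, mul_inv_cancel₀ hw0, one_pow]
    have h1 : ((w ^ SS) ^ (a' + k) * w ^ (2 * i)) * d1 ^ p =
        η ^ h * (w ^ e * ((w ^ SS) ^ (a' + k) * w ^ (2 * i))) * d2 ^ p := by
      rw [hmod]
      apply mul_left_cancel₀ hNn
      have e2 : w ^ (2 * i) = w ^ i * w ^ i := by rw [two_mul, pow_add]
      rw [e2]
      linear_combination w ^ i * hprod + η ^ h * (w ^ SS) ^ (a + m) * (n : 𝓞 E ⧸ M) ^ h * d2 ^ p * hwi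
    have h2 : ((w ^ SS) ^ (a' + k) * w ^ (2 * i)) * (w ^ e * d2 ^ p) =
        ((w ^ SS) ^ (a' + k) * w ^ (2 * i)) * (η ^ h * d1 ^ p) := by
      linear_combination -(η ^ h) * h1 -
        (w ^ e * ((w ^ SS) ^ (a' + k) * w ^ (2 * i))) * d2 ^ p * hηh
    have h3 := mul_left_cancel₀ hA h2
    rw [← mul_div_assoc, eq_div_iff hd2p]
    exact h3
  rcases pth hw hw1 (pow_pos hqq.pos (p - 1)) hF e
    (mul_ne_zero (pow_ne_zero _ (by
      intro h0
      rw [h0, zero_mul] at hηη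
      exact zero_ne_one hηη)) (div_ne_zero hd1 hd2)) hkey with h1 | h1
  · left
    have h2 : ((e : ℕ) : ZMod p) = 0 := (ZMod.natCast_eq_zero_iff _ _).2 h1
    rw [hec] at h2
    linear_combination -h2
  · exact Or.inr h1

end

end Pool.Agent.U549.FW
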