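import Pool.Agent.U549.FW.Cor

/-!
# Two auxiliary primes, three pairs, a single place with equal valuations
-/

set_option autoImplicit false

namespace Pool.Agent.U549.FW

open NumberField IsDedekindDomain Polynomial Pool.Agent.Y546.WQ Pool.Agent.N840.FC
  Pool.Agent.U549.LF

section

variable {K : Type} [Field K] [NumberField K]

theorem nat_eq {F : Type*} [Field F] (p : ℕ) [CharP F p] {u v : ℕ} (h : (u : F) = (v : F))
    (hu : u < p) (hv : v < p) : u = v := by
  rw [CharP.natCast_eq_natCast F p] at h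
  have h4 : u % p = v % p := h
  rwa [Nat.mod_eq_of_lt hu, Nat.mod_eq_of_lt hv] at h4

theorem main_two {p : ℕ} (hp : p.Prime) {a b c : K} (ha : a ≠ 0) (hb : b ≠ 0) (hc : c ≠ 0)
    (h : a ^ p + b ^ p + c ^ p = 0) (hm3 : Module.finrank ℚ K + 3 ≤ p)
    (h2m : 2 * Module.finrank ℚ K < p) {q r : ℕ} (hq : q.Prime)
    (hqp : q ≠ p) (hW : ¬ p ^ 2 ∣ q ^ (p - 1) - 1) (hgood : Good p q a b c) (hr : r.Prime)
    (hrp : r ≠ p) (hWr : ¬ p ^ 2 ∣ r ^ (p - 1) - 1) (hgoodr : Good p r a b c) :
    share q a b c + share r b c a = share q b c a + share r a b c := by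
  classical
  have hfp : Fact p.Prime := ⟨hp⟩
  have hfq : Fact q.Prime := ⟨hq⟩
  have hfr : Fact r.Prime := ⟨hr⟩
  have hm := Module.finrank_pos (R := ℚ) (M := K)
  have hp4 : p ≠ 4 := by
    rintro rfl
    norm_num at hp
  have hp5 : 5 ≤ p := by omega
  have hp2 : p ≠ 2 := by omega
  have hp0 : p ≠ 0 := hp.ne_zero
  obtain ⟨E, _, _, ⟨cE⟩⟩ := Y978.WQ.main p hp2
  obtain ⟨N, _, _, _, hG, hcard, hdvf⟩ := Y258.WQ.exists_field E K
  obtain ⟨α, hα, X, Y, Z, hXa, hYa, hZa, hX0, hY0, hZ0, hcp⟩ := prepM (p * (q * r))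
    (mul_ne_zero hp.ne_zero (mul_ne_zero hq.ne_zero hr.ne_zero)) ha hb hc p hp
    (dvd_mul_right p (q * r))
  have hXYZ : X ^ p + Y ^ p + Z ^ p = 0 := by
    apply RingOfIntegers.coe_injective
    rw [map_zero, map_add, map_add, map_pow, map_pow, map_pow, hXa, hYa, hZa, mul_pow, mul_pow,
      mul_pow]
    linear_combination α ^ p * h
  have hcpp : ∀ P : Ideal (𝓞 K), P.IsPrime → ((p : ℕ) : 𝓞 K) ∈ P → ¬ (X ∈ P ∧ Y ∈ P ∧ Z ∈ P) := by
    intro P hP hpP
    refine hcp P hP ?_
    rw [Nat.cast_mul]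
    exact P.mul_mem_right _ hpP
  have hcq : ∀ P : Ideal (𝓞 K), P.IsPrime → ((q : ℕ) : 𝓞 K) ∈ P → ¬ (X ∈ P ∧ Y ∈ P ∧ Z ∈ P) := by
    intro P hP hpP
    refine hcp P hP ?_
    rw [Nat.cast_mul, Nat.cast_mul]
    exact P.mul_mem_left _ (P.mul_mem_right _ hpP)
  have hcr : ∀ P : Ideal (𝓞 K), P.IsPrime → ((r : ℕ) : 𝓞 K) ∈ P → ¬ (X ∈ P ∧ Y ∈ P ∧ Z ∈ P) := by
    intro P hP hpP
    refine hcp P hP ?_
    rw [Nat.cast_mul, Nat.cast_mul]
    exact P.mul_mem_left _ (P.mul_mem_left _ hpP)
  have hs : Mix p K X Y Z := ⟨hX0, hY0, hZ0, hXYZ, hcpp⟩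
  obtain ⟨Q, hQ, hQp⟩ := exists_above (K := N) p hp
  obtain ⟨R, hR, hRq⟩ := exists_above (K := N) q hq
  obtain ⟨S, hS, hSr⟩ := exists_above (K := N) r hr
  have hQ0 : Q ≠ ⊥ := by
    rintro rfl
    rw [Ideal.mem_bot, Nat.cast_eq_zero] at hQp
    exact hp.ne_zero hQp
  have hQm : Q.IsMaximal := hQ.isMaximal hQ0
  let _ : Field (𝓞 N ⧸ Q) := Ideal.Quotient.field Q
  have hch : CharP (𝓞 N ⧸ Q) p := charP_quot Q hQ p hp hQp
  let ψ : 𝓞 N →+* (𝓞 N ⧸ Q) := Ideal.Quotient.mk Q
  have hψ : ∀ w : 𝓞 N, ψ w = 0 ↔ w ∈ Q := fun w => Ideal.Quotient.eq_zero_iff_mem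
  have h1 := core_K hcard hdvf hp2 cE hm3 Q hQ hQp ψ hψ hqp hW R hR hRq hα hXa hYa hZa hs hcq
    hgood
  have h2 := core_K hcard hdvf hp2 cE hm3 Q hQ hQp ψ hψ hrp hWr S hS hSr hα hXa hYa hZa hs hcr
    hgoodr
  have kq := part_K (K := K) hq hp0 ha hb hc h
  have kr := part_K (K := K) hr hp0 ha hb hc h
  have h3 : ((share q a b c + share r b c a : ℕ) : 𝓞 N ⧸ Q) =
      ((share q b c a + share r a b c : ℕ) : 𝓞 N ⧸ Q) := by
    push_cast
    linear_combination h2 - h1
  exact nat_eq p h3 (by omega) (by omega)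

theorem even_rot (l : ℕ) (a b c : K) : evenShare l b c a = evenShare l a b c := by
  unfold evenShare
  congr 1
  ext v
  unfold EqualAt
  constructor
  · rintro ⟨h1, h2⟩
    exact ⟨(h1.trans h2).symm, h1⟩
  · rintro ⟨h1, h2⟩
    exact ⟨h2, (h1.trans h2).symm⟩

/-- all places above `l` divide the first element -/
def Full (l : ℕ) (a b c : K) : Prop :=
  ∀ v : HeightOneSpectrum (𝓞 K), ((l : ℕ) : 𝓞 K) ∈ v.asIdeal →
    (v.valuation K a < v.valuation K b ∧ v.valuation K a < v.valuation K c)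

/-- if all places above `q` divide the first element then `q` is good for the two pairs which
contain it -/
theorem full_good {p q : ℕ} {a b c : K} (hdiv : Full q a b c) : Good p q a b c := by
  intro v hv
  refine ⟨fun h1 => absurd h1 (lt_asymm (hdiv v hv).2), fun h1 => ?_⟩
  have h2 := (hdiv v hv).1
  rw [h1.1] at h2
  exact absurd h2 (lt_irrefl _)

theorem val_lt {p : ℕ} (hp0 : p ≠ 0) {a b c : K} (h : a ^ p + b ^ p + c ^ p = 0)
    (v : HeightOneSpectrum (𝓞 K)) (h1 : v.valuation K a < v.valuation K c)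
    (h2 : v.valuation K b < v.valuation K c) : False := by
  have h3 : c ^ p = -(a ^ p + b ^ p) := by linear_combination h
  have h4 := congrArg (v.valuation K) h3
  rw [Valuation.map_neg, map_pow] at h4
  have h5 := Valuation.map_add (v.valuation K) (a ^ p) (b ^ p)
  rw [← h4, map_pow, map_pow] at h5
  have h6 : v.valuation K a ^ p < v.valuation K c ^ p := pow_lt_pow_left₀ h1 zero_le hp0
  have h7 : v.valuation K b ^ p < v.valuation K c ^ p := pow_lt_pow_left₀ h2 zero_le hp0
  exact absurd h5 (not_le.2 (max_lt h6 h7))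

theorem full_good2 {p q : ℕ} (hp0 : p ≠ 0) {a b c : K} (h : a ^ p + b ^ p + c ^ p = 0)
    (hdiv : Full q a b c) : Good p q c a b := by
  intro v hv
  refine ⟨fun h1 => ?_, fun h1 => ?_⟩
  · exact (val_lt hp0 h v (hdiv v hv).2 h1).elim
  · have h2 := (hdiv v hv).2
    rw [h1.1] at h2
    exact absurd h2 (lt_irrefl _)

theorem full_good3 {p q : ℕ} (hp0 : p ≠ 0) {a b c : K} (h : a ^ p + b ^ p + c ^ p = 0)
    (hdiv : Full q b c a) : Good p q a b c :=
  full_good2 hp0 (by linear_combination h) hdiv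

/-- the consequences for two auxiliary primes -/
theorem full_two {p : ℕ} (hp : p.Prime) {a b c : K} (ha : a ≠ 0) (hb : b ≠ 0) (hc : c ≠ 0)
    (h : a ^ p + b ^ p + c ^ p = 0) (hm3 : Module.finrank ℚ K + 3 ≤ p)
    (h2m : 2 * Module.finrank ℚ K < p) {q r : ℕ} (hq : q.Prime)
    (hqp : q ≠ p) (hW : ¬ p ^ 2 ∣ q ^ (p - 1) - 1) (hdiv : Full q a b c) (hr : r.Prime)
    (hrp : r ≠ p) (hWr : ¬ p ^ 2 ∣ r ^ (p - 1) - 1) :
    (Good p r a b c → Full r a b c) ∧ ¬ Full r b c a ∧ ¬ Full r c a b := by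
  have hp0 := hp.ne_zero
  have hm := Module.finrank_pos (R := ℚ) (M := K)
  have k1 := (full_iff hq hp0 ha hb hc h).2 hdiv
  have kq := part_K (K := K) hq hp0 ha hb hc h
  have kr := part_K (K := K) hr hp0 ha hb hc h
  refine ⟨fun hg => ?_, fun hF => ?_, fun hF => ?_⟩
  · have h1 := main_two hp ha hb hc h hm3 h2m hq hqp hW (full_good hdiv) hr hrp hWr hg
    apply (full_iff hr hp0 ha hb hc h).1
    omega
  · have h1 := main_two hp ha hb hc h hm3 h2m hq hqp hW (full_good hdiv) hr hrp hWr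
      (full_good3 hp0 h hF)
    have k2 := (full_iff hr hp0 hb hc ha (by linear_combination h)).2 hF
    omega
  · have h' : c ^ p + a ^ p + b ^ p = 0 := by linear_combination h
    have h1 := main_two hp hc ha hb h' hm3 h2m hq hqp hW (full_good2 hp0 h hdiv) hr hrp hWr
      (full_good hF)
    have k2 := (full_iff hr hp0 hc ha hb h').2 hF
    omega

/-- all three pairs -/
theorem three {p : ℕ} (hp : p.Prime) {a b c : K} (ha : a ≠ 0) (hb : b ≠ 0) (hc : c ≠ 0)
    (h : a ^ p + b ^ p + c ^ p = 0) (t : ℕ)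
    (ht : t = Module.finrank ℚ K ∨ evenShare p a b c ≤ t)
    (hreg : BernS p (Module.finrank ℚ K) t) (h2m : 2 * Module.finrank ℚ K < p) {q : ℕ}
    (hq : q.Prime) (hqp : q ≠ p) (hW : ¬ p ^ 2 ∣ q ^ (p - 1) - 1) (g1 : Good p q a b c)
    (g2 : Good p q b c a) :
    3 * share q a b c + evenShare q a b c = 3 * share p a b c + evenShare p a b c ∧
    3 * share q b c a + evenShare q a b c = 3 * share p b c a + evenShare p a b c ∧
    3 * share q c a b + evenShare q a b c = 3 * share p c a b + evenShare p a b c := by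
  have hp0 := hp.ne_zero
  have h1 := (main_pair hp ha hb hc h hreg.le hq hqp hW g1).2 t ht hreg h2m
  have h2 := (main_pair hp hb hc ha (by linear_combination h) hreg.le hq hqp hW g2).2 t (by
    rw [even_rot]
    exact ht) hreg h2m
  have k1 := part_K (K := K) hp hp0 ha hb hc h
  have k2 := part_K (K := K) hq hp0 ha hb hc h
  refine ⟨?_, ?_, ?_⟩ <;> omega

/-- the case of a single place with equal valuations -/
theorem single {p : ℕ} (hp : p.Prime) {a b c : K} (ha : a ≠ 0) (hb : b ≠ 0) (hc : c ≠ 0)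
    (h : a ^ p + b ^ p + c ^ p = 0) (hm3 : Module.finrank ℚ K + 3 ≤ p) {q : ℕ} (hq : q.Prime)
    (hqp : q ≠ p) (hW : ¬ p ^ 2 ∣ q ^ (p - 1) - 1) (g1 : Good p q a b c) (g2 : Good p q b c a)
    (g3 : Good p q c a b) (hs : evenShare p a b c = 1) :
    (((share q a b c + share p b c a) % p = (share q b c a + share p a b c) % p ∧
      (share q b c a + share p c a b) % p = (share q c a b + share p b c a + 3) % p) ∨
    ((share q b c a + share p c a b) % p = (share q c a b + share p b c a) % p ∧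
      (share q c a b + share p a b c) % p = (share q a b c + share p c a b + 3) % p) ∨
    ((share q c a b + share p a b c) % p = (share q a b c + share p c a b) % p ∧
      (share q a b c + share p b c a) % p = (share q b c a + share p a b c + 3) % p)) := by
  classical
  obtain ⟨F, _, hch, ι, _, x, y, z, hcard, hne, r1, r2, r3⟩ := main_pack hp ha hb hc h hm3 hq hqp
    hW
  have r1 := r1 g1
  have r2 := r2 g2
  have r3 := r3 g3
  rw [hs] at hcard
  obtain ⟨i, hi⟩ := Fintype.card_eq_one_iff.1 hcard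
  have hu : (Finset.univ : Finset ι) = {i} := by
    ext j
    simp [hi j]
  rw [hu, Finset.sum_singleton] at r1 r2 r3
  obtain ⟨hx, hy, hz, hsum⟩ := hne i
  obtain ⟨A, hA⟩ : ∃ A : F, A = (x i - y i) / z i := ⟨_, rfl⟩
  obtain ⟨B, hB⟩ : ∃ B : F, B = (y i - z i) / x i := ⟨_, rfl⟩
  obtain ⟨C', hC⟩ : ∃ C' : F, C' = (z i - x i) / y i := ⟨_, rfl⟩
  rw [← hA] at r1
  rw [← hB] at r2
  rw [← hC] at r3
  rw [eq_div_iff hz] at hA
  rw [eq_div_iff hx] at hB
  rw [eq_div_iff hy] at hC
  have h0 : A + B + C' = 0 := by linear_combination r1 + r2 + r3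
  have hprod : (x i - y i) * ((y i - z i) * (z i - x i)) = 0 := by
    have e1 : (A + B + C') * (x i * y i * z i) =
        -((x i - y i) * ((y i - z i) * (z i - x i))) := by
      linear_combination (x i * y i) * hA + (y i * z i) * hB + (x i * z i) * hC
    rw [h0, zero_mul] at e1
    exact neg_eq_zero.1 e1.symm
  have cast : ∀ u v : ℕ, (u : F) = (v : F) → u % p = v % p := by
    intro u v huv
    rw [CharP.natCast_eq_natCast F p] at huv
    exact huv
  rcases mul_eq_zero.1 hprod with e | e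
  · left
    have hA0 : A = 0 := by
      rw [e] at hA
      exact (mul_eq_zero.1 hA).resolve_right hz
    have hB3 : B = 3 := by
      apply mul_right_cancel₀ hx
      linear_combination hB - hsum - 2 * e
    constructor
    · apply cast
      push_cast
      rw [hA0] at r1
      linear_combination -r1
    · apply cast
      push_cast
      rw [hB3] at r2
      linear_combination -r2
  · rcases mul_eq_zero.1 e with e | e
    · right; left
      have hB0 : B = 0 := by
        rw [e] at hB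
        exact (mul_eq_zero.1 hB).resolve_right hx
      have hC3 : C' = 3 := by
        apply mul_right_cancel₀ hy
        linear_combination hC - hsum - 2 * e
      constructor
      · apply cast
        push_cast
        rw [hB0] at r2
        linear_combination -r2
      · apply cast
        push_cast
        rw [hC3] at r3
        linear_combination -r3
    · right; right
      have hC0 : C' = 0 := by
        rw [e] at hC
        exact (mul_eq_zero.1 hC).resolve_right hy
      have hA3 : A = 3 := by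
        apply mul_right_cancel₀ hz
        linear_combination hA - hsum - 2 * e
      constructor
      · apply cast
        push_cast
        rw [hC0] at r3
        linear_combination -r3
      · apply cast
        push_cast
        rw [hA3] at r1
        linear_combination -r1

theorem single' {p : ℕ} (hp : p.Prime) {a b c : K} (ha : a ≠ 0) (hb : b ≠ 0) (hc : c ≠ 0)
    (h : a ^ p + b ^ p + c ^ p = 0) (hm3 : Module.finrank ℚ K + 3 ≤ p)
    (h2m : 2 * Module.finrank ℚ K + 3 ≤ p) {q : ℕ} (hq : q.Prime)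
    (hqp : q ≠ p) (hW : ¬ p ^ 2 ∣ q ^ (p - 1) - 1) (g1 : Good p q a b c) (g2 : Good p q b c a)
    (g3 : Good p q c a b) (hs : evenShare p a b c = 1) :
    evenShare q a b c % 3 = 1 ∧ evenShare q a b c + 8 ≤ 3 * Module.finrank ℚ K := by
  have hp0 := hp.ne_zero
  have k1 := part_K (K := K) hp hp0 ha hb hc h
  have k2 := part_K (K := K) hq hp0 ha hb hc h
  rcases single hp ha hb hc h hm3 hq hqp hW g1 g2 g3 hs with ⟨h1, h2⟩ | ⟨h1, h2⟩ | ⟨h1, h2⟩
  all_goals
    rw [Nat.mod_eq_of_lt (by omega), Nat.mod_eq_of_lt (by omega)] at h1 h2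
    constructor <;> omega

end

end Pool.Agent.U549.FW
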